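import Pool.Agent.helper358_ms.Struct

/-! # The regions, given the uniqueness property -/

set_option autoImplicit false

namespace Pool.Agent.helper358_ms

open Complex Metric Set Filter Topology PowerSeries

noncomputable section

/-- the quantitative uniqueness property of the two-point functions -/
def UP (p : ℝ) (n : ℕ) (c : ℂ) : Prop := ∃ κ : ℝ, 0 < κ ∧ ∀ (x : ℂ) (ω E Ex : ℂ → ℂ), ‖x‖ = 1 →
  Sch ω → ω 0 ≠ x → ClassE c E → RelW c ω E → ClassE c Ex → RelW c (fun _ => x) Ex →
  κ * ‖x - ω 0‖ ≤ ‖Lam p n (tc E) - Lam p n (tc Ex)‖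

/-- the map parametrising the region -/
def Gl (p : ℝ) (n : ℕ) (c x : ℂ) : ℂ := Lam p n (ek c x)

theorem Gl_cont (p : ℝ) (n : ℕ) : Continuous fun q : ℂ × ℂ => Gl p n q.1 q.2 := by
  unfold Gl Lam
  apply continuous_finsetSum
  intro k _
  exact continuous_const.mul (ek_cont k)

theorem Gl_diff (p : ℝ) (n : ℕ) (c : ℂ) : Differentiable ℂ (Gl p n c) := by
  unfold Gl Lam
  apply Differentiable.fun_sum
  intro k _
  exact (differentiable_const _).mul (ek_diff c k)

theorem seq_unique {c : ℂ} {A e e' : ℕ → ℂ} (he0 : e 0 = 1) (he0' : e' 0 = 1)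
    (h : PowerSeries.derivative ℂ (PowerSeries.mk e) *
      (1 - C c * X + X * PowerSeries.mk A * (C ((starRingEnd ℂ) c) - X))
      = -2 * (C c + X * PowerSeries.mk A) * PowerSeries.mk e)
    (h' : PowerSeries.derivative ℂ (PowerSeries.mk e') *
      (1 - C c * X + X * PowerSeries.mk A * (C ((starRingEnd ℂ) c) - X))
      = -2 * (C c + X * PowerSeries.mk A) * PowerSeries.mk e') (k : ℕ) : e k = e' k := by
  induction k using Nat.strong_induction_on with
  | _ k ih =>
    rcases k with _ | k
    · rw [he0, he0']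
    · have hk : ((k : ℂ) + 1) ≠ 0 := by exact_mod_cast k.succ_ne_zero
      have h1 := rec_coef h k
      have h2 := rec_coef h' k
      have e1 : ∀ q ∈ Finset.HasAntidiagonal.antidiagonal (k - 1), 1 ≤ k →
          A q.1 * ((starRingEnd ℂ) c * (((q.2 : ℂ) + 1) * e (q.2 + 1)) - (q.2 : ℂ) * e q.2)
          = A q.1 * ((starRingEnd ℂ) c * (((q.2 : ℂ) + 1) * e' (q.2 + 1)) - (q.2 : ℂ) * e' q.2) := by
        intro q hq hk1
        have hq' := Finset.HasAntidiagonal.mem_antidiagonal.1 hq
        rw [ih (q.2 + 1) (by omega), ih q.2 (by omega)]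
      have e2 : ∀ q ∈ Finset.HasAntidiagonal.antidiagonal (k - 1), 1 ≤ k →
          A q.1 * e q.2 = A q.1 * e' q.2 := by
        intro q hq hk1
        have hq' := Finset.HasAntidiagonal.mem_antidiagonal.1 hq
        rw [ih q.2 (by omega)]
      apply mul_left_cancel₀ hk
      rw [h1, h2, ih k (by omega)]
      by_cases hk1 : 1 ≤ k
      · rw [if_pos hk1, if_pos hk1, if_pos hk1, if_pos hk1,
          Finset.sum_congr rfl (fun q hq => e1 q hq hk1), Finset.sum_congr rfl (fun q hq => e2 q hq hk1)]
      · rw [if_neg hk1, if_neg hk1, if_neg hk1, if_neg hk1]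

theorem tc_scale (f : ℂ → ℂ) (r : ℂ) (k : ℕ) : tc (fun z => f (r * z)) k = tc f k * r ^ k := by
  have h : ∀ k, iteratedDeriv k (fun z => f (r * z)) = fun z => r ^ k * iteratedDeriv k f (r * z) := by
    intro k
    induction k with
    | zero => funext z; simp
    | succ k ih =>
      rw [iteratedDeriv_succ, ih]
      funext z
      have h1 : deriv (fun z => r ^ k * iteratedDeriv k f (r * z)) z
          = r ^ k * deriv (fun z => iteratedDeriv k f (r * z)) z := by
        rw [deriv_const_mul_field]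
      rw [h1, deriv_comp_mul_left r (iteratedDeriv k f) z, iteratedDeriv_succ, smul_eq_mul]
      ring
  unfold tc
  rw [h]
  simp
  ring

theorem Sch.scale {ω : ℂ → ℂ} (h : Sch ω) {r : ℝ} (h0 : 0 ≤ r) (h1 : r ≤ 1) :
    Sch fun z => ω ((r : ℂ) * z) := by
  have hmem : ∀ z ∈ ball (0 : ℂ) 1, (r : ℂ) * z ∈ ball (0 : ℂ) 1 := by
    intro z hz
    rw [mem_ball_zero_iff] at hz ⊢
    rw [norm_mul, Complex.norm_of_nonneg h0]
    nlinarith [norm_nonneg z]
  refine ⟨?_, fun z hz => h.le _ (hmem z hz)⟩
  exact h.holo.comp (differentiableOn_id.const_mul (r : ℂ)) hmem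

/-- every value of the functional on the class is attained by a function with constant `ω` -/
theorem image_eq {p : ℝ} {n : ℕ} {c : ℂ} (hc : ‖c‖ < 1) (hU : UP p n c) {E : ℂ → ℂ}
    (hE : ClassE c E) : ∃ x : ℂ, ‖x‖ ≤ 1 ∧ Lam p n (tc E) = Gl p n c x := by
  obtain ⟨ω, hω, hr⟩ := hE.exists_omega hc
  have hω0 : ‖ω 0‖ ≤ 1 := hω.le 0 mem0
  rcases hω0.lt_or_eq with h1 | h1
  · obtain ⟨rr, hrr⟩ : ∃ rr : ℝ → ℝ, rr = fun t => max 0 (min 1 t) := ⟨_, rfl⟩
    have hr0 : ∀ t, 0 ≤ rr t := fun t => by rw [hrr]; exact le_max_left _ _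
    have hr1 : ∀ t, rr t ≤ 1 := fun t => by
      rw [hrr]; exact max_le zero_le_one (min_le_left _ _)
    have hrc : Continuous rr := by rw [hrr]; fun_prop
    have hS : ∀ t, Sch fun z => ω ((rr t : ℂ) * z) := fun t => hω.scale (hr0 t) (hr1 t)
    have hex : ∀ t, ∃ Et, ClassE c Et ∧ RelW c (fun z => ω ((rr t : ℂ) * z)) Et := fun t =>
      (hS t).exists_E_omega hc
    choose Et hEt hrt using hex
    have hode := fun t => formal_ode (hS t).holo (hEt t).holo (hrt t)
    have hcont := fun k => cont_seq (c := c) (fun t => tc (fun z => ω ((rr t : ℂ) * z))) (fun t => tc (Et t))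
      (fun i => by
        simp only [tc_scale]
        exact continuous_const.mul ((Complex.continuous_ofReal.comp hrc).pow i))
      (fun t => by rw [tc_zero, (hEt t).zero]) hode k
    obtain ⟨F, hF⟩ : ∃ F : ℝ → ℂ → ℂ, F = fun t x => Gl p n c x - Lam p n (tc (Et t)) := ⟨_, rfl⟩
    have hFc : Continuous (Function.uncurry F) := by
      rw [hF]
      have h2 : Continuous fun q : ℝ × ℂ => Gl p n c q.2 :=
        (Gl_cont p n).comp (continuous_const.prodMk continuous_snd)
      have h3 : Continuous fun t : ℝ => Lam p n (tc (Et t)) := by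
        unfold Lam
        apply continuous_finsetSum
        intro k _
        exact continuous_const.mul (hcont k)
      exact h2.sub (h3.comp continuous_fst)
    have hFd : ∀ t, Differentiable ℂ (F t) := by
      intro t
      rw [hF]
      exact (Gl_diff p n c).sub_const _
    obtain ⟨κ, hκ, hUU⟩ := hU
    have hne : ∀ t ∈ Icc (0 : ℝ) 1, ∀ x : ℂ, ‖x‖ = 1 → F t x ≠ 0 := by
      intro t _ x hx h
      obtain ⟨Ex, hEx, hrx⟩ := (Sch.const hx.le).exists_E_omega hc
      have hne0 : ω ((rr t : ℂ) * 0) ≠ x := by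
        rw [mul_zero]
        intro h4
        rw [h4, hx] at h1
        exact lt_irrefl _ h1
      have h5 := hUU x _ (Et t) Ex hx (hS t) hne0 (hEt t) (hrt t) hEx hrx
      have h6 : Lam p n (tc Ex) = Gl p n c x := by
        unfold Gl
        congr 1
        funext k
        exact tc_eq_ek hEx.holo hEx.zero hrx k
      rw [hF] at h
      simp only at h
      rw [h6, norm_sub_rev (Lam p n (tc (Et t))), h, norm_zero] at h5
      have h7 : 0 < ‖x - ω ((rr t : ℂ) * 0)‖ := norm_pos_iff.2 (sub_ne_zero.2 hne0.symm)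
      nlinarith
    have h0 : ∃ x : ℂ, ‖x‖ ≤ 1 ∧ F 0 x = 0 := by
      refine ⟨ω 0, hω0, ?_⟩
      have hr00 : rr 0 = 0 := by rw [hrr]; simp
      have h8 : RelW c (fun _ => ω 0) (Et 0) := by
        have := hrt 0
        rw [hr00] at this
        simpa using this
      have h9 : Lam p n (tc (Et 0)) = Gl p n c (ω 0) := by
        unfold Gl
        congr 1
        funext k
        exact tc_eq_ek (hEt 0).holo (hEt 0).zero h8 k
      rw [hF]
      simp only
      rw [h9, sub_self]
    obtain ⟨x, hx, hx2⟩ := zero_homotopy hFc hFd hne h0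
    refine ⟨x, hx, ?_⟩
    have hr11 : rr 1 = 1 := by rw [hrr]; simp
    have h10 : RelW c ω (Et 1) := by
      have := hrt 1
      rw [hr11] at this
      simpa using this
    have h11 : ∀ k, tc (Et 1) k = tc E k :=
      seq_unique (A := tc ω) (by rw [tc_zero, (hEt 1).zero]) (by rw [tc_zero, hE.zero])
        (formal_ode hω.holo (hEt 1).holo h10) (formal_ode hω.holo hE.holo hr)
    rw [hF] at hx2
    have h12 := sub_eq_zero.1 hx2
    rw [h12]
    congr 1
    funext k
    exact (h11 k).symm
  · have hcst := hω.eq_const h1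
    have hr' : RelW c (fun _ => ω 0) E := by
      intro z hz
      have := hr z hz
      unfold Nw at this ⊢
      rw [hcst z hz] at this
      exact this
    refine ⟨ω 0, hω0, ?_⟩
    unfold Gl
    congr 1
    funext k
    exact tc_eq_ek hE.holo hE.zero hr' k

/-- the set of values of the functional -/
theorem values_eq {p : ℝ} {n : ℕ} {c : ℂ} (hc : ‖c‖ < 1) (hU : UP p n c) :
    {a | ∃ E, ClassE c E ∧ a = Lam p n (tc E)} = Gl p n c '' closedBall 0 1 := by
  ext a
  constructor
  · rintro ⟨E, hE, rfl⟩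
    obtain ⟨x, hx, h⟩ := image_eq hc hU hE
    exact ⟨x, by simpa using hx, h.symm⟩
  · rintro ⟨x, hx, rfl⟩
    have hx' : ‖x‖ ≤ 1 := by simpa using hx
    obtain ⟨Ex, hEx, hrx⟩ := (Sch.const hx').exists_E_omega hc
    refine ⟨Ex, hEx, ?_⟩
    unfold Gl
    congr 1
    funext k
    exact (tc_eq_ek hEx.holo hEx.zero hrx k).symm

theorem Gl_lower {p : ℝ} {n : ℕ} {c : ℂ} (hc : ‖c‖ < 1) (hU : UP p n c) :
    ∃ κ : ℝ, 0 < κ ∧ ∀ x y : ℂ, ‖x‖ = 1 → ‖y‖ ≤ 1 → κ * ‖x - y‖ ≤ ‖Gl p n c y - Gl p n c x‖ := by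
  obtain ⟨κ, hκ, hUU⟩ := hU
  refine ⟨κ, hκ, ?_⟩
  intro x y hx hy
  by_cases hxy : y = x
  · rw [hxy]; simp
  · obtain ⟨Ex, hEx, hrx⟩ := (Sch.const hx.le).exists_E_omega hc
    obtain ⟨Ey, hEy, hry⟩ := (Sch.const hy).exists_E_omega hc
    have h1 := hUU x (fun _ => y) Ey Ex hx (Sch.const hy) hxy hEy hry hEx hrx
    have h6 : Lam p n (tc Ex) = Gl p n c x := by
      unfold Gl
      congr 1
      funext k
      exact tc_eq_ek hEx.holo hEx.zero hrx k
    have h7 : Lam p n (tc Ey) = Gl p n c y := by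
      unfold Gl
      congr 1
      funext k
      exact tc_eq_ek hEy.holo hEy.zero hry k
    rw [h6, h7] at h1
    exact h1

/-- topology of the image of the closed disc under a polynomial injective at the circle -/
theorem frontier_image {f : ℂ → ℂ} (hf : Differentiable ℂ f) {κ : ℝ} (hκ : 0 < κ)
    (h : ∀ x y : ℂ, ‖x‖ = 1 → ‖y‖ ≤ 1 → κ * ‖x - y‖ ≤ ‖f y - f x‖) :
    InjOn f (sphere 0 1) ∧ frontier (f '' closedBall 0 1) = f '' sphere 0 1 := by
  have hinj : ∀ x y : ℂ, ‖x‖ = 1 → ‖y‖ ≤ 1 → f y = f x → y = x := by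
    intro x y hx hy he
    have h1 := h x y hx hy
    rw [he, sub_self, norm_zero] at h1
    have h2 : ‖x - y‖ ≤ 0 := by
      by_contra hcon
      push Not at hcon
      nlinarith
    have h3 := norm_le_zero_iff.1 h2
    exact (sub_eq_zero.1 h3).symm
  have hcomp : IsCompact (f '' closedBall (0 : ℂ) 1) :=
    (isCompact_closedBall _ _).image hf.continuous
  refine ⟨?_, ?_⟩
  · intro x hx y hy he
    exact hinj y x (by simpa using hy) (by have : ‖x‖ = 1 := by simpa using hx
                                           exact this.le) he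
  · ext a
    constructor
    · intro ha
      rw [frontier, hcomp.isClosed.closure_eq] at ha
      obtain ⟨⟨x, hx, rfl⟩, hint⟩ := ha
      have hx' : ‖x‖ ≤ 1 := by simpa using hx
      rcases hx'.lt_or_eq with h1 | h1
      · exfalso
        apply hint
        have han : AnalyticOnNhd ℂ f (ball 0 1) := hf.differentiableOn.analyticOnNhd isOpen_ball
        rcases han.is_constant_or_isOpen (convex_ball (0 : ℂ) 1).isPreconnected with ⟨w, hw⟩ | ho
        · exfalso
          have han2 : AnalyticOnNhd ℂ f univ := hf.differentiableOn.analyticOnNhd isOpen_univ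
          have hc2 : AnalyticOnNhd ℂ (fun _ : ℂ => w) univ := analyticOnNhd_const
          have heq := han2.eqOn_of_preconnected_of_eventuallyEq hc2 isPreconnected_univ (mem_univ 0)
            (by filter_upwards [isOpen_ball.mem_nhds mem0] with z hz
                exact hw z hz)
          have h2 := hinj 1 (-1) (by simp) (by simp) (by rw [heq (mem_univ _), heq (mem_univ _)])
          norm_num at h2
        · rw [mem_interior]
          exact ⟨f '' ball 0 1, image_mono ball_subset_closedBall, ho _ Subset.rfl isOpen_ball,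
            ⟨x, by simpa using h1, rfl⟩⟩
      · exact ⟨x, by simpa using h1, rfl⟩
    · rintro ⟨x, hx, rfl⟩
      have hx' : ‖x‖ = 1 := by simpa using hx
      rw [frontier, hcomp.isClosed.closure_eq]
      refine ⟨⟨x, sphere_subset_closedBall hx, rfl⟩, ?_⟩
      intro hint
      -- the derivative at `x` does not vanish
      have hd : HasStrictDerivAt f (deriv f x) x := by
        have han2 : AnalyticOnNhd ℂ f univ := hf.differentiableOn.analyticOnNhd isOpen_univ
        exact (han2 x (mem_univ _)).hasStrictDerivAt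
      have hd0 : deriv f x ≠ 0 := by
        intro h0
        have h1 := hd.hasDerivAt
        rw [h0] at h1
        have h2 := h1.isLittleO
        have h3 := h2.def (half_pos hκ)
        have h4 : Tendsto (fun t : ℝ => ((1 - t : ℝ) : ℂ) * x) (𝓝[>] 0) (𝓝 x) := by
          have : Continuous fun t : ℝ => ((1 - t : ℝ) : ℂ) * x := by fun_prop
          have h5 := this.tendsto 0
          simp only [sub_zero, Complex.ofReal_one, one_mul] at h5
          exact h5.mono_left nhdsWithin_le_nhds
        have h6 := h4.eventually h3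
        have h7 : ∀ᶠ t : ℝ in 𝓝[>] 0, t ∈ Ioo (0 : ℝ) 1 := Ioo_mem_nhdsGT one_pos
        obtain ⟨t, ht1, ht2⟩ := (h6.and h7).exists
        have hyn : ‖((1 - t : ℝ) : ℂ) * x‖ ≤ 1 := by
          rw [norm_mul, hx', Complex.norm_of_nonneg (by linarith [ht2.2])]
          linarith [ht2.1]
        have h8 := h x (((1 - t : ℝ) : ℂ) * x) hx' hyn
        have h9 : ‖((1 - t : ℝ) : ℂ) * x - x‖ = t := by
          have : ((1 - t : ℝ) : ℂ) * x - x = -((t : ℂ) * x) := by push_cast; ring
          rw [this, norm_neg, norm_mul, hx', Complex.norm_of_nonneg ht2.1.le, mul_one]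
        rw [norm_sub_rev x, h9] at h8
        simp only [smul_zero, sub_zero] at ht1
        rw [h9] at ht1
        nlinarith [ht2.1]
      have hnd : 0 < ‖deriv f x‖ := norm_pos_iff.2 hd0
      have hlo := hd.isLittleO.def (half_pos hnd)
      rw [Metric.eventually_nhds_iff] at hlo
      obtain ⟨ε, hε, hloc⟩ := hlo
      have hloc' : ∀ y z : ℂ, ‖y - x‖ < ε → ‖z - x‖ < ε → f y = f z → y = z := by
        intro y z hy hz he
        have h1 := hloc (y := (y, z)) (by
          rw [Prod.dist_eq, dist_eq_norm, dist_eq_norm]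
          exact max_lt hy hz)
        simp only [he, sub_self, zero_sub, norm_neg] at h1
        have h2 : ‖(y - z) * deriv f x‖ = ‖y - z‖ * ‖deriv f x‖ := norm_mul _ _
        have h3 : ‖y - z‖ * ‖deriv f x‖ ≤ ‖deriv f x‖ / 2 * ‖y - z‖ := by
          rw [← h2]
          simpa using h1
        have h4 : ‖y - z‖ ≤ 0 := by
          by_contra hcon
          push Not at hcon
          nlinarith [mul_pos hcon hnd]
        exact sub_eq_zero.1 (norm_le_zero_iff.1 h4)
      -- away from `x` the value `f x` is not approached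
      obtain ⟨η, hη, hfar⟩ : ∃ η : ℝ, 0 < η ∧ ∀ z : ℂ, ‖z‖ ≤ 1 → ε ≤ ‖z - x‖ → η ≤ ‖f z - f x‖ := by
        refine ⟨κ * ε, mul_pos hκ hε, ?_⟩
        intro z hz hze
        have := h x z hx' hz
        rw [norm_sub_rev x z] at this
        nlinarith
      rw [mem_interior_iff_mem_nhds, Metric.mem_nhds_iff] at hint
      obtain ⟨δ, hδ, hball⟩ := hint
      have hcf : Tendsto (fun t : ℝ => f (((1 + t : ℝ) : ℂ) * x)) (𝓝[>] 0) (𝓝 (f x)) := by
        have h1 : Continuous fun t : ℝ => f (((1 + t : ℝ) : ℂ) * x) :=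
          hf.continuous.comp (by fun_prop)
        have h5 := h1.tendsto 0
        simp only [add_zero, Complex.ofReal_one, one_mul] at h5
        exact h5.mono_left nhdsWithin_le_nhds
      have h6 := hcf.eventually (Metric.ball_mem_nhds (f x) (lt_min hδ hη))
      have h7 : ∀ᶠ t : ℝ in 𝓝[>] 0, t ∈ Ioo (0 : ℝ) ε := Ioo_mem_nhdsGT hε
      obtain ⟨t, ht1, ht2⟩ := (h6.and h7).exists
      obtain ⟨z, hz, hze⟩ := hball (lt_of_lt_of_le ht1 (min_le_left _ _))
      have hz' : ‖z‖ ≤ 1 := by simpa using hz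
      have hznear : ‖z - x‖ < ε := by
        by_contra hcon
        push Not at hcon
        have h8 := hfar z hz' hcon
        rw [hze] at h8
        have h9 : ‖f (((1 + t : ℝ) : ℂ) * x) - f x‖ < η := by
          rw [← dist_eq_norm]
          exact lt_of_lt_of_le ht1 (min_le_right _ _)
        linarith
      have hynear : ‖((1 + t : ℝ) : ℂ) * x - x‖ < ε := by
        have : ((1 + t : ℝ) : ℂ) * x - x = (t : ℂ) * x := by push_cast; ring
        rw [this, norm_mul, hx', Complex.norm_of_nonneg ht2.1.le, mul_one]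
        exact ht2.2
      have heq := hloc' _ _ hynear hznear hze.symm
      have h10 : ‖((1 + t : ℝ) : ℂ) * x‖ = 1 + t := by
        rw [norm_mul, hx', Complex.norm_of_nonneg (by linarith [ht2.1]), mul_one]
      rw [heq] at h10
      linarith [ht2.1]

end

end Pool.Agent.helper358_ms
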