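import Pool.Agent.helper358_ms.Chain2
import Pool.Agent.helper358_ms.Reg

/-! # The uniqueness property for `p ≤ 1/3`, `n ≥ 5` -/

set_option autoImplicit false

namespace Pool.Agent.helper358_ms

open Complex Metric Set Filter Topology PowerSeries

noncomputable section

theorem Lam_diff {p : ℝ} {a : ℂ} {Ex u E s H : ℂ → ℂ} (hEx : DifferentiableOn ℂ Ex (ball 0 1))
    (hne : ∀ z ∈ ball (0 : ℂ) 1, Ex z ≠ 0) (hu : DifferentiableOn ℂ u (ball 0 1)) (hu0 : u 0 = 0)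
    (hE : ∀ z ∈ ball (0 : ℂ) 1, E z = Ex z * Complex.exp (u z))
    (hs : DifferentiableOn ℂ s (ball 0 1)) (hH : DifferentiableOn ℂ H (ball 0 1))
    (huH : ∀ z ∈ ball (0 : ℂ) 1, u z = z ^ 2 * (a * s z * H z)) (m : ℕ) :
    Lam p (m + 2) (tc E) - Lam p (m + 2) (tc Ex) = a / 2 *
      ∑ q ∈ Finset.HasAntidiagonal.antidiagonal m,
        Lam p q.1 (fun i => PowerSeries.coeff i ((PowerSeries.C 2 * T s) * PowerSeries.mk (avg Ex u))) * tc H q.2 := by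
  have as : AnalyticAt ℂ s 0 := analyticAt_zero one_pos hs
  have aH : AnalyticAt ℂ H 0 := analyticAt_zero one_pos hH
  have aid : AnalyticAt ℂ (fun z : ℂ => z) 0 := analyticAt_id
  have a1 : AnalyticAt ℂ (fun z : ℂ => a * s z) 0 := analyticAt_const.mul as
  have a2 : AnalyticAt ℂ (fun z : ℂ => a * s z * H z) 0 := a1.mul aH
  have a3 : AnalyticAt ℂ (fun z : ℂ => z ^ 2) 0 := aid.pow 2
  have hTu : T u = X ^ 2 * (PowerSeries.C a * T s * T H) := by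
    have hev : u =ᶠ[𝓝 0] fun z => z ^ 2 * (a * s z * H z) := by
      filter_upwards [isOpen_ball.mem_nhds mem0] with z hz
      exact huH z hz
    rw [T_congr hev, T_mul a3 a2, T_mul a1 aH, T_mul (f := fun _ => a) analyticAt_const as, T_const,
      T_pow aid, T_id]
  have h1 := T_diff hEx hne hu hu0 hE
  obtain ⟨G, hG⟩ : ∃ G : PowerSeries ℂ, G = (PowerSeries.C 2 * T s) * PowerSeries.mk (avg Ex u) := ⟨_, rfl⟩
  have h2 : T E - T Ex = X ^ 2 * (PowerSeries.C (a / 2) * (G * T H)) := by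
    rw [h1, hTu, hG]
    have e : PowerSeries.C a = PowerSeries.C (a / 2) * PowerSeries.C (2 : ℂ) := by
      rw [← map_mul]; congr 1; ring
    rw [e]; ring
  rw [← hG]
  have h3 : Lam p (m + 2) (tc E) - Lam p (m + 2) (tc Ex) = PowerSeries.coeff (m + 2) (UU p * (T E - T Ex)) := by
    rw [mul_sub, map_sub, coeff_UU_mul, coeff_UU_mul]
    simp only [coeff_T]
  have h4 : UU p * (X ^ 2 * (PowerSeries.C (a / 2) * (G * T H)))
      = X ^ 2 * (PowerSeries.C (a / 2) * ((UU p * G) * T H)) := by ring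
  rw [h3, h2, h4, PowerSeries.coeff_X_pow_mul, PowerSeries.coeff_C_mul, PowerSeries.coeff_mul]
  congr 1
  refine Finset.sum_congr rfl fun q _ => ?_
  rw [coeff_UU_mul, coeff_T]

theorem UP_five {p : ℝ} (hp0 : 0 < p) (hp : p ≤ 1 / 3) {n : ℕ} (hn : 5 ≤ n) {c : ℂ} (hc : ‖c‖ < 1) :
    UP p n c := by
  have hepos : 0 < 1 - ‖c‖ ^ 2 := by nlinarith [norm_nonneg c]
  obtain ⟨m, rfl⟩ : ∃ m, n = m + 2 := ⟨n - 2, by omega⟩
  obtain ⟨C, hC, hconv⟩ := conv_lower' hp0 hp hc (m := m) (by omega)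
  refine ⟨(1 - ‖c‖ ^ 2) / C, by positivity, ?_⟩
  intro x ω E Ex hx hω hne hE hr hEx hrx
  obtain ⟨h, u, hhd, hhre, hh0, hud, hu0, hu, hEu, hpath⟩ := path_exists hc hx hω hne hE hr hEx hrx
  obtain ⟨s, H, hsd, hse, hHd, hHpos, hH0, huH⟩ :=
    H_exists (a := 2 * (1 - (‖c‖ ^ 2 : ℝ)) * x) hc hx rfl hhd hhre hud hu0 hu
  have hd := Lam_diff (p := p) hEx.holo hEx.ne hud hu0 hEu hsd hHd huH m
  obtain ⟨G, hG⟩ : ∃ G : PowerSeries ℂ, G = (PowerSeries.C 2 * T s) * PowerSeries.mk (avg Ex u) := ⟨_, rfl⟩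
  have hav : ∀ (k : ℕ) (w : ℂ) (B : ℝ), (∀ F : ℂ → ℂ, ClassE c F → ‖PowerSeries.coeff k (Gs s F) - w‖ ≤ B) →
      ‖PowerSeries.coeff k G - w‖ ≤ B := by
    intro k w B hB
    rw [hG]
    apply avg_comb hEx.holo hEx.ne hud hu0
    intro t ht0 ht1
    exact hB _ (hpath t ht0 ht1)
  have hg : GSeq c x (fun i => PowerSeries.coeff i G) := by
    refine ⟨?_, ?_, ?_, ?_, ?_⟩
    · have := hav 0 1 0 (fun F hF => by rw [(Gs_coefs hc hx hsd hse hF).1]; simp)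
      exact sub_eq_zero.1 (norm_le_zero_iff.1 this)
    · have := hav 1 (-(2 / 3 * c + 4 / 3 * ((starRingEnd ℂ) c * x))) 0
        (fun F hF => by rw [(Gs_coefs hc hx hsd hse hF).2.1]; simp)
      exact sub_eq_zero.1 (norm_le_zero_iff.1 this)
    · exact hav 2 _ _ (fun F hF => (Gs_coefs hc hx hsd hse hF).2.2.1)
    · have := hav 3 0 (7 / 2) (fun F hF => by rw [sub_zero]; exact (Gs_coefs hc hx hsd hse hF).2.2.2)
      rwa [sub_zero] at this
    · intro i hi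
      have := hav i 0 (2 ^ (i - 1)) (fun F hF => by rw [sub_zero]; exact Gs_bound hc hx hsd hse hF hi)
      rwa [sub_zero] at this
  rw [← hG] at hd
  have h1 := hconv x _ H hx hg hHd hHpos
  rw [hd, norm_mul]
  have h2 : ‖2 * (1 - ((‖c‖ ^ 2 : ℝ) : ℂ)) * x / 2‖ = 1 - ‖c‖ ^ 2 := by
    have : 2 * (1 - ((‖c‖ ^ 2 : ℝ) : ℂ)) * x / 2 = ((1 - ‖c‖ ^ 2 : ℝ) : ℂ) * x := by push_cast; ring
    rw [this, norm_mul, hx, mul_one, Complex.norm_of_nonneg hepos.le]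
  have h3 : ‖H 0‖ = ‖x - ω 0‖ := by
    rw [hH0, hh0]
    have hxx : x * (starRingEnd ℂ) x = 1 := by rw [mul_comm, conj_mul_self, hx]; simp
    have : x - ω 0 = x * (1 - (starRingEnd ℂ) x * ω 0) := by linear_combination (ω 0) * hxx
    rw [this, norm_mul, hx, one_mul]
  rw [h2, ← h3, div_mul_eq_mul_div, div_le_iff₀ hC]
  calc (1 - ‖c‖ ^ 2) * ‖H 0‖ ≤ (1 - ‖c‖ ^ 2) * (C * _) := mul_le_mul_of_nonneg_left h1 hepos.le
    _ = _ := by ring

end

end Pool.Agent.helper358_ms
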