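import Pool.Agent.helper358_ms.Chain2
import Pool.Agent.helper358_ms.Reg

/-! # The uniqueness property for `p ≤ 1/3`, `n = 3, 4` -/

set_option autoImplicit false

namespace Pool.Agent.helper358_ms

open Complex Metric Set Filter Topology PowerSeries

noncomputable section

/-- the fourth coefficient -/
theorem fourth_coeff {c : ℂ} {ω E : ℂ → ℂ} (hω : DifferentiableOn ℂ ω (ball 0 1))
    (hE : DifferentiableOn ℂ E (ball 0 1)) (hE0 : E 0 = 1) (h : RelW c ω E) :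
    tc E 4 = -(1 / 2) * (1 - (‖c‖ ^ 2 : ℝ)) *
        (tc ω 2 - 2 * (starRingEnd ℂ) c * tc ω 0 * tc ω 1 + ((starRingEnd ℂ) c) ^ 2 * tc ω 0 ^ 3)
      + 1 / 3 * c * (1 - (‖c‖ ^ 2 : ℝ)) * (tc ω 1 - (starRingEnd ℂ) c * tc ω 0 ^ 2)
      + 1 / 6 * c ^ 2 * (1 - (‖c‖ ^ 2 : ℝ)) * tc ω 0 := by
  obtain ⟨e0, e1, e2, e3⟩ := first_coeffs hω hE hE0 h
  have h1 := formal_ode hω hE h
  have k3 := congrArg (PowerSeries.coeff 3) h1
  have two : (2 : PowerSeries ℂ) = C (2 : ℂ) := (map_ofNat C 2).symm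
  simp only [two, PowerSeries.coeff_mul, map_sub, map_add, map_neg, Finset.Nat.antidiagonal_succ,
    Finset.Nat.antidiagonal_zero, Finset.sum_cons, Finset.sum_map, Finset.sum_singleton,
    Finset.map_singleton, Finset.map_cons,
    Function.Embedding.prodMap, Function.Embedding.coeFn_mk, Prod.map, Nat.succ_eq_add_one, zero_add,
    PowerSeries.coeff_derivative, coeff_T, PowerSeries.coeff_C, PowerSeries.coeff_X,
    PowerSeries.coeff_one, Function.Embedding.refl_apply] at k3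
  norm_num at k3
  have hcc := conj_mul_self c
  rw [e0, e1, e2, e3] at k3
  push_cast at k3 hcc ⊢
  linear_combination (1 / 4 : ℂ) * k3 + (1 / 2 : ℂ) * (tc ω 2 - c * tc ω 1) * hcc

theorem Lam4 {p : ℝ} (hp0 : 0 < p) (hp1 : p < 1) (e : ℕ → ℂ) :
    Lam p 4 e = U p 4 * e 0 + U p 3 * e 1 + U p 2 * e 2 + U p 1 * e 3 + e 4 := by
  unfold Lam
  rw [Finset.sum_range_succ, Finset.sum_range_succ, Finset.sum_range_succ, Finset.sum_range_succ,
    Finset.sum_range_succ, Finset.sum_range_zero]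
  have : U p (4 - 4) = 1 := by rw [Nat.sub_self, U_zero hp0 hp1]
  rw [this]
  push_cast
  simp

/-- the auxiliary function of positive real part -/
theorem pp_exists {c x : ℂ} {ω : ℂ → ℂ} (hc : ‖c‖ < 1) (hx : ‖x‖ = 1) (hω : Sch ω) (hne : ω 0 ≠ x) :
    ∃ P : ℂ → ℂ, DifferentiableOn ℂ P (ball 0 1) ∧ (∀ z ∈ ball (0 : ℂ) 1, 0 < (P z).re) ∧
      P 0 = tc P 0 ∧ tc ω 0 = x * (1 - tc P 0) ∧
      tc ω 1 = -x * (tc P 1 - (starRingEnd ℂ) c * x * tc P 0 ^ 2) ∧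
      tc ω 2 = -x * (tc P 2 + ((starRingEnd ℂ) c * x) ^ 2 * tc P 0 ^ 2
        - 2 * ((starRingEnd ℂ) c * x) * tc P 0 * tc P 1 + ((starRingEnd ℂ) c * x) ^ 2 * tc P 0 ^ 3) := by
  have hxx : (starRingEnd ℂ) x * x = 1 := by rw [conj_mul_self, hx]; simp
  obtain ⟨y, hy⟩ : ∃ y, y = (starRingEnd ℂ) x := ⟨_, rfl⟩
  obtain ⟨d, hd⟩ : ∃ d, d = (starRingEnd ℂ) c := ⟨_, rfl⟩
  rw [← hy] at hxx
  obtain ⟨P, hP⟩ : ∃ P : ℂ → ℂ, P = fun z => (1 - y * ω z) * (1 + d * x * z) / (1 + d * (z * ω z)) := ⟨_, rfl⟩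
  have hN : ∀ z ∈ ball (0 : ℂ) 1, 1 + d * (z * ω z) ≠ 0 := by
    intro z hz
    rw [hd]
    exact one_add_conj_ne hc (hω.mul_lt hz)
  have hzω : DifferentiableOn ℂ (fun z => z * ω z) (ball 0 1) := differentiableOn_id.mul hω.holo
  have hPd : DifferentiableOn ℂ P (ball 0 1) := by
    rw [hP]
    refine DifferentiableOn.div ?_ ((hzω.const_mul _).const_add _) hN
    refine ((hω.holo.const_mul _).const_sub 1).mul ?_
    fun_prop
  have hpos : ∀ z ∈ ball (0 : ℂ) 1, 0 < (P z).re := by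
    intro z hz
    have hz1 := mem_ball_zero_iff.1 hz
    have h1 : 0 < ((1 - y * ω z) * (1 + d * x * z) * (starRingEnd ℂ) (1 + y * ω z * (d * x * z))).re := by
      apply pos_alg
      · rw [norm_mul, norm_mul, hd, Complex.norm_conj, hx, norm_one]
        nlinarith [norm_nonneg c, norm_nonneg z]
      · rw [norm_mul, hy, Complex.norm_conj, hx, one_mul]
        exact hω.le z hz
      · intro h2
        apply hω.ne_of_ne hx hne hz
        linear_combination x * h2 + (-(ω z)) * hxx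
    have e2 : 1 + y * ω z * (d * x * z) = 1 + d * (z * ω z) := by
      linear_combination (ω z * d * z) * hxx
    rw [e2] at h1
    have hns : 0 < Complex.normSq (1 + d * (z * ω z)) := Complex.normSq_pos.2 (hN z hz)
    have e3 : P z = ((1 - y * ω z) * (1 + d * x * z) * (starRingEnd ℂ) (1 + d * (z * ω z)))
        / ((Complex.normSq (1 + d * (z * ω z)) : ℝ) : ℂ) := by
      rw [hP]
      have hn := hN z hz
      have hns' : ((Complex.normSq (1 + d * (z * ω z)) : ℝ) : ℂ) ≠ 0 := by exact_mod_cast hns.ne'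
      rw [div_eq_div_iff hn hns', ← Complex.mul_conj]
      ring
    rw [e3, Complex.div_ofReal_re]
    exact div_pos h1 hns
  refine ⟨P, hPd, hpos, (tc_zero P).symm, ?_⟩
  have aP : AnalyticAt ℂ P 0 := analyticAt_zero one_pos hPd
  have aω : AnalyticAt ℂ ω 0 := analyticAt_zero one_pos hω.holo
  have aid : AnalyticAt ℂ (fun z : ℂ => z) 0 := analyticAt_id
  have a1 : AnalyticAt ℂ (fun z : ℂ => z * ω z) 0 := aid.mul aω
  have t1 : T (fun z : ℂ => z * ω z) = X * T ω := by rw [T_mul aid aω, T_id]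
  have a2 : AnalyticAt ℂ (fun z : ℂ => d * (z * ω z)) 0 := analyticAt_const.mul a1
  have t2 : T (fun z : ℂ => d * (z * ω z)) = C d * (X * T ω) := by
    rw [T_mul (f := fun _ => d) analyticAt_const a1, T_const, t1]
  have a3 : AnalyticAt ℂ (fun z : ℂ => 1 + d * (z * ω z)) 0 := analyticAt_const.add a2
  have t3 : T (fun z : ℂ => 1 + d * (z * ω z)) = C 1 + C d * (X * T ω) := by
    rw [T_add (f := fun _ => (1 : ℂ)) analyticAt_const a2, T_const, t2]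
  have a4 : AnalyticAt ℂ (fun z : ℂ => y * ω z) 0 := analyticAt_const.mul aω
  have t4 : T (fun z : ℂ => y * ω z) = C y * T ω := by
    rw [T_mul (f := fun _ => y) analyticAt_const aω, T_const]
  have a5 : AnalyticAt ℂ (fun z : ℂ => 1 - y * ω z) 0 := analyticAt_const.sub a4
  have t5 : T (fun z : ℂ => 1 - y * ω z) = C 1 - C y * T ω := by
    rw [T_sub (f := fun _ => (1 : ℂ)) analyticAt_const a4, T_const, t4]
  have a6 : AnalyticAt ℂ (fun z : ℂ => d * x * z) 0 := analyticAt_const.mul aid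
  have t6 : T (fun z : ℂ => d * x * z) = C (d * x) * X := by
    rw [T_mul (f := fun _ => d * x) analyticAt_const aid, T_const, T_id]
  have a7 : AnalyticAt ℂ (fun z : ℂ => 1 + d * x * z) 0 := analyticAt_const.add a6
  have t7 : T (fun z : ℂ => 1 + d * x * z) = C 1 + C (d * x) * X := by
    rw [T_add (f := fun _ => (1 : ℂ)) analyticAt_const a6, T_const, t6]
  have hev : (fun z => P z * (1 + d * (z * ω z))) =ᶠ[𝓝 0] fun z => (1 - y * ω z) * (1 + d * x * z) := by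
    filter_upwards [isOpen_ball.mem_nhds mem0] with z hz
    rw [hP]
    exact div_mul_cancel₀ _ (hN z hz)
  have hf := T_congr hev
  rw [T_mul aP a3, T_mul a5 a7, t3, t5, t7] at hf
  have k0 := congrArg (PowerSeries.coeff 0) hf
  have k1 := congrArg (PowerSeries.coeff 1) hf
  have k2 := congrArg (PowerSeries.coeff 2) hf
  simp only [PowerSeries.coeff_mul, map_sub, map_add, Finset.Nat.antidiagonal_succ,
    Finset.Nat.antidiagonal_zero, Finset.sum_cons, Finset.sum_map, Finset.sum_singleton,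
    Finset.map_singleton, Finset.map_cons,
    Function.Embedding.prodMap, Function.Embedding.coeFn_mk, Prod.map, Nat.succ_eq_add_one, zero_add,
    coeff_T, PowerSeries.coeff_C, PowerSeries.coeff_X,
    Function.Embedding.refl_apply] at k0 k1 k2
  norm_num at k0 k1 k2
  rw [← hd]
  have r0 : tc ω 0 = x * (1 - tc P 0) := by
    linear_combination x * k0 + (-(tc ω 0)) * hxx
  rw [r0] at k1 k2
  have r1 : tc ω 1 = -x * (tc P 1 - d * x * tc P 0 ^ 2) := by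
    linear_combination x * k1 + (-(tc ω 1 + d * x ^ 2 * (1 - tc P 0))) * hxx
  refine ⟨r0, r1, ?_⟩
  linear_combination x * k2 - (tc ω 2 + tc ω 1 * (d * x)) * hxx - (d * x * tc P 0 + d * x) * r1

theorem tc_const (x : ℂ) (k : ℕ) : tc (fun _ => x) k = if k = 0 then x else 0 := by
  rw [← coeff_T, T_const, PowerSeries.coeff_C]

theorem one_sub_sq {c : ℂ} : (1 : ℂ) - ((‖c‖ ^ 2 : ℝ) : ℂ) = ((1 - ‖c‖ ^ 2 : ℝ) : ℂ) := by
  push_cast; ring

theorem UP_three {p : ℝ} (hp0 : 0 < p) (hp : p ≤ 1 / 3) {c : ℂ} (hc : ‖c‖ < 1) : UP p 3 c := by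
  have hp1 : p < 1 := by linarith
  have hepos : 0 < 1 - ‖c‖ ^ 2 := by nlinarith [norm_nonneg c]
  have hc1 : 0 < 1 - ‖c‖ := by linarith
  refine ⟨(1 - ‖c‖ ^ 2) * (2 * (1 - ‖c‖)), by positivity, ?_⟩
  intro x ω E Ex hx hω hne hE hr hEx hrx
  obtain ⟨P, hPd, hPpos, hP0, w0, w1, w2⟩ := pp_exists hc hx hω hne
  obtain ⟨e0, e1, e2, e3⟩ := first_coeffs hω.holo hE.holo hE.zero hr
  obtain ⟨x0, x1, x2, x3⟩ := first_coeffs (differentiableOn_const x) hEx.holo hEx.zero hrx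
  simp only [tc_const] at x2 x3
  norm_num at x2 x3
  obtain ⟨s, hs⟩ : ∃ s : ℝ, s = U p 1 := ⟨_, rfl⟩
  obtain ⟨v, hv⟩ : ∃ v : ℂ, v = (starRingEnd ℂ) c * x := ⟨_, rfl⟩
  have hvn : ‖v‖ = ‖c‖ := by rw [hv, norm_mul, Complex.norm_conj, hx, mul_one]
  have hdiff : Lam p 3 (tc E) - Lam p 3 (tc Ex) = (1 - (‖c‖ ^ 2 : ℝ)) * x *
      ((s - (2 / 3 * c + 4 / 3 * v)) * tc P 0 + 2 / 3 * tc P 1) := by
    rw [Lam3 hp0 hp1, Lam3 hp0 hp1, e0, e1, e2, e3, x0, x1, x2, x3, w0, w1, ← hs, hv]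
    push_cast
    ring
  have hs1 : 10 / 3 ≤ s := by
    rw [hs, U_one hp0 hp1]
    have hpinv : p * p⁻¹ = 1 := mul_inv_cancel₀ hp0.ne'
    have : 0 ≤ p⁻¹ * (3 * p - 1) * (p - 3) := by
      have h1 : 0 < p⁻¹ := by positivity
      have h2 : 0 ≤ (1 - 3 * p) * (3 - p) := mul_nonneg (by linarith) (by linarith)
      nlinarith [mul_nonneg h1.le h2]
    nlinarith
  have hP1 : ‖tc P 1‖ ≤ 2 * ‖tc P 0‖ := by
    refine (cara hPd hPpos one_pos).trans ?_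
    rw [hP0]
    linarith [Complex.re_le_norm (tc P 0)]
  have hlow : s - 2 * ‖c‖ ≤ ‖(s : ℂ) - (2 / 3 * c + 4 / 3 * v)‖ := by
    have h1 := norm_sub_norm_le (s : ℂ) (2 / 3 * c + 4 / 3 * v)
    rw [Complex.norm_of_nonneg (by linarith)] at h1
    have h2 := norm_add_le (2 / 3 * c) (4 / 3 * v)
    rw [norm_mul, norm_mul, hvn] at h2
    have a1 : ‖(2 / 3 : ℂ)‖ = 2 / 3 := by simp
    have a2 : ‖(4 / 3 : ℂ)‖ = 4 / 3 := by simp
    rw [a1, a2] at h2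
    linarith
  have hb : 2 * (1 - ‖c‖) * ‖tc P 0‖ ≤ ‖((s : ℂ) - (2 / 3 * c + 4 / 3 * v)) * tc P 0 + 2 / 3 * tc P 1‖ := by
    have h1 := norm_sub_norm_le (((s : ℂ) - (2 / 3 * c + 4 / 3 * v)) * tc P 0) (-(2 / 3 * tc P 1))
    rw [sub_neg_eq_add, norm_neg, norm_mul, norm_mul] at h1
    have a1 : ‖(2 / 3 : ℂ)‖ = 2 / 3 := by simp
    rw [a1] at h1
    have h2 := mul_le_mul_of_nonneg_right hlow (norm_nonneg (tc P 0))
    nlinarith [norm_nonneg (tc P 0)]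
  have hnx : ‖x - ω 0‖ = ‖tc P 0‖ := by
    rw [← tc_zero ω, w0]
    have : x - x * (1 - tc P 0) = x * tc P 0 := by ring
    rw [this, norm_mul, hx, one_mul]
  rw [hdiff, one_sub_sq, norm_mul, norm_mul, hx, mul_one, Complex.norm_of_nonneg hepos.le, hnx, mul_assoc]
  exact mul_le_mul_of_nonneg_left hb hepos.le

theorem poly4 {s u v : ℝ} (hs : 10 / 3 ≤ s) (hu : u ≤ 1) (hv : v ≤ 1) :
    1 + 1 / 10 + ((16 / 9) * s ^ 2 - (8 / 3) * s * (2 * v + 2 / 3 * u) + 64 / 9 - 4 / 3 * (u - v) ^ 2 + 16) * (1 / 8) ≤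
    s ^ 2 - 3 - s * (2 / 3 * (u + 2 * v)) + 10 / 3 * v ^ 2 + 2 / 3 * (u * v) := by
  nlinarith [sq_nonneg (v - 26 / 100), mul_nonneg (sub_nonneg.2 hu) (sub_nonneg.2 hv),
    mul_nonneg (sub_nonneg.2 hu) (sub_nonneg.2 hu),
    mul_nonneg (sub_nonneg.2 hs) (sub_nonneg.2 hu), mul_nonneg (sub_nonneg.2 hs) (sub_nonneg.2 hv),
    mul_nonneg (sub_nonneg.2 hs) (sub_nonneg.2 hs)]

theorem UP_four {p : ℝ} (hp0 : 0 < p) (hp : p ≤ 1 / 3) {c : ℂ} (hc : ‖c‖ < 1) : UP p 4 c := by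
  have hp1 : p < 1 := by linarith
  have hepos : 0 < 1 - ‖c‖ ^ 2 := by nlinarith [norm_nonneg c]
  refine ⟨(1 - ‖c‖ ^ 2) * (1 / 10), by positivity, ?_⟩
  intro x ω E Ex hx hω hne hE hr hEx hrx
  obtain ⟨P, hPd, hPpos, hP0, w0, w1, w2⟩ := pp_exists hc hx hω hne
  obtain ⟨e0, e1, e2, e3⟩ := first_coeffs hω.holo hE.holo hE.zero hr
  obtain ⟨x0, x1, x2, x3⟩ := first_coeffs (differentiableOn_const x) hEx.holo hEx.zero hrx
  have e4 := fourth_coeff hω.holo hE.holo hE.zero hr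
  have x4 := fourth_coeff (differentiableOn_const x) hEx.holo hEx.zero hrx
  simp only [tc_const] at x2 x3 x4
  norm_num at x2 x3 x4
  obtain ⟨s, hs⟩ : ∃ s : ℝ, s = U p 1 := ⟨_, rfl⟩
  have hU2 : U p 2 = s ^ 2 - 1 := by
    rw [U_succ_succ hp0 0, U_zero hp0 hp1, zero_add, hs, U_one hp0 hp1]; ring
  obtain ⟨v, hv⟩ : ∃ v : ℂ, v = (starRingEnd ℂ) c * x := ⟨_, rfl⟩
  have hvn : ‖v‖ = ‖c‖ := by rw [hv, norm_mul, Complex.norm_conj, hx, mul_one]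
  obtain ⟨Ψ, hΨ⟩ : ∃ Ψ : ℂ, Ψ = s ^ 2 - 1 - s * (2 / 3 * c + 4 / 3 * v) + 3 / 2 * v ^ 2 + 2 / 3 * (c * v) - 1 / 6 * c ^ 2 :=
    ⟨_, rfl⟩
  obtain ⟨Θ, hΘ⟩ : ∃ Θ : ℂ, Θ = 4 / 3 * s - 2 * v - 2 / 3 * c := ⟨_, rfl⟩
  have hdiff : Lam p 4 (tc E) - Lam p 4 (tc Ex) = (1 - (‖c‖ ^ 2 : ℝ)) * x *
      (Ψ * tc P 0 + 1 / 2 * Θ * tc P 1 + 1 / 2 * tc P 2) := by
    rw [Lam4 hp0 hp1, Lam4 hp0 hp1, e0, e1, e2, e3, e4, x0, x1, x2, x3, x4, w0, w1, w2, ← hs, hU2, hΨ, hΘ, hv]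
    push_cast
    ring
  have hs1 : 10 / 3 ≤ s := by
    rw [hs, U_one hp0 hp1]
    have hpinv : p * p⁻¹ = 1 := mul_inv_cancel₀ hp0.ne'
    have h1 : 0 < p⁻¹ := by positivity
    have h2 : 0 ≤ (1 - 3 * p) * (3 - p) := mul_nonneg (by linarith) (by linarith)
    nlinarith [mul_nonneg h1.le h2]
  have hP1 : ‖tc P 1‖ ≤ 2 * ‖tc P 0‖ := by
    refine (cara hPd hPpos one_pos).trans ?_
    rw [hP0]
    linarith [Complex.re_le_norm (tc P 0)]
  have hP2 : ‖tc P 2‖ ≤ 2 * ‖tc P 0‖ := by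
    refine (cara hPd hPpos two_pos).trans ?_
    rw [hP0]
    linarith [Complex.re_le_norm (tc P 0)]
  obtain ⟨ρ, hρ⟩ : ∃ ρ, ρ = ‖c‖ ^ 2 := ⟨_, rfl⟩
  have hρ1 : ρ ≤ 1 := by rw [hρ]; nlinarith [norm_nonneg c]
  have hc2 : ‖c‖ ^ 2 = ρ := hρ.symm
  have hv2 : ‖v‖ ^ 2 = ρ := by rw [hvn]; exact hc2
  have hcs : c.re ^ 2 + c.im ^ 2 = ρ := by
    rw [← hc2, ← Complex.normSq_eq_norm_sq, Complex.normSq_apply]; ring
  have hvs : v.re ^ 2 + v.im ^ 2 = ρ := by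
    rw [← hv2, ← Complex.normSq_eq_norm_sq, Complex.normSq_apply]; ring
  have hu1 : c.re ≤ 1 := by nlinarith [sq_nonneg c.im]
  have hv1 : v.re ≤ 1 := by nlinarith [sq_nonneg v.im]
  obtain ⟨β, hβ⟩ : ∃ β, β = s ^ 2 - 3 - s * (2 / 3 * (c.re + 2 * v.re)) + 10 / 3 * v.re ^ 2
      + 2 / 3 * (c.re * v.re) := ⟨_, rfl⟩
  have hΨre : β ≤ Ψ.re := by
    have h1 := re_B2 (s := s) (x1 := -1) (a := 1 - ρ) hcs hvs le_rfl hρ1 le_rfl
    have e : Ψ.re = s ^ 2 - 1 - s * (2 / 3 * c.re + 4 / 3 * v.re) + (3 / 2 * (v.re ^ 2 - v.im ^ 2)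
          - 1 / 6 * (c.re ^ 2 - c.im ^ 2) + 2 / 3 * (c.re * v.re - c.im * v.im)) := by
      rw [hΨ]
      simp [sq]
      ring
    rw [e, hβ]
    linarith
  have hΨn : β ≤ ‖Ψ‖ := hΨre.trans (Complex.re_le_norm _)
  have hΘ2 : ‖Θ‖ ^ 2 ≤ (16 / 9) * s ^ 2 - (8 / 3) * s * (2 * v.re + 2 / 3 * c.re) + 64 / 9 - 4 / 3 * (c.re - v.re) ^ 2 := by
    rw [← Complex.normSq_eq_norm_sq, Complex.normSq_apply]
    have e1 : Θ.re = 4 / 3 * s - 2 * v.re - 2 / 3 * c.re := by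
      rw [hΘ]; simp
    have e2 : Θ.im = -(2 * v.im) - 2 / 3 * c.im := by
      rw [hΘ]; simp
    rw [e1, e2]
    nlinarith [sq_nonneg (c.im - v.im)]
  have hΘn : ‖Θ‖ ≤ ((16 / 9) * s ^ 2 - (8 / 3) * s * (2 * v.re + 2 / 3 * c.re) + 64 / 9 - 4 / 3 * (c.re - v.re) ^ 2 + 16) * (1 / 8) := by
    nlinarith [sq_nonneg (‖Θ‖ - 4)]
  have hpoly := poly4 hs1 hu1 hv1
  rw [← hβ] at hpoly
  have hb : 1 / 10 * ‖tc P 0‖ ≤ ‖Ψ * tc P 0 + 1 / 2 * Θ * tc P 1 + 1 / 2 * tc P 2‖ := by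
    have h1 := norm_sub_norm_le (Ψ * tc P 0) (-(1 / 2 * Θ * tc P 1 + 1 / 2 * tc P 2))
    rw [sub_neg_eq_add, norm_neg, norm_mul, ← add_assoc] at h1
    have h2 := norm_add_le (1 / 2 * Θ * tc P 1) (1 / 2 * tc P 2)
    rw [norm_mul, norm_mul, norm_mul] at h2
    have a1 : ‖(1 / 2 : ℂ)‖ = 1 / 2 := by simp
    rw [a1] at h2
    have h3 : ‖Θ‖ * ‖tc P 1‖ ≤ ‖Θ‖ * (2 * ‖tc P 0‖) := mul_le_mul_of_nonneg_left hP1 (norm_nonneg _)
    have h4 : (1 + 1 / 10 + ‖Θ‖) * ‖tc P 0‖ ≤ ‖Ψ‖ * ‖tc P 0‖ :=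
      mul_le_mul_of_nonneg_right (by linarith) (norm_nonneg _)
    nlinarith [norm_nonneg (tc P 0)]
  have hnx : ‖x - ω 0‖ = ‖tc P 0‖ := by
    rw [← tc_zero ω, w0]
    have : x - x * (1 - tc P 0) = x * tc P 0 := by ring
    rw [this, norm_mul, hx, one_mul]
  rw [hdiff, one_sub_sq, norm_mul, norm_mul, hx, mul_one, Complex.norm_of_nonneg hepos.le, hnx, mul_assoc]
  exact mul_le_mul_of_nonneg_left hb hepos.le

end

end Pool.Agent.helper358_ms
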