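import Pool.Agent.helper358_ms.Sig

/-! # The uniqueness property for large `n` -/

set_option autoImplicit false

namespace Pool.Agent.helper358_ms

open Complex Metric Set Filter Topology

noncomputable section

theorem hasSum_choose {q : ℝ} (hq0 : 0 ≤ q) (hq1 : q < 1) :
    HasSum (fun k : ℕ => ((k + 3).choose 5 : ℝ) * q ^ k) (q ^ 2 / (1 - q) ^ 6) := by
  have hq : ‖q‖ < 1 := by rw [Real.norm_of_nonneg hq0]; exact hq1
  have h1 := (hasSum_choose_mul_geometric_of_norm_lt_one 5 hq).mul_left (q ^ 2)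
  have h2 : q ^ 2 * (1 / (1 - q) ^ (5 + 1)) = q ^ 2 / (1 - q) ^ 6 := by ring
  rw [h2] at h1
  have h3 : HasSum (fun k : ℕ => ((k + 2 + 3).choose 5 : ℝ) * q ^ (k + 2)) (q ^ 2 / (1 - q) ^ 6) := by
    have e : (fun k : ℕ => ((k + 2 + 3).choose 5 : ℝ) * q ^ (k + 2))
        = fun k : ℕ => q ^ 2 * (((k + 5).choose 5 : ℝ) * q ^ k) := by
      funext k
      rw [show k + 2 + 3 = k + 5 by ring]
      ring
    rw [e]
    exact h1
  have h4 := (hasSum_nat_add_iff' (f := fun k : ℕ => ((k + 3).choose 5 : ℝ) * q ^ k)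
    (g := q ^ 2 / (1 - q) ^ 6) 2).1
  have h5 : ∑ i ∈ Finset.range 2, (((i + 3).choose 5 : ℕ) : ℝ) * q ^ i = 0 := by
    simp [Finset.sum_range_succ, Nat.choose]
  rw [h5, sub_zero] at h4
  exact h4 h3

theorem W_U {p : ℝ} (hp0 : 0 < p) (hp1 : p < 1) {n k : ℕ} (hk : k ≤ n) :
    p ^ (n + 1) * (p⁻¹ - p) * U p (n - k) = p ^ k - p ^ (2 * n + 2 - k) := by
  unfold U
  have h0 : 1 < p⁻¹ := (one_lt_inv₀ hp0).2 hp1
  have h1 : p⁻¹ - p ≠ 0 := by linarith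
  have h2 : p ^ (n + 1) * (p⁻¹ - p) * ((p⁻¹ ^ (n - k + 1) - p ^ (n - k + 1)) / (p⁻¹ - p))
      = p ^ (n + 1) * (p⁻¹ ^ (n - k + 1) - p ^ (n - k + 1)) := by
    rw [mul_assoc, mul_div_cancel₀ _ h1]
  rw [h2, mul_sub]
  have h3 : p ^ (n + 1) = p ^ k * p ^ (n - k + 1) := by
    rw [← pow_add]; congr 1; omega
  have h4 : p ^ (n + 1) * p ^ (n - k + 1) = p ^ (2 * n + 2 - k) := by
    rw [← pow_add]; congr 1; omega
  rw [h4, h3, mul_assoc, ← mul_pow, mul_inv_cancel₀ hp0.ne', one_pow, mul_one]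

theorem UP_large {p : ℝ} (hp0 : 0 < p) (hp1 : p < 1) {n : ℕ} (hn : 2 ≤ n)
    (h : (1 + p) ^ 6 * (√p) ^ (n - 2) < (1 - √p) ^ 6 * (1 - p) ^ 4) {c : ℂ} (hc : ‖c‖ < 1) :
    UP p n c := by
  have hepos : 0 < 1 - ‖c‖ ^ 2 := by nlinarith [norm_nonneg c]
  obtain ⟨q, hq⟩ : ∃ q : ℝ, q = √p := ⟨_, rfl⟩
  have hq0 : 0 < q := by rw [hq]; exact Real.sqrt_pos.2 hp0
  have hqq : q ^ 2 = p := by rw [hq]; exact Real.sq_sqrt hp0.le
  have hq1 : q < 1 := by nlinarith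
  rw [← hq] at h
  have hW : 0 < p ^ (n + 1) * (p⁻¹ - p) := by
    have h0 : 1 < p⁻¹ := (one_lt_inv₀ hp0).2 hp1
    have : 0 < p⁻¹ - p := by linarith
    positivity
  obtain ⟨W, hWdef⟩ : ∃ W : ℝ, W = p ^ (n + 1) * (p⁻¹ - p) := ⟨_, rfl⟩
  rw [← hWdef] at hW
  have h1q : 0 < 1 - q := by linarith
  have h1p : 0 < 1 - p := by linarith
  have hgap : 0 < p ^ 2 * (1 - p) ^ 4 / (1 + p) ^ 6 - q ^ n * (q ^ 2 / (1 - q) ^ 6) := by
    rw [sub_pos, mul_div_assoc', div_lt_div_iff₀ (by positivity) (by positivity)]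
    have e1 : q ^ n = q ^ (n - 2) * q ^ 2 := by rw [← pow_add]; congr 1; omega
    rw [e1, ← hqq]
    rw [← hqq] at h
    have h2 : 0 < q ^ 4 := by positivity
    calc q ^ (n - 2) * q ^ 2 * q ^ 2 * (1 + q ^ 2) ^ 6 = q ^ 4 * ((1 + q ^ 2) ^ 6 * q ^ (n - 2)) := by ring
      _ < q ^ 4 * ((1 - q) ^ 6 * (1 - q ^ 2) ^ 4) := by
        apply mul_lt_mul_of_pos_left h h2
      _ = _ := by ring
  refine ⟨(1 - ‖c‖ ^ 2) * (p ^ 2 * (1 - p) ^ 4 / (1 + p) ^ 6 - q ^ n * (q ^ 2 / (1 - q) ^ 6)) / W, by positivity, ?_⟩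
  intro x ω E Ex hx hω hne hE hr hEx hrx
  have hpb : (p : ℂ) ∈ ball (0 : ℂ) 1 := by
    rw [mem_ball_zero_iff, Complex.norm_of_nonneg hp0.le]; exact hp1
  obtain ⟨A, hA⟩ : ∃ A : ℝ, A = (1 - ‖c‖ ^ 2) * ‖x - ω 0‖ := ⟨_, rfl⟩
  have hA0 : 0 ≤ A := by rw [hA]; positivity
  have hD : ∀ k, ‖tc E k - tc Ex k‖ ≤ A * ((k + 3).choose 5 : ℝ) := by
    intro k
    rw [hA]
    exact coef_est hc hx hω hne hE hr hEx hrx k
  -- the sums
  have s1 : HasSum (fun k => (tc E k - tc Ex k) * (p : ℂ) ^ k) (E p - Ex p) := by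
    have h1 := (hasSum_tc hE.holo hpb).sub (hasSum_tc hEx.holo hpb)
    have e : (fun k => (tc E k - tc Ex k) * (p : ℂ) ^ k)
        = fun k => tc E k * (p : ℂ) ^ k - tc Ex k * (p : ℂ) ^ k := by
      funext k
      ring
    rw [e]
    exact h1
  have s2 : HasSum (fun k => if k ≤ n then ((p ^ k - p ^ (2 * n + 2 - k) : ℝ) : ℂ) * (tc E k - tc Ex k) else 0)
      ((W : ℂ) * (Lam p n (tc E) - Lam p n (tc Ex))) := by
    have e1 : (W : ℂ) * (Lam p n (tc E) - Lam p n (tc Ex))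
        = ∑ k ∈ Finset.range (n + 1), (if k ≤ n then ((p ^ k - p ^ (2 * n + 2 - k) : ℝ) : ℂ) * (tc E k - tc Ex k) else 0) := by
      unfold Lam
      rw [← Finset.sum_sub_distrib, Finset.mul_sum]
      refine Finset.sum_congr rfl fun k hk => ?_
      have hk' : k ≤ n := by have := Finset.mem_range.1 hk; omega
      rw [if_pos hk', ← W_U hp0 hp1 hk', ← hWdef]
      push_cast
      ring
    rw [e1]
    apply hasSum_sum_of_ne_finset_zero
    intro k hk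
    rw [if_neg]
    intro h2
    exact hk (Finset.mem_range.2 (by omega))
  have s3 := s2.sub s1
  have s4 := (hasSum_choose hq0.le hq1).mul_left (A * q ^ n)
  have hterm : ∀ k, ‖(if k ≤ n then ((p ^ k - p ^ (2 * n + 2 - k) : ℝ) : ℂ) * (tc E k - tc Ex k) else 0)
      - (tc E k - tc Ex k) * (p : ℂ) ^ k‖ ≤ A * q ^ n * (((k + 3).choose 5 : ℝ) * q ^ k) := by
    intro k
    have hDk := hD k
    by_cases hk : k ≤ n
    · rw [if_pos hk]
      have e1 : ((p ^ k - p ^ (2 * n + 2 - k) : ℝ) : ℂ) * (tc E k - tc Ex k) - (tc E k - tc Ex k) * (p : ℂ) ^ k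
          = -(((p ^ (2 * n + 2 - k) : ℝ) : ℂ) * (tc E k - tc Ex k)) := by push_cast; ring
      rw [e1, norm_neg, norm_mul, Complex.norm_of_nonneg (by positivity)]
      have e2 : p ^ (2 * n + 2 - k) ≤ q ^ n * q ^ k := by
        rw [← hqq, ← pow_mul, ← pow_add]
        exact pow_le_pow_of_le_one hq0.le hq1.le (by omega)
      calc p ^ (2 * n + 2 - k) * ‖tc E k - tc Ex k‖ ≤ (q ^ n * q ^ k) * (A * ((k + 3).choose 5 : ℝ)) :=
            mul_le_mul e2 hDk (norm_nonneg _) (by positivity)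
        _ = _ := by ring
    · rw [if_neg hk, zero_sub, norm_neg, norm_mul, norm_pow, Complex.norm_of_nonneg hp0.le]
      have e2 : p ^ k ≤ q ^ n * q ^ k := by
        rw [← hqq, ← pow_mul, ← pow_add]
        exact pow_le_pow_of_le_one hq0.le hq1.le (by omega)
      calc ‖tc E k - tc Ex k‖ * p ^ k ≤ (A * ((k + 3).choose 5 : ℝ)) * (q ^ n * q ^ k) :=
            mul_le_mul hDk e2 (by positivity) (by positivity)
        _ = _ := by ring
  have hbd : ‖(W : ℂ) * (Lam p n (tc E) - Lam p n (tc Ex)) - (E p - Ex p)‖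
      ≤ A * q ^ n * (q ^ 2 / (1 - q) ^ 6) := by
    rw [← s3.tsum_eq, ← s4.tsum_eq]
    exact tsum_of_norm_bounded s4 hterm |>.trans (le_of_eq s4.tsum_eq.symm)
  have hlow := diff_lower hc hx hω hne hE hr hEx hrx hpb
  rw [Complex.norm_of_nonneg hp0.le] at hlow
  have hlow2 : A * (p ^ 2 * (1 - p) ^ 4 / (1 + p) ^ 6) ≤ ‖E p - Ex p‖ := by
    rw [mul_div_assoc', div_le_iff₀ (by positivity), hA]
    calc _ = (1 - ‖c‖ ^ 2) * p ^ 2 * (1 - p) ^ 4 * ‖x - ω 0‖ := by ring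
      _ ≤ _ := hlow
  have h5 := norm_sub_norm_le (E p - Ex p) ((W : ℂ) * (Lam p n (tc E) - Lam p n (tc Ex)))
  rw [norm_sub_rev (E p - Ex p), norm_mul, Complex.norm_of_nonneg hW.le] at h5
  rw [div_mul_eq_mul_div, div_le_iff₀ hW]
  have h6 : (1 - ‖c‖ ^ 2) * (p ^ 2 * (1 - p) ^ 4 / (1 + p) ^ 6 - q ^ n * (q ^ 2 / (1 - q) ^ 6)) * ‖x - ω 0‖
      = A * (p ^ 2 * (1 - p) ^ 4 / (1 + p) ^ 6) - A * q ^ n * (q ^ 2 / (1 - q) ^ 6) := by
    rw [hA]; ring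
  rw [h6]
  linarith

end

end Pool.Agent.helper358_ms
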