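import Pool.Agent.helper358_ms.Kern

/-! # The functional `Λ_m` against functions of positive real part -/

set_option autoImplicit false

namespace Pool.Agent.helper358_ms

open Complex Metric Set Filter Topology

noncomputable section

theorem U_succ' {p : ℝ} (hp0 : 0 < p) (hp1 : p < 1) (j : ℕ) :
    U p (j + 1) = p⁻¹ * U p j + p ^ (j + 1) := by
  unfold U
  have h0 : 1 < p⁻¹ := (one_lt_inv₀ hp0).2 hp1
  have h1 : p⁻¹ - p ≠ 0 := by linarith
  have h2 : p⁻¹ * p = 1 := inv_mul_cancel₀ hp0.ne'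
  rw [← mul_div_assoc, div_add' _ _ _ h1]
  congr 1
  linear_combination (0 : ℝ) * h2

/-- `t_k = ∑_{i ≤ k} p^{k-i} g_i` -/
def tt (p : ℝ) (g : ℕ → ℂ) : ℕ → ℂ
  | 0 => g 0
  | k + 1 => p * tt p g k + g (k + 1)

theorem tt_eq (p : ℝ) (g : ℕ → ℂ) (k : ℕ) :
    tt p g k = ∑ i ∈ Finset.range (k + 1), (p : ℂ) ^ (k - i) * g i := by
  induction k with
  | zero => simp [tt]
  | succ k ih =>
    rw [tt, ih, Finset.sum_range_succ _ (k + 1), Finset.mul_sum]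
    congr 1
    · refine Finset.sum_congr rfl fun i hi => ?_
      have hi' : i ≤ k := by have := Finset.mem_range.1 hi; omega
      rw [← mul_assoc, ← pow_succ', Nat.succ_sub hi']
    · simp

theorem Lam_zero {p : ℝ} (hp0 : 0 < p) (hp1 : p < 1) (g : ℕ → ℂ) : Lam p 0 g = g 0 := by
  simp [Lam, U_zero hp0 hp1]

theorem Lam_succ {p : ℝ} (hp0 : 0 < p) (hp1 : p < 1) (g : ℕ → ℂ) (k : ℕ) :
    Lam p (k + 1) g = (p : ℂ)⁻¹ * Lam p k g + tt p g (k + 1) := by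
  rw [tt_eq]
  unfold Lam
  rw [Finset.sum_range_succ _ (k + 1), Finset.sum_range_succ _ (k + 1), Finset.mul_sum,
    ← add_assoc, ← Finset.sum_add_distrib]
  congr 1
  · refine Finset.sum_congr rfl fun i hi => ?_
    have hi' : i ≤ k := by have := Finset.mem_range.1 hi; omega
    rw [Nat.succ_sub hi', Nat.succ_eq_add_one, U_succ' hp0 hp1]
    push_cast
    ring
  · simp [U_zero hp0 hp1]

/-- `L_m(τ) = B_m + 2 ∑_{j<m} B_{m-1-j} τ^{j+1}` -/
def Ls (p : ℝ) (g : ℕ → ℂ) (τ : ℂ) : ℕ → ℂ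
  | 0 => Lam p 0 g
  | m + 1 => Lam p (m + 1) g + τ * (Ls p g τ m + Lam p m g)

theorem Ls_eq (p : ℝ) (g : ℕ → ℂ) (τ : ℂ) (m : ℕ) :
    Ls p g τ m = Lam p m g + 2 * ∑ j ∈ Finset.range m, Lam p (m - (j + 1)) g * τ ^ (j + 1) := by
  induction m with
  | zero => simp [Ls]
  | succ m ih =>
    rw [Ls, ih, Finset.sum_range_succ']
    have e : ∀ j ∈ Finset.range m, Lam p (m + 1 - (j + 1 + 1)) g * τ ^ (j + 1 + 1)
        = τ * (Lam p (m - (j + 1)) g * τ ^ (j + 1)) := by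
      intro j _
      rw [show m + 1 - (j + 1 + 1) = m - (j + 1) by omega]
      ring
    rw [Finset.sum_congr rfl e, ← Finset.mul_sum]
    simp only [zero_add, pow_one, Nat.add_sub_cancel]
    ring

/-- `R_m(τ) = ∑_{k ≤ m} t_{m-k} τ^k` -/
def Rs (p : ℝ) (g : ℕ → ℂ) (τ : ℂ) : ℕ → ℂ
  | 0 => tt p g 0
  | m + 1 => tt p g (m + 1) + τ * Rs p g τ m

theorem Rs_le (p : ℝ) (g : ℕ → ℂ) {τ : ℂ} (hτ : ‖τ‖ = 1) (m : ℕ) :
    ‖Rs p g τ m‖ ≤ ∑ k ∈ Finset.range (m + 1), ‖tt p g k‖ := by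
  induction m with
  | zero => simp [Rs]
  | succ m ih =>
    rw [Rs, Finset.sum_range_succ]
    have h1 := norm_add_le (tt p g (m + 1)) (τ * Rs p g τ m)
    rw [norm_mul, hτ, one_mul] at h1
    linarith

theorem Ls_Rs {p : ℝ} (hp0 : 0 < p) (hp1 : p < 1) (g : ℕ → ℂ) (τ : ℂ) (m : ℕ) :
    (1 - p * τ) * Ls p g τ m = (1 + p * τ) * Lam p m g - 2 * p * τ * Rs p g τ m := by
  have hpc : (p : ℂ) * (p : ℂ)⁻¹ = 1 := mul_inv_cancel₀ (by exact_mod_cast hp0.ne')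
  induction m with
  | zero =>
    rw [Ls, Rs, tt, Lam_zero hp0 hp1]
    ring
  | succ m ih =>
    have h1 := Lam_succ hp0 hp1 g m
    have h2 : Lam p m g = p * Lam p (m + 1) g - p * tt p g (m + 1) := by
      rw [h1]
      linear_combination (-Lam p m g) * hpc
    rw [Ls, Rs]
    linear_combination τ * ih + (2 * τ) * h2

/-- lower bound for the real part of the kernel -/
theorem K_lower {p : ℝ} (hp0 : 0 < p) (hp1 : p < 1) {g : ℕ → ℂ} {m : ℕ} {δ : ℝ} (hδ : 0 ≤ δ)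
    (hB : Lam p m g ≠ 0)
    (h : δ ≤ (1 - p) * ‖Lam p m g‖ - 2 * p * ∑ k ∈ Finset.range (m + 1), ‖tt p g k‖)
    {τ : ℂ} (hτ : ‖τ‖ = 1) :
    δ / ((1 + p) * ‖Lam p m g‖) ≤ (Ls p g τ m / Lam p m g).re := by
  obtain ⟨B, hBdef⟩ : ∃ B, B = Lam p m g := ⟨_, rfl⟩
  obtain ⟨S, hS⟩ : ∃ S, S = ∑ k ∈ Finset.range (m + 1), ‖tt p g k‖ := ⟨_, rfl⟩
  have hR := Rs_le p g hτ m
  have hid := Ls_Rs hp0 hp1 g τ m
  rw [← hS] at hR h
  rw [← hBdef] at hB h hid ⊢
  obtain ⟨R, hRdef⟩ : ∃ R, R = Rs p g τ m := ⟨_, rfl⟩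
  obtain ⟨L, hLdef⟩ : ∃ L, L = Ls p g τ m := ⟨_, rfl⟩
  rw [← hRdef] at hR hid
  rw [← hLdef] at hid ⊢
  have hBn : 0 < ‖B‖ := norm_pos_iff.2 hB
  obtain ⟨K, hK⟩ : ∃ K, K = L / B := ⟨_, rfl⟩
  rw [← hK]
  have hLK : L = K * B := by rw [hK]; exact (div_mul_cancel₀ _ hB).symm
  obtain ⟨D, hD⟩ : ∃ D, D = 1 - (p : ℂ) * τ := ⟨_, rfl⟩
  have hDn : ‖D‖ ≤ 1 + p := by
    rw [hD]
    refine (norm_sub_le _ _).trans ?_
    rw [norm_one, norm_mul, hτ, mul_one, Complex.norm_of_nonneg hp0.le]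
  have hDpos : 0 < ‖D‖ := by
    rw [hD]
    have := norm_sub_norm_le (1 : ℂ) ((p : ℂ) * τ)
    rw [norm_one, norm_mul, hτ, mul_one, Complex.norm_of_nonneg hp0.le] at this
    linarith
  -- `|D|² K B = ...`
  have e1 : (starRingEnd ℂ) D * D * K
      = (1 + p * τ) * (starRingEnd ℂ) D - 2 * p * τ * (starRingEnd ℂ) D * (R / B) := by
    have h1 : D * K = (1 + p * τ) - 2 * p * τ * (R / B) := by
      apply mul_right_cancel₀ hB
      have : R / B * B = R := div_mul_cancel₀ _ hB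
      rw [hLK, ← hD] at hid
      linear_combination hid + (2 * p * τ) * this
    linear_combination (starRingEnd ℂ) D * h1
  have hτc : (starRingEnd ℂ) τ * τ = 1 := by rw [Complex.conj_mul', hτ]; simp
  have e2 : ((1 + p * τ) * (starRingEnd ℂ) D).re = 1 - p ^ 2 := by
    have h1 : τ.re ^ 2 + τ.im ^ 2 = 1 := by
      have := congrArg (· ^ 2) hτ
      simp only [one_pow] at this
      rw [← Complex.normSq_eq_norm_sq, Complex.normSq_apply] at this
      nlinarith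
    rw [hD]
    simp only [map_sub, map_one, map_mul, Complex.conj_ofReal, mul_re, add_re, one_re, add_im, one_im,
      sub_re, sub_im, ofReal_re, ofReal_im, Complex.conj_re, Complex.conj_im, mul_im]
    ring_nf
    nlinarith [h1]
  have e3 : ((starRingEnd ℂ) D * D * K).re = ‖D‖ ^ 2 * K.re := by
    rw [Complex.conj_mul', ← Complex.ofReal_pow, Complex.re_ofReal_mul]
  have e4 : (2 * p * τ * (starRingEnd ℂ) D * (R / B)).re ≤ 2 * p * (1 + p) * (S / ‖B‖) := by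
    refine (Complex.re_le_norm _).trans ?_
    rw [norm_mul, norm_mul, norm_mul, norm_mul, hτ, Complex.norm_conj, Complex.norm_of_nonneg hp0.le,
      norm_div]
    have : ‖(2 : ℂ)‖ = 2 := by simp
    rw [this, mul_one]
    have h5 : ‖R‖ / ‖B‖ ≤ S / ‖B‖ := div_le_div_of_nonneg_right hR hBn.le
    have h6 : 0 ≤ ‖R‖ / ‖B‖ := by positivity
    exact mul_le_mul (mul_le_mul_of_nonneg_left hDn (by positivity)) h5 h6 (by positivity)
  have h7 := congrArg Complex.re e1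
  rw [e3, sub_re, e2] at h7
  have h8 : (1 + p) * (δ / ‖B‖) ≤ ‖D‖ ^ 2 * K.re := by
    rw [h7]
    have h9 : δ / ‖B‖ ≤ (1 - p) - 2 * p * (S / ‖B‖) := by
      rw [div_le_iff₀ hBn]
      have : (1 - p - 2 * p * (S / ‖B‖)) * ‖B‖ = (1 - p) * ‖B‖ - 2 * p * S := by
        field_simp
      rw [this]
      exact h
    nlinarith [mul_le_mul_of_nonneg_left h9 (by linarith : (0 : ℝ) ≤ 1 + p)]
  have hKre : 0 ≤ K.re := by
    by_contra hcon
    push Not at hcon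
    have : ‖D‖ ^ 2 * K.re < 0 := mul_neg_of_pos_of_neg (by positivity) hcon
    have : 0 ≤ (1 + p) * (δ / ‖B‖) := by positivity
    linarith
  have h10 : ‖D‖ ^ 2 * K.re ≤ (1 + p) ^ 2 * K.re :=
    mul_le_mul_of_nonneg_right (pow_le_pow_left₀ hDpos.le hDn 2) hKre
  rw [div_le_iff₀ (by positivity)]
  have h11 : (1 + p) * (δ / ‖B‖) ≤ (1 + p) ^ 2 * K.re := h8.trans h10
  have h12 : (1 + p) * δ ≤ (1 + p) ^ 2 * K.re * ‖B‖ := by
    have := mul_le_mul_of_nonneg_right h11 hBn.le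
    calc (1 + p) * δ = (1 + p) * (δ / ‖B‖) * ‖B‖ := by field_simp
      _ ≤ _ := this
  have h13 : 0 < 1 + p := by linarith
  apply le_of_mul_le_mul_left _ h13
  linarith

theorem conv_lower {p : ℝ} (hp0 : 0 < p) (hp1 : p < 1) {g : ℕ → ℂ} {m : ℕ} {δ W : ℝ} (hδ : 0 < δ)
    (hB : 1 ≤ ‖Lam p m g‖)
    (h : δ ≤ (1 - p) * ‖Lam p m g‖ - 2 * p * ∑ k ∈ Finset.range (m + 1), ‖tt p g k‖)
    (hW : ∑ k ∈ Finset.range m, ‖Lam p k g‖ ≤ W) {H : ℂ → ℂ} (hd : DifferentiableOn ℂ H (ball 0 1))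
    (hre : ∀ z ∈ ball (0 : ℂ) 1, 0 < (H z).re) :
    ‖H 0‖ ≤ (1 + 2 * W * (1 + p) / δ) *
      ‖∑ q ∈ Finset.HasAntidiagonal.antidiagonal m, Lam p q.1 g * tc H q.2‖ := by
  have hBn : 0 < ‖Lam p m g‖ := by linarith
  have hB0 : Lam p m g ≠ 0 := norm_pos_iff.1 hBn
  have hq : 0 < (H 0).re := hre 0 (mem_ball_self one_pos)
  obtain ⟨lam, hlam⟩ : ∃ lam : ℕ → ℂ, lam = fun k => Lam p (m - k) g / Lam p m g := ⟨_, rfl⟩
  have hk := kern (m := m) (lam := lam) (κ := δ / ((1 + p) * ‖Lam p m g‖)) hd hre (by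
    intro τ hτ
    have h1 := K_lower hp0 hp1 hδ.le hB0 h hτ
    have h2 : Ls p g τ m / Lam p m g = 1 + 2 * ∑ j ∈ Finset.range m, lam (j + 1) * τ ^ (j + 1) := by
      rw [Ls_eq, add_div, div_self hB0, mul_div_assoc, Finset.sum_div]
      congr 2
      refine Finset.sum_congr rfl fun j _ => ?_
      rw [hlam]
      ring
    rw [← h2]
    exact h1)
  obtain ⟨Y, hY⟩ : ∃ Y, Y = ∑ q ∈ Finset.HasAntidiagonal.antidiagonal m, Lam p q.1 g * tc H q.2 := ⟨_, rfl⟩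
  rw [← hY]
  have hYeq : Y = Lam p m g * H 0 + ∑ j ∈ Finset.range m, Lam p (m - (j + 1)) g * tc H (j + 1) := by
    rw [hY, ← Finset.Nat.sum_antidiagonal_swap]
    simp only [Prod.fst_swap, Prod.snd_swap]
    rw [Finset.Nat.sum_antidiagonal_eq_sum_range_succ_mk, Finset.sum_range_succ']
    simp only [Nat.sub_zero, tc_zero]
    ring
  have hYZ : Y = Lam p m g * (H 0 + ∑ j ∈ Finset.range m, lam (j + 1) * tc H (j + 1)) := by
    rw [hYeq, mul_add, Finset.mul_sum]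
    congr 1
    refine Finset.sum_congr rfl fun j _ => ?_
    rw [hlam]
    field_simp
  -- first lower bound
  have l1 : δ / (1 + p) * (H 0).re ≤ ‖Y‖ := by
    rw [hYZ, norm_mul]
    have h3 : (H 0 + ∑ j ∈ Finset.range m, lam (j + 1) * tc H (j + 1)).re
        = (((H 0).re : ℂ) + ∑ j ∈ Finset.range m, lam (j + 1) * tc H (j + 1)).re := by
      simp
    have h4 : δ / ((1 + p) * ‖Lam p m g‖) * (H 0).re
        ≤ ‖H 0 + ∑ j ∈ Finset.range m, lam (j + 1) * tc H (j + 1)‖ := by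
      refine hk.trans ?_
      rw [← h3]
      exact Complex.re_le_norm _
    calc δ / (1 + p) * (H 0).re = ‖Lam p m g‖ * (δ / ((1 + p) * ‖Lam p m g‖) * (H 0).re) := by
          field_simp
      _ ≤ _ := mul_le_mul_of_nonneg_left h4 hBn.le
  -- second lower bound
  have l2 : ‖H 0‖ ≤ ‖Y‖ + 2 * W * (H 0).re := by
    have h5 : Lam p m g * H 0 = Y - ∑ j ∈ Finset.range m, Lam p (m - (j + 1)) g * tc H (j + 1) := by
      rw [hYeq]; ring
    have h6 : ‖∑ j ∈ Finset.range m, Lam p (m - (j + 1)) g * tc H (j + 1)‖ ≤ 2 * W * (H 0).re := by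
      refine (norm_sum_le _ _).trans ?_
      have h7 : ∀ j ∈ Finset.range m, ‖Lam p (m - (j + 1)) g * tc H (j + 1)‖
          ≤ ‖Lam p (m - 1 - j) g‖ * (2 * (H 0).re) := by
        intro j _
        rw [norm_mul, show m - (j + 1) = m - 1 - j by omega]
        exact mul_le_mul_of_nonneg_left (cara hd hre (Nat.succ_pos j)) (norm_nonneg _)
      refine (Finset.sum_le_sum h7).trans ?_
      rw [← Finset.sum_mul, Finset.sum_range_reflect (fun k => ‖Lam p k g‖) m]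
      nlinarith
    have h8 : ‖Lam p m g‖ * ‖H 0‖ ≤ ‖Y‖ + 2 * W * (H 0).re := by
      rw [← norm_mul, h5]
      exact (norm_sub_le _ _).trans (by linarith)
    nlinarith [norm_nonneg (H 0)]
  have hW0 : 0 ≤ W := le_trans (Finset.sum_nonneg fun _ _ => norm_nonneg _) hW
  have l3 : (H 0).re ≤ (1 + p) / δ * ‖Y‖ := by
    rw [div_mul_eq_mul_div, le_div_iff₀ hδ]
    have := mul_le_mul_of_nonneg_left l1 (by linarith : (0 : ℝ) ≤ 1 + p)
    calc (H 0).re * δ = (1 + p) * (δ / (1 + p) * (H 0).re) := by field_simp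
      _ ≤ _ := this
  calc ‖H 0‖ ≤ ‖Y‖ + 2 * W * (H 0).re := l2
    _ ≤ ‖Y‖ + 2 * W * ((1 + p) / δ * ‖Y‖) := by
      have := mul_le_mul_of_nonneg_left l3 (by linarith : (0 : ℝ) ≤ 2 * W)
      linarith
    _ = _ := by ring

end

end Pool.Agent.helper358_ms
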