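import Pool.Agent.helper358_ms.Sig
import Pool.Agent.helper358_ms.Chain

/-! # Averages of coefficients along the path `E_x e^{su}` -/

set_option autoImplicit false

namespace Pool.Agent.helper358_ms

open Complex Metric Set Filter Topology PowerSeries MeasureTheory

noncomputable section

/-- `u = 2 ε x S H` with `Re H > 0` -/
theorem H_exists {c x a : ℂ} {h u : ℂ → ℂ} (hc : ‖c‖ < 1) (hx : ‖x‖ = 1)
    (ha : a = 2 * (1 - (‖c‖ ^ 2 : ℝ)) * x)
    (hhd : DifferentiableOn ℂ h (ball 0 1)) (hre : ∀ z ∈ ball (0 : ℂ) 1, 0 < (h z).re)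
    (hud : DifferentiableOn ℂ u (ball 0 1)) (hu0 : u 0 = 0)
    (hu : ∀ z ∈ ball (0 : ℂ) 1, deriv u z * Nw c (fun _ => x) z ^ 2 = a * (z * h z)) :
    ∃ s H : ℂ → ℂ, DifferentiableOn ℂ s (ball 0 1) ∧
      (∀ z ∈ ball (0 : ℂ) 1, (2 * s z + z * deriv s z) * Nw c (fun _ => x) z ^ 2 = 1) ∧
      DifferentiableOn ℂ H (ball 0 1) ∧ (∀ z ∈ ball (0 : ℂ) 1, 0 < (H z).re) ∧ H 0 = h 0 ∧
      ∀ z ∈ ball (0 : ℂ) 1, u z = z ^ 2 * (a * s z * H z) := by
  have hepos : 0 < 1 - ‖c‖ ^ 2 := by nlinarith [norm_nonneg c]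
  obtain ⟨e, he⟩ : ∃ e : ℝ, e = 1 - ‖c‖ ^ 2 := ⟨_, rfl⟩
  have hae : a = 2 * (e : ℂ) * x := by rw [ha, he]; push_cast; ring
  have hna : ‖a‖ = 2 * e := by
    rw [hae, norm_mul, norm_mul, hx, norm_two', Complex.norm_of_nonneg (by rw [he]; exact hepos.le), mul_one]
  have ha0 : a ≠ 0 := by
    rw [← norm_pos_iff, hna, he]; linarith
  have hxs : Sch (fun _ => x) := Sch.const hx.le
  have hN := fun z (hz : z ∈ ball (0 : ℂ) 1) => Nw_ne hc hxs hz
  have hNd : DifferentiableOn ℂ (Nw c (fun _ => x)) (ball 0 1) := Nw_diff hxs.holo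
  obtain ⟨s, hsd, hse, hσ⟩ := sigma_exists hc hx.le
  have hs0 : ∀ z ∈ ball (0 : ℂ) 1, s z ≠ 0 := by
    intro z hz h0
    have := hσ z hz
    rw [h0] at this
    simp at this
  obtain ⟨k, hk⟩ : ∃ k : ℂ → ℂ, k = fun z => a * h z / Nw c (fun _ => x) z ^ 2 := ⟨_, rfl⟩
  have hkd : DifferentiableOn ℂ k (ball 0 1) := by
    rw [hk]
    exact (hhd.const_mul a).div (hNd.pow 2) (fun z hz => pow_ne_zero _ (hN z hz))
  have hu' : ∀ z ∈ ball (0 : ℂ) 1, HasDerivAt u (z * k z) z := by
    intro z hz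
    have d := (hud.differentiableAt (isOpen_ball.mem_nhds hz)).hasDerivAt
    have e1 : deriv u z = z * k z := by
      rw [hk]
      have h1 := hu z hz
      have h2 := pow_ne_zero 2 (hN z hz)
      rw [mul_div_assoc', eq_div_iff h2]
      linear_combination h1
    rwa [e1] at d
  obtain ⟨v, hvd, huv, hve⟩ := div_sq hu0 hkd hu'
  obtain ⟨H, hH⟩ : ∃ H : ℂ → ℂ, H = fun z => v z / (a * s z) := ⟨_, rfl⟩
  have hHd : DifferentiableOn ℂ H (ball 0 1) := by
    rw [hH]
    exact hvd.div (hsd.const_mul a) (fun z hz => mul_ne_zero ha0 (hs0 z hz))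
  have hvH : ∀ z ∈ ball (0 : ℂ) 1, v z = a * s z * H z := by
    intro z hz
    rw [hH]
    exact (mul_div_cancel₀ _ (mul_ne_zero ha0 (hs0 z hz))).symm
  have hODE : ∀ z ∈ ball (0 : ℂ) 1, H z + s z * Nw c (fun _ => x) z ^ 2 * (z * deriv H z) = h z := by
    intro z hz
    have ds : HasDerivAt s (deriv s z) z :=
      (hsd.differentiableAt (isOpen_ball.mem_nhds hz)).hasDerivAt
    have dH : HasDerivAt H (deriv H z) z :=
      (hHd.differentiableAt (isOpen_ball.mem_nhds hz)).hasDerivAt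
    have dv : HasDerivAt v (a * deriv s z * H z + a * s z * deriv H z) z := by
      have d1 := (ds.const_mul a).fun_mul dH
      apply d1.congr_of_eventuallyEq
      filter_upwards [isOpen_ball.mem_nhds hz] with y hy
      exact hvH y hy
    have h1 := hve z hz
    rw [dv.deriv, hvH z hz, hk] at h1
    simp only at h1
    have h2 := pow_ne_zero 2 (hN z hz)
    rw [eq_div_iff h2] at h1
    have h3 := hse z hz
    apply mul_left_cancel₀ ha0
    linear_combination h1 - a * H z * h3
  have hH0 : H 0 = h 0 := by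
    have := hODE 0 mem0
    simpa using this
  have hHpos : ∀ z ∈ ball (0 : ℂ) 1, 0 < (H z).re := by
    apply first_zero hHd
    · rw [hH0]; exact hre 0 mem0
    · intro z hz hz0 hre0 _ m hm hzm
      have h1 := hODE z hz
      rw [hzm] at h1
      have h2 := congrArg Complex.re h1
      have h3 : (H z + s z * Nw c (fun _ => x) z ^ 2 * -(m : ℂ)).re
          = (H z).re - m * (s z * Nw c (fun _ => x) z ^ 2).re := by
        have : H z + s z * Nw c (fun _ => x) z ^ 2 * -(m : ℂ)
            = H z - (m : ℂ) * (s z * Nw c (fun _ => x) z ^ 2) := by ring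
        rw [this, sub_re, Complex.re_ofReal_mul]
      rw [h3, hre0] at h2
      have h4 := hre z hz
      have h5 := hσ z hz
      nlinarith [mul_nonneg hm h5.le]
  refine ⟨s, H, hsd, hse, hHd, hHpos, hH0, ?_⟩
  intro z hz
  rw [huv z, hvH z hz]

/-- the averaged coefficients -/
def avg (Ex u : ℂ → ℂ) (k : ℕ) : ℂ := ∫ s in (0 : ℝ)..1, tc (fun z => Ex z * Complex.exp (s * u z)) k

theorem tc_path_cont {Ex u : ℂ → ℂ} (hEx : DifferentiableOn ℂ Ex (ball 0 1))
    (hne : ∀ z ∈ ball (0 : ℂ) 1, Ex z ≠ 0) (hu : DifferentiableOn ℂ u (ball 0 1)) (hu0 : u 0 = 0)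
    (k : ℕ) : Continuous fun s : ℝ => tc (fun z => Ex z * Complex.exp (s * u z)) k :=
  continuous_iff_continuousAt.2 fun s => (coef_path hEx hne hu hu0 k s).continuousAt

theorem T_diff {Ex u E : ℂ → ℂ} (hEx : DifferentiableOn ℂ Ex (ball 0 1))
    (hne : ∀ z ∈ ball (0 : ℂ) 1, Ex z ≠ 0) (hu : DifferentiableOn ℂ u (ball 0 1)) (hu0 : u 0 = 0)
    (hE : ∀ z ∈ ball (0 : ℂ) 1, E z = Ex z * Complex.exp (u z)) :
    T E - T Ex = T u * PowerSeries.mk (avg Ex u) := by
  have aEx : AnalyticAt ℂ Ex 0 := analyticAt_zero one_pos hEx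
  have au : AnalyticAt ℂ u 0 := analyticAt_zero one_pos hu
  have aG : ∀ s : ℝ, AnalyticAt ℂ (fun z => Ex z * Complex.exp (s * u z)) 0 := fun s =>
    aEx.mul (analyticAt_const.mul au).cexp
  ext n
  rw [map_sub, coeff_T, coeff_T, PowerSeries.coeff_mul]
  simp only [coeff_T, PowerSeries.coeff_mk]
  have hF : ∀ s : ℝ, HasDerivAt (fun s : ℝ => tc (fun z => Ex z * Complex.exp (s * u z)) n)
      (∑ q ∈ Finset.HasAntidiagonal.antidiagonal n, tc u q.1 * tc (fun z => Ex z * Complex.exp (s * u z)) q.2) s := by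
    intro s
    have h1 := coef_path hEx hne hu hu0 n s
    have h2 : tc (fun z => Ex z * Complex.exp (s * u z) * u z) n
        = ∑ q ∈ Finset.HasAntidiagonal.antidiagonal n, tc u q.1 * tc (fun z => Ex z * Complex.exp (s * u z)) q.2 := by
      have h3 := congrArg (PowerSeries.coeff n) (T_mul (aG s) au)
      rw [mul_comm (T _), PowerSeries.coeff_mul] at h3
      simp only [coeff_T] at h3
      exact h3
    rw [h2] at h1
    exact h1
  have hcont : ∀ k, Continuous fun s : ℝ => tc (fun z => Ex z * Complex.exp (s * u z)) k :=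
    tc_path_cont hEx hne hu hu0
  have hcs : Continuous fun s : ℝ => ∑ q ∈ Finset.HasAntidiagonal.antidiagonal n,
      tc u q.1 * tc (fun z => Ex z * Complex.exp (s * u z)) q.2 :=
    continuous_finsetSum _ fun q _ => continuous_const.mul (hcont q.2)
  have h4 := intervalIntegral.integral_eq_sub_of_hasDerivAt (a := (0 : ℝ)) (b := 1)
    (fun s _ => hF s) (hcs.intervalIntegrable _ _)
  have e0 : tc (fun z => Ex z * Complex.exp (((0 : ℝ) : ℂ) * u z)) n = tc Ex n := by simp
  have e1 : tc (fun z => Ex z * Complex.exp (((1 : ℝ) : ℂ) * u z)) n = tc E n := by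
    apply tc_congr
    filter_upwards [isOpen_ball.mem_nhds mem0] with z hz
    rw [hE z hz]; simp
  rw [e0, e1] at h4
  rw [← h4, intervalIntegral.integral_finsetSum
    (fun q _ => (continuous_const.mul (hcont q.2)).intervalIntegrable _ _)]
  refine Finset.sum_congr rfl fun q _ => ?_
  rw [intervalIntegral.integral_const_mul]
  rfl

/-- a combination of averaged coefficients is the average of the combination -/
theorem avg_comb {Ex u : ℂ → ℂ} (hEx : DifferentiableOn ℂ Ex (ball 0 1))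
    (hne : ∀ z ∈ ball (0 : ℂ) 1, Ex z ≠ 0) (hu : DifferentiableOn ℂ u (ball 0 1)) (hu0 : u 0 = 0)
    (F : PowerSeries ℂ) (n : ℕ) {w : ℂ} {C : ℝ}
    (h : ∀ s : ℝ, 0 ≤ s → s ≤ 1 →
      ‖PowerSeries.coeff n (F * T (fun z => Ex z * Complex.exp (s * u z))) - w‖ ≤ C) :
    ‖PowerSeries.coeff n (F * PowerSeries.mk (avg Ex u)) - w‖ ≤ C := by
  have hcont : ∀ k, Continuous fun s : ℝ => tc (fun z => Ex z * Complex.exp (s * u z)) k :=
    tc_path_cont hEx hne hu hu0
  have e : PowerSeries.coeff n (F * PowerSeries.mk (avg Ex u)) - w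
      = ∫ s in (0 : ℝ)..1, (PowerSeries.coeff n (F * T (fun z => Ex z * Complex.exp (s * u z))) - w) := by
    have h1 : ∀ s : ℝ, PowerSeries.coeff n (F * T (fun z => Ex z * Complex.exp (s * u z))) - w
        = (∑ q ∈ Finset.HasAntidiagonal.antidiagonal n, PowerSeries.coeff q.1 F *
          tc (fun z => Ex z * Complex.exp (s * u z)) q.2) - w := by
      intro s
      rw [PowerSeries.coeff_mul]
      simp only [coeff_T]
    simp_rw [h1]
    have hc1 : Continuous fun s : ℝ => ∑ q ∈ Finset.HasAntidiagonal.antidiagonal n, PowerSeries.coeff q.1 F *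
          tc (fun z => Ex z * Complex.exp (s * u z)) q.2 :=
      continuous_finsetSum _ fun q _ => continuous_const.mul (hcont q.2)
    rw [intervalIntegral.integral_sub (hc1.intervalIntegrable _ _) (continuous_const.intervalIntegrable _ _),
      intervalIntegral.integral_finsetSum
      (fun q _ => (continuous_const.mul (hcont q.2)).intervalIntegrable _ _), PowerSeries.coeff_mul]
    congr 1
    · refine Finset.sum_congr rfl fun q _ => ?_
      rw [intervalIntegral.integral_const_mul, PowerSeries.coeff_mk]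
      rfl
    · simp
  rw [e]
  have h2 := intervalIntegral.norm_integral_le_of_norm_le_const (a := (0 : ℝ)) (b := 1) (C := C)
    (f := fun s : ℝ => PowerSeries.coeff n (F * T (fun z => Ex z * Complex.exp (s * u z))) - w) (by
      intro s hs
      rw [uIoc_of_le zero_le_one] at hs
      exact h s hs.1.le hs.2)
  simpa using h2

end

end Pool.Agent.helper358_ms
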