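import Pool.Agent.helper358_ms.TC

/-! # Maximum principles, Möbius maps, Harnack -/

set_option autoImplicit false

namespace Pool.Agent.helper358_ms

open Complex Metric Set Filter Topology

noncomputable section

/-- minimum principle for the real part -/
theorem re_nonneg_of_sphere {F : ℂ → ℂ} (hd : DifferentiableOn ℂ F (ball 0 1))
    (hc : ContinuousOn F (closedBall 0 1)) (hs : ∀ z ∈ sphere (0 : ℂ) 1, 0 ≤ (F z).re) :
    ∀ z ∈ closedBall (0 : ℂ) 1, 0 ≤ (F z).re := by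
  intro z hz
  have hcl : closure (ball (0 : ℂ) 1) = closedBall 0 1 := closure_ball _ one_ne_zero
  have h1 : DiffContOnCl ℂ (fun z => Complex.exp (-F z)) (ball 0 1) := by
    refine ⟨(hd.neg).cexp, ?_⟩
    rw [hcl]
    exact hc.neg.cexp
  have h2 := Complex.norm_le_of_forall_mem_frontier_norm_le (isBounded_ball) h1 (C := 1) ?_
    (z := z) (by rw [hcl]; exact hz)
  · simp only [Complex.norm_exp, neg_re] at h2
    rw [Real.exp_le_one_iff] at h2
    linarith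
  · intro w hw
    rw [frontier_ball _ one_ne_zero] at hw
    simp only [Complex.norm_exp, neg_re]
    rw [Real.exp_le_one_iff]
    have := hs w hw
    linarith

/-- strict positivity of the real part -/
theorem re_pos_of_nonneg {F : ℂ → ℂ} (hd : DifferentiableOn ℂ F (ball 0 1))
    (hs : ∀ z ∈ ball (0 : ℂ) 1, 0 ≤ (F z).re) {a : ℂ} (ha : a ∈ ball (0 : ℂ) 1)
    (hFa : 0 < (F a).re) : ∀ z ∈ ball (0 : ℂ) 1, 0 < (F z).re := by
  intro z hz
  rcases (hs z hz).lt_or_eq with h | h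
  · exact h
  exfalso
  have h1 : DifferentiableOn ℂ (fun z => Complex.exp (-F z)) (ball 0 1) := hd.neg.cexp
  have hmax : IsMaxOn (norm ∘ fun z => Complex.exp (-F z)) (ball 0 1) z := by
    intro w hw
    simp only [Function.comp, mem_ofPred_eq, Complex.norm_exp, neg_re, ← h]
    rw [neg_zero, Real.exp_zero, Real.exp_le_one_iff]
    have := hs w hw
    linarith
  have h2 := Complex.norm_eqOn_of_isPreconnected_of_isMaxOn (convex_ball (0 : ℂ) 1).isPreconnected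
    isOpen_ball h1 hz hmax ha
  simp only [Function.comp, Complex.norm_exp, neg_re, ← h, neg_zero, Real.exp_zero,
    Function.const_apply, Real.exp_eq_one_iff] at h2
  linarith

/-- Schwarz lemma -/
theorem schwarz {F : ℂ → ℂ} (hd : DifferentiableOn ℂ F (ball 0 1))
    (hm : ∀ z ∈ ball (0 : ℂ) 1, ‖F z‖ < 1) (h0 : F 0 = 0) {z : ℂ} (hz : z ∈ ball (0 : ℂ) 1) :
    ‖F z‖ ≤ ‖z‖ := by
  have := Complex.norm_le_norm_of_mapsTo_ball (R := 1) hd
    (fun z hz => ball_subset_closedBall (mem_ball_zero_iff.2 (hm z hz))) h0 (mem_ball_zero_iff.1 hz)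
  exact this

/-- If `|z φ(z)| ≤ 1` in the disc then `|φ| ≤ 1`. -/
theorem norm_le_of_mul {φ : ℂ → ℂ} (hd : DifferentiableOn ℂ φ (ball 0 1))
    (hm : ∀ z ∈ ball (0 : ℂ) 1, ‖z * φ z‖ < 1) {z : ℂ} (hz : z ∈ ball (0 : ℂ) 1) : ‖φ z‖ ≤ 1 := by
  have h1 : ∀ z ∈ ball (0 : ℂ) 1, z ≠ 0 → ‖φ z‖ ≤ 1 := by
    intro z hz hz0
    have h := schwarz (F := fun z => z * φ z) (differentiableOn_id.mul hd) hm (by simp) hz
    rw [norm_mul] at h
    have hz0' := norm_pos_iff.2 hz0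
    nlinarith
  by_cases hz0 : z = 0
  · subst hz0
    have hc : ContinuousAt (fun z => ‖φ z‖) 0 :=
      ((hd.differentiableAt (isOpen_ball.mem_nhds hz)).continuousAt).norm
    have h2 : Tendsto (fun z => ‖φ z‖) (𝓝[≠] 0) (𝓝 ‖φ 0‖) := hc.tendsto.mono_left nhdsWithin_le_nhds
    refine le_of_tendsto h2 ?_
    filter_upwards [self_mem_nhdsWithin, mem_nhdsWithin_of_mem_nhds (isOpen_ball.mem_nhds hz)] with w hw hwb
    exact h1 w hwb hw
  · exact h1 z hz hz0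

/-- the disc automorphism with `0 ↦ p` -/
def mob (p : ℝ) (ζ : ℂ) : ℂ := (ζ + p) / (1 + p * ζ)

theorem one_add_ne {p : ℝ} (hp : |p| ≤ 1) {ζ : ℂ} (hζ : ζ ∈ ball (0 : ℂ) 1) : 1 + (p : ℂ) * ζ ≠ 0 := by
  intro h
  have h1 : (p : ℂ) * ζ = -1 := by linear_combination h
  have h2 : ‖(p : ℂ) * ζ‖ = 1 := by rw [h1]; simp
  rw [norm_mul, Complex.norm_real, Real.norm_eq_abs] at h2
  have h3 := mem_ball_zero_iff.1 hζ
  have h4 := norm_nonneg ζ
  nlinarith [abs_nonneg p]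

theorem one_sub_ne {p : ℝ} (hp : |p| ≤ 1) {ζ : ℂ} (hζ : ζ ∈ ball (0 : ℂ) 1) : 1 - (p : ℂ) * ζ ≠ 0 := by
  have := one_add_ne (p := -p) (by rwa [abs_neg]) hζ
  push_cast at this
  intro h
  apply this
  linear_combination h

theorem mob_mem {p : ℝ} (hp : |p| < 1) {ζ : ℂ} (hζ : ζ ∈ ball (0 : ℂ) 1) : mob p ζ ∈ ball (0 : ℂ) 1 := by
  have hne := one_add_ne hp.le hζ
  rw [mem_ball_zero_iff] at hζ ⊢
  unfold mob
  rw [norm_div, div_lt_one (norm_pos_iff.2 hne)]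
  apply lt_of_pow_lt_pow_left₀ 2 (norm_nonneg _)
  rw [← Complex.normSq_eq_norm_sq, ← Complex.normSq_eq_norm_sq]
  have h1 : ‖ζ‖ ^ 2 < 1 := by nlinarith [norm_nonneg ζ]
  rw [← Complex.normSq_eq_norm_sq] at h1
  have h2 : p ^ 2 < 1 := by nlinarith [abs_nonneg p, sq_abs p]
  simp only [Complex.normSq_apply, add_re, add_im, ofReal_re, ofReal_im, mul_re, mul_im, one_re,
    one_im] at h1 ⊢
  nlinarith

theorem mob_mul {p : ℝ} (hp : |p| ≤ 1) {ζ : ℂ} (hζ : ζ ∈ ball (0 : ℂ) 1) :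
    mob p ζ * (1 + p * ζ) = ζ + p := by
  unfold mob
  rw [div_mul_cancel₀ _ (one_add_ne hp hζ)]

theorem mob_left {p : ℝ} (hp : |p| < 1) {ζ : ℂ} (hζ : ζ ∈ ball (0 : ℂ) 1) :
    mob (-p) (mob p ζ) = ζ := by
  have hne := one_add_ne hp.le hζ
  have hne2 := one_add_ne (p := -p) (by rw [abs_neg]; exact hp.le) (mob_mem hp hζ)
  have hm := mob_mul hp.le hζ
  obtain ⟨m, hmd⟩ : ∃ m, m = mob p ζ := ⟨_, rfl⟩
  rw [← hmd] at hne2 hm ⊢
  unfold mob
  rw [div_eq_iff hne2]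
  apply mul_right_cancel₀ hne
  push_cast
  linear_combination (1 + p * ζ) * hm

theorem mob_diff {p : ℝ} (hp : |p| ≤ 1) {ζ : ℂ} (hζ : ζ ∈ ball (0 : ℂ) 1) :
    HasDerivAt (mob p) ((1 - p ^ 2) / (1 + p * ζ) ^ 2) ζ := by
  have hne := one_add_ne hp hζ
  have h1 : HasDerivAt (fun ζ : ℂ => ζ + p) 1 ζ := (hasDerivAt_id ζ).add_const _
  have h2 : HasDerivAt (fun ζ : ℂ => 1 + (p : ℂ) * ζ) (p * 1) ζ :=
    ((hasDerivAt_id ζ).const_mul (p : ℂ)).const_add 1
  have h3 := h1.div h2 hne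
  refine h3.congr_deriv ?_
  congr 1
  ring

end

end Pool.Agent.helper358_ms
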