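import Pool.Agent.helper358_ms.Der

/-! # Coefficient bounds along the path -/

set_option autoImplicit false

namespace Pool.Agent.helper358_ms

open Complex Metric Set Filter Topology PowerSeries

noncomputable section

theorem norm_two' : ‖(2 : ℂ)‖ = 2 := by simp

/-- the series of `u'` -/
theorem u_formal {c x a : ℂ} {h u : ℂ → ℂ} (hhd : DifferentiableOn ℂ h (ball 0 1))
    (hud : DifferentiableOn ℂ u (ball 0 1))
    (hu : ∀ z ∈ ball (0 : ℂ) 1, deriv u z * Nw c (fun _ => x) z ^ 2 = a * (z * h z)) :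
    PowerSeries.derivative ℂ (T u) * T (Nw c (fun _ => x)) ^ 2 = PowerSeries.C a * (X * T h) := by
  have ah : AnalyticAt ℂ h 0 := analyticAt_zero one_pos hhd
  have au' : AnalyticAt ℂ (deriv u) 0 := analyticAt_zero one_pos (hud.deriv isOpen_ball)
  have aN : AnalyticAt ℂ (Nw c (fun _ => x)) 0 :=
    analyticAt_zero one_pos (Nw_diff (differentiableOn_const x))
  have aid : AnalyticAt ℂ (fun z : ℂ => z) 0 := analyticAt_id
  have azh : AnalyticAt ℂ (fun z : ℂ => z * h z) 0 := aid.mul ah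
  have aN2 : AnalyticAt ℂ (fun z : ℂ => Nw c (fun _ => x) z ^ 2) 0 := aN.pow 2
  have hev : (fun z => deriv u z * (fun z => Nw c (fun _ => x) z ^ 2) z) =ᶠ[𝓝 0]
      fun z => (fun _ => a) z * (fun z => z * h z) z := by
    filter_upwards [isOpen_ball.mem_nhds mem0] with z hz
    exact hu z hz
  have := T_congr hev
  rw [T_mul au' aN2, T_mul (f := fun _ => a) analyticAt_const azh, T_pow aN, T_const, T_mul aid ah,
    T_id, T_deriv] at this
  exact this

theorem h_maj {h : ℂ → ℂ} (hhd : DifferentiableOn ℂ h (ball 0 1))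
    (hre : ∀ z ∈ ball (0 : ℂ) 1, 0 < (h z).re) :
    Maj (T h) (PowerSeries.C ‖h 0‖ * ((1 + X) * B 0)) := by
  intro n
  rw [PowerSeries.coeff_C_mul, coeff_T]
  have e : (1 + X) * B 0 = B 0 + X * B 0 := by ring
  rw [e]
  rcases n with _ | n
  · rw [tc_zero, map_add, coeff_B, PowerSeries.coeff_zero_X_mul]
    simp
  · rw [map_add, PowerSeries.coeff_succ_X_mul, coeff_B, coeff_B]
    have h1 := cara hhd hre (k := n + 1) (by omega)
    have h2 := re_le_norm (h 0)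
    simp
    linarith

theorem u_maj {c x a : ℂ} {h u : ℂ → ℂ} (hc : ‖c‖ < 1) (hx : ‖x‖ ≤ 1)
    (hhd : DifferentiableOn ℂ h (ball 0 1)) (hre : ∀ z ∈ ball (0 : ℂ) 1, 0 < (h z).re)
    (hud : DifferentiableOn ℂ u (ball 0 1)) (hu0 : u 0 = 0)
    (hu : ∀ z ∈ ball (0 : ℂ) 1, deriv u z * Nw c (fun _ => x) z ^ 2 = a * (z * h z)) :
    Maj (T u) (PowerSeries.C (‖a‖ / 2 * ‖h 0‖) * (X ^ 2 * B 3)) := by
  obtain ⟨α, β, hα, hβ, h1, h2⟩ := exists_roots hc hx
  have hN := T_Nw_roots h1 h2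
  have hf := u_formal hhd hud hu
  obtain ⟨M, hM⟩ : ∃ M : PowerSeries ℂ, M = PowerSeries.mk (fun n => α ^ n) * PowerSeries.mk (fun n => β ^ n) :=
    ⟨_, rfl⟩
  have hMN : T (Nw c (fun _ => x)) * M = 1 := by
    rw [hN, hM]
    calc _ = ((1 - PowerSeries.C α * X) * PowerSeries.mk (fun n => α ^ n)) *
          ((1 - PowerSeries.C β * X) * PowerSeries.mk (fun n => β ^ n)) := by ring
      _ = 1 := by rw [geom_mul, geom_mul, one_mul]
  have hMm : Maj M (B 1) := by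
    rw [hM]
    have := (geom_maj hα).mul (geom_maj hβ)
    rwa [B_mul] at this
  have hu' : PowerSeries.derivative ℂ (T u) = PowerSeries.C a * (X * (T h * (M * M))) := by
    calc PowerSeries.derivative ℂ (T u)
        = PowerSeries.derivative ℂ (T u) * (T (Nw c (fun _ => x)) * M) ^ 2 := by rw [hMN]; ring
      _ = (PowerSeries.derivative ℂ (T u) * T (Nw c (fun _ => x)) ^ 2) * (M * M) := by ring
      _ = _ := by rw [hf]; ring
  have hmaj : Maj (PowerSeries.derivative ℂ (T u))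
      (PowerSeries.C ‖a‖ * (X * ((PowerSeries.C ‖h 0‖ * ((1 + X) * B 0)) * (B 1 * B 1)))) := by
    rw [hu']
    exact (((h_maj hhd hre).mul (hMm.mul hMm)).X_mul).C_mul a
  have hBB : (PowerSeries.C ‖a‖ * (X * ((PowerSeries.C ‖h 0‖ * ((1 + X) * B 0)) * (B 1 * B 1))))
      = PowerSeries.derivative ℝ (PowerSeries.C (‖a‖ / 2 * ‖h 0‖) * (X ^ 2 * B 3)) := by
    have e1 : B 0 * (B 1 * B 1) = B 4 := by rw [B_mul, B_mul]
    have e2 : PowerSeries.derivative ℝ (PowerSeries.C (‖a‖ / 2 * ‖h 0‖) * (X ^ 2 * B 3))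
        = PowerSeries.C (‖a‖ / 2 * ‖h 0‖) * PowerSeries.derivative ℝ (X ^ 2 * B 3) := by
      rw [Derivation.leibniz, PowerSeries.derivative_C]
      simp
    rw [e2, deriv_B3]
    have e3 : (PowerSeries.C (‖a‖ / 2 * ‖h 0‖) : PowerSeries ℝ) * 2 = PowerSeries.C ‖a‖ * PowerSeries.C ‖h 0‖ := by
      have two : (2 : PowerSeries ℝ) = PowerSeries.C (2 : ℝ) := (map_ofNat PowerSeries.C 2).symm
      rw [two, ← map_mul, ← map_mul]
      congr 1
      ring
    calc _ = PowerSeries.C ‖a‖ * PowerSeries.C ‖h 0‖ * (X * ((1 + X) * (B 0 * (B 1 * B 1)))) := by ring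
      _ = _ := by rw [e1, ← e3]; ring
  rw [hBB] at hmaj
  intro n
  rcases n with _ | n
  · rw [coeff_T, tc_zero, hu0]
    simp
  · have h3 := hmaj n
    rw [PowerSeries.coeff_derivative, PowerSeries.coeff_derivative, norm_mul] at h3
    have h4 : ‖((n : ℂ) + 1)‖ = (n : ℝ) + 1 := by
      have : ((n : ℂ) + 1) = (((n : ℝ) + 1 : ℝ) : ℂ) := by push_cast; ring
      rw [this, Complex.norm_of_nonneg (by positivity)]
    rw [h4] at h3
    exact le_of_mul_le_mul_right h3 (by positivity)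

/-- first coefficients of `u` -/
theorem u_coefs {c x a : ℂ} {h u : ℂ → ℂ} (hhd : DifferentiableOn ℂ h (ball 0 1))
    (hud : DifferentiableOn ℂ u (ball 0 1)) (hu0 : u 0 = 0)
    (hu : ∀ z ∈ ball (0 : ℂ) 1, deriv u z * Nw c (fun _ => x) z ^ 2 = a * (z * h z)) :
    tc u 0 = 0 ∧ tc u 1 = 0 ∧ tc u 2 = a / 2 * tc h 0 ∧
    tc u 3 = a / 3 * (tc h 1 + 2 * (c - (starRingEnd ℂ) c * x) * tc h 0) ∧
    tc u 4 = a / 4 * (tc h 2 + 2 * (c - (starRingEnd ℂ) c * x) * tc h 1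
      + (3 * (c - (starRingEnd ℂ) c * x) ^ 2 + 2 * x) * tc h 0) := by
  have hf := u_formal hhd hud hu
  rw [T_Nw] at hf
  obtain ⟨ν, hν⟩ : ∃ ν : ℂ, ν = c - (starRingEnd ℂ) c * x := ⟨_, rfl⟩
  rw [← hν] at hf ⊢
  have e : (1 - PowerSeries.C ν * X - PowerSeries.C x * (X * X)) ^ 2
      = 1 - PowerSeries.C (2 * ν) * X + (PowerSeries.C (ν ^ 2 - 2 * x)) * X ^ 2
        + PowerSeries.C (2 * ν * x) * X ^ 3 + PowerSeries.C (x ^ 2) * X ^ 4 := by
    have two : (2 : PowerSeries ℂ) = PowerSeries.C (2 : ℂ) := (map_ofNat PowerSeries.C 2).symm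
    simp only [map_mul, map_sub, map_pow, ← two]
    ring
  rw [e] at hf
  have hf2 : PowerSeries.derivative ℂ (T u) - PowerSeries.C (2 * ν) * (PowerSeries.derivative ℂ (T u) * X)
      + PowerSeries.C (ν ^ 2 - 2 * x) * (PowerSeries.derivative ℂ (T u) * X ^ 2)
      + PowerSeries.C (2 * ν * x) * (PowerSeries.derivative ℂ (T u) * X ^ 3)
      + PowerSeries.C (x ^ 2) * (PowerSeries.derivative ℂ (T u) * X ^ 4) = PowerSeries.C a * (T h * X) := by
    rw [mul_comm (T h) X, ← hf]; ring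
  obtain ⟨m1, hm1⟩ : ∃ m1 : ℂ, m1 = 2 * ν := ⟨_, rfl⟩
  obtain ⟨m2, hm2⟩ : ∃ m2 : ℂ, m2 = ν ^ 2 - 2 * x := ⟨_, rfl⟩
  obtain ⟨m3, hm3⟩ : ∃ m3 : ℂ, m3 = 2 * ν * x := ⟨_, rfl⟩
  obtain ⟨m4, hm4⟩ : ∃ m4 : ℂ, m4 = x ^ 2 := ⟨_, rfl⟩
  rw [← hm3, ← hm1, ← hm2, ← hm4] at hf2
  have k0 := congrArg (PowerSeries.coeff 0) hf2
  have k1 := congrArg (PowerSeries.coeff 1) hf2
  have k2 := congrArg (PowerSeries.coeff 2) hf2
  have k3 := congrArg (PowerSeries.coeff 3) hf2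
  have X1 : ∀ (f : PowerSeries ℂ) (n : ℕ), PowerSeries.coeff n (f * X) = if 1 ≤ n then PowerSeries.coeff (n - 1) f else 0 := by
    intro f n
    have := PowerSeries.coeff_mul_X_pow' f 1 n
    simpa using this
  simp only [map_add, map_sub, PowerSeries.coeff_C_mul, X1, PowerSeries.coeff_mul_X_pow',
    PowerSeries.coeff_derivative, coeff_T] at k0 k1 k2 k3
  norm_num at k0 k1 k2 k3
  have t0 : tc u 0 = 0 := by rw [tc_zero, hu0]
  have t1 : tc u 1 = 0 := k0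
  rw [t1] at k1 k2 k3
  have t2 : tc u 2 = a / 2 * tc h 0 := by linear_combination (1 / 2 : ℂ) * k1
  rw [t2] at k2 k3
  rw [hm1] at k2 k3
  rw [hm2] at k3
  have t3 : tc u 3 = a / 3 * (tc h 1 + 2 * ν * tc h 0) := by linear_combination (1 / 3 : ℂ) * k2
  rw [t3] at k3
  refine ⟨t0, t1, t2, t3, ?_⟩
  linear_combination (1 / 4 : ℂ) * k3

end

end Pool.Agent.helper358_ms
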