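import Pool.Agent.helper358_ms.GB2

/-! # The chain of inequalities for `p ≤ 1/3` -/

set_option autoImplicit false

namespace Pool.Agent.helper358_ms

open Complex Metric Set Filter Topology

noncomputable section

/-- the properties of the coefficient sequence used in the chain -/
structure GSeq (c x : ℂ) (g : ℕ → ℂ) : Prop where
  g0 : g 0 = 1
  g1 : g 1 = -(2 / 3 * c + 4 / 3 * ((starRingEnd ℂ) c * x))
  g2 : ‖g 2 - kap2 c x‖ ≤ 1 - ‖c‖ ^ 2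
  g3 : ‖g 3‖ ≤ 7 / 2
  gi : ∀ i, 4 ≤ i → ‖g i‖ ≤ 2 ^ (i - 1)

theorem poly1 {s u v : ℝ} (hs : 10 / 3 ≤ s) (hu : u ≤ 1) (hu' : -1 ≤ u) (hv : v ≤ 1) (hv' : -1 ≤ v) :
    24 / 5 ≤ s ^ 2 - 3 - s * (2 / 3 * (u + 2 * v)) + 10 / 3 * v ^ 2 + 2 / 3 * (u * v) := by
  nlinarith [sq_nonneg (v - 17 / 30), mul_nonneg (sub_nonneg.2 hu) (sub_nonneg.2 hv),
    mul_nonneg (sub_nonneg.2 hs) (sub_nonneg.2 hu), mul_nonneg (sub_nonneg.2 hs) (sub_nonneg.2 hv),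
    mul_nonneg (sub_nonneg.2 hs) (sub_nonneg.2 hs)]

theorem poly2 {p s u v : ℝ} (hp : p ≤ 1 / 3) (hp0 : 0 < p) (hs : 6 - 8 * p ≤ s) (hu : u ≤ 1) (hu' : -1 ≤ u)
    (hv : v ≤ 1) (hv' : -1 ≤ v) :
    (14 / 9) * ((p ^ 2 - 2 * p * (2 / 3 * (u + 2 * v)) + 4 + (89 / 50) ^ 2) * (25 / 89)) + 1 / 5 + 227 / 20 ≤
    3 * (s ^ 2 - 3 - s * (2 / 3 * (u + 2 * v)) + 10 / 3 * v ^ 2 + 2 / 3 * (u * v)) := by
  have h1 : (6 - 8 * p) ^ 2 - 3 - (6 - 8 * p) * (2 / 3 * (u + 2 * v)) + 10 / 3 * v ^ 2 + 2 / 3 * (u * v)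
      ≤ s ^ 2 - 3 - s * (2 / 3 * (u + 2 * v)) + 10 / 3 * v ^ 2 + 2 / 3 * (u * v) := by
    nlinarith [mul_nonneg (sub_nonneg.2 hs) (sub_nonneg.2 hu), mul_nonneg (sub_nonneg.2 hs) (sub_nonneg.2 hv),
      mul_nonneg (sub_nonneg.2 hs) (sub_nonneg.2 hs), mul_nonneg (sub_nonneg.2 hs) (sub_nonneg.2 hp)]
  have h2 : (14 / 9) * ((p ^ 2 - 2 * p * (2 / 3 * (u + 2 * v)) + 4 + (89 / 50) ^ 2) * (25 / 89)) + 1 / 5 + 227 / 20 ≤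
    3 * ((6 - 8 * p) ^ 2 - 3 - (6 - 8 * p) * (2 / 3 * (u + 2 * v)) + 10 / 3 * v ^ 2 + 2 / 3 * (u * v)) := by
    obtain ⟨w, hw⟩ : ∃ w, w = 1 / 3 - p := ⟨_, rfl⟩
    have hw0 : 0 ≤ w := by rw [hw]; linarith
    have hpw : p = 1 / 3 - w := by rw [hw]; ring
    have hw1 : w < 1 / 3 := by linarith
    subst hpw
    nlinarith [sq_nonneg (v - 547 / 1000), mul_nonneg (sub_nonneg.2 hu) (sub_nonneg.2 hv),
      mul_nonneg hw0 (sub_nonneg.2 hu), mul_nonneg hw0 (sub_nonneg.2 hv), mul_nonneg hw0 hw0]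
  linarith

theorem re_B2 {ρ a u1 u2 v1 v2 x1 s : ℝ} (hu : u1 ^ 2 + u2 ^ 2 = ρ) (hv : v1 ^ 2 + v2 ^ 2 = ρ)
    (hx : -1 ≤ x1) (hρ : ρ ≤ 1) (ha : a ≤ 1 - ρ) :
    s ^ 2 - 3 - s * (2 / 3 * (u1 + 2 * v1)) + 10 / 3 * v1 ^ 2 + 2 / 3 * (u1 * v1) ≤
    s ^ 2 - 1 - s * (2 / 3 * u1 + 4 / 3 * v1) + (3 / 2 * (v1 ^ 2 - v2 ^ 2) - 1 / 6 * (u1 ^ 2 - u2 ^ 2)
      + 2 / 3 * (u1 * v1 - u2 * v2) + (1 - ρ) * x1) - a := by
  nlinarith [sq_nonneg (u2 - v2), mul_nonneg (sub_nonneg.2 hρ) (by linarith : 0 ≤ 1 + x1)]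

theorem norm_kap' {c v : ℂ} {ρ : ℝ} (hc : ‖c‖ ^ 2 = ρ) (hv : ‖v‖ ^ 2 = ρ) :
    ‖3 / 2 * v ^ 2 - 1 / 6 * c ^ 2 + 2 / 3 * (c * v)‖ ≤ 201 / 100 * ρ := by
  have hρ : 0 ≤ ρ := by rw [← hc]; positivity
  rw [← Complex.normSq_eq_norm_sq, Complex.normSq_apply] at hc hv
  apply le_of_sq_le_sq _ (by positivity)
  rw [← Complex.normSq_eq_norm_sq, Complex.normSq_apply]
  obtain ⟨u1, hu1⟩ : ∃ u1, u1 = c.re := ⟨_, rfl⟩
  obtain ⟨u2, hu2⟩ : ∃ u2, u2 = c.im := ⟨_, rfl⟩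
  obtain ⟨v1, hv1⟩ : ∃ v1, v1 = v.re := ⟨_, rfl⟩
  obtain ⟨v2, hv2⟩ : ∃ v2, v2 = v.im := ⟨_, rfl⟩
  have er : (3 / 2 * v ^ 2 - 1 / 6 * c ^ 2 + 2 / 3 * (c * v)).re
      = 3 / 2 * (v1 ^ 2 - v2 ^ 2) - 1 / 6 * (u1 ^ 2 - u2 ^ 2) + 2 / 3 * (u1 * v1 - u2 * v2) := by
    rw [hu1, hu2, hv1, hv2]
    simp [sq]
  have ei : (3 / 2 * v ^ 2 - 1 / 6 * c ^ 2 + 2 / 3 * (c * v)).im
      = 3 / 2 * (2 * v1 * v2) - 1 / 6 * (2 * u1 * u2) + 2 / 3 * (u1 * v2 + u2 * v1) := by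
    rw [hu1, hu2, hv1, hv2]
    simp [sq]
    ring
  rw [er, ei]
  rw [← hu1, ← hu2] at hc
  rw [← hv1, ← hv2] at hv
  obtain ⟨t, ht⟩ : ∃ t, t = u1 * v1 + u2 * v2 := ⟨_, rfl⟩
  have key : (3 / 2 * (v1 ^ 2 - v2 ^ 2) - 1 / 6 * (u1 ^ 2 - u2 ^ 2) + 2 / 3 * (u1 * v1 - u2 * v2)) *
      (3 / 2 * (v1 ^ 2 - v2 ^ 2) - 1 / 6 * (u1 ^ 2 - u2 ^ 2) + 2 / 3 * (u1 * v1 - u2 * v2)) +
      (3 / 2 * (2 * v1 * v2) - 1 / 6 * (2 * u1 * u2) + 2 / 3 * (u1 * v2 + u2 * v1)) *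
      (3 / 2 * (2 * v1 * v2) - 1 / 6 * (2 * u1 * u2) + 2 / 3 * (u1 * v2 + u2 * v1))
      = 9 / 4 * (v1 * v1 + v2 * v2) ^ 2 + 1 / 36 * (u1 * u1 + u2 * u2) ^ 2
        + 17 / 18 * ((u1 * u1 + u2 * u2) * (v1 * v1 + v2 * v2))
        + (2 * (v1 * v1 + v2 * v2) - 2 / 9 * (u1 * u1 + u2 * u2)) * t - t ^ 2 := by
    rw [ht]; ring
  rw [key, hc, hv]
  nlinarith [sq_nonneg (t - 8 / 9 * ρ), sq_nonneg ρ]

theorem Lam2 {p : ℝ} (hp0 : 0 < p) (hp1 : p < 1) (e : ℕ → ℂ) :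
    Lam p 2 e = ((p + p⁻¹) ^ 2 - 1 : ℝ) * e 0 + ((p + p⁻¹ : ℝ) : ℂ) * e 1 + e 2 := by
  unfold Lam
  rw [Finset.sum_range_succ, Finset.sum_range_succ, Finset.sum_range_succ, Finset.sum_range_zero]
  have h0 : U p (2 - 2) = 1 := by rw [Nat.sub_self, U_zero hp0 hp1]
  have h1 : U p (2 - 1) = p + p⁻¹ := U_one hp0 hp1
  have h2 : U p (2 - 0) = (p + p⁻¹) ^ 2 - 1 := by
    rw [Nat.sub_zero, U_succ_succ hp0 0, U_zero hp0 hp1, zero_add, U_one hp0 hp1]; ring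
  rw [h0, h1, h2]
  push_cast
  ring

/-- base of the chain -/
theorem chain_base {p : ℝ} (hp0 : 0 < p) (hp : p ≤ 1 / 3) {c x : ℂ} (hc : ‖c‖ < 1) (hx : ‖x‖ = 1)
    {g : ℕ → ℂ} (hg : GSeq c x g) :
    24 / 5 ≤ ‖Lam p 2 g‖ ∧ ‖tt p g 3‖ ≤ 24 / 5 ∧
    1 + ‖tt p g 1‖ + ‖tt p g 2‖ + 2 * ‖tt p g 3‖ + 1 / 5 ≤ 3 * ‖Lam p 2 g‖ := by
  have hp1 : p < 1 := by linarith
  obtain ⟨v, hv⟩ : ∃ v : ℂ, v = (starRingEnd ℂ) c * x := ⟨_, rfl⟩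
  have hvn : ‖v‖ = ‖c‖ := by rw [hv, norm_mul, Complex.norm_conj, hx, mul_one]
  have hg1 := hg.g1
  rw [← hv] at hg1
  obtain ⟨ρ, hρ⟩ : ∃ ρ, ρ = ‖c‖ ^ 2 := ⟨_, rfl⟩
  have hρ1 : ρ ≤ 1 := by rw [hρ]; nlinarith [norm_nonneg c]
  have hρ0 : 0 ≤ ρ := by rw [hρ]; positivity
  have hc2 : ‖c‖ ^ 2 = ρ := hρ.symm
  have hv2 : ‖v‖ ^ 2 = ρ := by rw [hvn]; exact hc2
  have hk := norm_kap' hc2 hv2
  have hk2 : kap2 c x = (3 / 2 * v ^ 2 - 1 / 6 * c ^ 2 + 2 / 3 * (c * v)) + (1 - (ρ : ℝ)) * x := by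
    unfold kap2; rw [← hv, hρ]
  obtain ⟨y, hy⟩ : ∃ y, y = g 2 - kap2 c x := ⟨_, rfl⟩
  have hyn : ‖y‖ ≤ 1 - ρ := by rw [hy, hρ]; exact hg.g2
  have hg2 : g 2 = (3 / 2 * v ^ 2 - 1 / 6 * c ^ 2 + 2 / 3 * (c * v)) + (1 - (ρ : ℝ)) * x + y := by
    rw [hy, ← hk2]; ring
  have heps : ‖(1 - (ρ : ℂ))‖ = 1 - ρ := by
    have : (1 - (ρ : ℂ)) = ((1 - ρ : ℝ) : ℂ) := by push_cast; ring
    rw [this, Complex.norm_of_nonneg (by linarith)]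
  have hg2n : ‖g 2‖ ≤ 201 / 100 := by
    rw [hg2]
    refine (norm_add₃_le).trans ?_
    rw [norm_mul, heps, hx]
    linarith
  -- the real parts
  obtain ⟨s, hs⟩ : ∃ s, s = p + p⁻¹ := ⟨_, rfl⟩
  have hpinv : p * p⁻¹ = 1 := mul_inv_cancel₀ hp0.ne'
  have hs2 : 6 - 8 * p ≤ s := by
    rw [hs]
    have : 0 ≤ p⁻¹ * (3 * p - 1) ^ 2 := by positivity
    nlinarith
  have hs1 : 10 / 3 ≤ s := by linarith
  have hcs : c.re ^ 2 + c.im ^ 2 = ρ := by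
    rw [← hc2, ← Complex.normSq_eq_norm_sq, Complex.normSq_apply]; ring
  have hvs : v.re ^ 2 + v.im ^ 2 = ρ := by
    rw [← hv2, ← Complex.normSq_eq_norm_sq, Complex.normSq_apply]; ring
  have hxs : -1 ≤ x.re := by
    have := Complex.abs_re_le_norm x
    rw [hx] at this
    exact (abs_le.1 this).1
  have hu1 : c.re ≤ 1 := by nlinarith [sq_nonneg c.im]
  have hu1' : -1 ≤ c.re := by nlinarith [sq_nonneg c.im]
  have hv1 : v.re ≤ 1 := by nlinarith [sq_nonneg v.im]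
  have hv1' : -1 ≤ v.re := by nlinarith [sq_nonneg v.im]
  obtain ⟨β, hβ⟩ : ∃ β, β = s ^ 2 - 3 - s * (2 / 3 * (c.re + 2 * v.re)) + 10 / 3 * v.re ^ 2
      + 2 / 3 * (c.re * v.re) := ⟨_, rfl⟩
  have hBre : β ≤ (Lam p 2 g).re := by
    rw [Lam2 hp0 hp1, ← hs, hg.g0, hg1, hg2, hβ]
    have h1 := re_B2 (s := s) (x1 := x.re) hcs hvs hxs hρ1 hyn
    refine h1.trans ?_
    have hyr : -‖y‖ ≤ y.re := (abs_le.1 (Complex.abs_re_le_norm y)).1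
    have e : (((s ^ 2 - 1 : ℝ) : ℂ) * 1 + (s : ℂ) * -(2 / 3 * c + 4 / 3 * v)
        + ((3 / 2 * v ^ 2 - 1 / 6 * c ^ 2 + 2 / 3 * (c * v)) + (1 - (ρ : ℂ)) * x + y)).re
        = s ^ 2 - 1 - s * (2 / 3 * c.re + 4 / 3 * v.re) + (3 / 2 * (v.re ^ 2 - v.im ^ 2)
          - 1 / 6 * (c.re ^ 2 - c.im ^ 2) + 2 / 3 * (c.re * v.re - c.im * v.im) + (1 - ρ) * x.re) + y.re := by
      simp [sq]
      ring
    rw [e]
    linarith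
  have hBn : β ≤ ‖Lam p 2 g‖ := hBre.trans (Complex.re_le_norm _)
  have hβ1 : 24 / 5 ≤ β := by rw [hβ]; exact poly1 hs1 hu1 hu1' hv1 hv1'
  -- the numbers `t`
  have ht1 : tt p g 1 = p + -(2 / 3 * c + 4 / 3 * v) := by
    change p * tt p g 0 + g 1 = _
    rw [tt, hg.g0, hg1, mul_one]
  have ht2 : ‖tt p g 2‖ ≤ ‖tt p g 1‖ / 3 + 201 / 100 := by
    change ‖p * tt p g 1 + g 2‖ ≤ _
    refine (norm_add_le _ _).trans ?_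
    rw [norm_mul, Complex.norm_of_nonneg hp0.le]
    have := mul_le_mul_of_nonneg_right hp (norm_nonneg (tt p g 1))
    linarith
  have ht3 : ‖tt p g 3‖ ≤ ‖tt p g 2‖ / 3 + 7 / 2 := by
    change ‖p * tt p g 2 + g 3‖ ≤ _
    refine (norm_add_le _ _).trans ?_
    rw [norm_mul, Complex.norm_of_nonneg hp0.le]
    have := mul_le_mul_of_nonneg_right hp (norm_nonneg (tt p g 2))
    have := hg.g3
    linarith
  have hτ : ‖tt p g 1‖ ^ 2 ≤ p ^ 2 - 2 * p * (2 / 3 * (c.re + 2 * v.re)) + 4 := by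
    rw [ht1, ← Complex.normSq_eq_norm_sq, Complex.normSq_apply]
    have e1 : ((p : ℂ) + -(2 / 3 * c + 4 / 3 * v)).re = p - (2 / 3 * c.re + 4 / 3 * v.re) := by
      simp
      try ring
    have e2 : ((p : ℂ) + -(2 / 3 * c + 4 / 3 * v)).im = -(2 / 3 * c.im + 4 / 3 * v.im) := by
      simp
      try ring
    rw [e1, e2]
    nlinarith [sq_nonneg (c.re - v.re), sq_nonneg (c.im - v.im)]
  have hτ2 : ‖tt p g 1‖ ≤ (p ^ 2 - 2 * p * (2 / 3 * (c.re + 2 * v.re)) + 4 + (89 / 50) ^ 2) * (25 / 89) := by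
    nlinarith [sq_nonneg (‖tt p g 1‖ - 89 / 50)]
  have hτ3 : ‖tt p g 1‖ ≤ 7 / 3 := by
    rw [ht1]
    refine (norm_add_le _ _).trans ?_
    rw [Complex.norm_of_nonneg hp0.le, norm_neg]
    have := norm_add_le (2 / 3 * c) (4 / 3 * v)
    rw [norm_mul, norm_mul, hvn] at this
    have a1 : ‖(2 / 3 : ℂ)‖ = 2 / 3 := by simp
    have a2 : ‖(4 / 3 : ℂ)‖ = 4 / 3 := by simp
    rw [a1, a2] at this
    linarith
  have hpoly := poly2 hp hp0 hs2 hu1 hu1' hv1 hv1'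
  rw [← hβ] at hpoly
  refine ⟨by linarith, by linarith, ?_⟩
  linarith

/-- the chain -/
theorem chain {p : ℝ} (hp0 : 0 < p) (hp : p ≤ 1 / 3) {c x : ℂ} (hc : ‖c‖ < 1) (hx : ‖x‖ = 1)
    {g : ℕ → ℂ} (hg : GSeq c x g) {m : ℕ} (hm : 3 ≤ m) :
    (∑ k ∈ Finset.range (m + 1), ‖tt p g k‖) + 1 / 5 ≤ ‖Lam p m g‖ ∧ 6 / 5 * 2 ^ m ≤ ‖Lam p m g‖ ∧
    ‖tt p g m‖ ≤ 3 / 5 * 2 ^ m := by
  have hp1 : p < 1 := by linarith
  have hinv : 3 ≤ p⁻¹ := by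
    rw [le_inv_comm₀ (by norm_num) hp0]
    linarith
  have hstep : ∀ k, 3 * ‖Lam p k g‖ - ‖tt p g (k + 1)‖ ≤ ‖Lam p (k + 1) g‖ := by
    intro k
    rw [Lam_succ hp0 hp1]
    have h1 := norm_sub_norm_le ((p : ℂ)⁻¹ * Lam p k g) (-tt p g (k + 1))
    rw [norm_neg, sub_neg_eq_add, norm_mul, norm_inv, Complex.norm_of_nonneg hp0.le] at h1
    have h2 := mul_le_mul_of_nonneg_right hinv (norm_nonneg (Lam p k g))
    linarith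
  have htstep : ∀ k, ‖tt p g (k + 1)‖ ≤ ‖tt p g k‖ / 3 + ‖g (k + 1)‖ := by
    intro k
    change ‖p * tt p g k + g (k + 1)‖ ≤ _
    refine (norm_add_le _ _).trans ?_
    rw [norm_mul, Complex.norm_of_nonneg hp0.le]
    have := mul_le_mul_of_nonneg_right hp (norm_nonneg (tt p g k))
    linarith
  obtain ⟨b1, b2, b3⟩ := chain_base hp0 hp hc hx hg
  induction m, hm using Nat.le_induction with
  | base =>
    have h1 := hstep 2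
    have ht0 : ‖tt p g 0‖ = 1 := by rw [tt, hg.g0]; simp
    have hsum : ∑ k ∈ Finset.range (3 + 1), ‖tt p g k‖ = 1 + ‖tt p g 1‖ + ‖tt p g 2‖ + ‖tt p g 3‖ := by
      simp only [Finset.sum_range_succ, Finset.sum_range_zero]
      rw [ht0]
      ring
    have h1' : 3 * ‖Lam p 2 g‖ - ‖tt p g 3‖ ≤ ‖Lam p 3 g‖ := h1
    refine ⟨?_, ?_, ?_⟩
    · rw [hsum]; linarith
    · norm_num; linarith
    · norm_num; linarith
  | succ k hk ih =>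
    obtain ⟨i1, i2, i3⟩ := ih
    have hgk := hg.gi (k + 1) (by omega)
    rw [Nat.add_sub_cancel] at hgk
    have h1 := hstep k
    have h2 := htstep k
    have h3 : ‖tt p g (k + 1)‖ ≤ 3 / 5 * 2 ^ (k + 1) := by
      rw [pow_succ]; linarith
    refine ⟨?_, ?_, h3⟩
    · rw [Finset.sum_range_succ]
      rw [pow_succ] at h3
      linarith
    · rw [pow_succ] at h3 ⊢
      linarith

/-- the lower bound for the convolution, `m ≥ 3` -/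
theorem conv_lower' {p : ℝ} (hp0 : 0 < p) (hp : p ≤ 1 / 3) {c : ℂ} (hc : ‖c‖ < 1) {m : ℕ} (hm : 3 ≤ m) :
    ∃ C : ℝ, 0 < C ∧ ∀ (x : ℂ) (g : ℕ → ℂ) (H : ℂ → ℂ), ‖x‖ = 1 → GSeq c x g →
      DifferentiableOn ℂ H (ball 0 1) → (∀ z ∈ ball (0 : ℂ) 1, 0 < (H z).re) →
      ‖H 0‖ ≤ C * ‖∑ q ∈ Finset.HasAntidiagonal.antidiagonal m, Lam p q.1 g * tc H q.2‖ := by
  have hp1 : p < 1 := by linarith
  obtain ⟨W, hW⟩ : ∃ W : ℝ, W = ∑ k ∈ Finset.range m, ∑ i ∈ Finset.range (k + 1), U p (k - i) * 2 ^ i :=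
    ⟨_, rfl⟩
  have hW0 : 0 ≤ W := by
    rw [hW]
    exact Finset.sum_nonneg fun k _ => Finset.sum_nonneg fun i _ =>
      mul_nonneg (U_pos hp0 hp1 _).le (by positivity)
  refine ⟨1 + 2 * W * (1 + p) / (2 / 15), by positivity, ?_⟩
  intro x g H hx hg hHd hHre
  obtain ⟨c1, c2, c3⟩ := chain hp0 hp hc hx hg hm
  have hpow : (8 : ℝ) ≤ 2 ^ m := by
    have : (2 : ℝ) ^ 3 ≤ 2 ^ m := pow_le_pow_right₀ (by norm_num) hm
    norm_num at this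
    exact this
  apply conv_lower hp0 hp1 (by norm_num) _ _ _ hHd hHre
  · linarith
  · have hS0 : 0 ≤ ∑ k ∈ Finset.range (m + 1), ‖tt p g k‖ := Finset.sum_nonneg fun _ _ => norm_nonneg _
    nlinarith
  · rw [hW]
    apply Finset.sum_le_sum
    intro k _
    unfold Lam
    refine (norm_sum_le _ _).trans ?_
    apply Finset.sum_le_sum
    intro i _
    rw [norm_mul, Complex.norm_of_nonneg (U_pos hp0 hp1 _).le]
    apply mul_le_mul_of_nonneg_left _ (U_pos hp0 hp1 _).le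
    rcases Nat.lt_or_ge i 4 with h4 | h4
    · interval_cases i
      · rw [hg.g0]; simp
      · rw [hg.g1, norm_neg]
        refine (norm_add_le _ _).trans ?_
        rw [norm_mul, norm_mul, norm_mul, Complex.norm_conj, hx]
        have a1 : ‖(2 / 3 : ℂ)‖ = 2 / 3 := by simp
        have a2 : ‖(4 / 3 : ℂ)‖ = 4 / 3 := by simp
        rw [a1, a2]; linarith
      · obtain ⟨v, hv⟩ : ∃ v : ℂ, v = (starRingEnd ℂ) c * x := ⟨_, rfl⟩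
        have hvn : ‖v‖ = ‖c‖ := by rw [hv, norm_mul, Complex.norm_conj, hx, mul_one]
        have hk := norm_kap' (c := c) (v := v) rfl (by rw [hvn])
        have hk2 : ‖kap2 c x‖ ≤ 201 / 100 * ‖c‖ ^ 2 + (1 - ‖c‖ ^ 2) := by
          unfold kap2
          rw [← hv]
          refine (norm_add_le _ _).trans ?_
          rw [norm_mul, hx]
          have h5 : ‖(1 - ((‖c‖ ^ 2 : ℝ) : ℂ))‖ = 1 - ‖c‖ ^ 2 := by
            have : (1 - ((‖c‖ ^ 2 : ℝ) : ℂ)) = ((1 - ‖c‖ ^ 2 : ℝ) : ℂ) := by push_cast; ring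
            rw [this, Complex.norm_of_nonneg (by nlinarith [norm_nonneg c])]
          rw [h5]
          linarith
        have h6 := norm_add_le (g 2 - kap2 c x) (kap2 c x)
        rw [sub_add_cancel] at h6
        have h7 := hg.g2
        nlinarith [norm_nonneg c]
      · have := hg.g3
        norm_num
        linarith
    · refine (hg.gi i h4).trans ?_
      exact pow_le_pow_right₀ (by norm_num) (by omega)

end

end Pool.Agent.helper358_ms
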