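import Pool.Agent.helper358_ms.Geo2

/-! # The coefficients in terms of `E` -/

set_option autoImplicit false

namespace Pool.Agent.helper358_ms

open Complex Metric Set Filter Topology PowerSeries

noncomputable section

theorem U_zero {p : ℝ} (hp0 : 0 < p) (hp1 : p < 1) : U p 0 = 1 := by
  unfold U
  have h1 : p⁻¹ - p ≠ 0 := by
    have : 1 < p⁻¹ := (one_lt_inv₀ hp0).2 hp1
    linarith
  simp only [zero_add, pow_one]
  exact div_self h1

theorem U_one {p : ℝ} (hp0 : 0 < p) (hp1 : p < 1) : U p 1 = p + p⁻¹ := by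
  unfold U
  have h1 : p⁻¹ - p ≠ 0 := by
    have : 1 < p⁻¹ := (one_lt_inv₀ hp0).2 hp1
    linarith
  rw [div_eq_iff h1]
  ring

theorem U_succ_succ {p : ℝ} (hp0 : 0 < p) (n : ℕ) :
    U p (n + 2) = (p + p⁻¹) * U p (n + 1) - U p n := by
  unfold U
  have h2 : p * p⁻¹ = 1 := mul_inv_cancel₀ hp0.ne'
  rw [← mul_div_assoc, ← sub_div]
  congr 1
  linear_combination (-(p⁻¹ ^ (n + 1)) + p ^ (n + 1)) * h2

theorem U_pos {p : ℝ} (hp0 : 0 < p) (hp1 : p < 1) (n : ℕ) : 0 < U p n := by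
  unfold U
  have : 1 < p⁻¹ := (one_lt_inv₀ hp0).2 hp1
  apply div_pos
  · have h1 : p ^ (n + 1) < 1 := pow_lt_one₀ hp0.le hp1 (by omega)
    have h2 : 1 < p⁻¹ ^ (n + 1) := one_lt_pow₀ this (by omega)
    linarith
  · linarith

/-- `U_n ≤ p U_{n+1}` -/
theorem U_le {p : ℝ} (hp0 : 0 < p) (hp1 : p < 1) (n : ℕ) : U p n ≤ p * U p (n + 1) := by
  unfold U
  have h0 : 1 < p⁻¹ := (one_lt_inv₀ hp0).2 hp1
  have h2 : p * p⁻¹ = 1 := mul_inv_cancel₀ hp0.ne'
  rw [← mul_div_assoc]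
  apply div_le_div_of_nonneg_right _ (by linarith)
  have h3 : p * (p⁻¹ ^ (n + 1 + 1) - p ^ (n + 1 + 1)) = p⁻¹ ^ (n + 1) - p ^ (n + 3) := by
    linear_combination (p⁻¹ ^ (n + 1)) * h2
  rw [h3]
  have : p ^ (n + 3) ≤ p ^ (n + 1) := pow_le_pow_of_le_one hp0.le hp1.le (by omega)
  linarith

/-- the functional `Λ_n` -/
def Lam (p : ℝ) (n : ℕ) (e : ℕ → ℂ) : ℂ := ∑ k ∈ Finset.range (n + 1), (U p (n - k) : ℂ) * e k

/-- generating series of `U` -/
def UU (p : ℝ) : PowerSeries ℂ := PowerSeries.mk fun n => (U p n : ℂ)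

theorem UU_mul {p : ℝ} (hp0 : 0 < p) (hp1 : p < 1) :
    ((1 - C ((p : ℂ)⁻¹) * X) * (1 - C (p : ℂ) * X)) * UU p = 1 := by
  have h2 : (p : ℂ) * (p : ℂ)⁻¹ = 1 := mul_inv_cancel₀ (by exact_mod_cast hp0.ne')
  have e : (1 - C ((p : ℂ)⁻¹) * X) * (1 - C (p : ℂ) * X)
      = (1 : PowerSeries ℂ) - C ((p : ℂ) + (p : ℂ)⁻¹) * X + X * X := by
    have h3 : (C (p : ℂ) * C ((p : ℂ)⁻¹) : PowerSeries ℂ) = 1 := by
      rw [← map_mul, h2, map_one]
    rw [map_add]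
    linear_combination (X * X) * h3
  rw [e]
  obtain ⟨s, hs⟩ : ∃ s, s = (p : ℂ) + (p : ℂ)⁻¹ := ⟨_, rfl⟩
  rw [← hs]
  have e2 : ((1 : PowerSeries ℂ) - C s * X + X * X) * UU p
      = UU p - C s * (X * UU p) + X * (X * UU p) := by ring
  rw [e2]
  ext n
  rcases n with _ | _ | n
  · simp [UU, U_zero hp0 hp1]
  · have h4 := U_one hp0 hp1
    have e3 : PowerSeries.coeff (0 + 1) (UU p - C s * (X * UU p) + X * (X * UU p))
        = (U p 1 : ℂ) - s * (U p 0 : ℂ) + 0 := by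
      rw [map_add, map_sub, PowerSeries.coeff_C_mul, PowerSeries.coeff_succ_X_mul,
        PowerSeries.coeff_succ_X_mul]
      simp [UU]
    rw [e3, h4, U_zero hp0 hp1, hs]
    simp
  · have h5 := U_succ_succ hp0 n
    have e3 : PowerSeries.coeff (n + 1 + 1) (UU p - C s * (X * UU p) + X * (X * UU p))
        = (U p (n + 2) : ℂ) - s * (U p (n + 1) : ℂ) + (U p n : ℂ) := by
      rw [map_add, map_sub, PowerSeries.coeff_C_mul, PowerSeries.coeff_succ_X_mul,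
        PowerSeries.coeff_succ_X_mul, PowerSeries.coeff_succ_X_mul]
      simp [UU]
    rw [e3, h5, hs]
    push_cast
    simp

theorem T_kernel {p : ℝ} (hp0 : 0 < p) (hp1 : p < 1) :
    T (fun z : ℂ => 1 / ((1 - z / p) * (1 - p * z))) = UU p := by
  have hpc : (p : ℂ) ≠ 0 := by exact_mod_cast hp0.ne'
  have a1 : AnalyticAt ℂ (fun z : ℂ => 1 - z / p) 0 := by fun_prop (disch := assumption)
  have a2 : AnalyticAt ℂ (fun z : ℂ => 1 - (p : ℂ) * z) 0 := by fun_prop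
  have a3 : AnalyticAt ℂ (fun z : ℂ => (1 - z / p) * (1 - p * z)) 0 := a1.mul a2
  have hne : (1 - (0 : ℂ) / p) * (1 - p * 0) ≠ 0 := by simp
  have a4 : AnalyticAt ℂ (fun z : ℂ => 1 / ((1 - z / p) * (1 - p * z))) 0 :=
    analyticAt_const.div a3 hne
  have h1 : T (fun z : ℂ => (1 - z / p) * (1 - p * z) * (1 / ((1 - z / p) * (1 - p * z)))) = 1 := by
    have : (fun z : ℂ => (1 - z / p) * (1 - p * z) * (1 / ((1 - z / p) * (1 - p * z)))) =ᶠ[𝓝 0]
        fun _ => (1 : ℂ) := by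
      filter_upwards [a3.continuousAt.eventually_ne hne] with z hz
      exact mul_one_div_cancel hz
    rw [T_congr this, T_const]
    simp
  rw [T_mul a3 a4, T_mul a1 a2] at h1
  have h2 : T (fun z : ℂ => 1 - z / p) = 1 - C ((p : ℂ)⁻¹) * X := by
    have e1 : (fun z : ℂ => 1 - z / p) = fun z => (fun _ => (1 : ℂ)) z - (fun z => (p : ℂ)⁻¹ * z) z := by
      funext z; simp; ring
    rw [e1, T_sub analyticAt_const (by fun_prop), T_const,
      T_mul (f := fun _ => (p : ℂ)⁻¹) (g := fun z => z) analyticAt_const analyticAt_id, T_const, T_id]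
    simp
  have h3 : T (fun z : ℂ => 1 - (p : ℂ) * z) = 1 - C (p : ℂ) * X := by
    rw [T_sub analyticAt_const (by fun_prop), T_const,
      T_mul (f := fun _ => (p : ℂ)) (g := fun z => z) analyticAt_const analyticAt_id, T_const, T_id]
    simp
  rw [h2, h3] at h1
  have h4 := UU_mul hp0 hp1
  calc T (fun z : ℂ => 1 / ((1 - z / p) * (1 - p * z)))
      = (((1 - C ((p : ℂ)⁻¹) * X) * (1 - C (p : ℂ) * X)) * UU p) *
        T (fun z : ℂ => 1 / ((1 - z / p) * (1 - p * z))) := by rw [h4, one_mul]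
    _ = UU p * (((1 - C ((p : ℂ)⁻¹) * X) * (1 - C (p : ℂ) * X)) *
        T (fun z : ℂ => 1 / ((1 - z / p) * (1 - p * z)))) := by ring
    _ = UU p := by rw [h1, mul_one]

theorem coeff_UU_mul (p : ℝ) (n : ℕ) (F : PowerSeries ℂ) :
    PowerSeries.coeff n (UU p * F) = Lam p n fun k => PowerSeries.coeff k F := by
  rw [mul_comm, PowerSeries.coeff_mul, Finset.Nat.sum_antidiagonal_eq_sum_range_succ_mk]
  unfold Lam
  refine Finset.sum_congr rfl fun k _ => ?_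
  simp [UU, mul_comm]

theorem coeffA_eq {p : ℝ} (hp0 : 0 < p) (hp1 : p < 1) {w₀ : ℂ} {f E : ℂ → ℂ}
    (hE : DifferentiableOn ℂ E (ball 0 1))
    (hf : ∀ z ∈ ball (0 : ℂ) 1, z ≠ p → f z = w₀ * (1 - E z / ((1 - z / p) * (1 - p * z))))
    {n : ℕ} (hn : n ≠ 0) : coeffA n f = -w₀ * Lam p n (tc E) := by
  have hpc : (p : ℂ) ≠ 0 := by exact_mod_cast hp0.ne'
  have h00 : (0 : ℂ) ∈ ball (0 : ℂ) 1 := mem_ball_self one_pos
  have h0p : (0 : ℂ) ≠ p := fun h => hpc h.symm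
  have hEa : AnalyticAt ℂ E 0 := analyticAt_zero one_pos hE
  have a1 : AnalyticAt ℂ (fun z : ℂ => 1 - z / p) 0 := by fun_prop (disch := assumption)
  have a2 : AnalyticAt ℂ (fun z : ℂ => 1 - (p : ℂ) * z) 0 := by fun_prop
  have a3 : AnalyticAt ℂ (fun z : ℂ => (1 - z / p) * (1 - p * z)) 0 := a1.mul a2
  have hne : (1 - (0 : ℂ) / p) * (1 - p * 0) ≠ 0 := by simp
  have a4 : AnalyticAt ℂ (fun z : ℂ => 1 / ((1 - z / p) * (1 - p * z))) 0 :=
    analyticAt_const.div a3 hne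
  have hTk := T_kernel hp0 hp1
  obtain ⟨kern, hkern⟩ : ∃ k : ℂ → ℂ, k = fun z : ℂ => 1 / ((1 - z / p) * (1 - p * z)) := ⟨_, rfl⟩
  rw [← hkern] at a4 hTk
  have hev : f =ᶠ[𝓝 0] fun z => w₀ * (1 - kern z * E z) := by
    filter_upwards [(isOpen_punct p).mem_nhds ⟨h00, by simpa using h0p⟩] with z hz
    rw [hf z hz.1 (by simpa using hz.2), hkern]
    ring
  have h1 : coeffA n f = tc f n := rfl
  have a5 : AnalyticAt ℂ (fun z => kern z * E z) 0 := a4.mul hEa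
  have a6 : AnalyticAt ℂ (fun z => 1 - kern z * E z) 0 := analyticAt_const.sub a5
  rw [h1, ← coeff_T, T_congr hev, T_mul (f := fun _ => w₀) (g := fun z => 1 - kern z * E z) analyticAt_const a6,
    T_sub (f := fun _ => (1 : ℂ)) (g := fun z => kern z * E z) analyticAt_const a5, T_mul a4 hEa, hTk, T_const,
    T_const, PowerSeries.coeff_C_mul, map_sub, PowerSeries.coeff_C, if_neg hn, coeff_UU_mul]
  simp only [coeff_T]
  ring

/-- **The region of variability in terms of the class `ClassE`.** -/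
theorem V_eq {p : ℝ} (hp0 : 0 < p) (hp1 : p < 1) {w₀ : ℂ} (hw : w₀ ≠ 0) {n : ℕ} (hn : n ≠ 0) :
    V n p w₀ = {a | ∃ E, ClassE (cc p w₀) E ∧ a = -w₀ * Lam p n (tc E)} := by
  ext a
  constructor
  · rintro ⟨f, hf, rfl⟩
    obtain ⟨E, hE, hfE⟩ := hf.classE hp0 hp1 hw
    exact ⟨E, hE, coeffA_eq hp0 hp1 hE.holo hfE hn⟩
  · rintro ⟨E, hE, rfl⟩
    exact ⟨ff p w₀ E, hE.sigmaStar hp0 hp1 hw, (coeffA_eq hp0 hp1 hE.holo (fun z _ _ => rfl) hn).symm⟩

end

end Pool.Agent.helper358_ms
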