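import Mathlib

/-! # Meromorphic starlike functions with pole `p` -/

set_option autoImplicit false

namespace Pool.Agent.helper358_ms

open Complex Metric Set

noncomputable section

/-- `f` belongs to the class `Σ*(p, w₀)`: on the unit disc `f` is meromorphic with a single simple
pole, at `p`, it is univalent, `f 0 = 0`, `f' 0 = 1`, and the complement of the image is starlike
with respect to `w₀`. (The value `f p` is immaterial.) -/
structure SigmaStar (p : ℝ) (w₀ : ℂ) (f : ℂ → ℂ) : Prop where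
  mero : ∃ g : ℂ → ℂ, DifferentiableOn ℂ g (ball 0 1) ∧ g p ≠ 0 ∧
    ∀ z ∈ ball (0 : ℂ) 1, z ≠ p → f z = g z / (z - p)
  inj : InjOn f (ball 0 1 \ {(p : ℂ)})
  zero : f 0 = 0
  one : deriv f 0 = 1
  star : StarConvex ℝ w₀ (f '' (ball 0 1 \ {(p : ℂ)}))ᶜ

/-- The `n`-th Taylor coefficient at the origin. -/
def coeffA (n : ℕ) (f : ℂ → ℂ) : ℂ := iteratedDeriv n f 0 / n.factorial

/-- The region of variability `V_n(p, w₀)`. -/
def V (n : ℕ) (p : ℝ) (w₀ : ℂ) : Set ℂ := {a | ∃ f, SigmaStar p w₀ f ∧ a = coeffA n f}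

/-- The region of variability `V_n(p)`. -/
def VU (n : ℕ) (p : ℝ) : Set ℂ := {a | ∃ w₀ : ℂ, w₀ ≠ 0 ∧ a ∈ V n p w₀}

/-- The parameter `c = (p + 1/p + 1/w₀)/2`. -/
def cc (p : ℝ) (w₀ : ℂ) : ℂ := (p + 1 / p + 1 / w₀) / 2

/-- `U_n = (p^{-(n+1)} - p^{n+1}) / (p^{-1} - p)`. -/
def U (p : ℝ) (n : ℕ) : ℝ := (p⁻¹ ^ (n + 1) - p ^ (n + 1)) / (p⁻¹ - p)

end

end Pool.Agent.helper358_ms
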