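import Pool.Agent.helper358_ms.Path

/-! # Coefficients along the path `E_x e^{su}` -/

set_option autoImplicit false

namespace Pool.Agent.helper358_ms

open Complex Metric Set Filter Topology PowerSeries

noncomputable section

theorem coef_path {Ex u : ℂ → ℂ} (hEx : DifferentiableOn ℂ Ex (ball 0 1))
    (hne : ∀ z ∈ ball (0 : ℂ) 1, Ex z ≠ 0) (hu : DifferentiableOn ℂ u (ball 0 1)) (hu0 : u 0 = 0)
    (k : ℕ) : ∀ s : ℝ, HasDerivAt (fun s : ℝ => tc (fun z => Ex z * Complex.exp (s * u z)) k)
      (tc (fun z => Ex z * Complex.exp (s * u z) * u z) k) s := by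
  obtain ⟨p, hp⟩ : ∃ p : ℂ → ℂ, p = fun z => deriv Ex z / Ex z := ⟨_, rfl⟩
  have aEx : AnalyticAt ℂ Ex 0 := analyticAt_zero one_pos hEx
  have au : AnalyticAt ℂ u 0 := analyticAt_zero one_pos hu
  have au' : AnalyticAt ℂ (deriv u) 0 := analyticAt_zero one_pos (hu.deriv isOpen_ball)
  have ap : AnalyticAt ℂ p 0 := by
    rw [hp]
    exact analyticAt_zero one_pos ((hEx.deriv isOpen_ball).div hEx hne)
  have aG : ∀ s : ℝ, AnalyticAt ℂ (fun z => Ex z * Complex.exp (s * u z)) 0 := fun s =>
    aEx.mul (analyticAt_const.mul au).cexp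
  have aH : ∀ s : ℝ, AnalyticAt ℂ (fun z => Ex z * Complex.exp (s * u z) * u z) 0 := fun s =>
    (aG s).mul au
  have aps : ∀ s : ℝ, AnalyticAt ℂ (fun z => p z + s * deriv u z) 0 := fun s =>
    ap.add (analyticAt_const.mul au')
  have hd : ∀ s : ℝ, ∀ z ∈ ball (0 : ℂ) 1, HasDerivAt (fun z => Ex z * Complex.exp (s * u z))
      ((p z + s * deriv u z) * (Ex z * Complex.exp (s * u z))) z := by
    intro s z hz
    have dEx : HasDerivAt Ex (deriv Ex z) z :=
      (hEx.differentiableAt (isOpen_ball.mem_nhds hz)).hasDerivAt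
    have du : HasDerivAt u (deriv u z) z :=
      (hu.differentiableAt (isOpen_ball.mem_nhds hz)).hasDerivAt
    have h0 := dEx.fun_mul (du.const_mul (s : ℂ)).cexp
    have h1 := hne z hz
    have e : deriv Ex z * Complex.exp (s * u z) + Ex z * (Complex.exp (s * u z) * (s * deriv u z))
        = (p z + s * deriv u z) * (Ex z * Complex.exp (s * u z)) := by
      rw [hp]
      field_simp
    rw [e] at h0
    exact h0
  -- formal equations
  have fG : ∀ s : ℝ, PowerSeries.derivative ℂ (T (fun z => Ex z * Complex.exp (s * u z)))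
      = (T p + PowerSeries.C (s : ℂ) * T (deriv u)) * T (fun z => Ex z * Complex.exp (s * u z)) := by
    intro s
    have hev : deriv (fun z => Ex z * Complex.exp (s * u z)) =ᶠ[𝓝 0]
        fun z => (fun z => p z + s * deriv u z) z * (fun z => Ex z * Complex.exp (s * u z)) z := by
      filter_upwards [isOpen_ball.mem_nhds mem0] with z hz
      exact (hd s z hz).deriv
    have := T_congr hev
    rw [T_deriv, T_mul (aps s) (aG s), T_add (g := fun z => (s : ℂ) * deriv u z) ap
      (analyticAt_const.mul au'), T_mul (f := fun _ => (s : ℂ)) analyticAt_const au', T_const] at this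
    exact this
  have fH : ∀ s : ℝ, PowerSeries.derivative ℂ (T (fun z => Ex z * Complex.exp (s * u z) * u z))
      = (T p + PowerSeries.C (s : ℂ) * T (deriv u)) * T (fun z => Ex z * Complex.exp (s * u z) * u z)
        + T (deriv u) * T (fun z => Ex z * Complex.exp (s * u z)) := by
    intro s
    have h1 : T (fun z => Ex z * Complex.exp (s * u z) * u z)
        = T (fun z => Ex z * Complex.exp (s * u z)) * T u := T_mul (aG s) au
    have h2 : T (deriv u) = PowerSeries.derivative ℂ (T u) := T_deriv u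
    rw [h1, Derivation.leibniz, fG, h2]
    simp only [smul_eq_mul]
    ring
  induction k using Nat.strong_induction_on with
  | _ k ih =>
    rcases k with _ | k
    · intro s
      have e1 : (fun s : ℝ => tc (fun z => Ex z * Complex.exp (s * u z)) 0) = fun _ => Ex 0 := by
        funext s
        rw [tc_zero, hu0]; simp
      have e2 : tc (fun z => Ex z * Complex.exp (s * u z) * u z) 0 = 0 := by
        rw [tc_zero, hu0]; simp
      rw [e1, e2]
      exact hasDerivAt_const s (Ex 0)
    · intro s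
      have hk : ((k : ℂ) + 1) ≠ 0 := by exact_mod_cast k.succ_ne_zero
      have e1 : (fun s : ℝ => tc (fun z => Ex z * Complex.exp (s * u z)) (k + 1))
          = fun s : ℝ => (∑ q ∈ Finset.HasAntidiagonal.antidiagonal k, (tc p q.1 + (s : ℂ) * tc (deriv u) q.1) *
            tc (fun z => Ex z * Complex.exp (s * u z)) q.2) / ((k : ℂ) + 1) := by
        funext s
        have h1 := congrArg (PowerSeries.coeff k) (fG s)
        rw [PowerSeries.coeff_derivative, coeff_T, PowerSeries.coeff_mul] at h1
        simp only [map_add, PowerSeries.coeff_C_mul, coeff_T] at h1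
        rw [eq_div_iff hk]
        exact h1
      have e2 : tc (fun z => Ex z * Complex.exp (s * u z) * u z) (k + 1)
          = (∑ q ∈ Finset.HasAntidiagonal.antidiagonal k, (tc (deriv u) q.1 * tc (fun z => Ex z * Complex.exp (s * u z)) q.2
            + (tc p q.1 + (s : ℂ) * tc (deriv u) q.1) *
            tc (fun z => Ex z * Complex.exp (s * u z) * u z) q.2)) / ((k : ℂ) + 1) := by
        have h1 := congrArg (PowerSeries.coeff k) (fH s)
        rw [PowerSeries.coeff_derivative, coeff_T, map_add, PowerSeries.coeff_mul,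
          PowerSeries.coeff_mul] at h1
        simp only [map_add, PowerSeries.coeff_C_mul, coeff_T] at h1
        rw [eq_div_iff hk, h1, ← Finset.sum_add_distrib]
        refine Finset.sum_congr rfl fun q _ => ?_
        ring
      rw [e1, e2]
      apply HasDerivAt.div_const
      apply HasDerivAt.fun_sum
      intro q hq
      have hq2 : q.2 < k + 1 := by
        have := Finset.HasAntidiagonal.mem_antidiagonal.1 hq
        omega
      have d1 : HasDerivAt (fun s : ℝ => tc p q.1 + (s : ℂ) * tc (deriv u) q.1) (tc (deriv u) q.1) s := by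
        have := ((Complex.ofRealCLM.hasDerivAt (x := s)).mul_const (tc (deriv u) q.1)).const_add (tc p q.1)
        simpa using this
      exact d1.fun_mul (ih q.2 hq2 s)

/-- the two roots -/
theorem exists_roots {c x : ℂ} (hc : ‖c‖ < 1) (hx : ‖x‖ ≤ 1) :
    ∃ α β : ℂ, ‖α‖ ≤ 1 ∧ ‖β‖ ≤ 1 ∧ α + β = c - (starRingEnd ℂ) c * x ∧ α * β = -x := by
  obtain ⟨s, hs⟩ : ∃ s : ℂ, s ^ 2 = (c - (starRingEnd ℂ) c * x) ^ 2 + 4 * x :=
    IsAlgClosed.exists_pow_nat_eq _ (by norm_num)
  have hroot : ∀ α β : ℂ, α + β = c - (starRingEnd ℂ) c * x → α * β = -x → ‖α‖ ≤ 1 := by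
    intro α β h1 h2
    by_contra hcon
    push Not at hcon
    have hα : α ≠ 0 := by
      intro h; rw [h, norm_zero] at hcon; linarith
    have hz : α⁻¹ ∈ ball (0 : ℂ) 1 := by
      rw [mem_ball_zero_iff, norm_inv]
      exact inv_lt_one_of_one_lt₀ hcon
    apply Nw_ne hc (Sch.const hx) hz
    unfold Nw
    have h3 : α * α⁻¹ = 1 := mul_inv_cancel₀ hα
    have : 1 - c * α⁻¹ + α⁻¹ * x * ((starRingEnd ℂ) c - α⁻¹)
        = (1 - α * α⁻¹) * (1 - β * α⁻¹) := by
      linear_combination (-α⁻¹) * h1 * (-1) - (α⁻¹ ^ 2) * h2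
    rw [this, h3]
    ring
  refine ⟨((c - (starRingEnd ℂ) c * x) + s) / 2, ((c - (starRingEnd ℂ) c * x) - s) / 2, ?_, ?_, ?_, ?_⟩
  · exact hroot _ (((c - (starRingEnd ℂ) c * x) - s) / 2) (by ring) (by linear_combination (-1 / 4 : ℂ) * hs)
  · exact hroot _ (((c - (starRingEnd ℂ) c * x) + s) / 2) (by ring) (by linear_combination (-1 / 4 : ℂ) * hs)
  · ring
  · linear_combination (-1 / 4 : ℂ) * hs

theorem T_Nw {c x : ℂ} : T (Nw c (fun _ => x))
    = 1 - PowerSeries.C (c - (starRingEnd ℂ) c * x) * X - PowerSeries.C x * (X * X) := by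
  have aid : AnalyticAt ℂ (fun z : ℂ => z) 0 := analyticAt_id
  have a1 : AnalyticAt ℂ (fun z : ℂ => (c - (starRingEnd ℂ) c * x) * z) 0 := analyticAt_const.mul aid
  have a2 : AnalyticAt ℂ (fun z : ℂ => z * z) 0 := aid.mul aid
  have a3 : AnalyticAt ℂ (fun z : ℂ => x * (z * z)) 0 := analyticAt_const.mul a2
  have a4 : AnalyticAt ℂ (fun z : ℂ => 1 - (c - (starRingEnd ℂ) c * x) * z) 0 := analyticAt_const.sub a1
  have e : Nw c (fun _ => x) = fun z => (fun z => 1 - (c - (starRingEnd ℂ) c * x) * z) z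
      - (fun z => x * (z * z)) z := by
    funext z
    unfold Nw
    simp only
    ring
  rw [e, T_sub a4 a3, T_sub (f := fun _ => (1 : ℂ)) (g := fun z => (c - (starRingEnd ℂ) c * x) * z)
    analyticAt_const a1, T_mul (f := fun _ => x) (g := fun z : ℂ => z * z) analyticAt_const a2,
    T_mul aid aid, T_mul (f := fun _ => c - (starRingEnd ℂ) c * x) analyticAt_const aid, T_const,
    T_const, T_const, T_id]
  simp

theorem T_Nw_roots {c x α β : ℂ} (h1 : α + β = c - (starRingEnd ℂ) c * x) (h2 : α * β = -x) :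
    T (Nw c (fun _ => x)) = (1 - PowerSeries.C α * X) * (1 - PowerSeries.C β * X) := by
  rw [T_Nw, ← h1]
  have h3 : (PowerSeries.C x : PowerSeries ℂ) = - (PowerSeries.C α * PowerSeries.C β) := by
    rw [← map_mul, h2, map_neg, neg_neg]
  rw [h3, map_add]
  ring

/-- the derivative of `X² (1 - X)^{-4}` -/
theorem deriv_B3 : PowerSeries.derivative ℝ (X ^ 2 * B 3) = 2 * (X * ((1 + X) * B 4)) := by
  have h1 : PowerSeries.derivative ℝ (B 3) = 4 * B 4 := by
    ext n
    have four : (4 : PowerSeries ℝ) = PowerSeries.C (4 : ℝ) := (map_ofNat PowerSeries.C 4).symm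
    rw [PowerSeries.coeff_derivative, coeff_B, four, PowerSeries.coeff_C_mul, coeff_B]
    have h2 : (3 + (n + 1)).choose 3 * (n + 1) = 4 * (4 + n).choose 4 := by
      have := Nat.choose_succ_right_eq (n + 4) 3
      have e1 : 3 + (n + 1) = n + 4 := by ring
      have e2 : 4 + n = n + 4 := by ring
      have e3 : n + 4 - 3 = n + 1 := by omega
      rw [e3] at this
      rw [e1, e2]
      linarith
    have h3 : (((3 + (n + 1)).choose 3 * (n + 1) : ℕ) : ℝ) = ((4 * (4 + n).choose 4 : ℕ) : ℝ) := by
      rw [h2]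
    push_cast at h3
    linarith
  have h2 : B 3 = (1 - X) * B 4 := by
    have h3 : B 3 * B 0 = B 4 := B_mul 3 0
    have h4 : (1 - X) * B 0 = 1 := by
      ext n
      rcases n with _ | n
      · simp [B, sub_mul]
      · rw [sub_mul, one_mul, map_sub, PowerSeries.coeff_succ_X_mul]
        simp [coeff_B, PowerSeries.coeff_one]
    rw [← h3]
    calc B 3 = B 3 * 1 := (mul_one _).symm
      _ = B 3 * ((1 - X) * B 0) := by rw [h4]
      _ = _ := by ring
  rw [Derivation.leibniz, h1]
  have h5 : PowerSeries.derivative ℝ (X ^ 2) = 2 * X := by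
    rw [sq, Derivation.leibniz, PowerSeries.derivative_X]
    simp only [smul_eq_mul, mul_one]
    ring
  rw [h5]
  simp only [smul_eq_mul]
  rw [h2]
  ring

end

end Pool.Agent.helper358_ms
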