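import Pool.Agent.helper358_ms.Half
import Pool.Agent.R285.SchurE

/-! # The case `c = 0` -/

set_option autoImplicit false

namespace Pool.Agent.helper358_ms

open Complex Metric Set Filter Topology PowerSeries

noncomputable section

/-- `|E(z) - 1| < 1` when `E'(0) = 0` -/
theorem disc_lt {E : ℂ → ℂ} (hE : ClassE 0 E) : ∀ z ∈ ball (0 : ℂ) 1, ‖1 - E z‖ < 1 := by
  -- positivity of `2/E - 1`
  have hEd : ∀ z ∈ ball (0 : ℂ) 1, HasDerivAt E (deriv E z) z := fun z hz =>
    (hE.holo.differentiableAt (isOpen_ball.mem_nhds hz)).hasDerivAt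
  obtain ⟨f, hf⟩ : ∃ f : ℂ → ℂ, f = fun z => 2 / E z - 1 := ⟨_, rfl⟩
  have hfd : ∀ z ∈ ball (0 : ℂ) 1, HasDerivAt f (-(2 * deriv E z / E z ^ 2)) z := by
    intro z hz
    rw [hf]
    have h1 := ((hasDerivAt_const z (2 : ℂ)).fun_div (hEd z hz) (hE.ne z hz)).sub_const 1
    have e : (0 * E z - 2 * deriv E z) / E z ^ 2 = -(2 * deriv E z / E z ^ 2) := by ring
    rw [e] at h1
    exact h1
  have hfdiff : DifferentiableOn ℂ f (ball 0 1) := fun z hz =>
    (hfd z hz).differentiableAt.differentiableWithinAt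
  have hf0 : 0 < (f 0).re := by rw [hf]; norm_num [hE.zero]
  have hnorm : ∀ z ∈ ball (0 : ℂ) 1, 0 < (f z).re → ‖1 - E z‖ < 1 := by
    intro z hzb hz
    have h1 := norm_cayley_lt hz
    have h2 : (f z - 1) / (f z + 1) = 1 - E z := by
      rw [hf]
      have := hE.ne z hzb
      simp only
      field_simp
      ring
    rwa [h2] at h1
  have hpos : ∀ z ∈ ball (0 : ℂ) 1, 0 < (f z).re := by
    apply first_zero hfdiff hf0
    intro z hz hz0 hre hin m hm hzm
    rw [(hfd z hz).deriv] at hzm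
    obtain ⟨w, hw⟩ : ∃ w : ℂ → ℂ, w = fun z => 1 - E z := ⟨_, rfl⟩
    have hw0 : w 0 = 0 := by rw [hw]; simp [hE.zero]
    have hwd : ∀ y ∈ ball (0 : ℂ) 1, HasDerivAt w (-deriv E y) y := by
      intro y hy
      rw [hw]
      exact (hEd y hy).const_sub 1
    have hwz : ‖w z‖ = 1 := by
      have hgz := hE.ne z hz
      have h1 : (2 / E z - 1).re = 0 := by rw [hf] at hre; exact hre
      have h2 : (2 / E z).re = 1 := by
        rw [sub_re, one_re] at h1; linarith
      have hns : 0 < Complex.normSq (E z) := Complex.normSq_pos.2 hgz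
      rw [Complex.div_re] at h2
      simp only [Complex.re_ofNat, Complex.im_ofNat, zero_mul, zero_div, add_zero] at h2
      rw [div_eq_one_iff_eq hns.ne', Complex.normSq_apply] at h2
      have h3 : ‖w z‖ ^ 2 = 1 := by
        rw [hw, ← Complex.normSq_eq_norm_sq, Complex.normSq_apply]
        simp only [sub_re, sub_im, one_re, one_im]
        nlinarith
      nlinarith [norm_nonneg (w z)]
    -- Schwarz lemma of order two on the small disc
    have hsch : ∀ t ∈ Ioo (0 : ℝ) 1, ‖w ((t : ℂ) * z)‖ ≤ t ^ 2 := by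
      intro t ht
      have hzn := mem_ball_zero_iff.1 hz
      have hzp := norm_pos_iff.2 hz0
      have hmem : ∀ y ∈ ball (0 : ℂ) 1, y * z ∈ ball (0 : ℂ) 1 := by
        intro y hy
        rw [mem_ball_zero_iff] at hy ⊢
        rw [norm_mul]
        nlinarith [norm_nonneg z, norm_nonneg y]
      have hwdiff : DifferentiableOn ℂ w (ball 0 1) := fun y hy =>
        (hwd y hy).differentiableAt.differentiableWithinAt
      obtain ⟨φ, hφ⟩ : ∃ φ : ℂ → ℂ, φ = fun y => w (y * z) := ⟨_, rfl⟩
      have hφd : DifferentiableOn ℂ φ (ball 0 1) := by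
        rw [hφ]; exact hwdiff.comp (differentiableOn_id.mul_const z) hmem
      have hφ0 : φ 0 = 0 := by rw [hφ]; simp [hw0]
      have hφlt : ∀ y ∈ ball (0 : ℂ) 1, ‖φ y‖ < 1 := by
        intro y hy
        rw [hφ, hw]
        apply hnorm _ (hmem y hy)
        apply hin
        rw [norm_mul]
        have := mem_ball_zero_iff.1 hy
        nlinarith
      have hφ1 : deriv φ 0 = 0 := by
        have hd0 : HasDerivAt w 0 (0 * z) := by
          have := hwd 0 mem0
          rw [hE.one] at this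
          simpa using this
        have h1 : HasDerivAt (fun y : ℂ => y * z) z 0 := by
          simpa using (hasDerivAt_id' (0 : ℂ)).mul_const z
        have h2 : HasDerivAt (fun y => w (y * z)) (0 * z) 0 := hd0.comp 0 h1
        rw [hφ, h2.deriv, zero_mul]
      -- divide by `y`
      have hds : ∀ w', w' * dslope φ 0 w' = φ w' := by
        intro w'
        have := sub_smul_dslope φ (0 : ℂ) w'
        rwa [hφ0, sub_zero, sub_zero, smul_eq_mul] at this
      have hdd : DifferentiableOn ℂ (dslope φ 0) (ball 0 1) :=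
        (differentiableOn_dslope (isOpen_ball.mem_nhds mem0)).2 hφd
      have hd1 : ∀ y ∈ ball (0 : ℂ) 1, ‖dslope φ 0 y‖ ≤ 1 := by
        intro y hy
        refine norm_le_of_mul hdd ?_ hy
        intro y hy
        rw [hds]; exact hφlt y hy
      have hd00 : dslope φ 0 0 = 0 := by rw [dslope_same, hφ1]
      have hd2 : ∀ y ∈ ball (0 : ℂ) 1, ‖dslope φ 0 y‖ ≤ ‖y‖ := by
        intro y hy
        have hmaps : MapsTo (dslope φ 0) (ball 0 1) (closedBall (dslope φ 0 0) 1) := by
          intro w hw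
          rw [hd00, mem_closedBall_zero_iff]; exact hd1 w hw
        have := Complex.dist_le_div_mul_dist_of_mapsTo_ball hdd hmaps hy
        rw [hd00, dist_zero_right, dist_zero_right] at this
        simpa using this
      have htb : (t : ℂ) ∈ ball (0 : ℂ) 1 := by
        rw [mem_ball_zero_iff, Complex.norm_of_nonneg ht.1.le]; exact ht.2
      have h3 := hd2 (t : ℂ) htb
      have h4 := hds (t : ℂ)
      have h5 : w ((t : ℂ) * z) = φ (t : ℂ) := by rw [hφ]
      rw [h5, ← h4, norm_mul]
      rw [Complex.norm_of_nonneg ht.1.le] at h3 ⊢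
      nlinarith [ht.1]
    -- radial derivative
    have hk : 4 - 2 * ((starRingEnd ℂ) (w z) * (-deriv E z * z)).re ≤ 0 := by
      have hd1 : HasDerivAt (fun t : ℝ => (t : ℂ) * z) z 1 := by
        have := (Complex.ofRealCLM.hasDerivAt (x := (1 : ℝ))).mul_const z
        simpa using this
      have hdz' : HasDerivAt w (-deriv E z) (((1 : ℝ) : ℂ) * z) := by simpa using hwd z hz
      have hd2 : HasDerivAt (fun t : ℝ => w ((t : ℂ) * z)) (-deriv E z * z) 1 := hdz'.comp 1 hd1
      have hdre : HasDerivAt (fun t : ℝ => (w ((t : ℂ) * z)).re) (-deriv E z * z).re 1 := by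
        have h1 : HasFDerivAt (fun y : ℂ => y.re) Complex.reCLM (w (((1 : ℝ) : ℂ) * z)) :=
          Complex.reCLM.hasFDerivAt
        exact h1.comp_hasDerivAt (1 : ℝ) hd2
      have hdim : HasDerivAt (fun t : ℝ => (w ((t : ℂ) * z)).im) (-deriv E z * z).im 1 := by
        have h1 : HasFDerivAt (fun y : ℂ => y.im) Complex.imCLM (w (((1 : ℝ) : ℂ) * z)) :=
          Complex.imCLM.hasFDerivAt
        exact h1.comp_hasDerivAt (1 : ℝ) hd2
      have hdd : HasDerivAt (fun t : ℝ => t ^ 4 - ((w ((t : ℂ) * z)).re ^ 2 + (w ((t : ℂ) * z)).im ^ 2))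
          (4 - 2 * ((starRingEnd ℂ) (w z) * (-deriv E z * z)).re) 1 := by
        have h1 := (hasDerivAt_pow 4 (1 : ℝ)).sub ((hdre.fun_pow 2).fun_add (hdim.fun_pow 2))
        have e : ((4 : ℕ) : ℝ) * 1 ^ (4 - 1) - (((2 : ℕ) : ℝ) * (w (((1 : ℝ) : ℂ) * z)).re ^ (2 - 1)
            * (-deriv E z * z).re + ((2 : ℕ) : ℝ) * (w (((1 : ℝ) : ℂ) * z)).im ^ (2 - 1)
            * (-deriv E z * z).im)
            = 4 - 2 * ((starRingEnd ℂ) (w z) * (-deriv E z * z)).re := by
          rw [Complex.ofReal_one, one_mul, mul_re ((starRingEnd ℂ) (w z)), Complex.conj_re, Complex.conj_im]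
          norm_num
          ring
        rw [e] at h1
        exact h1
      apply deriv_nonpos_left hdd
      intro t ht
      have h2 : (w (((1 : ℝ) : ℂ) * z)).re ^ 2 + (w (((1 : ℝ) : ℂ) * z)).im ^ 2 = 1 := by
        rw [Complex.ofReal_one, one_mul]
        have : ‖w z‖ ^ 2 = 1 := by rw [hwz]; norm_num
        rw [← Complex.normSq_eq_norm_sq, Complex.normSq_apply] at this
        nlinarith
      have h3 : (w ((t : ℂ) * z)).re ^ 2 + (w ((t : ℂ) * z)).im ^ 2 ≤ t ^ 4 := by
        have h4 := hsch t ht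
        have h5 : ‖w ((t : ℂ) * z)‖ ^ 2 ≤ (t ^ 2) ^ 2 := by
          apply pow_le_pow_left₀ (norm_nonneg _) h4
        rw [← Complex.normSq_eq_norm_sq, Complex.normSq_apply] at h5
        nlinarith
      rw [h2]
      linarith
    -- contradiction
    have hgz := hE.ne z hz
    have h5 : 2 * (z * deriv E z) = m * E z ^ 2 := by
      have h6 : 2 * (z * deriv E z) / E z ^ 2 = m := by
        have : z * -(2 * deriv E z / E z ^ 2) = -(2 * (z * deriv E z) / E z ^ 2) := by ring
        rw [this] at hzm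
        linear_combination -hzm
      rw [div_eq_iff (pow_ne_zero _ hgz)] at h6
      exact h6
    have hPos := hE.pos z hz
    have h6 : z * (deriv E z / E z) = (m / 2 : ℂ) * E z := by
      rw [mul_div_assoc', div_eq_iff hgz]
      linear_combination (1 / 2 : ℂ) * h5
    rw [h6] at hPos
    have hww : (starRingEnd ℂ) (w z) * w z = 1 := by rw [conj_mul_self, hwz]; simp
    have hgw : E z = 1 - w z := by rw [hw]; ring
    have h7 : (starRingEnd ℂ) (w z) * (-deriv E z * z)
        = (m / 2 : ℂ) * (2 - w z - (starRingEnd ℂ) (w z)) := by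
      have : (starRingEnd ℂ) (w z) * (-deriv E z * z)
          = -((starRingEnd ℂ) (w z) / 2 * (2 * (z * deriv E z))) := by ring
      rw [this, h5, hgw]
      linear_combination (-(m : ℂ) / 2 * (w z - 2)) * hww
    rw [h7] at hk
    have h8 : ((m / 2 : ℂ) * (2 - w z - (starRingEnd ℂ) (w z))).re = m * (1 - (w z).re) := by
      have : (m / 2 : ℂ) * (2 - w z - (starRingEnd ℂ) (w z))
          = ((m * (1 - (w z).re) : ℝ) : ℂ) := by
        have h9 := Complex.add_conj (w z)
        push_cast at h9 ⊢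
        linear_combination (-(m / 2 : ℂ)) * h9
      rw [this, Complex.ofReal_re]
    rw [h8] at hk
    have h9 : (1 - (m / 2 : ℂ) * E z).re = 1 - m / 2 * (1 - (w z).re) := by
      have : (m / 2 : ℂ) = ((m / 2 : ℝ) : ℂ) := by push_cast; ring
      rw [hgw, sub_re, one_re, this, Complex.re_ofReal_mul, sub_re, one_re]
    rw [h9] at hPos
    linarith
  intro z hz
  exact hnorm z hz (hpos z hz)

/-- the quotient `(1 - E)/z²` is a Schur function -/
theorem disc_schur {E : ℂ → ℂ} (hE : ClassE 0 E) :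
    ∃ g : ℂ → ℂ, Sch g ∧ ∀ z, z ^ 2 * g z = 1 - E z := by
  have hlt := disc_lt hE
  obtain ⟨w, hw⟩ : ∃ w : ℂ → ℂ, w = fun z => 1 - E z := ⟨_, rfl⟩
  have hwd : DifferentiableOn ℂ w (ball 0 1) := by rw [hw]; exact hE.holo.const_sub 1
  have hw0 : w 0 = 0 := by rw [hw]; simp [hE.zero]
  have hw1 : deriv w 0 = 0 := by
    have hd : HasDerivAt E (deriv E 0) 0 := (hE.holo.differentiableAt (isOpen_ball.mem_nhds mem0)).hasDerivAt
    have := hd.const_sub 1
    rw [hw, this.deriv, hE.one]; simp
  have hm0 : ball (0 : ℂ) 1 ∈ 𝓝 (0 : ℂ) := isOpen_ball.mem_nhds mem0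
  have h1 : ∀ y, y * dslope w 0 y = w y := by
    intro y
    have := sub_smul_dslope w (0 : ℂ) y
    rwa [hw0, sub_zero, sub_zero, smul_eq_mul] at this
  have hd1 : DifferentiableOn ℂ (dslope w 0) (ball 0 1) := (differentiableOn_dslope hm0).2 hwd
  have hb1 : ∀ y ∈ ball (0 : ℂ) 1, ‖dslope w 0 y‖ ≤ 1 := by
    intro y hy
    refine norm_le_of_mul hd1 ?_ hy
    intro y hy
    rw [h1, hw]; exact hlt y hy
  have h10 : dslope w 0 0 = 0 := by rw [dslope_same, hw1]
  have h2 : ∀ y, y * dslope (dslope w 0) 0 y = dslope w 0 y := by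
    intro y
    have := sub_smul_dslope (dslope w 0) (0 : ℂ) y
    rwa [h10, sub_zero, sub_zero, smul_eq_mul] at this
  have hd2 : DifferentiableOn ℂ (dslope (dslope w 0) 0) (ball 0 1) := (differentiableOn_dslope hm0).2 hd1
  have hb1' : ∀ y ∈ ball (0 : ℂ) 1, ‖dslope w 0 y‖ < 1 := by
    intro y hy
    have hmaps : MapsTo (dslope w 0) (ball 0 1) (closedBall (dslope w 0 0) 1) := by
      intro w' hw'
      rw [h10, mem_closedBall_zero_iff]; exact hb1 w' hw'
    have := Complex.dist_le_div_mul_dist_of_mapsTo_ball hd1 hmaps hy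
    rw [h10, dist_zero_right, dist_zero_right] at this
    have h3 := mem_ball_zero_iff.1 hy
    have : ‖dslope w 0 y‖ ≤ ‖y‖ := by simpa using this
    linarith
  refine ⟨dslope (dslope w 0) 0, ⟨hd2, ?_⟩, ?_⟩
  · intro y hy
    refine norm_le_of_mul hd2 ?_ hy
    intro y hy
    rw [h2]; exact hb1' y hy
  · intro z
    have : z ^ 2 * dslope (dslope w 0) 0 z = z * (z * dslope (dslope w 0) 0 z) := by ring
    rw [this, h2, h1, hw]

end

end Pool.Agent.helper358_ms
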