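import Mathlib

/-! # Persistence of zeros along a homotopy -/

set_option autoImplicit false

namespace Pool.Agent.helper358_ms

open Complex Metric Set Filter Topology

/-- Hurwitz: an isolated zero persists -/
theorem zero_near {X : Type*} [TopologicalSpace X] {F : X → ℂ → ℂ}
    (hF : Continuous (Function.uncurry F)) (hd : ∀ t, Differentiable ℂ (F t))
    {t₀ : X} {x₀ : ℂ} (h0 : F t₀ x₀ = 0) {r : ℝ} (hr : 0 < r)
    (hs : ∀ x ∈ sphere x₀ r, F t₀ x ≠ 0) :
    ∀ᶠ t in 𝓝 t₀, ∃ x ∈ closedBall x₀ r, F t x = 0 := by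
  have hcs : IsCompact (sphere x₀ r) := isCompact_sphere _ _
  have hne : (sphere x₀ r).Nonempty := NormedSpace.sphere_nonempty.2 hr.le
  have hc0 : Continuous (F t₀) := hF.comp (by fun_prop : Continuous fun x => (t₀, x))
  obtain ⟨m, hm, hmin⟩ := hcs.exists_isMinOn hne hc0.norm.continuousOn
  obtain ⟨δ, hδdef⟩ : ∃ δ : ℝ, δ = ‖F t₀ m‖ := ⟨_, rfl⟩
  have hδ : 0 < δ := by rw [hδdef]; exact norm_pos_iff.2 (hs m hm)
  have hmin' : ∀ x ∈ sphere x₀ r, δ ≤ ‖F t₀ x‖ := fun x hx => by rw [hδdef]; exact hmin hx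
  have hclose : ∀ᶠ t in 𝓝 t₀, ∀ x ∈ closedBall x₀ r, ‖F t x - F t₀ x‖ < δ / 8 := by
    apply (isCompact_closedBall x₀ r).eventually_forall_of_forall_eventually
    intro y _
    have hcont : Continuous fun z : X × ℂ => ‖F z.1 z.2 - F t₀ z.2‖ := by
      have h1 : Continuous fun z : X × ℂ => F z.1 z.2 := hF
      exact (h1.sub (hc0.comp continuous_snd)).norm
    have h2 : (fun z : X × ℂ => ‖F z.1 z.2 - F t₀ z.2‖) (t₀, y) < δ / 8 := by
      simp; exact hδ
    exact hcont.continuousAt.eventually (gt_mem_nhds h2)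
  filter_upwards [hclose] with t ht
  have hx0 : ‖F t x₀‖ < δ / 8 := by
    have := ht x₀ (mem_closedBall_self hr.le)
    rwa [h0, sub_zero] at this
  have hbig : ∀ z ∈ sphere x₀ r, δ / 2 ≤ ‖F t z - F t x₀‖ := by
    intro z hz
    have h1 := hmin' z hz
    have h2 := ht z (sphere_subset_closedBall hz)
    have h3 : ‖F t₀ z‖ ≤ ‖F t z - F t x₀‖ + ‖F t z - F t₀ z‖ + ‖F t x₀‖ := by
      have : F t₀ z = (F t z - F t x₀) - (F t z - F t₀ z) + F t x₀ := by ring
      calc ‖F t₀ z‖ = ‖(F t z - F t x₀) - (F t z - F t₀ z) + F t x₀‖ := by rw [← this]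
        _ ≤ ‖(F t z - F t x₀) - (F t z - F t₀ z)‖ + ‖F t x₀‖ := norm_add_le _ _
        _ ≤ ‖F t z - F t x₀‖ + ‖F t z - F t₀ z‖ + ‖F t x₀‖ := by
          have := norm_sub_le (F t z - F t x₀) (F t z - F t₀ z)
          linarith
    linarith
  have hfreq : ∃ᶠ z in 𝓝 x₀, F t z ≠ F t x₀ := by
    intro hcon
    have hcon' : ∀ᶠ z in 𝓝 x₀, F t z = F t x₀ := by
      filter_upwards [hcon] with z hz
      exact not_not.1 hz
    have han : AnalyticOnNhd ℂ (F t) univ := (hd t).differentiableOn.analyticOnNhd isOpen_univ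
    have han2 : AnalyticOnNhd ℂ (fun _ : ℂ => F t x₀) univ := analyticOnNhd_const
    have heq := han.eqOn_of_preconnected_of_eventuallyEq han2 isPreconnected_univ (mem_univ x₀) hcon'
    have h1 := hbig m hm
    rw [heq (mem_univ m)] at h1
    simp at h1
    linarith
  have hsub := ((hd t).diffContOnCl (s := ball x₀ r)).ball_subset_image_closedBall hr hbig hfreq
  have h0mem : (0 : ℂ) ∈ ball (F t x₀) (δ / 2 / 2) := by
    rw [mem_ball, dist_eq_norm, zero_sub, norm_neg]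
    linarith
  obtain ⟨x, hx, hx2⟩ := hsub h0mem
  exact ⟨x, hx, hx2⟩

/-- an entire function that does not vanish identically has isolated zeros, here as a small circle
free of zeros -/
theorem exists_circle {f : ℂ → ℂ} (hf : Differentiable ℂ f) {x₀ x₁ : ℂ} (h1 : f x₁ ≠ 0)
    {ρ : ℝ} (hρ : 0 < ρ) : ∃ r, 0 < r ∧ r < ρ ∧ ∀ x ∈ sphere x₀ r, f x ≠ 0 := by
  have han : AnalyticOnNhd ℂ f univ := hf.differentiableOn.analyticOnNhd isOpen_univ
  rcases (han x₀ (mem_univ _)).eventually_eq_zero_or_eventually_ne_zero with h | h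
  · exfalso
    have := han.eqOn_zero_of_preconnected_of_eventuallyEq_zero isPreconnected_univ (mem_univ x₀) h
    exact h1 (this (mem_univ x₁))
  · rw [eventually_nhdsWithin_iff, Metric.eventually_nhds_iff] at h
    obtain ⟨ε, hε, hh⟩ := h
    refine ⟨min (ε / 2) (ρ / 2), lt_min (by linarith) (by linarith), ?_, ?_⟩
    · exact lt_of_le_of_lt (min_le_right _ _) (by linarith)
    · intro x hx
      have hpos : 0 < min (ε / 2) (ρ / 2) := lt_min (by linarith) (by linarith)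
      rw [mem_sphere] at hx
      apply hh
      · rw [hx]; exact lt_of_le_of_lt (min_le_left _ _) (by linarith)
      · intro hxx
        rw [mem_singleton_iff] at hxx
        rw [hxx, dist_self] at hx
        linarith

/-- zeros in the closed disc persist along a homotopy without zeros on the circle -/
theorem zero_homotopy {F : ℝ → ℂ → ℂ}
    (hF : Continuous (Function.uncurry F)) (hd : ∀ t, Differentiable ℂ (F t))
    (hne : ∀ t ∈ Icc (0 : ℝ) 1, ∀ x : ℂ, ‖x‖ = 1 → F t x ≠ 0)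
    (h0 : ∃ x : ℂ, ‖x‖ ≤ 1 ∧ F 0 x = 0) : ∃ x : ℂ, ‖x‖ ≤ 1 ∧ F 1 x = 0 := by
  obtain ⟨s, hs⟩ : ∃ s : Set ℝ, s = {t | ∃ x : ℂ, ‖x‖ ≤ 1 ∧ F t x = 0} := ⟨_, rfl⟩
  have hsub : Icc (0 : ℝ) 1 ⊆ s := by
    apply IsClosed.Icc_subset_of_forall_mem_nhdsWithin
    · have hK : IsCompact {q : ℝ × ℂ | q ∈ Icc (0 : ℝ) 1 ×ˢ closedBall (0 : ℂ) 1 ∧ F q.1 q.2 = 0} := by
        have h1 : IsClosed {q : ℝ × ℂ | F q.1 q.2 = 0} :=
          isClosed_eq hF continuous_const
        exact (isCompact_Icc.prod (isCompact_closedBall (0 : ℂ) 1)).inter_right h1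
      have himg : s ∩ Icc (0 : ℝ) 1 = Prod.fst '' {q : ℝ × ℂ | q ∈ Icc (0 : ℝ) 1 ×ˢ closedBall (0 : ℂ) 1 ∧ F q.1 q.2 = 0} := by
        ext t
        constructor
        · rintro ⟨ht1, ht2⟩
          rw [hs] at ht1
          obtain ⟨x, hx, hx2⟩ := ht1
          exact ⟨(t, x), ⟨⟨ht2, by simpa using hx⟩, hx2⟩, rfl⟩
        · rintro ⟨⟨t', x⟩, ⟨⟨h1, h2⟩, h3⟩, rfl⟩
          rw [hs]
          exact ⟨⟨x, by simpa using h2, h3⟩, h1⟩
      rw [himg]
      exact (hK.image continuous_fst).isClosed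
    · rw [hs]; exact h0
    · rintro t ⟨ht, htI⟩
      rw [hs] at ht
      obtain ⟨x₀, hx₀, hx2⟩ := ht
      have htI' : t ∈ Icc (0 : ℝ) 1 := Ico_subset_Icc_self htI
      have hlt : ‖x₀‖ < 1 := by
        rcases hx₀.lt_or_eq with h | h
        · exact h
        · exact absurd hx2 (hne t htI' x₀ h)
      obtain ⟨r, hr0, hr1, hrs⟩ := exists_circle (hd t) (x₀ := x₀) (hne t htI' 1 (by simp))
        (sub_pos.2 hlt)
      have hev := zero_near hF hd hx2 hr0 hrs
      apply mem_nhdsWithin_of_mem_nhds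
      filter_upwards [hev] with t' ht'
      obtain ⟨x, hx, hx3⟩ := ht'
      rw [hs]
      refine ⟨x, ?_, hx3⟩
      rw [mem_closedBall, dist_eq_norm] at hx
      calc ‖x‖ = ‖(x - x₀) + x₀‖ := by ring_nf
        _ ≤ ‖x - x₀‖ + ‖x₀‖ := norm_add_le _ _
        _ ≤ 1 := by linarith
  have := hsub (right_mem_Icc.2 zero_le_one)
  rw [hs] at this
  exact this

end Pool.Agent.helper358_ms
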