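import Pool.Agent.helper358_ms.KGeo
import Pool.Agent.helper358_ms.Homot

/-! # The filled limaçon -/

set_option autoImplicit false

namespace Pool.Agent.helper358_ms

open Complex Metric Set Filter Topology

noncomputable section

theorem ca_kap {B c v : ℂ} (hc : ‖c‖ < 1) (hv : ‖v‖ = 1) :
    kap B c ((v * (starRingEnd ℂ) B - c * B) / (2 * ((1 - ‖c‖ ^ 2 : ℝ) : ℂ))) v
      = ((1 + ‖B‖ ^ 2 / (4 * (1 - ‖c‖ ^ 2)) : ℝ) : ℂ) * v
        - c * B ^ 2 / ((4 * (1 - ‖c‖ ^ 2) : ℝ) : ℂ) := by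
  have hcc := conj_mul_self c
  obtain ⟨e, he⟩ : ∃ e : ℝ, e = 1 - ‖c‖ ^ 2 := ⟨_, rfl⟩
  have hepos : 0 < e := by rw [he]; nlinarith [norm_nonneg c]
  have hec : (e : ℂ) = 1 - (starRingEnd ℂ) c * c := by rw [hcc, he]; push_cast; ring
  have he0 : (e : ℂ) ≠ 0 := by exact_mod_cast hepos.ne'
  rw [← he]
  obtain ⟨x1, hxdef⟩ : ∃ x1 : ℂ, x1 = (v * (starRingEnd ℂ) B - c * B) / (2 * e) := ⟨_, rfl⟩
  rw [← hxdef]
  have hvv : (starRingEnd ℂ) v * v = 1 := by rw [conj_mul_self, hv]; simp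
  have g3 : 2 * (e : ℂ) * x1 = v * (starRingEnd ℂ) B - c * B := by
    rw [hxdef, mul_div_cancel₀ _ (mul_ne_zero two_ne_zero he0)]
  have g4 : 2 * (e : ℂ) * (starRingEnd ℂ) x1 = (starRingEnd ℂ) v * B - (starRingEnd ℂ) c * (starRingEnd ℂ) B := by
    have := congrArg (starRingEnd ℂ) g3
    simpa only [map_sub, map_mul, map_ofNat, Complex.conj_conj, Complex.conj_ofReal] using this
  have g0 : (starRingEnd ℂ) v * (B - 2 * (starRingEnd ℂ) c * x1) - 2 * (starRingEnd ℂ) x1 = 0 := by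
    have : (2 * (e : ℂ)) * ((starRingEnd ℂ) v * (B - 2 * (starRingEnd ℂ) c * x1) - 2 * (starRingEnd ℂ) x1) = 0 := by
      linear_combination (-(2 * (starRingEnd ℂ) v * (starRingEnd ℂ) c)) * g3 - 2 * g4
        + 2 * (starRingEnd ℂ) v * B * hec - 2 * (starRingEnd ℂ) c * (starRingEnd ℂ) B * hvv
    rcases mul_eq_zero.1 this with h | h
    · exact absurd h (mul_ne_zero two_ne_zero he0)
    · exact h
  have hBB := conj_mul_self B
  have hxx := conj_mul_self x1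
  have e3 : kap B c x1 v = v + B * x1 / 2 := by
    unfold kap
    linear_combination (x1 * v / 2) * g0 + v * hxx
      - (x1 / 2) * (B - 2 * (starRingEnd ℂ) c * x1) * hvv
  rw [e3]
  have h4e : ((4 * e : ℝ) : ℂ) ≠ 0 := by exact_mod_cast (by positivity : (4 * e) ≠ 0)
  apply mul_left_cancel₀ h4e
  have h5 : ((4 * e : ℝ) : ℂ) * (((1 + ‖B‖ ^ 2 / (4 * e) : ℝ) : ℂ) * v - c * B ^ 2 / ((4 * e : ℝ) : ℂ))
      = (((4 * e : ℝ) : ℂ) + ((‖B‖ ^ 2 : ℝ) : ℂ)) * v - c * B ^ 2 := by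
    have h6 : ((1 + ‖B‖ ^ 2 / (4 * e) : ℝ) : ℂ) = 1 + ((‖B‖ ^ 2 : ℝ) : ℂ) / ((4 * e : ℝ) : ℂ) := by
      push_cast; ring
    rw [h6]
    field_simp
  rw [h5, ← hBB]
  push_cast
  linear_combination B * g3

theorem norm_B_sub {B c x : ℂ} (hx : ‖x‖ ≤ 1) : ‖B‖ - 2 * ‖c‖ ≤ ‖B - 2 * (starRingEnd ℂ) c * x‖ := by
  have h2 : ‖B‖ ≤ ‖B - 2 * (starRingEnd ℂ) c * x‖ + ‖2 * (starRingEnd ℂ) c * x‖ := by
    have := norm_add_le (B - 2 * (starRingEnd ℂ) c * x) (2 * (starRingEnd ℂ) c * x)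
    rwa [sub_add_cancel] at this
  have h3 : ‖2 * (starRingEnd ℂ) c * x‖ ≤ 2 * ‖c‖ := by
    rw [norm_mul, norm_mul, Complex.norm_conj]
    have : ‖(2 : ℂ)‖ = 2 := by simp
    rw [this]
    nlinarith [norm_nonneg c]
  linarith

theorem arcs_eq_circle {B c : ℂ} (hc : ‖c‖ < 1) (hB : 2 * (1 + ‖c‖) ≤ ‖B‖) :
    LL B c ∪ CA B c = (fun x => B * x - (starRingEnd ℂ) c * x ^ 2) '' sphere (0 : ℂ) 1 := by
  ext k
  constructor
  · rintro (⟨x, hx, -, rfl⟩ | ⟨v, hv, hl, rfl⟩)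
    · exact ⟨x, by simpa using hx, rfl⟩
    · have hepos : 0 < 1 - ‖c‖ ^ 2 := by nlinarith [norm_nonneg c]
      obtain ⟨x1, hxdef⟩ : ∃ x1 : ℂ, x1 = (v * (starRingEnd ℂ) B - c * B) / (2 * ((1 - ‖c‖ ^ 2 : ℝ) : ℂ)) :=
        ⟨_, rfl⟩
      have h1 : ‖B‖ * (1 - ‖c‖) ≤ ‖v * (starRingEnd ℂ) B - c * B‖ := by
        have h2 := norm_sub_norm_le (v * (starRingEnd ℂ) B) (c * B)
        rw [norm_mul, norm_mul, Complex.norm_conj, hv] at h2
        linarith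
      have h3 : ‖v * (starRingEnd ℂ) B - c * B‖ = 2 * (1 - ‖c‖ ^ 2) := by
        apply le_antisymm hl
        have h4 : 0 ≤ 1 - ‖c‖ := by linarith
        nlinarith
      have hx1 : ‖x1‖ = 1 := by
        rw [hxdef, norm_div, h3, norm_mul, Complex.norm_of_nonneg hepos.le]
        have : ‖(2 : ℂ)‖ = 2 := by simp
        rw [this]
        exact div_self (by linarith)
      have hk := ca_kap (B := B) hc hv
      rw [← hxdef] at hk
      refine ⟨x1, by simpa using hx1, ?_⟩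
      rw [← hk]
      unfold kap
      rw [hx1]; simp
  · rintro ⟨x, hx, rfl⟩
    left
    have hx' : ‖x‖ = 1 := by simpa using hx
    have := norm_B_sub (B := B) (c := c) hx'.le
    exact ⟨x, hx', by linarith, rfl⟩

/-- the circle values are not taken elsewhere -/
theorem kap_ne {B c x x0 y : ℂ} (hB : 2 * (1 + ‖c‖) ≤ ‖B‖) (hx : ‖x‖ = 1)
    (hx0 : ‖x0‖ < 1) (hy : ‖y‖ ≤ 1) : B * x - (starRingEnd ℂ) c * x ^ 2 ≠ kap B c x0 y := by
  intro h
  have h1 : (x - x0) * (B - (starRingEnd ℂ) c * (x + x0)) = ((1 - ‖x0‖ ^ 2 : ℝ) : ℂ) * y := by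
    unfold kap at h
    push_cast at h ⊢
    linear_combination h
  have h2 := congrArg norm h1
  have hpos : 0 < 1 - ‖x0‖ ^ 2 := by nlinarith [norm_nonneg x0]
  rw [norm_mul, norm_mul, Complex.norm_of_nonneg hpos.le] at h2
  have h3 : 1 - ‖x0‖ ≤ ‖x - x0‖ := by
    have := norm_sub_norm_le x x0
    rw [hx] at this
    exact this
  have h4 : ‖B‖ - ‖c‖ * (1 + ‖x0‖) ≤ ‖B - (starRingEnd ℂ) c * (x + x0)‖ := by
    have h5 := norm_sub_norm_le B ((starRingEnd ℂ) c * (x + x0))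
    have h6 : ‖(starRingEnd ℂ) c * (x + x0)‖ ≤ ‖c‖ * (1 + ‖x0‖) := by
      rw [norm_mul, Complex.norm_conj]
      apply mul_le_mul_of_nonneg_left _ (norm_nonneg c)
      have := norm_add_le x x0
      rw [hx] at this
      exact this
    linarith
  have h7 : 2 ≤ ‖B‖ - ‖c‖ * (1 + ‖x0‖) := by
    have : ‖c‖ * (1 + ‖x0‖) ≤ 2 * ‖c‖ := by nlinarith [norm_nonneg c]
    linarith
  have h8 : (1 - ‖x0‖) * 2 ≤ ‖x - x0‖ * ‖B - (starRingEnd ℂ) c * (x + x0)‖ := by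
    apply mul_le_mul h3 (h7.trans h4) (by norm_num) (norm_nonneg _)
  have h9 : (1 - ‖x0‖ ^ 2) * ‖y‖ ≤ 1 - ‖x0‖ ^ 2 := by nlinarith
  nlinarith [norm_nonneg x0]

theorem KK_eq_image {B c : ℂ} (hB : 2 * (1 + ‖c‖) ≤ ‖B‖) :
    KK B c = (fun x => B * x - (starRingEnd ℂ) c * x ^ 2) '' closedBall (0 : ℂ) 1 := by
  ext k
  constructor
  · rintro ⟨x0, y, hx0, hy, rfl⟩
    rcases hx0.lt_or_eq with h1 | h1
    · obtain ⟨F, hFdef⟩ : ∃ F : ℝ → ℂ → ℂ, F = fun (t : ℝ) (x : ℂ) => B * x - (starRingEnd ℂ) c * x ^ 2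
          - kap B c x0 ((t : ℂ) * y) := ⟨_, rfl⟩
      have hF : Continuous (Function.uncurry F) := by
        rw [hFdef]
        unfold kap Function.uncurry
        fun_prop
      have hd : ∀ t, Differentiable ℂ (F t) := by
        intro t
        rw [hFdef]
        simp only
        fun_prop
      have hne : ∀ t ∈ Icc (0 : ℝ) 1, ∀ x : ℂ, ‖x‖ = 1 → F t x ≠ 0 := by
        rintro t ⟨ht0, ht1⟩ x hx h
        rw [hFdef] at h
        refine kap_ne hB hx h1 (y := t * y) ?_ (sub_eq_zero.1 h)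
        rw [norm_mul, Complex.norm_of_nonneg ht0]
        nlinarith [norm_nonneg y]
      have h0 : ∃ x : ℂ, ‖x‖ ≤ 1 ∧ F 0 x = 0 := by
        refine ⟨x0, hx0, ?_⟩
        rw [hFdef]
        unfold kap
        simp
      obtain ⟨x, hx, hx2⟩ := zero_homotopy hF hd hne h0
      refine ⟨x, by simpa using hx, ?_⟩
      rw [hFdef] at hx2
      have := sub_eq_zero.1 hx2
      simpa using this
    · refine ⟨x0, by simpa using hx0, ?_⟩
      unfold kap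
      rw [h1]; simp
  · rintro ⟨x, hx, rfl⟩
    exact ⟨x, 0 + (B * x - (starRingEnd ℂ) c * x ^ 2) * 0, by simpa using hx, by simp, by unfold kap; simp⟩

end

end Pool.Agent.helper358_ms
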