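import Pool.Agent.helper358_ms.Reg
import Pool.Agent.helper358_ms.ThreeFill

/-! # Regions `V_n(p, w₀)` and `V_n(p)`, given the uniqueness property -/

set_option autoImplicit false

namespace Pool.Agent.helper358_ms

open Complex Metric Set Filter Topology

noncomputable section

/-- The polynomial map `x ↦ -w₀ Σ_{k ≤ n} U_{n-k} e_k(c, x)`. -/
def Gam (p : ℝ) (n : ℕ) (w₀ x : ℂ) : ℂ := -w₀ * Lam p n (ek (cc p w₀) x)

theorem U1_gt' {p : ℝ} (hp0 : 0 < p) (hp1 : p < 1) : 2 < U p 1 := by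
  rw [U_one hp0 hp1]
  have h : p * p⁻¹ = 1 := mul_inv_cancel₀ hp0.ne'
  have h2 : 0 < p⁻¹ := inv_pos.2 hp0
  nlinarith [mul_pos (sub_pos.2 hp1) (sub_pos.2 hp1), mul_pos h2 (mul_pos (sub_pos.2 hp1) (sub_pos.2 hp1))]

theorem den_ne' {p : ℝ} (hp0 : 0 < p) (hp1 : p < 1) {c : ℂ} (hc : ‖c‖ ≤ 1) :
    (U p 1 : ℂ) - 2 * c ≠ 0 := by
  intro h
  have h1 : (U p 1 : ℂ) = 2 * c := sub_eq_zero.1 h
  have h2 := congrArg norm h1
  rw [Complex.norm_of_nonneg (U_pos hp0 hp1 1).le, norm_mul] at h2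
  have := U1_gt' hp0 hp1
  have h3 : ‖(2 : ℂ)‖ = 2 := by simp
  rw [h3] at h2
  linarith

theorem exists_w' {p : ℝ} (hp0 : 0 < p) (hp1 : p < 1) {c : ℂ} (hc : ‖c‖ ≤ 1) :
    ∃ w₀ : ℂ, w₀ ≠ 0 ∧ cc p w₀ = c := by
  have h2 := den_ne' hp0 hp1 hc
  refine ⟨-1 / (U p 1 - 2 * c), div_ne_zero (by norm_num) h2, ?_⟩
  unfold cc
  have h3 : (U p 1 : ℂ) = p + 1 / p := by rw [U_one hp0 hp1]; push_cast; ring
  rw [← h3]
  field_simp
  ring

theorem Gam_eq {p : ℝ} (hp0 : 0 < p) (hp1 : p < 1) {w₀ : ℂ} (hw : w₀ ≠ 0) (n : ℕ)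
    (hc : ‖cc p w₀‖ ≤ 1) (x : ℂ) : Gam p n w₀ x = Gl p n (cc p w₀) x / (U p 1 - 2 * cc p w₀) := by
  have h1 := w_mul hp0 hp1 hw
  have h2 := den_ne' hp0 hp1 hc
  unfold Gam Gl
  rw [eq_div_iff h2]
  linear_combination (-Lam p n (ek (cc p w₀) x)) * h1

/-- in the boundary case `|c| = 1` the functions do not depend on `x` -/
theorem ek_unimod {c : ℂ} (hc : ‖c‖ = 1) (x : ℂ) (k : ℕ) :
    ek c x k = ek c 0 k := by
  have hcc : (starRingEnd ℂ) c * c = 1 := by rw [conj_mul_self, hc]; simp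
  have key : ∀ k, ek c x k = (match k with | 0 => 1 | 1 => -2 * c | 2 => c ^ 2 | _ => 0) := by
    intro k
    induction k using Nat.strong_induction_on with
    | _ k ih =>
      rcases k with _ | _ | _ | _ | _ | k
      · simp [ek]
      · simp [ek]
      · simp only [ek]
        push_cast
        linear_combination (x) * hcc
      · have h1 := ih 1 (by omega)
        have h2 := ih 2 (by omega)
        simp only at h1 h2
        rw [ek, h1, h2]
        push_cast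
        linear_combination (-(2 / 3 : ℂ) * c * x) * hcc
      · have h1 := ih 2 (by omega)
        have h2 := ih 3 (by omega)
        simp only at h1 h2
        rw [ek, h1, h2]
        push_cast
        ring
      · have h1 := ih (k + 3) (by omega)
        have h2 := ih (k + 4) (by omega)
        simp only at h1 h2
        rw [ek, h1, h2]
        simp
  rw [key]
  have key0 : ek c 0 k = (match k with | 0 => 1 | 1 => -2 * c | 2 => c ^ 2 | _ => 0) := by
    induction k using Nat.strong_induction_on with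
    | _ k ih =>
      rcases k with _ | _ | _ | _ | _ | k
      · simp [ek]
      · simp [ek]
      · simp only [ek]
        push_cast
        ring
      · have h1 := ih 1 (by omega)
        have h2 := ih 2 (by omega)
        simp only at h1 h2
        rw [ek, h1, h2]
        push_cast
        ring
      · have h1 := ih 2 (by omega)
        have h2 := ih 3 (by omega)
        simp only at h1 h2
        rw [ek, h1, h2]
        push_cast
        ring
      · have h1 := ih (k + 3) (by omega)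
        have h2 := ih (k + 4) (by omega)
        simp only at h1 h2
        rw [ek, h1, h2]
        simp
  rw [key0]

theorem V_empty {p : ℝ} (hp0 : 0 < p) (hp1 : p < 1) {n : ℕ} (hn : n ≠ 0) {w₀ : ℂ} (hw : w₀ ≠ 0)
    (hc : 1 < ‖cc p w₀‖) : V n p w₀ = ∅ := by
  rw [V_eq hp0 hp1 hw hn]
  ext a
  constructor
  · rintro ⟨E, hE, -⟩
    have := hE.norm_le
    linarith
  · intro h
    exact absurd h (notMem_empty a)

theorem V_unimod {p : ℝ} (hp0 : 0 < p) (hp1 : p < 1) {n : ℕ} (hn : n ≠ 0) {w₀ : ℂ} (hw : w₀ ≠ 0)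
    (hc : ‖cc p w₀‖ = 1) : V n p w₀ = {Gam p n w₀ 0} := by
  rw [V_eq hp0 hp1 hw hn]
  obtain ⟨c, hcdef⟩ : ∃ c, c = cc p w₀ := ⟨_, rfl⟩
  unfold Gam
  rw [← hcdef] at hc ⊢
  have hmain : ∀ E, ClassE c E → Lam p n (tc E) = Lam p n (ek c 0) := by
    intro E hE
    obtain ⟨φ, hφ, hφ0, hr⟩ := hE.exists_schur
    have hcst := hφ.eq_const (by rw [hφ0, hc])
    have hr' : RelW c (fun _ => 0) E := by
      intro z hz
      have := hr z hz
      rw [hcst z hz, hφ0] at this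
      unfold Nw
      simp only [mul_zero, zero_mul, add_zero]
      linear_combination this
    congr 1
    funext k
    exact tc_eq_ek hE.holo hE.zero hr' k
  ext a
  constructor
  · rintro ⟨E, hE, rfl⟩
    rw [mem_singleton_iff, hmain E hE]
  · intro h
    rw [mem_singleton_iff] at h
    obtain ⟨E, hE, -⟩ := (Sch.const hc.le).exists_E
    exact ⟨E, hE, by rw [h, hmain E hE]⟩

theorem V_main {p : ℝ} (hp0 : 0 < p) (hp1 : p < 1) {n : ℕ} (hn : n ≠ 0) {w₀ : ℂ} (hw : w₀ ≠ 0)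
    (hc : ‖cc p w₀‖ < 1) (hU : UP p n (cc p w₀)) :
    V n p w₀ = Gam p n w₀ '' closedBall 0 1 ∧ InjOn (Gam p n w₀) (sphere 0 1) ∧
      frontier (V n p w₀) = Gam p n w₀ '' sphere 0 1 := by
  have hV : V n p w₀ = Gam p n w₀ '' closedBall 0 1 := by
    rw [V_eq hp0 hp1 hw hn]
    have h1 := values_eq hc hU
    have h2 : {a | ∃ E, ClassE (cc p w₀) E ∧ a = -w₀ * Lam p n (tc E)}
        = (fun b => -w₀ * b) '' {a | ∃ E, ClassE (cc p w₀) E ∧ a = Lam p n (tc E)} := by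
      ext a
      constructor
      · rintro ⟨E, hE, rfl⟩
        exact ⟨_, ⟨E, hE, rfl⟩, rfl⟩
      · rintro ⟨_, ⟨E, hE, rfl⟩, rfl⟩
        exact ⟨E, hE, rfl⟩
    rw [h2, h1, image_image]
    rfl
  obtain ⟨κ, hκ, hlow⟩ := Gl_lower hc hU
  have hwn : 0 < ‖w₀‖ := norm_pos_iff.2 hw
  have hd : Differentiable ℂ (Gam p n w₀) := (Gl_diff p n (cc p w₀)).const_mul (-w₀)
  have h3 := frontier_image hd (mul_pos hwn hκ) (by
    intro x y hx hy
    have h4 := hlow x y hx hy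
    have h5 : Gam p n w₀ y - Gam p n w₀ x = -w₀ * (Gl p n (cc p w₀) y - Gl p n (cc p w₀) x) := by
      unfold Gam Gl; ring
    rw [h5, norm_mul, norm_neg, mul_assoc]
    exact mul_le_mul_of_nonneg_left h4 hwn.le)
  refine ⟨hV, h3.1, ?_⟩
  rw [hV]
  exact h3.2

theorem VU_main {p : ℝ} (hp0 : 0 < p) (hp1 : p < 1) {n : ℕ} (hn : n ≠ 0)
    (hU : ∀ c : ℂ, ‖c‖ < 1 → UP p n c) :
    VU n p = {a | ∃ c x : ℂ, ‖c‖ ≤ 1 ∧ ‖x‖ = 1 ∧ a = Gl p n c x / (U p 1 - 2 * c)} := by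
  have hV : ∀ w₀ : ℂ, w₀ ≠ 0 → ‖cc p w₀‖ ≤ 1 → V n p w₀ = Gam p n w₀ '' closedBall 0 1 := by
    intro w₀ hw hc
    rcases hc.lt_or_eq with h1 | h1
    · exact (V_main hp0 hp1 hn hw h1 (hU _ h1)).1
    · rw [V_unimod hp0 hp1 hn hw h1]
      ext a
      constructor
      · intro h
        rw [mem_singleton_iff] at h
        exact ⟨0, by simp, h.symm⟩
      · rintro ⟨x, -, rfl⟩
        rw [mem_singleton_iff]
        unfold Gam
        congr 2
        funext k
        exact ek_unimod h1 x k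
  ext a
  constructor
  · rintro ⟨w₀, hw, ha⟩
    have hc : ‖cc p w₀‖ ≤ 1 := by
      rw [V_eq hp0 hp1 hw hn] at ha
      obtain ⟨E, hE, -⟩ := ha
      exact hE.norm_le
    rw [hV w₀ hw hc] at ha
    obtain ⟨x0, hx0, rfl⟩ := ha
    have hx0' : ‖x0‖ ≤ 1 := by simpa using hx0
    rw [Gam_eq hp0 hp1 hw n hc]
    obtain ⟨c0, hc0⟩ : ∃ c0, c0 = cc p w₀ := ⟨_, rfl⟩
    rw [← hc0] at hc ⊢
    by_contra hcon
    simp only [mem_ofPred_eq, not_exists, not_and] at hcon
    obtain ⟨a, ha⟩ : ∃ a, a = Gl p n c0 x0 / (U p 1 - 2 * c0) := ⟨_, rfl⟩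
    rw [← ha] at hcon
    obtain ⟨F, hFdef⟩ : ∃ F : ℝ → ℂ → ℂ, F = fun (t : ℝ) (x : ℂ) =>
        Gl p n (c0 + t * (1 - c0)) x - a * (U p 1 - 2 * (c0 + t * (1 - c0))) := ⟨_, rfl⟩
    have hF : Continuous (Function.uncurry F) := by
      rw [hFdef]
      unfold Function.uncurry
      have h2 : Continuous fun q : ℝ × ℂ => Gl p n (c0 + (q.1 : ℂ) * (1 - c0)) q.2 :=
        (Gl_cont p n).comp ((by fun_prop : Continuous fun q : ℝ × ℂ => c0 + (q.1 : ℂ) * (1 - c0)).prodMk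
          continuous_snd)
      fun_prop
    have hd : ∀ t, Differentiable ℂ (F t) := by
      intro t
      rw [hFdef]
      exact (Gl_diff p n _).sub_const _
    have hct : ∀ t ∈ Icc (0 : ℝ) 1, ‖c0 + t * (1 - c0)‖ ≤ 1 := by
      rintro t ⟨ht0, ht1⟩
      have e : c0 + t * (1 - c0) = ((1 - t : ℝ) : ℂ) * c0 + (t : ℂ) := by push_cast; ring
      rw [e]
      refine (norm_add_le _ _).trans ?_
      rw [norm_mul, Complex.norm_of_nonneg ht0, Complex.norm_of_nonneg (by linarith)]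
      nlinarith
    have hkey : ∀ t : ℝ, ∀ x : ℂ, ‖c0 + t * (1 - c0)‖ ≤ 1 → F t x = 0 →
        a = Gl p n (c0 + t * (1 - c0)) x / (U p 1 - 2 * (c0 + t * (1 - c0))) := by
      intro t x h1 h2
      have h3 := den_ne' hp0 hp1 h1
      rw [hFdef] at h2
      rw [eq_div_iff h3]
      exact (sub_eq_zero.1 h2).symm
    have hne : ∀ t ∈ Icc (0 : ℝ) 1, ∀ x : ℂ, ‖x‖ = 1 → F t x ≠ 0 := by
      intro t ht x hx h
      exact hcon _ x (hct t ht) hx (hkey t x (hct t ht) h)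
    have h0 : ∃ x : ℂ, ‖x‖ ≤ 1 ∧ F 0 x = 0 := by
      refine ⟨x0, hx0', ?_⟩
      have h3 := den_ne' hp0 hp1 hc
      rw [hFdef, ha]
      simp only [Complex.ofReal_zero, zero_mul, add_zero]
      rw [div_mul_cancel₀ _ h3, sub_self]
    obtain ⟨x, hx, hx2⟩ := zero_homotopy hF hd hne h0
    apply hne 1 (right_mem_Icc.2 zero_le_one) 1 (by simp)
    rw [hFdef] at hx2 ⊢
    simp only [Complex.ofReal_one, one_mul, add_sub_cancel] at hx2 ⊢
    have h5 : Gl p n 1 x = Gl p n 1 1 := by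
      unfold Gl
      congr 1
      funext k
      rw [ek_unimod (by simp) x k, ek_unimod (by simp) 1 k]
    rw [← h5]
    exact hx2
  · rintro ⟨c, x, hc, hx, rfl⟩
    obtain ⟨w₀, hw, rfl⟩ := exists_w' hp0 hp1 hc
    refine ⟨w₀, hw, ?_⟩
    rw [hV w₀ hw hc, ← Gam_eq hp0 hp1 hw n hc]
    exact ⟨x, by simpa using hx.le, rfl⟩

end

end Pool.Agent.helper358_ms
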