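import Pool.Agent.helper358_ms.Disc
import Pool.Agent.helper358_ms.Main2

/-! # The case `c = 0`: the region is a disc -/

set_option autoImplicit false

namespace Pool.Agent.helper358_ms

open Complex Metric Set Filter Topology PowerSeries

noncomputable section

/-- real generating series of `U` -/
def UR (p : ℝ) : PowerSeries ℝ := PowerSeries.mk (U p)

theorem UR_eq {p : ℝ} (hp0 : 0 < p) (hp1 : p < 1) :
    (1 - X) ^ 2 * UR p = 1 + PowerSeries.C (U p 1 - 2) * (X * UR p) := by
  have two : (2 : PowerSeries ℝ) = PowerSeries.C (2 : ℝ) := (map_ofNat PowerSeries.C 2).symm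
  have e : (1 - X) ^ 2 * UR p = UR p - PowerSeries.C 2 * (X * UR p) + X * (X * UR p) := by
    rw [← two]; ring
  rw [e]
  ext n
  rcases n with _ | _ | n
  · simp [UR, U_zero hp0 hp1]
  · rw [map_add, map_sub, map_add, PowerSeries.coeff_C_mul, PowerSeries.coeff_C_mul,
      PowerSeries.coeff_succ_X_mul, PowerSeries.coeff_succ_X_mul]
    simp [UR, U_zero hp0 hp1, PowerSeries.coeff_one]
  · rw [map_add, map_sub, map_add, PowerSeries.coeff_C_mul, PowerSeries.coeff_C_mul,
      PowerSeries.coeff_succ_X_mul, PowerSeries.coeff_succ_X_mul, PowerSeries.coeff_succ_X_mul]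
    simp only [UR, PowerSeries.coeff_mk, PowerSeries.coeff_one]
    rw [U_succ_succ hp0 n, U_one hp0 hp1]
    simp
    ring

theorem UU_map (p : ℝ) : UU p = PowerSeries.map Complex.ofRealHom (UR p) := by
  ext n
  simp [UU, UR]

theorem UU_eq2 {p : ℝ} (hp0 : 0 < p) (hp1 : p < 1) :
    (1 - X) ^ 2 * UU p = 1 + PowerSeries.C ((U p 1 : ℂ) - 2) * (X * UU p) := by
  have h := congrArg (PowerSeries.map Complex.ofRealHom) (UR_eq hp0 hp1)
  simp only [map_mul, map_pow, map_sub, map_one, map_add, PowerSeries.map_X, PowerSeries.map_C,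
    ← UU_map] at h
  simpa using h

theorem B1_mul : (1 - X) ^ 2 * B 1 = 1 := by
  have h4 : (1 - X) * B 0 = 1 := by
    ext n
    rcases n with _ | n
    · simp [B, sub_mul]
    · rw [sub_mul, one_mul, map_sub, PowerSeries.coeff_succ_X_mul]
      simp [coeff_B, PowerSeries.coeff_one]
  have h5 : B 0 * B 0 = B 1 := B_mul 0 0
  rw [← h5]
  calc (1 - X) ^ 2 * (B 0 * B 0) = ((1 - X) * B 0) * ((1 - X) * B 0) := by ring
    _ = 1 := by rw [h4, one_mul]

/-- Fejér's inequality for the coefficients of a Schur function -/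
theorem fejer {g : ℂ → ℂ} (hg : Sch g) {TT : PowerSeries ℂ} (hT : (1 - X) ^ 2 * TT = T g) :
    Maj TT (B 1) := by
  obtain ⟨SS, hSS⟩ : ∃ SS : PowerSeries ℂ, SS = (1 - X) * TT := ⟨_, rfl⟩
  have hS : (1 - X) * SS = T g := by rw [hSS, ← hT]; ring
  have hcon := Pool.Agent.R285.SchurE.isCon hg.holo hg.le
  -- coefficients of SS
  have s1 : ∀ i, PowerSeries.coeff i SS = ∑ j ∈ Finset.range (i + 1), tc g (i - j) := by
    intro i
    induction i with
    | zero =>
      have := congrArg (PowerSeries.coeff 0) hS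
      rw [sub_mul, one_mul, map_sub, PowerSeries.coeff_zero_X_mul, sub_zero, coeff_T] at this
      rw [this]; simp
    | succ i ih =>
      have := congrArg (PowerSeries.coeff (i + 1)) hS
      rw [sub_mul, one_mul, map_sub, PowerSeries.coeff_succ_X_mul, coeff_T] at this
      have h2 : PowerSeries.coeff (i + 1) SS = tc g (i + 1) + PowerSeries.coeff i SS := by
        linear_combination this
      rw [h2, ih, Finset.sum_range_succ' (n := i + 1)]
      rw [add_comm]
      congr 1
      refine Finset.sum_congr rfl fun j hj => ?_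
      congr 1
      omega
  have t1 : ∀ i, PowerSeries.coeff i TT = ∑ j ∈ Finset.range (i + 1), PowerSeries.coeff j SS := by
    intro i
    induction i with
    | zero =>
      have := congrArg (PowerSeries.coeff 0) hSS
      rw [sub_mul, one_mul, map_sub, PowerSeries.coeff_zero_X_mul, sub_zero] at this
      rw [← this]; simp
    | succ i ih =>
      have := congrArg (PowerSeries.coeff (i + 1)) hSS
      rw [sub_mul, one_mul, map_sub, PowerSeries.coeff_succ_X_mul] at this
      rw [Finset.sum_range_succ, ← ih]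
      linear_combination -this
  intro n
  rw [coeff_B, t1]
  have h1 := hcon (n + 1) (fun _ => 1)
  have h2 : ∑ i ∈ Finset.range (n + 1), ‖PowerSeries.coeff i SS‖ ^ 2 ≤ (n : ℝ) + 1 := by
    have e1 : ∀ i ∈ Finset.range (n + 1), ‖PowerSeries.coeff i SS‖ ^ 2
        = ‖∑ j ∈ Finset.range (i + 1), Pool.Agent.R285.SchurE.cf g (i - j) * 1‖ ^ 2 := by
      intro i _
      rw [s1]
      congr 2
      refine Finset.sum_congr rfl fun j _ => ?_
      rw [mul_one]
      rfl
    rw [Finset.sum_congr rfl e1]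
    simpa using h1
  have h3 : (∑ i ∈ Finset.range (n + 1), ‖PowerSeries.coeff i SS‖) ^ 2 ≤ ((n : ℝ) + 1) ^ 2 := by
    have h4 := sq_sum_le_card_mul_sum_sq (s := Finset.range (n + 1)) (f := fun i => ‖PowerSeries.coeff i SS‖)
    rw [Finset.card_range] at h4
    push_cast at h4
    calc _ ≤ ((n : ℝ) + 1) * ∑ i ∈ Finset.range (n + 1), ‖PowerSeries.coeff i SS‖ ^ 2 := h4
      _ ≤ ((n : ℝ) + 1) * ((n : ℝ) + 1) := mul_le_mul_of_nonneg_left h2 (by positivity)
      _ = _ := by ring
  have h5 : ∑ i ∈ Finset.range (n + 1), ‖PowerSeries.coeff i SS‖ ≤ (n : ℝ) + 1 :=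
    le_of_sq_le_sq h3 (by positivity)
  refine (norm_sum_le _ _).trans ?_
  simp
  linarith

/-- the inequality for `U` -/
theorem U_ineq {p : ℝ} (hp0 : 0 < p) (hp1 : p < 1) {g : ℂ → ℂ} (hg : Sch g) :
    Maj (UU p * T g) (UR p) := by
  obtain ⟨TT, hTT⟩ : ∃ TT : PowerSeries ℂ, TT = PowerSeries.map Complex.ofRealHom (B 1) * T g := ⟨_, rfl⟩
  have hB : (1 - X) ^ 2 * PowerSeries.map Complex.ofRealHom (B 1) = 1 := by
    have h := congrArg (PowerSeries.map Complex.ofRealHom) B1_mul
    simpa only [map_mul, map_pow, map_sub, map_one, PowerSeries.map_X] using h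
  have hT : (1 - X) ^ 2 * TT = T g := by
    rw [hTT, ← mul_assoc, hB, one_mul]
  have hm := fejer hg hT
  have e1 : UU p * T g = TT + PowerSeries.C ((U p 1 : ℂ) - 2) * (X * (UU p * TT)) := by
    rw [← hT]
    have := UU_eq2 hp0 hp1
    linear_combination TT * this
  have e2 : UR p = B 1 + PowerSeries.C ‖((U p 1 : ℂ) - 2)‖ * (X * (UR p * B 1)) := by
    have h1 := UR_eq hp0 hp1
    have h2 : ‖((U p 1 : ℂ) - 2)‖ = U p 1 - 2 := by
      have : ((U p 1 : ℂ) - 2) = ((U p 1 - 2 : ℝ) : ℂ) := by push_cast; ring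
      rw [this, Complex.norm_of_nonneg (by linarith [U1_gt' hp0 hp1])]
    rw [h2]
    have h3 := B1_mul
    linear_combination (-(UR p)) * h3 + B 1 * h1
  rw [e1, e2]
  have hUU : Maj (UU p) (UR p) := by
    intro n
    simp only [UU, UR, PowerSeries.coeff_mk]
    rw [Complex.norm_of_nonneg (U_pos hp0 hp1 n).le]
  exact hm.add (((hUU.mul hm).X_mul).C_mul _)

end

end Pool.Agent.helper358_ms
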