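import Pool.Agent.helper358_ms.Bnd

/-! # The basic estimate for `Λ_n(E_ω) - Λ_n(E_x)` -/

set_option autoImplicit false

namespace Pool.Agent.helper358_ms

open Complex Metric Set Filter Topology PowerSeries

noncomputable section

/-- the constants -/
def Cb (k : ℕ) : ℝ :=
  if k ≤ 2 then 0 else if k = 3 then 10 / 3 else if k = 4 then 6 else ((k + 3).choose 5 : ℝ)

theorem Gu_coefs {c x a : ℂ} {h u G : ℂ → ℂ} (hc : ‖c‖ < 1) (hx : ‖x‖ = 1)
    (ha : a = 2 * (1 - (‖c‖ ^ 2 : ℝ)) * x)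
    (hhd : DifferentiableOn ℂ h (ball 0 1)) (hre : ∀ z ∈ ball (0 : ℂ) 1, 0 < (h z).re)
    (hud : DifferentiableOn ℂ u (ball 0 1)) (hu0 : u 0 = 0)
    (hu : ∀ z ∈ ball (0 : ℂ) 1, deriv u z * Nw c (fun _ => x) z ^ 2 = a * (z * h z))
    (hG : ClassE c G) :
    tc (fun z => G z * u z) 2 = (1 - (‖c‖ ^ 2 : ℝ)) * x * h 0 ∧
    (∀ k, k ≤ 1 → tc (fun z => G z * u z) k = 0) ∧
    (∀ k, 2 ≤ k → ‖tc (fun z => G z * u z) k‖ ≤ (1 - ‖c‖ ^ 2) * ‖h 0‖ * ((k + 3).choose 5 : ℝ)) ∧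
    (∀ k, k ≠ 2 → ‖tc (fun z => G z * u z) k‖ ≤ (1 - ‖c‖ ^ 2) * ‖h 0‖ * Cb k) := by
  obtain ⟨u0, u1, u2, u3, u4⟩ := u_coefs hhd hud hu0 hu
  have aG : AnalyticAt ℂ G 0 := analyticAt_zero one_pos hG.holo
  have au : AnalyticAt ℂ u 0 := analyticAt_zero one_pos hud
  have hT : T (fun z => G z * u z) = T G * T u := T_mul aG au
  have hepos : 0 < 1 - ‖c‖ ^ 2 := by nlinarith [norm_nonneg c]
  obtain ⟨e, he⟩ : ∃ e : ℝ, e = 1 - ‖c‖ ^ 2 := ⟨_, rfl⟩
  have hae : a = 2 * (e : ℂ) * x := by rw [ha, he]; push_cast; ring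
  have hna : ‖a‖ = 2 * e := by
    rw [hae, norm_mul, norm_mul, hx, norm_two', Complex.norm_of_nonneg (by rw [he]; exact hepos.le), mul_one]
  have hm := (hG.maj).mul (u_maj hc hx.le hhd hre hud hu0 hu)
  rw [← hT] at hm
  have hB : B 1 * (PowerSeries.C (‖a‖ / 2 * ‖h 0‖) * (X ^ 2 * B 3))
      = PowerSeries.C (e * ‖h 0‖) * (B 5 * X ^ 2) := by
    have e1 : B 1 * B 3 = B 5 := B_mul 1 3
    have e2 : ‖a‖ / 2 * ‖h 0‖ = e * ‖h 0‖ := by rw [hna]; ring
    rw [e2, ← e1]; ring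
  rw [hB] at hm
  have hgen : ∀ k, 2 ≤ k → ‖tc (fun z => G z * u z) k‖ ≤ (1 - ‖c‖ ^ 2) * ‖h 0‖ * ((k + 3).choose 5 : ℝ) := by
    intro k hk
    have h1 := hm k
    rw [coeff_T, PowerSeries.coeff_C_mul, PowerSeries.coeff_mul_X_pow', if_pos hk, coeff_B, he] at h1
    have : 5 + (k - 2) = k + 3 := by omega
    rwa [this] at h1
  have g0 : tc G 0 = 1 := by rw [tc_zero, hG.zero]
  have g1 : tc G 1 = -2 * c := by rw [tc_one, hG.one]
  obtain ⟨y, hy, g2⟩ : ∃ y : ℂ, ‖y‖ ≤ 1 ∧ tc G 2 = c ^ 2 - e * y := by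
    obtain ⟨w, hw, hr⟩ := hG.exists_omega hc
    obtain ⟨-, -, h2, -⟩ := first_coeffs hw.holo hG.holo hG.zero hr
    refine ⟨tc w 0, ?_, ?_⟩
    · rw [tc_zero]; exact hw.le 0 mem0
    · rw [h2, he]; push_cast; ring
  have hcf : ∀ k, tc (fun z => G z * u z) k = ∑ i ∈ Finset.range (k + 1), tc G i * tc u (k - i) := by
    intro k
    have := congrArg (PowerSeries.coeff k) hT
    rw [coeff_T, PowerSeries.coeff_mul, Finset.Nat.sum_antidiagonal_eq_sum_range_succ_mk] at this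
    simpa only [coeff_T] using this
  have c0 : tc (fun z => G z * u z) 0 = 0 := by
    rw [hcf]; simp [u0]
  have c1 : tc (fun z => G z * u z) 1 = 0 := by
    rw [hcf]; simp [Finset.sum_range_succ, u0, u1]
  have c2 : tc (fun z => G z * u z) 2 = a / 2 * tc h 0 := by
    rw [hcf]; simp [Finset.sum_range_succ, u0, u1, u2, g0]
  have c3 : tc (fun z => G z * u z) 3 = a / 3 * (tc h 1 - (c + 2 * (starRingEnd ℂ) c * x) * tc h 0) := by
    rw [hcf]; simp [Finset.sum_range_succ, u0, u1, u2, u3, g0, g1]; ring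
  have c4 : tc (fun z => G z * u z) 4 = a / 2 * (tc h 2 / 2 - (c / 3 + (starRingEnd ℂ) c * x) * tc h 1
      + (-(1 / 6) * c ^ 2 + 3 / 2 * ((starRingEnd ℂ) c * x) ^ 2 + (1 - (‖c‖ ^ 2 / 3 : ℝ)) * x - e * y) * tc h 0) := by
    have hcc := conj_mul_self c
    push_cast at hcc
    rw [hcf]; simp [Finset.sum_range_succ, u0, u1, u2, u3, u4, g0, g1, g2]
    linear_combination (a * tc h 0 * x * (-1 / 6)) * hcc
  have h1n : ‖tc h 1‖ ≤ 2 * ‖h 0‖ := (cara hhd hre one_pos).trans (by linarith [re_le_norm (h 0)])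
  have h2n : ‖tc h 2‖ ≤ 2 * ‖h 0‖ := (cara hhd hre two_pos).trans (by linarith [re_le_norm (h 0)])
  have h0n : ‖tc h 0‖ = ‖h 0‖ := by rw [tc_zero]
  have hcle : ‖c‖ ≤ 1 := hc.le
  have hc0 := norm_nonneg c
  have hh0 := norm_nonneg (h 0)
  have hcx : ‖(starRingEnd ℂ) c * x‖ = ‖c‖ := by rw [norm_mul, Complex.norm_conj, hx, mul_one]
  refine ⟨?_, ?_, hgen, ?_⟩
  · rw [c2, tc_zero, hae, he]; push_cast; ring
  · intro k hk
    interval_cases k
    · exact c0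
    · exact c1
  · intro k hk
    unfold Cb
    rcases Nat.lt_or_ge k 2 with h2 | h2
    · interval_cases k
      · rw [c0]; simp
      · rw [c1]; simp
    · rw [if_neg (by omega)]
      rcases Nat.lt_or_ge k 5 with h5 | h5
      · interval_cases k
        · exact absurd rfl hk
        · simp only [if_true]
          rw [c3, norm_mul, norm_div, hna]
          have n3 : ‖(3 : ℂ)‖ = 3 := by simp
          have t1 : ‖tc h 1 - (c + 2 * (starRingEnd ℂ) c * x) * tc h 0‖ ≤ 5 * ‖h 0‖ := by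
            have t2 : ‖c + 2 * (starRingEnd ℂ) c * x‖ ≤ 3 := by
              refine (norm_add_le _ _).trans ?_
              rw [mul_assoc, norm_mul, hcx, norm_two']
              linarith
            refine (norm_sub_le _ _).trans ?_
            rw [norm_mul, h0n]
            nlinarith
          rw [n3, ← he]
          have he0 : 0 ≤ e := by rw [he]; exact hepos.le
          nlinarith [mul_nonneg he0 hh0]
        · rw [if_neg (by norm_num), if_pos rfl]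
          rw [c4, norm_mul, norm_div, hna, norm_two']
          have he0 : 0 ≤ e := by rw [he]; exact hepos.le
          have t1 : ‖tc h 2 / 2‖ ≤ ‖h 0‖ := by
            rw [norm_div, norm_two']; linarith
          have t2 : ‖(c / 3 + (starRingEnd ℂ) c * x) * tc h 1‖ ≤ 8 / 3 * ‖h 0‖ := by
            rw [norm_mul]
            have : ‖c / 3 + (starRingEnd ℂ) c * x‖ ≤ 4 / 3 := by
              refine (norm_add_le _ _).trans ?_
              rw [hcx, norm_div]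
              have n3 : ‖(3 : ℂ)‖ = 3 := by simp
              rw [n3]; linarith
            nlinarith [norm_nonneg (tc h 1)]
          have t3 : ‖(-(1 / 6) * c ^ 2 + 3 / 2 * ((starRingEnd ℂ) c * x) ^ 2 + (1 - (‖c‖ ^ 2 / 3 : ℝ)) * x
              - e * y) * tc h 0‖ ≤ 7 / 3 * ‖h 0‖ := by
            rw [norm_mul, h0n]
            have s1 : ‖-(1 / 6) * c ^ 2‖ = 1 / 6 * ‖c‖ ^ 2 := by
              rw [norm_mul, norm_pow, norm_neg, norm_div]; simp
            have s2 : ‖3 / 2 * ((starRingEnd ℂ) c * x) ^ 2‖ = 3 / 2 * ‖c‖ ^ 2 := by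
              rw [norm_mul, norm_pow, hcx, norm_div]; simp
            have s3 : ‖(1 - ((‖c‖ ^ 2 / 3 : ℝ) : ℂ)) * x‖ = 1 - ‖c‖ ^ 2 / 3 := by
              have : (1 - ((‖c‖ ^ 2 / 3 : ℝ) : ℂ)) = ((1 - ‖c‖ ^ 2 / 3 : ℝ) : ℂ) := by push_cast; ring
              rw [norm_mul, hx, this, Complex.norm_of_nonneg (by nlinarith), mul_one]
            have s4 : ‖(e : ℂ) * y‖ ≤ 1 - ‖c‖ ^ 2 := by
              rw [norm_mul, Complex.norm_of_nonneg he0, he]
              nlinarith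
            have s5 : ‖-(1 / 6) * c ^ 2 + 3 / 2 * ((starRingEnd ℂ) c * x) ^ 2
                + (1 - (‖c‖ ^ 2 / 3 : ℝ)) * x - e * y‖ ≤ 7 / 3 := by
              refine (norm_sub_le _ _).trans ?_
              have s6 := norm_add_le (-(1 / 6) * c ^ 2 + 3 / 2 * ((starRingEnd ℂ) c * x) ^ 2)
                ((1 - ((‖c‖ ^ 2 / 3 : ℝ) : ℂ)) * x)
              have s7 := norm_add_le (-(1 / 6) * c ^ 2) (3 / 2 * ((starRingEnd ℂ) c * x) ^ 2)
              nlinarith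
            exact mul_le_mul_of_nonneg_right s5 hh0
          have t4 : ‖tc h 2 / 2 - (c / 3 + (starRingEnd ℂ) c * x) * tc h 1
              + (-(1 / 6) * c ^ 2 + 3 / 2 * ((starRingEnd ℂ) c * x) ^ 2 + (1 - (‖c‖ ^ 2 / 3 : ℝ)) * x - e * y) * tc h 0‖
              ≤ 6 * ‖h 0‖ := by
            refine (norm_add_le _ _).trans ?_
            have := norm_sub_le (tc h 2 / 2) ((c / 3 + (starRingEnd ℂ) c * x) * tc h 1)
            linarith
          rw [← he]
          nlinarith [mul_nonneg he0 hh0]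
      · rw [if_neg (by omega), if_neg (by omega)]
        exact hgen k h2

/-- the estimate for a linear functional -/
theorem lin_est {c x : ℂ} {ω E Ex : ℂ → ℂ} (hc : ‖c‖ < 1) (hx : ‖x‖ = 1) (hω : Sch ω)
    (hne : ω 0 ≠ x) (hE : ClassE c E) (hr : RelW c ω E) (hEx : ClassE c Ex)
    (hrx : RelW c (fun _ => x) Ex) (N : ℕ) (l : ℕ → ℝ) (hl : ∀ k, 0 ≤ l k) :
    ‖∑ k ∈ Finset.range N, (l k : ℂ) * (tc E k - tc Ex k)
      - (if 2 < N then (l 2 : ℂ) * ((1 - (‖c‖ ^ 2 : ℝ)) * (x - ω 0)) else 0)‖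
      ≤ (1 - ‖c‖ ^ 2) * ‖x - ω 0‖ * ∑ k ∈ Finset.range N, l k * Cb k := by
  obtain ⟨h, u, hhd, hre, hh0, hud, hu0, hu, hEu, hcl⟩ := path_exists hc hx hω hne hE hr hEx hrx
  have hxx : (starRingEnd ℂ) x * x = 1 := by rw [conj_mul_self, hx]; simp
  have hxh : x * h 0 = x - ω 0 := by rw [hh0]; linear_combination (-(ω 0)) * hxx
  have hnh : ‖h 0‖ = ‖x - ω 0‖ := by rw [← hxh, norm_mul, hx, one_mul]
  obtain ⟨m, hm⟩ : ∃ m : ℂ, m = (1 - (‖c‖ ^ 2 : ℝ)) * (x - ω 0) := ⟨_, rfl⟩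
  rw [← hm]
  obtain ⟨f, hf⟩ : ∃ f : ℝ → ℂ, f = fun s : ℝ => ∑ k ∈ Finset.range N,
      ((l k : ℂ) * tc (fun z => Ex z * Complex.exp (s * u z)) k - (if k = 2 then (l 2 : ℂ) * m else 0) * s) :=
    ⟨_, rfl⟩
  obtain ⟨f', hf'⟩ : ∃ f' : ℝ → ℂ, f' = fun s : ℝ => ∑ k ∈ Finset.range N,
      ((l k : ℂ) * tc (fun z => Ex z * Complex.exp (s * u z) * u z) k - (if k = 2 then (l 2 : ℂ) * m else 0)) :=
    ⟨_, rfl⟩
  have hder : ∀ s : ℝ, HasDerivAt f (f' s) s := by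
    intro s
    rw [hf, hf']
    apply HasDerivAt.fun_sum
    intro k _
    have d1 := (coef_path hEx.holo hEx.ne hud hu0 k s).const_mul (l k : ℂ)
    have d2 : HasDerivAt (fun s : ℝ => (if k = 2 then (l 2 : ℂ) * m else 0) * (s : ℂ))
        (if k = 2 then (l 2 : ℂ) * m else 0) s := by
      have := (Complex.ofRealCLM.hasDerivAt (x := s)).const_mul (if k = 2 then (l 2 : ℂ) * m else 0)
      simpa using this
    exact d1.sub d2
  have hbound : ∀ s ∈ Ico (0 : ℝ) 1, ‖f' s‖ ≤ (1 - ‖c‖ ^ 2) * ‖x - ω 0‖ * ∑ k ∈ Finset.range N, l k * Cb k := by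
    rintro s ⟨hs0, hs1⟩
    obtain ⟨b2, b1, -, b3⟩ := Gu_coefs hc hx rfl hhd hre hud hu0 hu (hcl s hs0 hs1.le)
    rw [hf']
    refine (norm_sum_le _ _).trans ?_
    rw [Finset.mul_sum]
    refine Finset.sum_le_sum fun k _ => ?_
    by_cases hk : k = 2
    · subst hk
      rw [if_pos rfl, b2]
      have : (l 2 : ℂ) * ((1 - (‖c‖ ^ 2 : ℝ)) * x * h 0) - (l 2 : ℂ) * m = 0 := by
        rw [hm, ← hxh]; ring
      rw [this]
      simp [Cb]
    · rw [if_neg hk, sub_zero, norm_mul, Complex.norm_of_nonneg (hl k)]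
      have := b3 k hk
      rw [hnh] at this
      calc l k * _ ≤ l k * ((1 - ‖c‖ ^ 2) * ‖x - ω 0‖ * Cb k) := mul_le_mul_of_nonneg_left this (hl k)
        _ = _ := by ring
  have hmv := norm_image_sub_le_of_norm_deriv_le_segment_01' (f := f) (f' := f')
    (fun s _ => (hder s).hasDerivWithinAt) hbound
  have hf1 : f 1 - f 0 = ∑ k ∈ Finset.range N, (l k : ℂ) * (tc E k - tc Ex k)
      - (if 2 < N then (l 2 : ℂ) * m else 0) := by
    rw [hf]
    simp only [Complex.ofReal_one, Complex.ofReal_zero, one_mul, zero_mul, Complex.exp_zero, mul_one,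
      mul_zero, sub_zero]
    rw [← Finset.sum_sub_distrib]
    have e1 : ∀ k, tc (fun z => Ex z * Complex.exp (u z)) k = tc E k := by
      intro k
      apply tc_congr
      filter_upwards [isOpen_ball.mem_nhds mem0] with z hz
      exact (hEu z hz).symm
    have e2 : ∀ k ∈ Finset.range N, ((l k : ℂ) * tc (fun z => Ex z * Complex.exp (u z)) k
        - (if k = 2 then (l 2 : ℂ) * m else 0) - (l k : ℂ) * tc (fun z => Ex z) k)
        = (l k : ℂ) * (tc E k - tc Ex k) - (if k = 2 then (l 2 : ℂ) * m else 0) := by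
      intro k _
      rw [e1]
      ring
    rw [Finset.sum_congr rfl e2, Finset.sum_sub_distrib]
    congr 1
    rw [Finset.sum_ite_eq']
    simp
  rw [hf1] at hmv
  exact hmv

/-- the coefficientwise estimate -/
theorem coef_est {c x : ℂ} {ω E Ex : ℂ → ℂ} (hc : ‖c‖ < 1) (hx : ‖x‖ = 1) (hω : Sch ω)
    (hne : ω 0 ≠ x) (hE : ClassE c E) (hr : RelW c ω E) (hEx : ClassE c Ex)
    (hrx : RelW c (fun _ => x) Ex) (k : ℕ) :
    ‖tc E k - tc Ex k‖ ≤ (1 - ‖c‖ ^ 2) * ‖x - ω 0‖ * ((k + 3).choose 5 : ℝ) := by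
  obtain ⟨h, u, hhd, hre, hh0, hud, hu0, hu, hEu, hcl⟩ := path_exists hc hx hω hne hE hr hEx hrx
  have hxx : (starRingEnd ℂ) x * x = 1 := by rw [conj_mul_self, hx]; simp
  have hxh : x * h 0 = x - ω 0 := by rw [hh0]; linear_combination (-(ω 0)) * hxx
  have hnh : ‖h 0‖ = ‖x - ω 0‖ := by rw [← hxh, norm_mul, hx, one_mul]
  have hepos : 0 < 1 - ‖c‖ ^ 2 := by nlinarith [norm_nonneg c]
  have hbound : ∀ s ∈ Ico (0 : ℝ) 1, ‖tc (fun z => Ex z * Complex.exp (s * u z) * u z) k‖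
      ≤ (1 - ‖c‖ ^ 2) * ‖x - ω 0‖ * ((k + 3).choose 5 : ℝ) := by
    rintro s ⟨hs0, hs1⟩
    obtain ⟨b2, b1, b0, b3⟩ := Gu_coefs hc hx rfl hhd hre hud hu0 hu (hcl s hs0 hs1.le)
    rcases Nat.lt_or_ge k 2 with hk | hk
    · rw [b1 k (by omega), norm_zero]
      positivity
    · rw [← hnh]; exact b0 k hk
  have hmv := norm_image_sub_le_of_norm_deriv_le_segment_01'
    (f := fun s : ℝ => tc (fun z => Ex z * Complex.exp (s * u z)) k)
    (f' := fun s : ℝ => tc (fun z => Ex z * Complex.exp (s * u z) * u z) k)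
    (fun s _ => (coef_path hEx.holo hEx.ne hud hu0 k s).hasDerivWithinAt) hbound
  have e1 : tc (fun z => Ex z * Complex.exp (u z)) k = tc E k := by
    apply tc_congr
    filter_upwards [isOpen_ball.mem_nhds mem0] with z hz
    exact (hEu z hz).symm
  simp only [Complex.ofReal_one, Complex.ofReal_zero, one_mul, zero_mul, Complex.exp_zero, mul_one] at hmv
  rw [e1] at hmv
  exact hmv

end

end Pool.Agent.helper358_ms
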