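import Pool.Agent.helper358_ms.Avg

/-! # Coefficient bounds for `2 z^{-2} E S_x` -/

set_option autoImplicit false

namespace Pool.Agent.helper358_ms

open Complex Metric Set Filter Topology PowerSeries

noncomputable section

theorem s_formal {c x : ℂ} {s : ℂ → ℂ} (hsd : DifferentiableOn ℂ s (ball 0 1))
    (hse : ∀ z ∈ ball (0 : ℂ) 1, (2 * s z + z * deriv s z) * Nw c (fun _ => x) z ^ 2 = 1) :
    (2 * T s + X * PowerSeries.derivative ℂ (T s)) * T (Nw c (fun _ => x)) ^ 2 = 1 := by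
  have as : AnalyticAt ℂ s 0 := analyticAt_zero one_pos hsd
  have as' : AnalyticAt ℂ (deriv s) 0 := analyticAt_zero one_pos (hsd.deriv isOpen_ball)
  have aN : AnalyticAt ℂ (Nw c (fun _ => x)) 0 :=
    analyticAt_zero one_pos (Nw_diff (differentiableOn_const x))
  have aid : AnalyticAt ℂ (fun z : ℂ => z) 0 := analyticAt_id
  have a1 : AnalyticAt ℂ (fun z : ℂ => (2 : ℂ) * s z) 0 := analyticAt_const.mul as
  have a2 : AnalyticAt ℂ (fun z : ℂ => z * deriv s z) 0 := aid.mul as'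
  have a3 : AnalyticAt ℂ (fun z : ℂ => 2 * s z + z * deriv s z) 0 := a1.add a2
  have aN2 : AnalyticAt ℂ (fun z : ℂ => Nw c (fun _ => x) z ^ 2) 0 := aN.pow 2
  have hev : (fun z => (fun z : ℂ => 2 * s z + z * deriv s z) z * (fun z => Nw c (fun _ => x) z ^ 2) z) =ᶠ[𝓝 0]
      fun _ => (1 : ℂ) := by
    filter_upwards [isOpen_ball.mem_nhds mem0] with z hz
    exact hse z hz
  have h := T_congr hev
  rw [T_mul a3 aN2, T_add a1 a2, T_mul (f := fun _ => (2 : ℂ)) analyticAt_const as, T_mul aid as', T_pow aN,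
    T_const, T_const, T_id, T_deriv] at h
  have two : (2 : PowerSeries ℂ) = PowerSeries.C (2 : ℂ) := (map_ofNat PowerSeries.C 2).symm
  rw [two, h, map_one]

theorem s_coefs {c x : ℂ} {s : ℂ → ℂ} (hsd : DifferentiableOn ℂ s (ball 0 1))
    (hse : ∀ z ∈ ball (0 : ℂ) 1, (2 * s z + z * deriv s z) * Nw c (fun _ => x) z ^ 2 = 1) :
    tc s 0 = 1 / 2 ∧ tc s 1 = 2 * (c - (starRingEnd ℂ) c * x) / 3 ∧
    tc s 2 = (3 * (c - (starRingEnd ℂ) c * x) ^ 2 + 2 * x) / 4 ∧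
    tc s 3 = (4 * (c - (starRingEnd ℂ) c * x) ^ 3 + 6 * (c - (starRingEnd ℂ) c * x) * x) / 5 := by
  have hf := s_formal hsd hse
  rw [T_Nw] at hf
  obtain ⟨ν, hν⟩ : ∃ ν : ℂ, ν = c - (starRingEnd ℂ) c * x := ⟨_, rfl⟩
  rw [← hν] at hf ⊢
  have two : (2 : PowerSeries ℂ) = PowerSeries.C (2 : ℂ) := (map_ofNat PowerSeries.C 2).symm
  have e : (1 - PowerSeries.C ν * X - PowerSeries.C x * (X * X)) ^ 2
      = 1 - PowerSeries.C (2 * ν) * X + (PowerSeries.C (ν ^ 2 - 2 * x)) * X ^ 2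
        + PowerSeries.C (2 * ν * x) * X ^ 3 + PowerSeries.C (x ^ 2) * X ^ 4 := by
    simp only [map_mul, map_sub, map_pow, ← two]
    ring
  rw [e] at hf
  obtain ⟨K, hK⟩ : ∃ K : PowerSeries ℂ, K = 2 * T s + X * PowerSeries.derivative ℂ (T s) := ⟨_, rfl⟩
  have hKc : ∀ k : ℕ, PowerSeries.coeff k K = ((k : ℂ) + 2) * tc s k := by
    intro k
    rw [hK, map_add, two, PowerSeries.coeff_C_mul, coeff_T]
    rcases k with _ | k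
    · simp
    · rw [PowerSeries.coeff_succ_X_mul, PowerSeries.coeff_derivative, coeff_T]
      push_cast
      ring
  rw [← hK] at hf
  have hf2 : K - PowerSeries.C (2 * ν) * (K * X)
      + PowerSeries.C (ν ^ 2 - 2 * x) * (K * X ^ 2)
      + PowerSeries.C (2 * ν * x) * (K * X ^ 3)
      + PowerSeries.C (x ^ 2) * (K * X ^ 4) = 1 := by
    rw [← hf]; ring
  obtain ⟨m1, hm1⟩ : ∃ m1 : ℂ, m1 = 2 * ν := ⟨_, rfl⟩
  obtain ⟨m2, hm2⟩ : ∃ m2 : ℂ, m2 = ν ^ 2 - 2 * x := ⟨_, rfl⟩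
  obtain ⟨m3, hm3⟩ : ∃ m3 : ℂ, m3 = 2 * ν * x := ⟨_, rfl⟩
  obtain ⟨m4, hm4⟩ : ∃ m4 : ℂ, m4 = x ^ 2 := ⟨_, rfl⟩
  rw [← hm3, ← hm1, ← hm2, ← hm4] at hf2
  have k0 := congrArg (PowerSeries.coeff 0) hf2
  have k1 := congrArg (PowerSeries.coeff 1) hf2
  have k2 := congrArg (PowerSeries.coeff 2) hf2
  have k3 := congrArg (PowerSeries.coeff 3) hf2
  have X1 : ∀ (f : PowerSeries ℂ) (n : ℕ), PowerSeries.coeff n (f * X) = if 1 ≤ n then PowerSeries.coeff (n - 1) f else 0 := by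
    intro f n
    have := PowerSeries.coeff_mul_X_pow' f 1 n
    simpa using this
  simp only [map_add, map_sub, PowerSeries.coeff_C_mul, X1, PowerSeries.coeff_mul_X_pow', hKc,
    PowerSeries.coeff_one] at k0 k1 k2 k3
  norm_num at k0 k1 k2 k3
  have t0 : tc s 0 = 1 / 2 := by linear_combination (1 / 2 : ℂ) * k0
  rw [t0] at k1 k2 k3
  have t1 : tc s 1 = 2 * ν / 3 := by
    rw [hm1] at k1
    linear_combination (1 / 3 : ℂ) * k1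
  rw [t1, hm1] at k2 k3
  rw [hm2] at k2 k3
  have t2 : tc s 2 = (3 * ν ^ 2 + 2 * x) / 4 := by linear_combination (1 / 4 : ℂ) * k2
  rw [t2, hm3] at k3
  refine ⟨t0, t1, t2, ?_⟩
  linear_combination (1 / 5 : ℂ) * k3

/-- first coefficients of functions of the class -/
theorem E_coefs {c : ℂ} {E : ℂ → ℂ} (hc : ‖c‖ < 1) (hE : ClassE c E) :
    ∃ y w : ℂ, ‖y‖ ≤ 1 ∧ ‖w‖ ≤ 1 - ‖y‖ ^ 2 ∧ tc E 0 = 1 ∧ tc E 1 = -2 * c ∧
      tc E 2 = c ^ 2 - (1 - (‖c‖ ^ 2 : ℝ)) * y ∧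
      tc E 3 = 2 / 3 * (1 - (‖c‖ ^ 2 : ℝ)) * (c * y + (starRingEnd ℂ) c * y ^ 2 - w) := by
  obtain ⟨ω, hω, hr⟩ := hE.exists_omega hc
  obtain ⟨h0, h1, h2, h3⟩ := first_coeffs hω.holo hE.holo hE.zero hr
  obtain ⟨y, hy, hy0, hy1⟩ := hω.coeffs
  refine ⟨tc ω 0, tc ω 1, hy0, ?_, h0, h1, h2, h3⟩
  rw [hy1, norm_mul]
  have h4 : 0 ≤ 1 - ‖tc ω 0‖ ^ 2 := by nlinarith [norm_nonneg (tc ω 0)]
  have h5 : ‖(1 - ((‖tc ω 0‖ ^ 2 : ℝ) : ℂ))‖ = 1 - ‖tc ω 0‖ ^ 2 := by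
    have : (1 - ((‖tc ω 0‖ ^ 2 : ℝ) : ℂ)) = ((1 - ‖tc ω 0‖ ^ 2 : ℝ) : ℂ) := by push_cast; ring
    rw [this, Complex.norm_of_nonneg h4]
  rw [h5]
  exact mul_le_of_le_one_right h4 hy

/-- the series `2 z^{-2} S_x E` -/
def Gs (s E : ℂ → ℂ) : PowerSeries ℂ := (PowerSeries.C 2 * T s) * T E

/-- the principal part of the second coefficient -/
def kap2 (c x : ℂ) : ℂ := 3 / 2 * ((starRingEnd ℂ) c * x) ^ 2 - 1 / 6 * c ^ 2 + 2 / 3 * (c * ((starRingEnd ℂ) c * x))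
  + (1 - (‖c‖ ^ 2 : ℝ)) * x

theorem Gs_coefs {c x : ℂ} {s E : ℂ → ℂ} (hc : ‖c‖ < 1) (hx : ‖x‖ = 1) (hsd : DifferentiableOn ℂ s (ball 0 1))
    (hse : ∀ z ∈ ball (0 : ℂ) 1, (2 * s z + z * deriv s z) * Nw c (fun _ => x) z ^ 2 = 1) (hE : ClassE c E) :
    PowerSeries.coeff 0 (Gs s E) = 1 ∧
    PowerSeries.coeff 1 (Gs s E) = -(2 / 3 * c + 4 / 3 * ((starRingEnd ℂ) c * x)) ∧
    ‖PowerSeries.coeff 2 (Gs s E) - kap2 c x‖ ≤ 1 - ‖c‖ ^ 2 ∧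
    ‖PowerSeries.coeff 3 (Gs s E)‖ ≤ 7 / 2 := by
  obtain ⟨s0, s1, s2, s3⟩ := s_coefs hsd hse
  obtain ⟨y, w, hy, hw, e0, e1, e2, e3⟩ := E_coefs hc hE
  have hcf : ∀ k, PowerSeries.coeff k (Gs s E) = ∑ i ∈ Finset.range (k + 1), 2 * tc s i * tc E (k - i) := by
    intro k
    unfold Gs
    rw [PowerSeries.coeff_mul, Finset.Nat.sum_antidiagonal_eq_sum_range_succ_mk]
    simp only [PowerSeries.coeff_C_mul, coeff_T]
  obtain ⟨r, hr⟩ : ∃ r : ℝ, r = ‖c‖ := ⟨_, rfl⟩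
  have hr0 : 0 ≤ r := by rw [hr]; exact norm_nonneg c
  have hr1 : r < 1 := by rw [hr]; exact hc
  obtain ⟨v, hv⟩ : ∃ v : ℂ, v = (starRingEnd ℂ) c * x := ⟨_, rfl⟩
  have hvn : ‖v‖ = r := by rw [hv, norm_mul, Complex.norm_conj, hx, mul_one, hr]
  have hcn : ‖c‖ = r := hr.symm
  have hcv : c * v = ((r ^ 2 : ℝ) : ℂ) * x := by
    rw [hv, hr, ← conj_mul_self c]; ring
  rw [← hv] at s1 s2 s3 ⊢
  rw [← hr] at e2 e3
  have hk2 : kap2 c x = 3 / 2 * v ^ 2 - 1 / 6 * c ^ 2 + 2 / 3 * (c * v) + (1 - (r ^ 2 : ℝ)) * x := by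
    unfold kap2; rw [← hv, ← hr]
  rw [hk2, ← hr]
  have heps : ‖(1 - ((r ^ 2 : ℝ) : ℂ))‖ = 1 - r ^ 2 := by
    have : (1 - ((r ^ 2 : ℝ) : ℂ)) = ((1 - r ^ 2 : ℝ) : ℂ) := by push_cast; ring
    rw [this, Complex.norm_of_nonneg (by nlinarith)]
  refine ⟨?_, ?_, ?_, ?_⟩
  · rw [hcf]; simp [s0, e0]
  · rw [hcf]; simp [Finset.sum_range_succ, s0, s1, e0, e1]; ring
  · have : PowerSeries.coeff 2 (Gs s E) - (3 / 2 * v ^ 2 - 1 / 6 * c ^ 2 + 2 / 3 * (c * v) + (1 - (r ^ 2 : ℝ)) * x)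
        = -((1 - ((r ^ 2 : ℝ) : ℂ)) * y) := by
      rw [hcf]; simp [Finset.sum_range_succ, s0, s1, s2, e0, e1, e2]
      push_cast at hcv
      linear_combination (-1 : ℂ) * hcv
    rw [this, norm_neg, norm_mul, heps]
    exact mul_le_of_le_one_right (by nlinarith) hy
  · have h3 : PowerSeries.coeff 3 (Gs s E)
        = -(8 / 5) * v ^ 3 - ((12 / 5 - 9 / 5 * r ^ 2 : ℝ) : ℂ) * (x * v) + ((2 / 5 - 2 / 15 * r ^ 2 : ℝ) : ℂ) * (x * c)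
          - 1 / 15 * c ^ 3 + 4 / 3 * ((v - c) * ((1 - ((r ^ 2 : ℝ) : ℂ)) * y))
          + 2 / 3 * ((1 - ((r ^ 2 : ℝ) : ℂ)) * (c * y + (starRingEnd ℂ) c * y ^ 2 - w)) := by
      rw [hcf]; simp [Finset.sum_range_succ, s0, s1, s2, s3, e0, e1, e2, e3]
      push_cast at hcv
      linear_combination (9 / 5 * v - 2 / 15 * c) * hcv
    rw [h3]
    have n1 : ‖-(8 / 5) * v ^ 3‖ = 8 / 5 * r ^ 3 := by
      rw [norm_mul, norm_pow, hvn, norm_neg]; simp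
    have n2 : ‖((12 / 5 - 9 / 5 * r ^ 2 : ℝ) : ℂ) * (x * v)‖ = (12 / 5 - 9 / 5 * r ^ 2) * r := by
      rw [norm_mul, norm_mul, hx, hvn, Complex.norm_of_nonneg (by nlinarith)]; ring
    have n3 : ‖((2 / 5 - 2 / 15 * r ^ 2 : ℝ) : ℂ) * (x * c)‖ = (2 / 5 - 2 / 15 * r ^ 2) * r := by
      rw [norm_mul, norm_mul, hx, hcn, Complex.norm_of_nonneg (by nlinarith)]; ring
    have n4 : ‖1 / 15 * c ^ 3‖ = 1 / 15 * r ^ 3 := by
      rw [norm_mul, norm_pow, hcn]; simp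
    have n5 : ‖4 / 3 * ((v - c) * ((1 - ((r ^ 2 : ℝ) : ℂ)) * y))‖ ≤ 8 / 3 * r * (1 - r ^ 2) := by
      rw [norm_mul, norm_mul, norm_mul, heps]
      have h43 : ‖(4 / 3 : ℂ)‖ = 4 / 3 := by simp
      have hvc : ‖v - c‖ ≤ 2 * r := by
        refine (norm_sub_le _ _).trans ?_
        rw [hvn, hcn]; linarith
      have h5 : (1 - r ^ 2) * ‖y‖ ≤ 1 - r ^ 2 := mul_le_of_le_one_right (by nlinarith) hy
      have h6 : ‖v - c‖ * ((1 - r ^ 2) * ‖y‖) ≤ (2 * r) * (1 - r ^ 2) :=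
        mul_le_mul hvc h5 (mul_nonneg (by nlinarith) (norm_nonneg _)) (by linarith)
      rw [h43]
      linarith
    have n6 : ‖2 / 3 * ((1 - ((r ^ 2 : ℝ) : ℂ)) * (c * y + (starRingEnd ℂ) c * y ^ 2 - w))‖
        ≤ 2 / 3 * ((1 - r ^ 2) * (1 + r)) := by
      rw [norm_mul, norm_mul, heps]
      have h23 : ‖(2 / 3 : ℂ)‖ = 2 / 3 := by simp
      have h7 : ‖c * y + (starRingEnd ℂ) c * y ^ 2 - w‖ ≤ 1 + r := by
        refine (norm_sub_le _ _).trans ?_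
        have h8 := norm_add_le (c * y) ((starRingEnd ℂ) c * y ^ 2)
        rw [norm_mul, norm_mul, norm_pow, Complex.norm_conj, hcn] at h8
        have hy0 := norm_nonneg y
        nlinarith [mul_nonneg hr0 hy0]
      rw [h23]
      have := mul_le_mul_of_nonneg_left h7 (by nlinarith : (0 : ℝ) ≤ 1 - r ^ 2)
      linarith
    have t1 := norm_sub_le (-(8 / 5) * v ^ 3) (((12 / 5 - 9 / 5 * r ^ 2 : ℝ) : ℂ) * (x * v))
    have t2 := norm_add_le (-(8 / 5) * v ^ 3 - ((12 / 5 - 9 / 5 * r ^ 2 : ℝ) : ℂ) * (x * v))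
      (((2 / 5 - 2 / 15 * r ^ 2 : ℝ) : ℂ) * (x * c))
    have t3 := norm_sub_le (-(8 / 5) * v ^ 3 - ((12 / 5 - 9 / 5 * r ^ 2 : ℝ) : ℂ) * (x * v)
      + ((2 / 5 - 2 / 15 * r ^ 2 : ℝ) : ℂ) * (x * c)) (1 / 15 * c ^ 3)
    have t4 := norm_add_le (-(8 / 5) * v ^ 3 - ((12 / 5 - 9 / 5 * r ^ 2 : ℝ) : ℂ) * (x * v)
      + ((2 / 5 - 2 / 15 * r ^ 2 : ℝ) : ℂ) * (x * c) - 1 / 15 * c ^ 3)
      (4 / 3 * ((v - c) * ((1 - ((r ^ 2 : ℝ) : ℂ)) * y)))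
    refine (norm_add_le _ _).trans ?_
    rw [n1, n2] at t1
    rw [n3] at t2
    rw [n4] at t3
    have hfin : 8 / 5 * r ^ 3 + (12 / 5 - 9 / 5 * r ^ 2) * r + (2 / 5 - 2 / 15 * r ^ 2) * r + 1 / 15 * r ^ 3
        + 8 / 3 * r * (1 - r ^ 2) + 2 / 3 * ((1 - r ^ 2) * (1 + r)) ≤ 7 / 2 := by
      nlinarith [sq_nonneg (r - 7 / 10), mul_nonneg hr0 (sq_nonneg (r - 7 / 10)), mul_nonneg (sub_nonneg.2 hr1.le) (sq_nonneg (r - 7 / 10))]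
    linarith

end

end Pool.Agent.helper358_ms
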