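import Pool.Agent.helper358_ms.GB

/-! # Coefficient bounds for `2 z^{-2} E S_x`, general index -/

set_option autoImplicit false

namespace Pool.Agent.helper358_ms

open Complex Metric Set Filter Topology PowerSeries

noncomputable section

theorem X_deriv_geom (α : ℂ) : X * PowerSeries.derivative ℂ (PowerSeries.mk fun n => α ^ n)
    = (PowerSeries.mk fun n => α ^ n) * ((PowerSeries.mk fun n => α ^ n) - 1) := by
  obtain ⟨A, hA⟩ : ∃ A : PowerSeries ℂ, A = PowerSeries.mk fun n => α ^ n := ⟨_, rfl⟩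
  have h1 : (1 - PowerSeries.C α * X) * A = 1 := by rw [hA]; exact geom_mul α
  rw [← hA]
  have h2 := congrArg (PowerSeries.derivative ℂ) h1
  rw [Derivation.leibniz, map_sub, Derivation.leibniz, PowerSeries.derivative_C, PowerSeries.derivative_X] at h2
  have h3 : PowerSeries.derivative ℂ (1 : PowerSeries ℂ) = 0 := by
    rw [← map_one (PowerSeries.C (R := ℂ)), PowerSeries.derivative_C]
  simp only [h3, smul_eq_mul, mul_zero, mul_one, add_zero, zero_sub] at h2
  -- `(1 - αX) A' = α A`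
  have h4 : PowerSeries.derivative ℂ A = PowerSeries.C α * A * A := by
    calc PowerSeries.derivative ℂ A = ((1 - PowerSeries.C α * X) * A) * PowerSeries.derivative ℂ A := by
          rw [h1, one_mul]
      _ = A * ((1 - PowerSeries.C α * X) * PowerSeries.derivative ℂ A) := by ring
      _ = _ := by linear_combination A * h2
  have h5 : PowerSeries.C α * X * A = A - 1 := by linear_combination -h1
  rw [h4]
  linear_combination A * h5

/-- all the coefficient bounds -/
theorem Gs_bound {c x : ℂ} {s E : ℂ → ℂ} (hc : ‖c‖ < 1) (hx : ‖x‖ = 1) (hsd : DifferentiableOn ℂ s (ball 0 1))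
    (hse : ∀ z ∈ ball (0 : ℂ) 1, (2 * s z + z * deriv s z) * Nw c (fun _ => x) z ^ 2 = 1) (hE : ClassE c E)
    {i : ℕ} (hi : 4 ≤ i) : ‖PowerSeries.coeff i (Gs s E)‖ ≤ 2 ^ (i - 1) := by
  obtain ⟨c0, c1, -, c3⟩ := Gs_coefs hc hx hsd hse hE
  obtain ⟨y, w, hy, hw, e0, e1, e2, -⟩ := E_coefs hc hE
  obtain ⟨α, β, hα, hβ, h1, h2⟩ := exists_roots hc hx.le
  have hN := T_Nw_roots h1 h2
  obtain ⟨r, hr⟩ : ∃ r : ℝ, r = ‖c‖ := ⟨_, rfl⟩
  have hr0 : 0 ≤ r := by rw [hr]; exact norm_nonneg c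
  have hr1 : r < 1 := by rw [hr]; exact hc
  obtain ⟨v, hv⟩ : ∃ v : ℂ, v = (starRingEnd ℂ) c * x := ⟨_, rfl⟩
  have hvn : ‖v‖ = r := by rw [hv, norm_mul, Complex.norm_conj, hx, mul_one, hr]
  have hcn : ‖c‖ = r := hr.symm
  have hcv : c * v = ((r ^ 2 : ℝ) : ℂ) * x := by
    rw [hv, hr, ← conj_mul_self c]; ring
  rw [← hv] at h1 c1
  rw [← hr] at e2
  have heps : ‖(1 - ((r ^ 2 : ℝ) : ℂ))‖ = 1 - r ^ 2 := by
    have : (1 - ((r ^ 2 : ℝ) : ℂ)) = ((1 - r ^ 2 : ℝ) : ℂ) := by push_cast; ring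
    rw [this, Complex.norm_of_nonneg (by nlinarith)]
  -- the Carathéodory function
  obtain ⟨P, hPdef⟩ : ∃ P : ℂ → ℂ, P = fun z => 1 - z * (deriv E z / E z) := ⟨_, rfl⟩
  have hLd : DifferentiableOn ℂ (fun z => deriv E z / E z) (ball 0 1) :=
    (hE.holo.deriv isOpen_ball).div hE.holo hE.ne
  have hPd : DifferentiableOn ℂ P (ball 0 1) := by
    rw [hPdef]
    exact (differentiableOn_id.mul hLd).const_sub 1
  have hPre : ∀ z ∈ ball (0 : ℂ) 1, 0 < (P z).re := by
    rw [hPdef]; exact hE.pos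
  have hP0 : P 0 = 1 := by rw [hPdef]; simp
  have hpk : ∀ k, 0 < k → ‖tc P k‖ ≤ 2 := by
    intro k hk
    have := cara hPd hPre hk
    rw [hP0] at this
    simpa using this
  have hp0 : tc P 0 = 1 := by rw [tc_zero, hP0]
  have aE : AnalyticAt ℂ E 0 := analyticAt_zero one_pos hE.holo
  have aE' : AnalyticAt ℂ (deriv E) 0 := analyticAt_zero one_pos (hE.holo.deriv isOpen_ball)
  have aP : AnalyticAt ℂ P 0 := analyticAt_zero one_pos hPd
  have aid : AnalyticAt ℂ (fun z : ℂ => z) 0 := analyticAt_id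
  have hXE : X * PowerSeries.derivative ℂ (T E) = T E - T E * T P := by
    have hev : (fun z => z * deriv E z) =ᶠ[𝓝 0] fun z => E z - E z * P z := by
      filter_upwards [isOpen_ball.mem_nhds mem0] with z hz
      rw [hPdef]
      have := hE.ne z hz
      field_simp
      ring
    have h1 := T_congr hev
    have aEP : AnalyticAt ℂ (fun z => E z * P z) 0 := aE.mul aP
    rw [T_mul aid aE', T_sub aE aEP, T_mul aE aP, T_id, T_deriv] at h1
    exact h1
  -- formal series
  obtain ⟨A, hA⟩ : ∃ A : PowerSeries ℂ, A = PowerSeries.mk fun n => α ^ n := ⟨_, rfl⟩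
  obtain ⟨Bb, hBb⟩ : ∃ Bb : PowerSeries ℂ, Bb = PowerSeries.mk fun n => β ^ n := ⟨_, rfl⟩
  have hXA : X * PowerSeries.derivative ℂ A = A * (A - 1) := by rw [hA]; exact X_deriv_geom α
  have hXB : X * PowerSeries.derivative ℂ Bb = Bb * (Bb - 1) := by rw [hBb]; exact X_deriv_geom β
  have hNM : T (Nw c (fun _ => x)) * (A * Bb) = 1 := by
    rw [hN, hA, hBb]
    calc _ = ((1 - PowerSeries.C α * X) * PowerSeries.mk (fun n => α ^ n)) *
          ((1 - PowerSeries.C β * X) * PowerSeries.mk (fun n => β ^ n)) := by ring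
      _ = 1 := by rw [geom_mul, geom_mul, one_mul]
  have hsf := s_formal hsd hse
  have hK : 2 * T s + X * PowerSeries.derivative ℂ (T s) = (A * Bb) ^ 2 := by
    calc 2 * T s + X * PowerSeries.derivative ℂ (T s)
        = (2 * T s + X * PowerSeries.derivative ℂ (T s)) * (T (Nw c (fun _ => x)) * (A * Bb)) ^ 2 := by
          rw [hNM]; ring
      _ = ((2 * T s + X * PowerSeries.derivative ℂ (T s)) * T (Nw c (fun _ => x)) ^ 2) * (A * Bb) ^ 2 := by
          ring
      _ = _ := by rw [hsf, one_mul]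
  obtain ⟨R, hR⟩ : ∃ R : PowerSeries ℂ, R = T E * (A * Bb) ^ 2 := ⟨_, rfl⟩
  obtain ⟨ρ, hρ⟩ : ∃ ρ : PowerSeries ℂ, ρ = PowerSeries.C 2 * A + PowerSeries.C 2 * Bb - PowerSeries.C 3 - T P := ⟨_, rfl⟩
  have two : (PowerSeries.C (2 : ℂ) : PowerSeries ℂ) = 2 := map_ofNat PowerSeries.C 2
  have three : (PowerSeries.C (3 : ℂ) : PowerSeries ℂ) = 3 := map_ofNat PowerSeries.C 3
  have hXR : X * PowerSeries.derivative ℂ R = R * ρ := by
    have hM2 : X * PowerSeries.derivative ℂ ((A * Bb) ^ 2) = 2 * (A * Bb) ^ 2 * (A + Bb - 2) := by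
      have : PowerSeries.derivative ℂ ((A * Bb) ^ 2)
          = 2 * (A * Bb) * (A * PowerSeries.derivative ℂ Bb + Bb * PowerSeries.derivative ℂ A) := by
        rw [sq, Derivation.leibniz, Derivation.leibniz]
        simp only [smul_eq_mul]
        ring
      rw [this]
      linear_combination (2 * (A * Bb) * A) * hXB + (2 * (A * Bb) * Bb) * hXA
    rw [hR, hρ, Derivation.leibniz, two, three]
    simp only [smul_eq_mul]
    linear_combination (T E) * hM2 + (A * Bb) ^ 2 * hXE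
  obtain ⟨G, hG⟩ : ∃ G : PowerSeries ℂ, G = Gs s E := ⟨_, rfl⟩
  have hXG : X * PowerSeries.derivative ℂ G = PowerSeries.C 2 * R - G - G * T P := by
    rw [hG, hR]
    unfold Gs
    rw [two]
    have h2d : PowerSeries.derivative ℂ (2 * T s * T E)
        = 2 * (PowerSeries.derivative ℂ (T s) * T E + T s * PowerSeries.derivative ℂ (T E)) := by
      rw [← two, mul_assoc, Derivation.leibniz, PowerSeries.derivative_C, Derivation.leibniz]
      simp only [smul_eq_mul]
      ring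
    rw [h2d, ← hK]
    linear_combination (2 * T s) * hXE
  -- coefficients
  obtain ⟨ro, hro⟩ : ∃ ro : ℕ → ℂ, ro = fun k => PowerSeries.coeff k R := ⟨_, rfl⟩
  obtain ⟨rh, hrh⟩ : ∃ rh : ℕ → ℂ, rh = fun k => PowerSeries.coeff k ρ := ⟨_, rfl⟩
  obtain ⟨g, hg⟩ : ∃ g : ℕ → ℂ, g = fun k => PowerSeries.coeff k G := ⟨_, rfl⟩
  have hrhk : ∀ k, 0 < k → rh k = 2 * α ^ k + 2 * β ^ k - tc P k := by
    intro k hk
    rw [hrh, hρ, hA, hBb]
    simp only [map_sub, map_add, PowerSeries.coeff_C_mul, PowerSeries.coeff_mk, coeff_T,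
      PowerSeries.coeff_C, if_neg hk.ne', sub_zero]
  have hrh0 : rh 0 = 0 := by
    rw [hrh, hρ, hA, hBb]
    simp only [map_sub, map_add, PowerSeries.coeff_C_mul, PowerSeries.coeff_mk, coeff_T,
      PowerSeries.coeff_C, if_true, pow_zero, hp0]
    norm_num
  have hrh6 : ∀ k, 0 < k → ‖rh k‖ ≤ 6 := by
    intro k hk
    rw [hrhk k hk]
    refine (norm_sub_le _ _).trans ?_
    have t1 := norm_add_le (2 * α ^ k) (2 * β ^ k)
    rw [norm_mul, norm_mul, norm_pow, norm_pow, norm_two'] at t1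
    have t2 : ‖α‖ ^ k ≤ 1 := pow_le_one₀ (norm_nonneg _) hα
    have t3 : ‖β‖ ^ k ≤ 1 := pow_le_one₀ (norm_nonneg _) hβ
    have t4 := hpk k hk
    linarith
  have hrec : ∀ k : ℕ, (k : ℂ) * ro k = ∑ j ∈ Finset.range k, ro j * rh (k - j) := by
    intro k
    have h3 := congrArg (PowerSeries.coeff k) hXR
    rw [PowerSeries.coeff_mul k R ρ, Finset.Nat.sum_antidiagonal_eq_sum_range_succ_mk, Finset.sum_range_succ] at h3
    rw [hro, hrh]
    have h4 : PowerSeries.coeff k (X * PowerSeries.derivative ℂ R) = (k : ℂ) * PowerSeries.coeff k R := by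
      rcases k with _ | k
      · simp
      · rw [PowerSeries.coeff_succ_X_mul, PowerSeries.coeff_derivative]
        push_cast
        ring
    have h5 : PowerSeries.coeff 0 ρ = 0 := by
      have := hrh0
      rwa [hrh] at this
    rw [h4] at h3
    simp only [Nat.sub_self, h5, mul_zero, add_zero] at h3
    exact h3
  have hgrec : ∀ k : ℕ, ((k : ℂ) + 2) * g k = 2 * ro k - ∑ j ∈ Finset.range k, g j * tc P (k - j) := by
    intro k
    have h3 := congrArg (PowerSeries.coeff k) hXG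
    rw [map_sub, map_sub, PowerSeries.coeff_C_mul, PowerSeries.coeff_mul k G (T P),
      Finset.Nat.sum_antidiagonal_eq_sum_range_succ_mk, Finset.sum_range_succ] at h3
    rw [hro, hg]
    have h4 : PowerSeries.coeff k (X * PowerSeries.derivative ℂ G) = (k : ℂ) * PowerSeries.coeff k G := by
      rcases k with _ | k
      · simp
      · rw [PowerSeries.coeff_succ_X_mul, PowerSeries.coeff_derivative]
        push_cast
        ring
    rw [h4] at h3
    simp only [Nat.sub_self, coeff_T, hp0, mul_one] at h3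
    linear_combination h3
  -- the first values
  have hro0 : ro 0 = 1 := by
    rw [hro, hR, hA, hBb]
    simp only [PowerSeries.coeff_zero_eq_constantCoeff, map_mul, map_pow]
    have : PowerSeries.constantCoeff (T E) = 1 := by
      rw [← PowerSeries.coeff_zero_eq_constantCoeff_apply, coeff_T, e0]
    rw [this]
    simp
  have hp1 : tc P 1 = 2 * c := by
    have h3 := congrArg (PowerSeries.coeff 1) hXE
    rw [show (1 : ℕ) = 0 + 1 from rfl, PowerSeries.coeff_succ_X_mul, PowerSeries.coeff_derivative, map_sub,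
      PowerSeries.coeff_mul, Finset.Nat.sum_antidiagonal_eq_sum_range_succ_mk] at h3
    simp only [Finset.sum_range_succ, Finset.sum_range_zero, coeff_T, e0, e1, hp0, Nat.sub_zero, Nat.sub_self,
      zero_add] at h3
    push_cast at h3
    linear_combination h3
  have hp2 : tc P 2 = 4 * c ^ 2 - 2 * tc E 2 := by
    have h3 := congrArg (PowerSeries.coeff 2) hXE
    rw [show (2 : ℕ) = 1 + 1 from rfl, PowerSeries.coeff_succ_X_mul, PowerSeries.coeff_derivative, map_sub,
      PowerSeries.coeff_mul, Finset.Nat.sum_antidiagonal_eq_sum_range_succ_mk] at h3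
    simp only [Finset.sum_range_succ, Finset.sum_range_zero, coeff_T, e0, e1, hp0, Nat.sub_zero, Nat.sub_self,
      zero_add, Nat.add_sub_cancel, hp1] at h3
    norm_num at h3
    linear_combination h3
  have hrh1 : rh 1 = -2 * v := by
    rw [hrhk 1 one_pos, hp1]
    linear_combination (2 : ℂ) * h1
  have hrh2 : rh 2 = 2 * (v ^ 2 + (1 - ((r ^ 2 : ℝ) : ℂ)) * (2 * x - y)) := by
    rw [hrhk 2 two_pos, hp2, e2]
    push_cast at hcv
    push_cast
    linear_combination (2 * (α + β) + 2 * (c - v)) * h1 - 4 * h2 - 4 * hcv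
  have hr1v : ro 1 = -2 * v := by
    have h3 := hrec 1
    simp [Finset.sum_range_succ, hro0, hrh1] at h3
    linear_combination h3
  have hr2v : ro 2 = 3 * v ^ 2 + (1 - ((r ^ 2 : ℝ) : ℂ)) * (2 * x - y) := by
    have h3 := hrec 2
    simp [Finset.sum_range_succ, hro0, hrh1, hrh2, hr1v] at h3
    push_cast
    linear_combination (1 / 2 : ℂ) * h3
  have n2xy : ‖(1 - ((r ^ 2 : ℝ) : ℂ)) * (2 * x - y)‖ ≤ (1 - r ^ 2) * 3 := by
    rw [norm_mul, heps]
    apply mul_le_mul_of_nonneg_left _ (by nlinarith)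
    refine (norm_sub_le _ _).trans ?_
    rw [norm_mul, hx, norm_two']
    linarith
  have nro0 : ‖ro 0‖ = 1 := by rw [hro0]; simp
  have nro1 : ‖ro 1‖ ≤ 2 * r := by
    rw [hr1v, norm_mul, norm_neg, norm_two', hvn]
  have nro2 : ‖ro 2‖ ≤ 3 := by
    rw [hr2v]
    refine (norm_add_le _ _).trans ?_
    have : ‖3 * v ^ 2‖ = 3 * r ^ 2 := by rw [norm_mul, norm_pow, hvn]; simp
    rw [this]
    nlinarith
  have nrh1 : ‖rh 1‖ ≤ 2 * r := by
    rw [hrh1, norm_mul, norm_neg, norm_two', hvn]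
  have nrh2 : ‖rh 2‖ ≤ 2 * (3 - 2 * r ^ 2) := by
    rw [hrh2, norm_mul, norm_two']
    apply mul_le_mul_of_nonneg_left _ (by norm_num)
    refine (norm_add_le _ _).trans ?_
    have : ‖v ^ 2‖ = r ^ 2 := by rw [norm_pow, hvn]
    rw [this]
    linarith
  have nro3 : ‖ro 3‖ ≤ 6 := by
    have h3 := hrec 3
    simp [Finset.sum_range_succ] at h3
    have h4 : ‖ro 0 * rh 3 + ro 1 * rh 2 + ro 2 * rh 1‖ ≤ 6 + 2 * r * (2 * (3 - 2 * r ^ 2)) + 3 * (2 * r) := by
      refine (norm_add₃_le).trans ?_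
      rw [norm_mul, norm_mul, norm_mul, nro0, one_mul]
      have t1 := hrh6 3 (by norm_num)
      have t2 : ‖ro 1‖ * ‖rh 2‖ ≤ 2 * r * (2 * (3 - 2 * r ^ 2)) :=
        mul_le_mul nro1 nrh2 (norm_nonneg _) (by linarith)
      have t3 : ‖ro 2‖ * ‖rh 1‖ ≤ 3 * (2 * r) := mul_le_mul nro2 nrh1 (norm_nonneg _) (by norm_num)
      linarith
    rw [← h3, norm_mul] at h4
    have n3 : ‖(3 : ℂ)‖ = 3 := by simp
    rw [n3] at h4
    have h5 : 6 + 2 * r * (2 * (3 - 2 * r ^ 2)) + 3 * (2 * r) ≤ 18 := by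
      nlinarith [sq_nonneg (r - 7 / 8), mul_nonneg hr0 (sq_nonneg (r - 7 / 8))]
    linarith
  -- general bound for `ro`
  have key : ∀ k, 2 ≤ k → (∑ j ∈ Finset.range k, ‖ro j‖ ≤ 3 / 4 * 2 ^ k) ∧ ‖ro k‖ ≤ 3 / 4 * 2 ^ k := by
    intro k hk
    induction k, hk using Nat.le_induction with
    | base =>
      refine ⟨?_, by linarith⟩
      simp only [Finset.sum_range_succ, Finset.sum_range_zero]
      rw [nro0]
      linarith
    | succ k hk ih =>
      have hS : ∑ j ∈ Finset.range (k + 1), ‖ro j‖ ≤ 3 / 4 * 2 ^ (k + 1) := by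
        rw [Finset.sum_range_succ, pow_succ]
        linarith [ih.1, ih.2]
      refine ⟨hS, ?_⟩
      rcases Nat.lt_or_ge k 3 with h3 | h3
      · have : k = 2 := by omega
        subst this
        refine nro3.trans ?_
        norm_num
      · have h4 := hrec (k + 1)
        rw [Finset.sum_range_succ] at h4
        have h5 : ‖∑ j ∈ Finset.range k, ro j * rh (k + 1 - j)‖ ≤ 6 * (3 / 4 * 2 ^ k) := by
          refine (norm_sum_le _ _).trans ?_
          have : ∀ j ∈ Finset.range k, ‖ro j * rh (k + 1 - j)‖ ≤ 6 * ‖ro j‖ := by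
            intro j hj
            have hj' := Finset.mem_range.1 hj
            rw [norm_mul, mul_comm]
            exact mul_le_mul_of_nonneg_right (hrh6 _ (by omega)) (norm_nonneg _)
          refine (Finset.sum_le_sum this).trans ?_
          rw [← Finset.mul_sum]
          linarith [ih.1]
        have h6 : ‖ro k * rh (k + 1 - k)‖ ≤ (3 / 4 * 2 ^ k) * 2 := by
          rw [norm_mul, show k + 1 - k = 1 by omega]
          exact mul_le_mul ih.2 (nrh1.trans (by linarith)) (norm_nonneg _) (by positivity)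
        have h7 : ‖((k + 1 : ℕ) : ℂ) * ro (k + 1)‖ ≤ 6 * (3 / 4 * 2 ^ k) + (3 / 4 * 2 ^ k) * 2 := by
          rw [h4]
          exact (norm_add_le _ _).trans (by linarith)
        rw [norm_mul, Complex.norm_natCast] at h7
        have hk3 : (4 : ℝ) ≤ ((k + 1 : ℕ) : ℝ) := by exact_mod_cast (by omega : 4 ≤ k + 1)
        have h8 : 4 * ‖ro (k + 1)‖ ≤ ((k + 1 : ℕ) : ℝ) * ‖ro (k + 1)‖ :=
          mul_le_mul_of_nonneg_right hk3 (norm_nonneg _)
        rw [pow_succ]
        linarith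
  -- bound for `g`
  have g0 : ‖g 0‖ = 1 := by rw [hg, hG]; simp only [c0]; simp
  have g1 : ‖g 1‖ ≤ 2 := by
    rw [hg, hG]; simp only [c1]
    rw [norm_neg]
    refine (norm_add_le _ _).trans ?_
    rw [norm_mul, norm_mul, hcn, hvn]
    have a1 : ‖(2 / 3 : ℂ)‖ = 2 / 3 := by simp
    have a2 : ‖(4 / 3 : ℂ)‖ = 4 / 3 := by simp
    rw [a1, a2]; linarith
  have g3 : ‖g 3‖ ≤ 7 / 2 := by rw [hg, hG]; exact c3
  have hgn : ∀ k : ℕ, 1 ≤ k → ((k : ℝ) + 2) * ‖g k‖ ≤ 2 * ‖ro k‖ + 2 * ∑ j ∈ Finset.range k, ‖g j‖ := by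
    intro k hk
    have h3 := congrArg norm (hgrec k)
    rw [norm_mul] at h3
    have h4 : ‖((k : ℂ) + 2)‖ = (k : ℝ) + 2 := by
      have : ((k : ℂ) + 2) = (((k : ℝ) + 2 : ℝ) : ℂ) := by push_cast; ring
      rw [this, Complex.norm_of_nonneg (by positivity)]
    rw [h4] at h3
    rw [h3]
    refine (norm_sub_le _ _).trans ?_
    rw [norm_mul, norm_two']
    have h5 : ‖∑ j ∈ Finset.range k, g j * tc P (k - j)‖ ≤ 2 * ∑ j ∈ Finset.range k, ‖g j‖ := by
      refine (norm_sum_le _ _).trans ?_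
      rw [Finset.mul_sum]
      apply Finset.sum_le_sum
      intro j hj
      have hj' := Finset.mem_range.1 hj
      rw [norm_mul, mul_comm]
      exact mul_le_mul_of_nonneg_right (hpk _ (by omega)) (norm_nonneg _)
    linarith
  have g2 : ‖g 2‖ ≤ 3 := by
    have h3 := hgn 2 (by norm_num)
    simp only [Finset.sum_range_succ, Finset.sum_range_zero] at h3
    rw [g0] at h3
    push_cast at h3
    linarith
  have key2 : ∀ k, 4 ≤ k → (∑ j ∈ Finset.range k, ‖g j‖ ≤ 2 ^ (k - 1) + 3 / 2) ∧ ‖g k‖ ≤ 2 ^ (k - 1) := by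
    intro k hk
    have step : ∀ k, 4 ≤ k → (∑ j ∈ Finset.range k, ‖g j‖ ≤ 2 ^ (k - 1) + 3 / 2) → ‖g k‖ ≤ 2 ^ (k - 1) := by
      intro k hk hS
      have h3 := hgn k (by omega)
      have h4 := (key k (by omega)).2
      obtain ⟨l, rfl⟩ : ∃ l, k = l + 1 := ⟨k - 1, by omega⟩
      rw [Nat.add_sub_cancel] at hS ⊢
      rw [pow_succ] at h4
      have hl : (3 : ℝ) ≤ (l : ℝ) := by exact_mod_cast (by omega : 3 ≤ l)
      have hpow : (8 : ℝ) ≤ 2 ^ l := by
        have : (2 : ℝ) ^ 3 ≤ 2 ^ l := pow_le_pow_right₀ (by norm_num) (by omega)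
        norm_num at this
        exact this
      push_cast at h3
      by_contra hcon
      push Not at hcon
      have h5 : ((l : ℝ) + 1 + 2) * 2 ^ l < ((l : ℝ) + 1 + 2) * ‖g (l + 1)‖ :=
        mul_lt_mul_of_pos_left hcon (by linarith)
      nlinarith
    induction k, hk using Nat.le_induction with
    | base =>
      have hS : ∑ j ∈ Finset.range 4, ‖g j‖ ≤ 2 ^ (4 - 1) + 3 / 2 := by
        simp only [Finset.sum_range_succ, Finset.sum_range_zero]
        rw [g0]
        norm_num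
        linarith
      exact ⟨hS, step 4 le_rfl hS⟩
    | succ k hk ih =>
      have hS : ∑ j ∈ Finset.range (k + 1), ‖g j‖ ≤ 2 ^ (k + 1 - 1) + 3 / 2 := by
        rw [Finset.sum_range_succ]
        have e : (2 : ℝ) ^ (k + 1 - 1) = 2 ^ (k - 1) + 2 ^ (k - 1) := by
          obtain ⟨l, rfl⟩ : ∃ l, k = l + 1 := ⟨k - 1, by omega⟩
          simp only [Nat.add_sub_cancel]
          rw [pow_succ]; ring
        rw [e]
        linarith [ih.1, ih.2]
      exact ⟨hS, step (k + 1) (by omega) hS⟩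
  have := (key2 i hi).2
  rw [hg, hG] at this
  exact this

end

end Pool.Agent.helper358_ms
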