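import Pool.Agent.helper358_ms.Basic
import Pool.Agent.Helper240.ZFM.ConvA

/-! # Necessity of the analytic condition -/

set_option autoImplicit false

namespace Pool.Agent.helper358_ms

open Complex Metric Set Filter Topology

noncomputable section

/-- classical necessity: a univalent map with starlike image -/
theorem nec_classic {H : ℂ → ℂ} (hd : DifferentiableOn ℂ H (ball 0 1)) (hi : InjOn H (ball 0 1))
    (h0 : H 0 = 0) (hst : ∀ z ∈ ball (0 : ℂ) 1, ∀ t : ℝ, 0 < t → t < 1 →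
      ∃ w ∈ ball (0 : ℂ) 1, H w = t * H z) {z : ℂ} (hz : z ∈ ball (0 : ℂ) 1) :
    0 ≤ ((starRingEnd ℂ) z * (H z / deriv H z)).re := by
  obtain ⟨ho, k, hk, hkl, hkd⟩ := Pool.Agent.Helper405.Conv.inv_facts isOpen_ball hd hi
  have h00 : (0 : ℂ) ∈ ball (0 : ℂ) 1 := mem_ball_self one_pos
  -- the bound for `t < 1`
  have hb : ∀ t : ℝ, 0 < t → t < 1 → ‖k (t * H z)‖ ≤ ‖z‖ := by
    intro t ht ht1
    have hmem : ∀ w ∈ ball (0 : ℂ) 1, (t : ℂ) * H w ∈ H '' ball 0 1 := by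
      intro w hw
      obtain ⟨v, hv, hv2⟩ := hst w hw t ht ht1
      exact ⟨v, hv, hv2⟩
    have hmaps : ∀ w ∈ ball (0 : ℂ) 1, ‖k (t * H w)‖ < 1 := by
      intro w hw
      obtain ⟨v, hv, hv2⟩ := hmem w hw
      rw [← hv2, hkl v hv]
      exact mem_ball_zero_iff.1 hv
    have hdd : DifferentiableOn ℂ (fun w => k (t * H w)) (ball 0 1) :=
      hk.comp (hd.const_mul _) (fun w hw => hmem w hw)
    have hz0 : k (t * H 0) = 0 := by
      rw [h0, mul_zero]
      have := hkl 0 h00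
      rwa [h0] at this
    exact schwarz hdd hmaps hz0 hz
  -- derivative of `t ↦ ‖k (t H z)‖²` at `1`
  have hkz : HasDerivAt k (deriv H z)⁻¹ (H z) := hkd z hz
  have hγ : HasDerivAt (fun t : ℝ => k ((t : ℂ) * H z)) ((deriv H z)⁻¹ * H z) 1 := by
    have e1 : HasDerivAt (fun t : ℝ => (t : ℂ) * H z) (1 * H z) 1 :=
      (Complex.ofRealCLM.hasDerivAt (x := 1)).mul_const _
    rw [one_mul] at e1
    have hkz' : HasDerivAt k (deriv H z)⁻¹ (((1 : ℝ) : ℂ) * H z) := by simpa using hkz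
    exact hkz'.comp (1 : ℝ) e1
  set γ : ℝ → ℂ := fun t => k ((t : ℂ) * H z) with hγd
  have hγ1 : γ 1 = z := by simp [hγd, hkl z hz]
  have hN : HasDerivAt (fun t => ((starRingEnd ℂ) (γ t) * γ t).re)
      (2 * ((starRingEnd ℂ) z * (H z / deriv H z)).re) 1 := by
    have e1 : HasDerivAt (fun t => (starRingEnd ℂ) (γ t)) ((starRingEnd ℂ) ((deriv H z)⁻¹ * H z)) 1 :=
      (Complex.conjCLE.toContinuousLinearMap.hasFDerivAt.comp_hasDerivAt (1 : ℝ) hγ)
    have e2 := e1.mul hγ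
    have e3 := Complex.reCLM.hasFDerivAt.comp_hasDerivAt (1 : ℝ) e2
    refine e3.congr_deriv ?_
    simp only [hγ1, Complex.reCLM_apply]
    rw [add_re]
    have e4 : ((starRingEnd ℂ) ((deriv H z)⁻¹ * H z) * z).re
        = ((starRingEnd ℂ) z * ((deriv H z)⁻¹ * H z)).re := by
      rw [← Complex.conj_re, map_mul, Complex.conj_conj, mul_comm]
    rw [e4, div_eq_inv_mul]
    ring
  have hle : ∀ t : ℝ, 0 < t → t < 1 → ((starRingEnd ℂ) (γ t) * γ t).re ≤ ((starRingEnd ℂ) (γ 1) * γ 1).re := by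
    intro t ht ht1
    have e1 : ∀ w : ℂ, ((starRingEnd ℂ) w * w).re = ‖w‖ ^ 2 := by
      intro w
      rw [mul_comm, Complex.mul_conj']
      norm_cast
    rw [e1, e1, hγ1]
    have := hb t ht ht1
    exact pow_le_pow_left₀ (norm_nonneg _) this 2
  have hslope := hN.hasDerivWithinAt (s := Iio 1)
  rw [hasDerivWithinAt_iff_tendsto_slope' (by simp)] at hslope
  have hfin : 0 ≤ 2 * ((starRingEnd ℂ) z * (H z / deriv H z)).re := by
    refine ge_of_tendsto hslope ?_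
    have h5 : ∀ᶠ t : ℝ in 𝓝[<] 1, t ∈ Ioo (0 : ℝ) 1 := Ioo_mem_nhdsLT (by norm_num)
    filter_upwards [h5] with t ht
    rw [slope_def_field]
    exact div_nonneg_of_nonpos (by linarith [hle t ht.1 ht.2]) (by linarith [ht.2])
  linarith

end

end Pool.Agent.helper358_ms
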