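import Pool.Agent.helper358_ms.Basic

/-! # Transfer of the positivity condition between the points `0` and `p` -/

set_option autoImplicit false

namespace Pool.Agent.helper358_ms

open Complex Metric Set Filter Topology

noncomputable section

theorem sphere_factor {p : ℝ} {w : ℂ} (hw : ‖w‖ = 1) :
    (w - p) * (1 - p * w) = w * ((‖1 - p * w‖ ^ 2 : ℝ) : ℂ) := by
  have h1 : w * (starRingEnd ℂ) w = 1 := by
    rw [Complex.mul_conj', hw]; norm_num
  have h2 : ((‖1 - p * w‖ ^ 2 : ℝ) : ℂ) = (1 - p * w) * (1 - p * (starRingEnd ℂ) w) := by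
    push_cast
    rw [← Complex.mul_conj']
    simp
  rw [h2]
  linear_combination (p : ℂ) * (1 - p * w) * h1

theorem sphere_norm {p : ℝ} {w : ℂ} (hw : ‖w‖ = 1) :
    ‖1 - (p : ℂ) * w‖ ^ 2 = (1 + (p : ℂ) ^ 2 - 2 * p * w).re := by
  rw [← Complex.normSq_eq_norm_sq]
  have h1 : w.re * w.re + w.im * w.im = 1 := by
    have := Complex.normSq_apply w
    rw [Complex.normSq_eq_norm_sq, hw] at this
    linarith
  simp [Complex.normSq_apply, ← Complex.ofReal_pow]
  nlinarith [h1]

theorem one_sub_ne' {p : ℝ} (hp : |p| < 1) {ζ : ℂ} (hζ : ζ ∈ closedBall (0 : ℂ) 1) :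
    1 - (p : ℂ) * ζ ≠ 0 := by
  intro h
  have h1 : (p : ℂ) * ζ = 1 := by linear_combination -h
  have h2 : ‖(p : ℂ) * ζ‖ = 1 := by rw [h1]; simp
  rw [norm_mul, Complex.norm_real, Real.norm_eq_abs] at h2
  have h3 := mem_closedBall_zero_iff.1 hζ
  have h4 := norm_nonneg ζ
  nlinarith [abs_nonneg p]

theorem qp1 {p : ℝ} {L : ℂ → ℂ} (hL : DifferentiableOn ℂ L (ball 0 1))
    (hpos : ∀ z ∈ ball (0 : ℂ) 1, 0 ≤ (1 - z * L z).re) :
    ∀ z ∈ ball (0 : ℂ) 1, 0 ≤ (1 + (p : ℂ) ^ 2 - 2 * p * z - (z - p) * (1 - p * z) * L z).re := by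
  intro z hz
  have hmem : ∀ r : ℝ, 0 < r → r < 1 → ∀ w ∈ closedBall (0 : ℂ) 1, (r : ℂ) * w ∈ ball (0 : ℂ) 1 := by
    intro r hr hr1 w hw
    rw [mem_ball_zero_iff, norm_mul, Complex.norm_real, Real.norm_of_nonneg hr.le]
    have := mem_closedBall_zero_iff.1 hw
    nlinarith [norm_nonneg w]
  have hr : ∀ r : ℝ, 0 < r → r < 1 →
      0 ≤ (1 + (p : ℂ) ^ 2 - 2 * p * z - (z - p) * (1 - p * z) * (r * L (r * z))).re := by
    intro r hr hr1
    have hLr : DifferentiableOn ℂ (fun w => L ((r : ℂ) * w)) (ball 0 1) :=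
      hL.comp (differentiableOn_id.const_mul _) (fun w hw => hmem r hr hr1 w (ball_subset_closedBall hw))
    have hLc : ContinuousOn (fun w => L ((r : ℂ) * w)) (closedBall 0 1) :=
      hL.continuousOn.comp (continuousOn_const.mul continuousOn_id) (fun w hw => hmem r hr hr1 w hw)
    refine re_nonneg_of_sphere (F := fun z => 1 + (p : ℂ) ^ 2 - 2 * p * z - (z - p) * (1 - p * z) * (r * L (r * z)))
      ?_ ?_ ?_ z (ball_subset_closedBall hz)
    · exact DifferentiableOn.sub (by fun_prop) (DifferentiableOn.mul (by fun_prop) (hLr.const_mul _))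
    · exact ContinuousOn.sub (by fun_prop) (ContinuousOn.mul (by fun_prop) (continuousOn_const.mul hLc))
    · intro w hw
      have hw1 : ‖w‖ = 1 := mem_sphere_zero_iff_norm.1 hw
      have h1 := hpos _ (hmem r hr hr1 w (sphere_subset_closedBall hw))
      have e1 : 1 + (p : ℂ) ^ 2 - 2 * p * w - (w - p) * (1 - p * w) * (r * L (r * w))
          = (1 + (p : ℂ) ^ 2 - 2 * p * w) - ((‖1 - p * w‖ ^ 2 : ℝ) : ℂ) * ((r * w) * L (r * w)) := by
        rw [sphere_factor hw1]; ring
      rw [e1, sub_re, ← sphere_norm hw1, Complex.re_ofReal_mul]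
      rw [sub_re, one_re] at h1
      have h2 : 0 ≤ ‖1 - (p : ℂ) * w‖ ^ 2 := by positivity
      nlinarith
  have hten : Tendsto (fun r : ℝ => (1 + (p : ℂ) ^ 2 - 2 * p * z - (z - p) * (1 - p * z) * (r * L (r * z))).re)
      (𝓝[<] 1) (𝓝 (1 + (p : ℂ) ^ 2 - 2 * p * z - (z - p) * (1 - p * z) * L z).re) := by
    have hc : ContinuousAt (fun r : ℝ => (1 + (p : ℂ) ^ 2 - 2 * p * z - (z - p) * (1 - p * z) * (r * L (r * z)))) 1 := by
      have h1 : ContinuousAt (fun r : ℝ => L ((r : ℂ) * z)) 1 := by
        have h2 : ContinuousAt L (((1 : ℝ) : ℂ) * z) := by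
          rw [ofReal_one, one_mul]
          exact (hL.differentiableAt (isOpen_ball.mem_nhds hz)).continuousAt
        exact ContinuousAt.comp (f := fun r : ℝ => (r : ℂ) * z) h2 (by fun_prop)
      have h0 : ContinuousAt (fun r : ℝ => (r : ℂ)) 1 := Complex.continuous_ofReal.continuousAt
      exact continuousAt_const.sub (continuousAt_const.mul (h0.mul h1))
    have := (Complex.continuous_re.tendsto _).comp (hc.tendsto.mono_left (nhdsWithin_le_nhds (s := Iio 1)))
    simpa [Function.comp_def] using this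
  refine ge_of_tendsto hten ?_
  have h5 : ∀ᶠ t : ℝ in 𝓝[<] 1, t ∈ Ioo (0 : ℝ) 1 := Ioo_mem_nhdsLT (by norm_num)
  filter_upwards [h5] with t ht
  exact hr t ht.1 ht.2

theorem mob_mem_closed {p : ℝ} (hp : |p| < 1) {ζ : ℂ} (hζ : ζ ∈ closedBall (0 : ℂ) 1) :
    mob (-p) ζ ∈ closedBall (0 : ℂ) 1 := by
  have hne := one_sub_ne' hp hζ
  rw [mem_closedBall_zero_iff] at hζ ⊢
  unfold mob
  have e : 1 + ((-p : ℝ) : ℂ) * ζ = 1 - p * ζ := by push_cast; ring
  rw [e, norm_div, div_le_one (norm_pos_iff.2 hne)]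
  apply le_of_sq_le_sq _ (norm_nonneg _)
  rw [← Complex.normSq_eq_norm_sq, ← Complex.normSq_eq_norm_sq]
  have h1 : ‖ζ‖ ^ 2 ≤ 1 := by nlinarith [norm_nonneg ζ]
  rw [← Complex.normSq_eq_norm_sq] at h1
  have h2 : p ^ 2 < 1 := by nlinarith [abs_nonneg p, sq_abs p]
  simp only [Complex.normSq_apply, add_re, add_im, sub_re, sub_im, ofReal_re, ofReal_im, mul_re, mul_im, one_re,
    one_im] at h1 ⊢
  nlinarith

theorem qp2 {p : ℝ} (hp : |p| < 1) {L : ℂ → ℂ} (hL : DifferentiableOn ℂ L (ball 0 1))
    (hpos : ∀ z ∈ ball (0 : ℂ) 1, 0 ≤ (1 + (p : ℂ) ^ 2 - 2 * p * z - (z - p) * (1 - p * z) * L z).re) :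
    ∀ z ∈ ball (0 : ℂ) 1, 0 ≤ (1 - z * L z).re := by
  set Q : ℂ → ℂ := fun z => 1 + (p : ℂ) ^ 2 - 2 * p * z - (z - p) * (1 - p * z) * L z with hQ
  have hQd : DifferentiableOn ℂ Q (ball 0 1) :=
    DifferentiableOn.sub (by fun_prop) (DifferentiableOn.mul (by fun_prop) hL)
  have hpb : (p : ℂ) ∈ ball (0 : ℂ) 1 := by
    rw [mem_ball_zero_iff, Complex.norm_real, Real.norm_eq_abs]; exact hp
  have hnp : |-p| < 1 := by rwa [abs_neg]
  have hρmem : ∀ r : ℝ, 0 < r → r < 1 → ∀ w ∈ closedBall (0 : ℂ) 1,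
      (r : ℂ) * mob (-p) w ∈ ball (0 : ℂ) 1 := by
    intro r hr hr1 w hw
    rw [mem_ball_zero_iff, norm_mul, Complex.norm_real, Real.norm_of_nonneg hr.le]
    have := mem_closedBall_zero_iff.1 (mob_mem_closed hp hw)
    nlinarith [norm_nonneg (mob (-p) w)]
  have hmobp : mob (-p) p = 0 := by unfold mob; simp
  have hmob0 : mob p 0 = p := by unfold mob; simp
  have hmobc : ContinuousOn (mob (-p)) (closedBall 0 1) := by
    unfold mob
    apply ContinuousOn.div (by fun_prop) (by fun_prop)
    intro w hw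
    have := one_sub_ne' hp hw
    push_cast
    intro h
    apply this
    linear_combination h
  have hmobd : DifferentiableOn ℂ (mob (-p)) (ball 0 1) := fun w hw =>
    (mob_diff hnp.le hw).differentiableAt.differentiableWithinAt
  have hmobd' : DifferentiableOn ℂ (mob p) (ball 0 1) := fun w hw =>
    (mob_diff hp.le hw).differentiableAt.differentiableWithinAt
  -- the bound off `p`
  have key : ∀ z ∈ ball (0 : ℂ) 1, z ≠ p → 0 ≤ (1 - z * L z).re := by
    intro z hz hzp
    have hr : ∀ r : ℝ, 0 < r → r < 1 → 0 ≤ (1 - z * ((1 + (p : ℂ) ^ 2 - 2 * p * z -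
        Q (mob p (r * mob (-p) z))) / ((z - p) * (1 - p * z)))).re := by
      intro r hr hr1
      set B : ℂ → ℂ := fun z => 1 + (p : ℂ) ^ 2 - 2 * p * z - Q (mob p (r * mob (-p) z)) with hB
      have hBd : DifferentiableOn ℂ B (ball 0 1) := by
        refine DifferentiableOn.sub (by fun_prop) ?_
        refine hQd.comp (hmobd'.comp (hmobd.const_mul _) ?_) ?_
        · intro w hw
          exact hρmem r hr hr1 w (ball_subset_closedBall hw)
        · intro w hw
          exact mob_mem hp (hρmem r hr hr1 w (ball_subset_closedBall hw))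
      have hBc : ContinuousOn B (closedBall 0 1) := by
        refine ContinuousOn.sub (by fun_prop) ?_
        refine hQd.continuousOn.comp (hmobd'.continuousOn.comp (continuousOn_const.mul hmobc) ?_) ?_
        · intro w hw
          exact hρmem r hr hr1 w hw
        · intro w hw
          exact mob_mem hp (hρmem r hr hr1 w hw)
      have hBp : B p = 0 := by
        simp only [hB, hmobp, mul_zero, hmob0, hQ]
        ring
      have hds : ∀ w, dslope B p w * (w - p) = B w := by
        intro w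
        have := sub_smul_dslope B (p : ℂ) w
        rw [hBp, sub_zero, smul_eq_mul] at this
        rw [mul_comm]; exact this
      have hdd : DifferentiableOn ℂ (dslope B p) (ball 0 1) :=
        (differentiableOn_dslope (isOpen_ball.mem_nhds hpb)).2 hBd
      have hdc : ContinuousOn (dslope B p) (closedBall 0 1) := by
        rw [continuousOn_dslope]
        · exact ⟨hBc, hBd.differentiableAt (isOpen_ball.mem_nhds hpb)⟩
        · exact Filter.mem_of_superset (isOpen_ball.mem_nhds hpb) ball_subset_closedBall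
      have h1 := re_nonneg_of_sphere (F := fun z => 1 - z * (dslope B p z / (1 - p * z))) ?_ ?_ ?_ z
        (ball_subset_closedBall hz)
      · have e1 : dslope B p z / (1 - p * z) = B z / ((z - p) * (1 - p * z)) := by
          have h2 := hds z
          have h3 : z - p ≠ 0 := sub_ne_zero.2 hzp
          have h4 := one_sub_ne' hp (ball_subset_closedBall hz)
          rw [← h2]
          field_simp
        simp only [e1] at h1
        exact h1
      · refine DifferentiableOn.sub (by fun_prop) (DifferentiableOn.mul (by fun_prop) ?_)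
        refine hdd.div (by fun_prop) ?_
        intro w hw
        exact one_sub_ne' hp (ball_subset_closedBall hw)
      · refine ContinuousOn.sub (by fun_prop) (ContinuousOn.mul (by fun_prop) ?_)
        refine hdc.div (by fun_prop) ?_
        intro w hw
        exact one_sub_ne' hp hw
      · intro w hw
        have hw1 : ‖w‖ = 1 := mem_sphere_zero_iff_norm.1 hw
        have hwc := sphere_subset_closedBall hw
        have hne := one_sub_ne' hp hwc
        have hpos1 : 0 < ‖1 - (p : ℂ) * w‖ ^ 2 := by have := norm_pos_iff.2 hne; positivity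
        have hwp : w - p ≠ 0 := by
          intro h
          have : w = p := by linear_combination h
          rw [this, Complex.norm_real, Real.norm_eq_abs] at hw1
          linarith
        have e1 : w * (dslope B p w / (1 - p * w)) = ((‖1 - (p : ℂ) * w‖ ^ 2 : ℝ) : ℂ)⁻¹ * B w := by
          have h2 := hds w
          have h3 := sphere_factor (p := p) hw1
          have h4 : ((‖1 - (p : ℂ) * w‖ ^ 2 : ℝ) : ℂ) ≠ 0 := by exact_mod_cast hpos1.ne'
          rw [eq_inv_mul_iff_mul_eq₀ h4, ← h2]
          have h5 : ((‖1 - (p : ℂ) * w‖ ^ 2 : ℝ) : ℂ) * (w * (dslope B p w / (1 - p * w)))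
            = (w * ((‖1 - (p : ℂ) * w‖ ^ 2 : ℝ) : ℂ)) * (dslope B p w / (1 - p * w)) := by ring
          rw [h5, ← h3]
          obtain ⟨N, hN⟩ : ∃ N, N = 1 - (p : ℂ) * w := ⟨_, rfl⟩
          rw [← hN] at hne ⊢
          field_simp
        have h6 := hpos _ (mob_mem hp (hρmem r hr hr1 w hwc))
        have h7 : (B w).re = ‖1 - (p : ℂ) * w‖ ^ 2 - (Q (mob p (r * mob (-p) w))).re := by
          rw [sphere_norm hw1]
          simp only [hB, sub_re]
        have h8 : (1 - w * (dslope B p w / (1 - p * w))).re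
            = (‖1 - (p : ℂ) * w‖ ^ 2)⁻¹ * (Q (mob p (r * mob (-p) w))).re := by
          rw [e1, sub_re, one_re, ← Complex.ofReal_inv, Complex.re_ofReal_mul, h7, mul_sub,
            inv_mul_cancel₀ hpos1.ne']
          ring
        simp only [h8]
        exact mul_nonneg (inv_nonneg.2 hpos1.le) h6
    have hne4 := one_sub_ne' hp (ball_subset_closedBall hz)
    have hzp' : z - p ≠ 0 := sub_ne_zero.2 hzp
    have hten : Tendsto (fun r : ℝ => (1 - z * ((1 + (p : ℂ) ^ 2 - 2 * p * z -
        Q (mob p (r * mob (-p) z))) / ((z - p) * (1 - p * z)))).re) (𝓝[<] 1) (𝓝 (1 - z * L z).re) := by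
      have hback : mob p (mob (-p) z) = z := by
        have := mob_left hnp hz
        rwa [neg_neg] at this
      have hc : ContinuousAt (fun r : ℝ => (1 - z * ((1 + (p : ℂ) ^ 2 - 2 * p * z -
        Q (mob p (r * mob (-p) z))) / ((z - p) * (1 - p * z))))) 1 := by
        have h1 : ContinuousAt (fun r : ℝ => Q (mob p ((r : ℂ) * mob (-p) z))) 1 := by
          have h2 : ContinuousAt (fun ζ => Q (mob p ζ)) (((1 : ℝ) : ℂ) * mob (-p) z) := by
            rw [ofReal_one, one_mul]
            have h3 := mob_mem hnp hz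
            have h4 : ContinuousAt Q (mob p (mob (-p) z)) := by
              rw [hback]
              exact (hQd.differentiableAt (isOpen_ball.mem_nhds hz)).continuousAt
            exact ContinuousAt.comp h4 (mob_diff hp.le h3).continuousAt
          exact ContinuousAt.comp (f := fun r : ℝ => (r : ℂ) * mob (-p) z) h2 (by fun_prop)
        exact continuousAt_const.sub (continuousAt_const.mul ((continuousAt_const.sub h1).div_const _))
      have h9 := (Complex.continuous_re.tendsto _).comp (hc.tendsto.mono_left (nhdsWithin_le_nhds (s := Iio 1)))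
      have e2 : (1 + (p : ℂ) ^ 2 - 2 * p * z - Q z) / ((z - p) * (1 - p * z)) = L z := by
        simp only [hQ]
        field_simp
        ring
      simp only [ofReal_one, one_mul, hback, e2, Function.comp_def] at h9
      exact h9
    refine ge_of_tendsto hten ?_
    have h5 : ∀ᶠ t : ℝ in 𝓝[<] 1, t ∈ Ioo (0 : ℝ) 1 := Ioo_mem_nhdsLT (by norm_num)
    filter_upwards [h5] with t ht
    exact hr t ht.1 ht.2
  intro z hz
  by_cases hzp : z = p
  · subst hzp
    have hc : ContinuousAt (fun z => (1 - z * L z).re) (p : ℂ) := by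
      have h1 : ContinuousAt L p := (hL.differentiableAt (isOpen_ball.mem_nhds hz)).continuousAt
      fun_prop
    have h2 : Tendsto (fun z => (1 - z * L z).re) (𝓝[≠] (p : ℂ)) (𝓝 (1 - (p : ℂ) * L p).re) :=
      hc.tendsto.mono_left nhdsWithin_le_nhds
    refine ge_of_tendsto h2 ?_
    filter_upwards [self_mem_nhdsWithin, mem_nhdsWithin_of_mem_nhds (isOpen_ball.mem_nhds hz)] with w hw hwb
    exact key w hwb hw
  · exact key z hz hzp

end

end Pool.Agent.helper358_ms
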