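import Pool.Agent.helper358_ms.Defs
import Pool.Agent.helper358_ms.Nec
import Pool.Agent.helper358_ms.QP

/-! # Miller's necessary condition -/

set_option autoImplicit false

namespace Pool.Agent.helper358_ms

open Complex Metric Set Filter Topology

noncomputable section

/-- The analytic class attached to the parameter `c`. -/
structure ClassE (c : ℂ) (E : ℂ → ℂ) : Prop where
  holo : DifferentiableOn ℂ E (ball 0 1)
  zero : E 0 = 1
  one : deriv E 0 = -2 * c
  ne : ∀ z ∈ ball (0 : ℂ) 1, E z ≠ 0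
  pos : ∀ z ∈ ball (0 : ℂ) 1, 0 < (1 - z * (deriv E z / E z)).re

theorem isOpen_punct (p : ℝ) : IsOpen (ball (0 : ℂ) 1 \ {(p : ℂ)}) :=
  isOpen_ball.sdiff isClosed_singleton

theorem SigmaStar.diffOn {p : ℝ} {w₀ : ℂ} {f : ℂ → ℂ} (hf : SigmaStar p w₀ f) :
    DifferentiableOn ℂ f (ball 0 1 \ {(p : ℂ)}) := by
  obtain ⟨g, hg, -, hfg⟩ := hf.mero
  have h1 : DifferentiableOn ℂ (fun z => g z / (z - p)) (ball 0 1 \ {(p : ℂ)}) := by
    refine DifferentiableOn.div (hg.mono sdiff_subset) (by fun_prop) ?_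
    intro z hz
    exact sub_ne_zero.2 (by simpa using hz.2)
  exact h1.congr fun z hz => hfg z hz.1 (by simpa using hz.2)

theorem SigmaStar.compl_nonempty {p : ℝ} (hp0 : 0 < p) (hp1 : p < 1) {w₀ : ℂ} {f : ℂ → ℂ}
    (hf : SigmaStar p w₀ f) : ((f '' (ball 0 1 \ {(p : ℂ)}))ᶜ).Nonempty := by
  by_contra hne
  rw [not_nonempty_iff_eq_empty, compl_empty_iff] at hne
  obtain ⟨-, k, hk, hkl, -⟩ := Pool.Agent.Helper405.Conv.inv_facts (isOpen_punct p) hf.diffOn hf.inj
  rw [hne] at hk
  have hkd : Differentiable ℂ k := by rwa [← differentiableOn_univ]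
  have hb : Bornology.IsBounded (range k) := by
    refine (isBounded_ball (x := (0 : ℂ)) (r := 1)).subset ?_
    rintro _ ⟨y, rfl⟩
    have : y ∈ f '' (ball 0 1 \ {(p : ℂ)}) := by rw [hne]; trivial
    obtain ⟨z, hz, rfl⟩ := this
    rw [hkl z hz]
    exact hz.1
  have h0 : (0 : ℂ) ∈ ball (0 : ℂ) 1 \ {(p : ℂ)} := by
    refine ⟨mem_ball_self one_pos, ?_⟩
    rw [mem_singleton_iff]
    exact_mod_cast hp0.ne
  have h1 : ((-p : ℝ) : ℂ) ∈ ball (0 : ℂ) 1 \ {(p : ℂ)} := by
    refine ⟨?_, ?_⟩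
    · rw [mem_ball_zero_iff, Complex.norm_real, Real.norm_eq_abs, abs_neg, abs_of_pos hp0]; exact hp1
    · rw [mem_singleton_iff]
      intro h
      have : -p = p := by exact_mod_cast h
      linarith
  have h2 := hkd.apply_eq_apply_of_bounded hb (f 0) (f ((-p : ℝ) : ℂ))
  rw [hkl _ h0, hkl _ h1] at h2
  have : (0 : ℝ) = -p := by exact_mod_cast h2
  linarith

theorem SigmaStar.w₀_mem {p : ℝ} (hp0 : 0 < p) (hp1 : p < 1) {w₀ : ℂ} {f : ℂ → ℂ}
    (hf : SigmaStar p w₀ f) : w₀ ∈ (f '' (ball 0 1 \ {(p : ℂ)}))ᶜ := by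
  obtain ⟨y, hy⟩ := hf.compl_nonempty hp0 hp1
  have := hf.star hy (a := 1) (b := 0) zero_le_one le_rfl (by norm_num)
  simpa using this

theorem SigmaStar.classE {p : ℝ} (hp0 : 0 < p) (hp1 : p < 1) {w₀ : ℂ} (hw : w₀ ≠ 0) {f : ℂ → ℂ}
    (hf : SigmaStar p w₀ f) : ∃ E : ℂ → ℂ, ClassE (cc p w₀) E ∧
      ∀ z ∈ ball (0 : ℂ) 1, z ≠ p → f z = w₀ * (1 - E z / ((1 - z / p) * (1 - p * z))) := by
  obtain ⟨g, hg, hgp, hfg⟩ := hf.mero
  have hw0 := hf.w₀_mem hp0 hp1
  have hpc : (p : ℂ) ≠ 0 := by exact_mod_cast hp0.ne'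
  have hpa : |p| < 1 := by rwa [abs_of_pos hp0]
  have hnp : |-p| < 1 := by rwa [abs_neg]
  have hpb : (p : ℂ) ∈ ball (0 : ℂ) 1 := by
    rw [mem_ball_zero_iff, Complex.norm_real, Real.norm_eq_abs]; exact hpa
  have h00 : (0 : ℂ) ∈ ball (0 : ℂ) 1 := mem_ball_self one_pos
  have h0p : (0 : ℂ) ≠ p := fun h => hpc h.symm
  -- the function `G = g - w₀ (z - p)`
  set G : ℂ → ℂ := fun z => g z - w₀ * (z - p) with hG
  have hGd : DifferentiableOn ℂ G (ball 0 1) := hg.sub (by fun_prop)
  have hGne : ∀ z ∈ ball (0 : ℂ) 1, G z ≠ 0 := by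
    intro z hz h
    by_cases hzp : z = p
    · rw [hzp] at h
      simp only [hG, sub_self, mul_zero, sub_zero] at h
      exact hgp h
    · apply hw0
      refine ⟨z, ⟨hz, by simpa using hzp⟩, ?_⟩
      rw [hfg z hz hzp, div_eq_iff (sub_ne_zero.2 hzp)]
      simp only [hG] at h
      linear_combination h
  -- `h = (z - p)/G = 1/(f - w₀)`
  set h : ℂ → ℂ := fun z => (z - p) / G z with hh
  have hhd : DifferentiableOn ℂ h (ball 0 1) := by
    refine DifferentiableOn.div (by fun_prop) hGd hGne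
  have hhp : h p = 0 := by simp [hh]
  have hhf : ∀ z ∈ ball (0 : ℂ) 1, z ≠ p → h z * (f z - w₀) = 1 ∧ h z ≠ 0 := by
    intro z hz hzp
    have h1 := hGne z hz
    have h2 := sub_ne_zero.2 hzp
    constructor
    · rw [hfg z hz hzp]
      simp only [hh]
      have h3 : g z / (z - p) - w₀ = G z / (z - p) := by
        simp only [hG]
        field_simp
      rw [h3]
      field_simp
    · exact div_ne_zero h2 h1
  have hhi : InjOn h (ball 0 1) := by
    intro z hz z' hz' hzz
    by_cases hzp : z = p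
    · by_cases hzp' : z' = p
      · rw [hzp, hzp']
      · exfalso
        rw [hzp, hhp] at hzz
        exact (hhf z' hz' hzp').2 hzz.symm
    · by_cases hzp' : z' = p
      · exfalso
        rw [hzp', hhp] at hzz
        exact (hhf z hz hzp).2 hzz
      · obtain ⟨a1, a2⟩ := hhf z hz hzp
        obtain ⟨b1, b2⟩ := hhf z' hz' hzp'
        apply hf.inj ⟨hz, by simpa using hzp⟩ ⟨hz', by simpa using hzp'⟩
        rw [hzz] at a1 a2
        have : h z' * (f z - f z') = 0 := by linear_combination a1 - b1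
        rcases mul_eq_zero.1 this with h3 | h3
        · exact absurd h3 b2
        · exact sub_eq_zero.1 h3
  have hhs : ∀ z ∈ ball (0 : ℂ) 1, ∀ t : ℝ, 0 < t → t < 1 → ∃ w ∈ ball (0 : ℂ) 1, h w = t * h z := by
    intro z hz t ht ht1
    by_cases hzp : z = p
    · refine ⟨p, hpb, ?_⟩
      rw [hzp, hhp, mul_zero]
    · have htc : (t : ℂ) ≠ 0 := by exact_mod_cast ht.ne'
      by_cases hin : w₀ + (f z - w₀) / t ∈ f '' (ball 0 1 \ {(p : ℂ)})
      · obtain ⟨z', hz', hfz'⟩ := hin
        have hzp' : z' ≠ p := by simpa using hz'.2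
        refine ⟨z', hz'.1, ?_⟩
        obtain ⟨a1, a2⟩ := hhf z hz hzp
        obtain ⟨b1, b2⟩ := hhf z' hz'.1 hzp'
        rw [hfz'] at b1
        have h3 : f z - w₀ ≠ 0 := by
          intro h3
          rw [h3, mul_zero] at a1
          exact zero_ne_one a1
        apply mul_right_cancel₀ h3
        have b2' : h z' * (f z - w₀) = t := by
          have : h z' * ((f z - w₀) / t) = 1 := by linear_combination b1
          field_simp at this
          linear_combination this
        rw [b2']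
        linear_combination -(t : ℂ) * a1
      · exfalso
        have h4 := hf.star hin (a := 1 - t) (b := t) (by linarith) ht.le (by ring)
        apply h4
        refine ⟨z, ⟨hz, by simpa using hzp⟩, ?_⟩
        simp only [Complex.real_smul]
        push_cast
        field_simp
        ring
  -- transfer to the origin
  set H : ℂ → ℂ := fun ζ => h (mob p ζ) with hH
  have hmm : ∀ ζ ∈ ball (0 : ℂ) 1, mob p ζ ∈ ball (0 : ℂ) 1 := fun ζ hζ => mob_mem hpa hζ
  have hmm' : ∀ ζ ∈ ball (0 : ℂ) 1, mob (-p) ζ ∈ ball (0 : ℂ) 1 := fun ζ hζ => mob_mem hnp hζ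
  have hmobd : DifferentiableOn ℂ (mob p) (ball 0 1) := fun w hw =>
    (mob_diff hpa.le hw).differentiableAt.differentiableWithinAt
  have hback : ∀ z ∈ ball (0 : ℂ) 1, mob p (mob (-p) z) = z := by
    intro z hz
    have := mob_left hnp hz
    rwa [neg_neg] at this
  have hHd : DifferentiableOn ℂ H (ball 0 1) := hhd.comp hmobd hmm
  have hH0 : H 0 = 0 := by
    have : mob p 0 = p := by unfold mob; simp
    simp only [hH, this, hhp]
  have hHi : InjOn H (ball 0 1) := by
    intro z hz z' hz' hzz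
    have := hhi (hmm z hz) (hmm z' hz') hzz
    have h5 := congrArg (mob (-p)) this
    rwa [mob_left hpa hz, mob_left hpa hz'] at h5
  have hHs : ∀ z ∈ ball (0 : ℂ) 1, ∀ t : ℝ, 0 < t → t < 1 → ∃ w ∈ ball (0 : ℂ) 1, H w = t * H z := by
    intro z hz t ht ht1
    obtain ⟨w, hw, hw2⟩ := hhs _ (hmm z hz) t ht ht1
    refine ⟨mob (-p) w, hmm' w hw, ?_⟩
    simp only [hH]
    rw [hback w hw, hw2]
  have hnec := fun z hz => nec_classic hHd hHi hH0 hHs (z := z) hz
  -- the function `E`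
  set E : ℂ → ℂ := fun z => (1 - p * z) * G z / (p * w₀) with hE
  have hpw : (p : ℂ) * w₀ ≠ 0 := mul_ne_zero hpc hw
  have hEd : DifferentiableOn ℂ E (ball 0 1) := by
    refine DifferentiableOn.div_const ?_ _
    exact DifferentiableOn.mul (by fun_prop) hGd
  have hEne : ∀ z ∈ ball (0 : ℂ) 1, E z ≠ 0 := by
    intro z hz
    exact div_ne_zero (mul_ne_zero (one_sub_ne hpa.le hz) (hGne z hz)) hpw
  have hE0 : E 0 = 1 := by
    have h6 := hfg 0 h00 h0p
    rw [hf.zero] at h6
    have h7 : g 0 = 0 := by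
      rcases div_eq_zero_iff.1 h6.symm with h8 | h8
      · exact h8
      · exfalso; apply hpc; linear_combination -h8
    simp only [hE, hG, h7]
    field_simp
    ring
  have hfE : ∀ z ∈ ball (0 : ℂ) 1, z ≠ p → f z = w₀ * (1 - E z / ((1 - z / p) * (1 - p * z))) := by
    intro z hz hzp
    rw [hfg z hz hzp]
    have h1 := one_sub_ne hpa.le hz
    have h2 := sub_ne_zero.2 hzp
    have h3 : 1 - z / p = -(z - p) / p := by field_simp; ring
    simp only [hE, h3, hG]
    obtain ⟨N, hN⟩ : ∃ N, N = 1 - (p : ℂ) * z := ⟨_, rfl⟩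
    obtain ⟨M, hM⟩ : ∃ M, M = z - (p : ℂ) := ⟨_, rfl⟩
    rw [← hN] at h1 ⊢
    rw [← hM] at h2 ⊢
    field_simp
    ring
  -- `Re Q ≥ 0`
  have hQ : ∀ z ∈ ball (0 : ℂ) 1, 0 ≤ (1 + (p : ℂ) ^ 2 - 2 * p * z -
      (z - p) * (1 - p * z) * (deriv E z / E z)).re := by
    have hp2 : (1 : ℂ) - p ^ 2 ≠ 0 := by
      have : (1 : ℝ) - p ^ 2 ≠ 0 := by nlinarith
      exact_mod_cast this
    have hQ1 : ∀ z ∈ ball (0 : ℂ) 1, z ≠ p → 0 ≤ (1 + (p : ℂ) ^ 2 - 2 * p * z -
        (z - p) * (1 - p * z) * (deriv E z / E z)).re := by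
      intro z hz hzp
      obtain ⟨ζ, hζd⟩ : ∃ ζ, ζ = mob (-p) z := ⟨_, rfl⟩
      have hζ : ζ ∈ ball (0 : ℂ) 1 := hζd ▸ hmm' z hz
      have hζz : mob p ζ = z := by rw [hζd]; exact hback z hz
      have h1z := one_sub_ne hpa.le hz
      have hzp' := sub_ne_zero.2 hzp
      have hζe : ζ = (z - p) / (1 - p * z) := by
        rw [hζd]; unfold mob; push_cast
        congr 1
        ring
      have hζ0 : ζ ≠ 0 := by rw [hζe]; exact div_ne_zero hzp' h1z
      have h1ζ : 1 + (p : ℂ) * ζ = (1 - p ^ 2) / (1 - p * z) := by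
        rw [hζe]; field_simp; ring
      have hder : HasDerivAt H (deriv h z * ((1 - p ^ 2) / (1 + p * ζ) ^ 2)) ζ := by
        have e1 : HasDerivAt h (deriv h z) (mob p ζ) := by
          rw [hζz]
          exact (hhd.differentiableAt (isOpen_ball.mem_nhds hz)).hasDerivAt
        exact e1.comp ζ (mob_diff hpa.le hζ)
      have hn := hnec ζ hζ
      rw [hder.deriv] at hn
      have hHz : H ζ = h z := by simp only [hH, hζz]
      rw [hHz] at hn
      have hdE : deriv E z / E z = -p / (1 - p * z) + deriv G z / G z := by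
        have e1 : HasDerivAt E ((-p * G z + (1 - p * z) * deriv G z) / (p * w₀)) z := by
          have e2 : HasDerivAt (fun z : ℂ => 1 - (p : ℂ) * z) (-(p * 1)) z :=
            ((hasDerivAt_id z).const_mul (p : ℂ)).const_sub 1
          have e3 := (e2.mul (hGd.differentiableAt (isOpen_ball.mem_nhds hz)).hasDerivAt).div_const
            ((p : ℂ) * w₀)
          refine e3.congr_deriv ?_
          ring
        rw [e1.deriv]
        simp only [hE]
        have := hGne z hz
        obtain ⟨N, hN⟩ : ∃ N, N = 1 - (p : ℂ) * z := ⟨_, rfl⟩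
        rw [← hN] at h1z ⊢
        field_simp
      have hdh : HasDerivAt h ((G z - (z - p) * deriv G z) / G z ^ 2) z := by
        have e2 : HasDerivAt (fun z : ℂ => z - (p : ℂ)) 1 z := (hasDerivAt_id z).sub_const _
        have e3 := e2.div (hGd.differentiableAt (isOpen_ball.mem_nhds hz)).hasDerivAt (hGne z hz)
        refine e3.congr_deriv ?_
        ring
      have hGz := hGne z hz
      -- value of the quotient
      have hval : (1 + (p : ℂ) ^ 2 - 2 * p * z - (z - p) * (1 - p * z) * (deriv E z / E z))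
          * (h z / (ζ * (deriv h z * ((1 - p ^ 2) / (1 + p * ζ) ^ 2)))) = 1 - p ^ 2 := by
        have hdhne : deriv h z ≠ 0 := Pool.Agent.Helper405.Conv.deriv_ne_zero_of_injOn isOpen_ball hhd hhi hz
        rw [hdh.deriv] at hdhne ⊢
        have hX : G z - (z - p) * deriv G z ≠ 0 := by
          intro hX
          rw [hX, zero_div] at hdhne
          exact hdhne rfl
        rw [hdE, h1ζ, hζe]
        simp only [hh]
        have e5 : (1 + (p : ℂ) ^ 2 - 2 * p * z - (z - p) * (1 - p * z) *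
            (-p / (1 - p * z) + deriv G z / G z))
            = (1 - p * z) * (G z - (z - p) * deriv G z) / G z := by
          field_simp
          ring
        rw [e5]
        obtain ⟨N, hN⟩ : ∃ N, N = 1 - (p : ℂ) * z := ⟨_, rfl⟩
        obtain ⟨M, hM⟩ : ∃ M, M = z - (p : ℂ) := ⟨_, rfl⟩
        obtain ⟨X, hXd⟩ : ∃ X, X = G z - (z - p) * deriv G z := ⟨_, rfl⟩
        rw [← hXd] at hX ⊢
        rw [← hN] at h1z ⊢
        rw [← hM] at hzp' ⊢
        field_simp
      obtain ⟨Y, hY⟩ : ∃ Y, Y = h z / (ζ * (deriv h z * ((1 - p ^ 2) / (1 + p * ζ) ^ 2))) := ⟨_, rfl⟩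
      rw [← hY] at hval
      have hYre : 0 ≤ Y.re := by
        have e6 : (starRingEnd ℂ) ζ * (h z / (deriv h z * ((1 - p ^ 2) / (1 + p * ζ) ^ 2)))
            = ((‖ζ‖ ^ 2 : ℝ) : ℂ) * Y := by
          rw [hY]
          have := Complex.mul_conj' ζ
          push_cast
          rw [← this]
          field_simp
        rw [e6, Complex.re_ofReal_mul] at hn
        have h7 : 0 < ‖ζ‖ ^ 2 := by have := norm_pos_iff.2 hζ0; positivity
        exact nonneg_of_mul_nonneg_right hn h7
      have hY0 : Y ≠ 0 := by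
        intro hY0
        rw [hY0, mul_zero] at hval
        exact hp2 hval.symm
      have e7 : (1 + (p : ℂ) ^ 2 - 2 * p * z - (z - p) * (1 - p * z) * (deriv E z / E z))
          = (((1 - p ^ 2) / ‖Y‖ ^ 2 : ℝ) : ℂ) * (starRingEnd ℂ) Y := by
        apply mul_right_cancel₀ hY0
        rw [hval]
        have := Complex.mul_conj' Y
        have hn0 : (‖Y‖ : ℂ) ≠ 0 := by exact_mod_cast (norm_pos_iff.2 hY0).ne'
        push_cast
        field_simp
        linear_combination -this
      rw [e7, Complex.re_ofReal_mul, Complex.conj_re]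
      have : 0 ≤ 1 - p ^ 2 := by nlinarith
      positivity
    intro z hz
    by_cases hzp : z = p
    · subst hzp
      simp only [sub_self, zero_mul, sub_zero]
      have : (1 + (p : ℂ) ^ 2 - 2 * p * p) = ((1 - p ^ 2 : ℝ) : ℂ) := by push_cast; ring
      rw [this, ofReal_re]
      nlinarith
    · exact hQ1 z hz hzp
  have hLd : DifferentiableOn ℂ (fun z => deriv E z / E z) (ball 0 1) :=
    (hEd.deriv isOpen_ball).div hEd hEne
  have hP0 := qp2 hpa hLd hQ
  have hPd : DifferentiableOn ℂ (fun z => 1 - z * (deriv E z / E z)) (ball 0 1) :=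
    DifferentiableOn.sub (by fun_prop) (DifferentiableOn.mul (by fun_prop) hLd)
  have hP := re_pos_of_nonneg hPd hP0 h00 (by simp)
  refine ⟨E, ⟨hEd, hE0, ?_, hEne, hP⟩, hfE⟩
  -- the derivative at the origin
  have hev : f =ᶠ[𝓝 0] fun z => w₀ * (1 - E z / ((1 - z / p) * (1 - p * z))) := by
    filter_upwards [(isOpen_punct p).mem_nhds ⟨h00, by simpa using h0p⟩] with z hz
    exact hfE z hz.1 (by simpa using hz.2)
  have h1 := hf.one
  rw [hev.deriv_eq] at h1
  have e1 : HasDerivAt E (deriv E 0) 0 := (hEd.differentiableAt (isOpen_ball.mem_nhds h00)).hasDerivAt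
  have e2 : HasDerivAt (fun z : ℂ => (1 - z / p) * (1 - p * z)) (-(1 / p) * (1 - p * 0) + (1 - 0 / p) * (-(p * 1))) 0 := by
    have a1 : HasDerivAt (fun z : ℂ => 1 - z / p) (-(1 / p)) 0 :=
      ((hasDerivAt_id (0 : ℂ)).div_const (p : ℂ)).const_sub 1
    have a2 : HasDerivAt (fun z : ℂ => 1 - (p : ℂ) * z) (-(p * 1)) 0 :=
      ((hasDerivAt_id (0 : ℂ)).const_mul (p : ℂ)).const_sub 1
    exact a1.mul a2
  have e3 := ((e1.div e2 (by simp)).const_sub 1).const_mul w₀
  have e4 := e3.deriv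
  have e5 : deriv (fun z => w₀ * (1 - E z / ((1 - z / p) * (1 - p * z)))) 0 = 1 := h1
  have e6 : (fun z => w₀ * (1 - E z / ((1 - z / p) * (1 - p * z))))
      = (fun y => w₀ * (1 - (E / fun z : ℂ => (1 - z / p) * (1 - p * z)) y)) := by
    funext y; simp
  rw [e6, e4, hE0] at e5
  simp at e5
  unfold cc
  field_simp at e5 ⊢
  linear_combination -e5

end

end Pool.Agent.helper358_ms
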