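import Pool.Agent.helper358_ms.Geo1
import Pool.Agent.R250.GN2

/-! # Lin's sufficient condition -/

set_option autoImplicit false

namespace Pool.Agent.helper358_ms

open Complex Metric Set Filter Topology

noncomputable section

theorem mob_sub {p : ℝ} (hp : |p| ≤ 1) {ζ : ℂ} (hζ : ζ ∈ ball (0 : ℂ) 1) :
    mob p ζ - p = ζ * (1 - p ^ 2) / (1 + p * ζ) := by
  rw [eq_div_iff (one_add_ne hp hζ)]
  linear_combination mob_mul hp hζ

theorem one_sub_mob {p : ℝ} (hp : |p| ≤ 1) {ζ : ℂ} (hζ : ζ ∈ ball (0 : ℂ) 1) :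
    1 - p * mob p ζ = (1 - p ^ 2) / (1 + p * ζ) := by
  rw [eq_div_iff (one_add_ne hp hζ)]
  linear_combination (-(p : ℂ)) * mob_mul hp hζ

theorem quad_mob {p : ℝ} (hp : |p| ≤ 1) {ζ : ℂ} (hζ : ζ ∈ ball (0 : ℂ) 1) :
    1 + (p : ℂ) ^ 2 - 2 * p * mob p ζ = (1 - p ^ 2) * (1 - p * ζ) / (1 + p * ζ) := by
  rw [eq_div_iff (one_add_ne hp hζ)]
  linear_combination (-2 * (p : ℂ)) * mob_mul hp hζ

/-- the function attached to `E` -/
def ff (p : ℝ) (w₀ : ℂ) (E : ℂ → ℂ) (z : ℂ) : ℂ := w₀ * (1 - E z / ((1 - z / p) * (1 - p * z)))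

theorem ClassE.sigmaStar {p : ℝ} (hp0 : 0 < p) (hp1 : p < 1) {w₀ : ℂ} (hw : w₀ ≠ 0) {E : ℂ → ℂ}
    (hE : ClassE (cc p w₀) E) : SigmaStar p w₀ (ff p w₀ E) := by
  have hpc : (p : ℂ) ≠ 0 := by exact_mod_cast hp0.ne'
  have hpa : |p| < 1 := by rwa [abs_of_pos hp0]
  have hnp : |-p| < 1 := by rwa [abs_neg]
  have hpb : (p : ℂ) ∈ ball (0 : ℂ) 1 := by
    rw [mem_ball_zero_iff, Complex.norm_real, Real.norm_eq_abs]; exact hpa
  have h00 : (0 : ℂ) ∈ ball (0 : ℂ) 1 := mem_ball_self one_pos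
  have h0p : (0 : ℂ) ≠ p := fun h => hpc h.symm
  have hEd := hE.holo
  have hEne := hE.ne
  have hp2 : (1 : ℂ) - p ^ 2 ≠ 0 := by
    have : (1 : ℝ) - p ^ 2 ≠ 0 := by nlinarith
    exact_mod_cast this
  have hpw : (p : ℂ) * w₀ ≠ 0 := mul_ne_zero hpc hw
  have hLd : DifferentiableOn ℂ (fun z => deriv E z / E z) (ball 0 1) :=
    (hEd.deriv isOpen_ball).div hEd hEne
  -- positivity of `Q`
  have hQ0 := qp1 (p := p) hLd (fun z hz => (hE.pos z hz).le)
  have hQd : DifferentiableOn ℂ (fun z => 1 + (p : ℂ) ^ 2 - 2 * p * z -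
      (z - p) * (1 - p * z) * (deriv E z / E z)) (ball 0 1) :=
    DifferentiableOn.sub (by fun_prop) (DifferentiableOn.mul (by fun_prop) hLd)
  have hQ := re_pos_of_nonneg hQd hQ0 hpb (by
    simp only [sub_self, zero_mul, sub_zero]
    have : (1 + (p : ℂ) ^ 2 - 2 * p * p) = ((1 - p ^ 2 : ℝ) : ℂ) := by push_cast; ring
    rw [this, ofReal_re]
    nlinarith)
  have hmm : ∀ ζ ∈ ball (0 : ℂ) 1, mob p ζ ∈ ball (0 : ℂ) 1 := fun ζ hζ => mob_mem hpa hζ
  have hmm' : ∀ ζ ∈ ball (0 : ℂ) 1, mob (-p) ζ ∈ ball (0 : ℂ) 1 := fun ζ hζ => mob_mem hnp hζ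
  have hmobd : DifferentiableOn ℂ (mob p) (ball 0 1) := fun w hw =>
    (mob_diff hpa.le hw).differentiableAt.differentiableWithinAt
  have hback : ∀ z ∈ ball (0 : ℂ) 1, mob p (mob (-p) z) = z := by
    intro z hz
    have := mob_left hnp hz
    rwa [neg_neg] at this
  -- the function `h = 1/(f - w₀)`
  set h : ℂ → ℂ := fun z => (z - p) * (1 - p * z) / (p * w₀ * E z) with hh
  have hhp : h p = 0 := by simp [hh]
  have hfh : ∀ z ∈ ball (0 : ℂ) 1, z ≠ p → h z * (ff p w₀ E z - w₀) = 1 ∧ h z ≠ 0 := by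
    intro z hz hzp
    have h1 := one_sub_ne hpa.le hz
    have h2 := sub_ne_zero.2 hzp
    have h3 : 1 - z / p = -(z - p) / p := by field_simp; ring
    have h4 := hEne z hz
    constructor
    · simp only [hh, ff, h3]
      obtain ⟨N, hN⟩ : ∃ N, N = 1 - (p : ℂ) * z := ⟨_, rfl⟩
      obtain ⟨M, hM⟩ : ∃ M, M = z - (p : ℂ) := ⟨_, rfl⟩
      rw [← hN] at h1 ⊢
      rw [← hM] at h2 ⊢
      field_simp
      ring
    · exact div_ne_zero (mul_ne_zero h2 h1) (mul_ne_zero hpw h4)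
  -- transfer to the origin
  set K : ℂ → ℂ := fun ζ => (1 - p ^ 2) ^ 2 / (p * w₀ * ((1 + p * ζ) ^ 2 * E (mob p ζ))) with hK
  have hden : ∀ ζ ∈ ball (0 : ℂ) 1, (p : ℂ) * w₀ * ((1 + p * ζ) ^ 2 * E (mob p ζ)) ≠ 0 := fun ζ hζ =>
    mul_ne_zero hpw (mul_ne_zero (pow_ne_zero _ (one_add_ne hpa.le hζ)) (hEne _ (hmm ζ hζ)))
  have hEm : DifferentiableOn ℂ (fun ζ => E (mob p ζ)) (ball 0 1) := hEd.comp hmobd hmm
  have hKd : DifferentiableOn ℂ K (ball 0 1) := by
    refine DifferentiableOn.div (by fun_prop) ?_ hden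
    exact (DifferentiableOn.mul (by fun_prop) hEm).const_mul _
  have hHK : ∀ ζ ∈ ball (0 : ℂ) 1, h (mob p ζ) = ζ * K ζ := by
    intro ζ hζ
    have h1 := one_add_ne hpa.le hζ
    have h2 := mob_sub hpa.le hζ
    have h3 := one_sub_mob hpa.le hζ
    have h4 := hEne _ (hmm ζ hζ)
    simp only [hh, hK, h2, h3]
    obtain ⟨N, hN⟩ : ∃ N, N = 1 + (p : ℂ) * ζ := ⟨_, rfl⟩
    rw [← hN] at h1 ⊢
    field_simp
  have hHd : DifferentiableOn ℂ (fun ζ => ζ * K ζ) (ball 0 1) := differentiableOn_id.mul hKd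
  have hpos : ∀ ζ ∈ ball (0 : ℂ) 1, 0 < (deriv (fun ζ => ζ * K ζ) ζ * (starRingEnd ℂ) (K ζ)).re := by
    intro ζ hζ
    have h1 := one_add_ne hpa.le hζ
    have hz := hmm ζ hζ
    have hEz := hEne _ hz
    have h1z := one_sub_ne hpa.le hz
    have hEder : HasDerivAt (fun ζ => E (mob p ζ)) (deriv E (mob p ζ) * ((1 - p ^ 2) / (1 + p * ζ) ^ 2)) ζ :=
      HasDerivAt.comp ζ (hEd.differentiableAt (isOpen_ball.mem_nhds hz)).hasDerivAt (mob_diff hpa.le hζ)
    have hsq : HasDerivAt (fun ζ : ℂ => (1 + (p : ℂ) * ζ) ^ 2) (2 * (1 + p * ζ) * p) ζ := by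
      have a1 : HasDerivAt (fun ζ : ℂ => 1 + (p : ℂ) * ζ) (p * 1) ζ :=
        ((hasDerivAt_id ζ).const_mul (p : ℂ)).const_add 1
      refine (a1.pow 2).congr_deriv ?_
      simp
    have hdd := ((hsq.mul hEder).const_mul ((p : ℂ) * w₀))
    have hKder := (hasDerivAt_const ζ ((1 - (p : ℂ) ^ 2) ^ 2)).div hdd (hden ζ hζ)
    have hfin := (hasDerivAt_id ζ).mul hKder
    have hfin' : HasDerivAt (fun ζ => ζ * K ζ) _ ζ := hfin
    have hK0 : K ζ ≠ 0 := div_ne_zero (pow_ne_zero _ hp2) (hden ζ hζ)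
    have hval : deriv (fun ζ => ζ * K ζ) ζ = (1 - (p : ℂ) ^ 2)⁻¹ * (1 + (p : ℂ) ^ 2 - 2 * p * mob p ζ -
      (mob p ζ - p) * (1 - p * mob p ζ) * (deriv E (mob p ζ) / E (mob p ζ))) * K ζ := by
      rw [hfin'.deriv]
      have h2 := mob_sub hpa.le hζ
      have h3 := one_sub_mob hpa.le hζ
      have h4 := quad_mob hpa.le hζ
      rw [h2, h3, h4]
      simp only [Pi.mul_apply, Pi.div_apply, hK, id]
      obtain ⟨N, hN⟩ : ∃ N, N = 1 + (p : ℂ) * ζ := ⟨_, rfl⟩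
      have hζN : (p : ℂ) * ζ = N - 1 := by rw [hN]; ring
      rw [← hN] at h1 ⊢
      have h5 : 1 - (p : ℂ) * ζ = 2 - N := by rw [hζN]; ring
      rw [h5]
      field_simp
      rw [hN]
      ring
    rw [hval, mul_assoc, Complex.mul_conj']
    have e1 : (1 - (p : ℂ) ^ 2)⁻¹ = (((1 - p ^ 2)⁻¹ : ℝ) : ℂ) := by push_cast; rfl
    have e2 : ((‖K ζ‖ : ℂ)) ^ 2 = ((‖K ζ‖ ^ 2 : ℝ) : ℂ) := by push_cast; rfl
    rw [e1, e2, Complex.re_mul_ofReal, Complex.re_ofReal_mul]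
    have h6 := hQ _ hz
    have h7 : 0 < (1 - p ^ 2)⁻¹ := inv_pos.2 (by nlinarith)
    have h8 : 0 < ‖K ζ‖ ^ 2 := by have := norm_pos_iff.2 hK0; positivity
    positivity
  obtain ⟨hinj, hstar⟩ := Pool.Agent.R250.GN.starlike_of_pos hHd hKd (fun z _ => rfl) hpos
  have hinj' : InjOn h (ball 0 1) := by
    intro z hz z' hz' hzz
    have e1 : h z = (mob (-p) z) * K (mob (-p) z) := by
      rw [← hHK _ (hmm' z hz), hback z hz]
    have e2 : h z' = (mob (-p) z') * K (mob (-p) z') := by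
      rw [← hHK _ (hmm' z' hz'), hback z' hz']
    rw [e1, e2] at hzz
    have := hinj (hmm' z hz) (hmm' z' hz') hzz
    have h5 := congrArg (mob p) this
    rwa [hback z hz, hback z' hz'] at h5
  have hst : ∀ z ∈ ball (0 : ℂ) 1, ∀ t : ℝ, 0 ≤ t → t ≤ 1 → ∃ w ∈ ball (0 : ℂ) 1, h w = t * h z := by
    intro z hz t ht ht1
    rw [starConvex_zero_iff] at hstar
    have e1 : h z = (mob (-p) z) * K (mob (-p) z) := by
      rw [← hHK _ (hmm' z hz), hback z hz]
    obtain ⟨w, hw, hw2⟩ := hstar (mem_image_of_mem _ (hmm' z hz)) ht ht1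
    refine ⟨mob p w, hmm w hw, ?_⟩
    rw [hHK w hw, e1]
    simp only [Complex.real_smul] at hw2
    exact hw2
  refine ⟨?_, ?_, ?_, ?_, ?_⟩
  · refine ⟨fun z => w₀ * ((z - p) + p * E z / (1 - p * z)), ?_, ?_, ?_⟩
    · refine DifferentiableOn.const_mul (DifferentiableOn.add (by fun_prop) ?_) _
      refine (hEd.const_mul _).div (by fun_prop) ?_
      intro z hz
      exact one_sub_ne hpa.le hz
    · have h1 := one_sub_ne hpa.le hpb
      have h2 := hEne _ hpb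
      simp only [sub_self, zero_add]
      exact mul_ne_zero hw (div_ne_zero (mul_ne_zero hpc h2) h1)
    · intro z hz hzp
      have h1 := one_sub_ne hpa.le hz
      have h2 := sub_ne_zero.2 hzp
      have h3 : 1 - z / p = -(z - p) / p := by field_simp; ring
      simp only [ff, h3]
      obtain ⟨N, hN⟩ : ∃ N, N = 1 - (p : ℂ) * z := ⟨_, rfl⟩
      obtain ⟨M, hM⟩ : ∃ M, M = z - (p : ℂ) := ⟨_, rfl⟩
      rw [← hN] at h1 ⊢
      rw [← hM] at h2 ⊢
      field_simp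
      ring
  · intro z hz z' hz' hzz
    have hzp : z ≠ p := by simpa using hz.2
    have hzp' : z' ≠ p := by simpa using hz'.2
    apply hinj' hz.1 hz'.1
    obtain ⟨a1, a2⟩ := hfh z hz.1 hzp
    obtain ⟨b1, b2⟩ := hfh z' hz'.1 hzp'
    rw [← hzz] at b1
    have h9 : ff p w₀ E z - w₀ ≠ 0 := by
      intro h9
      rw [h9, mul_zero] at a1
      exact zero_ne_one a1
    apply mul_right_cancel₀ h9
    rw [a1, b1]
  · simp [ff, hE.zero]
  · have e1 : HasDerivAt E (deriv E 0) 0 := (hEd.differentiableAt (isOpen_ball.mem_nhds h00)).hasDerivAt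
    have e2 : HasDerivAt (fun z : ℂ => (1 - z / p) * (1 - p * z)) (-(1 / p) * (1 - p * 0) + (1 - 0 / p) * (-(p * 1))) 0 := by
      have a1 : HasDerivAt (fun z : ℂ => 1 - z / p) (-(1 / p)) 0 :=
        ((hasDerivAt_id (0 : ℂ)).div_const (p : ℂ)).const_sub 1
      have a2 : HasDerivAt (fun z : ℂ => 1 - (p : ℂ) * z) (-(p * 1)) 0 :=
        ((hasDerivAt_id (0 : ℂ)).const_mul (p : ℂ)).const_sub 1
      exact a1.mul a2
    have e3 := ((e1.div e2 (by simp)).const_sub 1).const_mul w₀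
    have e4 := e3.deriv
    have e6 : ff p w₀ E = (fun y => w₀ * (1 - (E / fun z : ℂ => (1 - z / p) * (1 - p * z)) y)) := by
      funext y; simp [ff]
    rw [e6, e4, hE.zero, hE.one]
    simp
    unfold cc
    field_simp
    ring
  · intro y hy a b ha hb hab
    have hnw : ∀ z ∈ ball (0 : ℂ) 1, z ≠ p → ff p w₀ E z ≠ w₀ := by
      intro z hz hzp h10
      have := (hfh z hz hzp).1
      rw [h10, sub_self, mul_zero] at this
      exact zero_ne_one this
    by_cases hb0 : b = 0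
    · rintro ⟨z, hz, hz2⟩
      have hzp : z ≠ p := by simpa using hz.2
      apply hnw z hz.1 hzp
      rw [hz2, hb0]
      have : a = 1 := by linarith
      rw [this]
      simp
    · rintro ⟨z, hz, hz2⟩
      apply hy
      have hzp : z ≠ p := by simpa using hz.2
      have hb1 : b ≤ 1 := by linarith
      obtain ⟨w, hwb, hwh⟩ := hst z hz.1 b hb hb1
      obtain ⟨a1, a2⟩ := hfh z hz.1 hzp
      have hbc : (b : ℂ) ≠ 0 := by exact_mod_cast hb0
      have hwp : w ≠ p := by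
        intro hwp
        rw [hwp, hhp] at hwh
        rcases mul_eq_zero.1 hwh.symm with h11 | h11
        · exact hbc h11
        · exact a2 h11
      refine ⟨w, ⟨hwb, by simpa using hwp⟩, ?_⟩
      obtain ⟨b1, b2⟩ := hfh w hwb hwp
      rw [hwh] at b1 b2
      have e1 : ff p w₀ E z - w₀ = b * (y - w₀) := by
        rw [hz2]
        simp only [Complex.real_smul]
        have : (a : ℂ) = 1 - b := by
          have : a = 1 - b := by linarith
          rw [this]; push_cast; rfl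
        rw [this]
        ring
      rw [e1] at a1
      have h12 : h z ≠ 0 := a2
      have : (b : ℂ) * h z * (ff p w₀ E w - y) = 0 := by linear_combination b1 - a1
      rcases mul_eq_zero.1 this with h13 | h13
      · exact absurd h13 b2
      · exact sub_eq_zero.1 h13

end

end Pool.Agent.helper358_ms
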