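import Pool.Agent.helper358_ms.Jack

/-! # The functions of the class are squares `(1 - w)²` with `|w(z)| ≤ |z|` -/

set_option autoImplicit false

namespace Pool.Agent.helper358_ms

open Complex Metric Set Filter Topology

noncomputable section

theorem schwarz_zero {φ : ℂ → ℂ} (hφd : DifferentiableOn ℂ φ (ball 0 1)) (h0 : φ 0 = 0)
    (hφ : ∀ z ∈ ball (0 : ℂ) 1, ‖φ z‖ < 1) {z : ℂ} (hz : z ∈ ball (0 : ℂ) 1) : ‖φ z‖ ≤ ‖z‖ := by
  have hmaps : MapsTo φ (ball 0 1) (closedBall (φ 0) 1) := by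
    intro w hw
    rw [h0, mem_closedBall_zero_iff]; exact (hφ w hw).le
  have := Complex.dist_le_div_mul_dist_of_mapsTo_ball hφd hmaps hz
  rw [h0, dist_zero_right, dist_zero_right] at this
  simpa using this

theorem half_exists {c : ℂ} {E : ℂ → ℂ} (hE : ClassE c E) :
    ∃ w : ℂ → ℂ, DifferentiableOn ℂ w (ball 0 1) ∧ (∀ z ∈ ball (0 : ℂ) 1, ‖w z‖ ≤ ‖z‖) ∧
      ∀ z ∈ ball (0 : ℂ) 1, E z = (1 - w z) ^ 2 := by
  obtain ⟨ψ, hψ⟩ : ∃ ψ : ℂ → ℂ, ψ = fun z => deriv E z / E z := ⟨_, rfl⟩
  have hψd : DifferentiableOn ℂ ψ (ball 0 1) := by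
    rw [hψ]; exact (hE.holo.deriv isOpen_ball).div hE.holo hE.ne
  obtain ⟨ℓ, hℓ0, hℓ⟩ := (hψd.isExactOn_ball).with_val_at 0 0
  obtain ⟨g, hg⟩ : ∃ g : ℂ → ℂ, g = fun z => Complex.exp (ℓ z / 2) := ⟨_, rfl⟩
  have hgd : ∀ z ∈ ball (0 : ℂ) 1, HasDerivAt g (g z * (ψ z / 2)) z := by
    intro z hz
    rw [hg]
    exact ((hℓ z hz).div_const 2).cexp
  have hgne : ∀ z, g z ≠ 0 := fun z => by rw [hg]; exact Complex.exp_ne_zero _
  have hg0 : g 0 = 1 := by rw [hg]; simp [hℓ0]
  have hgdiff : DifferentiableOn ℂ g (ball 0 1) := fun z hz =>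
    (hgd z hz).differentiableAt.differentiableWithinAt
  have hsq : ∀ z ∈ ball (0 : ℂ) 1, E z = g z ^ 2 := by
    have hqd : ∀ z ∈ ball (0 : ℂ) 1, HasDerivAt (fun z => g z ^ 2 / E z) 0 z := by
      intro z hz
      have z1 := hE.ne z hz
      have dE : HasDerivAt E (deriv E z) z :=
        (hE.holo.differentiableAt (isOpen_ball.mem_nhds hz)).hasDerivAt
      have d2 := ((hgd z hz).fun_pow 2).fun_div dE z1
      have e : (((2 : ℕ) : ℂ) * g z ^ (2 - 1) * (g z * (ψ z / 2))) * E z - g z ^ 2 * deriv E z = 0 := by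
        rw [hψ]
        simp
        field_simp
        ring
      rw [e] at d2
      simpa using d2
    intro z hz
    have hqdiff : DifferentiableOn ℂ (fun z => g z ^ 2 / E z) (ball 0 1) := fun z hz =>
      (hqd z hz).differentiableAt.differentiableWithinAt
    have hconst : (fun z => g z ^ 2 / E z) z = (fun z => g z ^ 2 / E z) 0 :=
      isOpen_ball.is_const_of_deriv_eq_zero (convex_ball (0 : ℂ) 1).isPreconnected hqdiff
        (fun w hw => (hqd w hw).deriv) hz mem0
    simp only [hg0, hE.zero, one_pow, div_one] at hconst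
    rw [div_eq_one_iff_eq (hE.ne z hz)] at hconst
    exact hconst.symm
  -- positivity of `2/g - 1`
  obtain ⟨f, hf⟩ : ∃ f : ℂ → ℂ, f = fun z => 2 / g z - 1 := ⟨_, rfl⟩
  have hfd : ∀ z ∈ ball (0 : ℂ) 1, HasDerivAt f (-(2 * (ψ z / 2) / g z)) z := by
    intro z hz
    rw [hf]
    have h1 := ((hasDerivAt_const z (2 : ℂ)).fun_div (hgd z hz) (hgne z)).sub_const 1
    have h2 := hgne z
    have e : (0 * g z - 2 * (g z * (ψ z / 2))) / g z ^ 2 = -(2 * (ψ z / 2) / g z) := by
      field_simp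
      ring
    rw [e] at h1
    exact h1
  have hfdiff : DifferentiableOn ℂ f (ball 0 1) := fun z hz =>
    (hfd z hz).differentiableAt.differentiableWithinAt
  have hf0 : 0 < (f 0).re := by rw [hf]; norm_num [hg0]
  have hnorm : ∀ z, 0 < (f z).re → ‖1 - g z‖ < 1 := by
    intro z hz
    have h1 := norm_cayley_lt hz
    have h2 : (f z - 1) / (f z + 1) = 1 - g z := by
      rw [hf]
      have := hgne z
      simp only
      field_simp
      ring
    rwa [h2] at h1
  have hpos : ∀ z ∈ ball (0 : ℂ) 1, 0 < (f z).re := by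
    apply first_zero hfdiff hf0
    intro z hz hz0 hre hin m hm hzm
    rw [(hfd z hz).deriv] at hzm
    obtain ⟨w, hw⟩ : ∃ w : ℂ → ℂ, w = fun z => 1 - g z := ⟨_, rfl⟩
    have hw0 : w 0 = 0 := by rw [hw]; simp [hg0]
    have hwd : ∀ y ∈ ball (0 : ℂ) 1, HasDerivAt w (-(g y * (ψ y / 2))) y := by
      intro y hy
      rw [hw]
      exact (hgd y hy).const_sub 1
    have hwz : ‖w z‖ = 1 := by
      have hgz := hgne z
      have h1 : (2 / g z - 1).re = 0 := by rw [hf] at hre; exact hre
      have h2 : (2 / g z).re = 1 := by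
        rw [sub_re, one_re] at h1; linarith
      have hns : 0 < Complex.normSq (g z) := Complex.normSq_pos.2 hgz
      rw [Complex.div_re] at h2
      simp only [Complex.re_ofNat, Complex.im_ofNat, zero_mul, zero_div, add_zero] at h2
      rw [div_eq_one_iff_eq hns.ne', Complex.normSq_apply] at h2
      have h3 : ‖w z‖ ^ 2 = 1 := by
        rw [hw, ← Complex.normSq_eq_norm_sq, Complex.normSq_apply]
        simp only [sub_re, sub_im, one_re, one_im]
        nlinarith
      nlinarith [norm_nonneg (w z)]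
    -- Schwarz lemma on the small disc
    have hsch : ∀ t ∈ Ioo (0 : ℝ) 1, ‖w ((t : ℂ) * z)‖ ≤ t := by
      intro t ht
      have hzn := mem_ball_zero_iff.1 hz
      have hmem : ∀ y ∈ ball (0 : ℂ) 1, y * z ∈ ball (0 : ℂ) 1 := by
        intro y hy
        rw [mem_ball_zero_iff] at hy ⊢
        rw [norm_mul]
        nlinarith [norm_nonneg z, norm_nonneg y]
      have hwdiff : DifferentiableOn ℂ w (ball 0 1) := fun y hy =>
        (hwd y hy).differentiableAt.differentiableWithinAt
      have hφd : DifferentiableOn ℂ (fun y => w (y * z)) (ball 0 1) :=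
        hwdiff.comp (differentiableOn_id.mul_const z) hmem
      have h1 := schwarz_zero hφd (by simp [hw0]) (by
        intro y hy
        rw [hw]
        apply hnorm
        apply hin
        rw [norm_mul]
        have := mem_ball_zero_iff.1 hy
        have := norm_pos_iff.2 hz0
        nlinarith) (z := (t : ℂ)) (by
          rw [mem_ball_zero_iff, Complex.norm_of_nonneg ht.1.le]; exact ht.2)
      rwa [Complex.norm_of_nonneg ht.1.le] at h1
    -- radial derivative
    have hk : 2 - 2 * ((starRingEnd ℂ) (w z) * (-(g z * (ψ z / 2)) * z)).re ≤ 0 := by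
      have hd1 : HasDerivAt (fun t : ℝ => (t : ℂ) * z) z 1 := by
        have := (Complex.ofRealCLM.hasDerivAt (x := (1 : ℝ))).mul_const z
        simpa using this
      have hdz' : HasDerivAt w (-(g z * (ψ z / 2))) (((1 : ℝ) : ℂ) * z) := by simpa using hwd z hz
      have hd2 : HasDerivAt (fun t : ℝ => w ((t : ℂ) * z)) (-(g z * (ψ z / 2)) * z) 1 := hdz'.comp 1 hd1
      have hdre : HasDerivAt (fun t : ℝ => (w ((t : ℂ) * z)).re) (-(g z * (ψ z / 2)) * z).re 1 := by
        have h1 : HasFDerivAt (fun y : ℂ => y.re) Complex.reCLM (w (((1 : ℝ) : ℂ) * z)) :=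
          Complex.reCLM.hasFDerivAt
        exact h1.comp_hasDerivAt (1 : ℝ) hd2
      have hdim : HasDerivAt (fun t : ℝ => (w ((t : ℂ) * z)).im) (-(g z * (ψ z / 2)) * z).im 1 := by
        have h1 : HasFDerivAt (fun y : ℂ => y.im) Complex.imCLM (w (((1 : ℝ) : ℂ) * z)) :=
          Complex.imCLM.hasFDerivAt
        exact h1.comp_hasDerivAt (1 : ℝ) hd2
      have hdd : HasDerivAt (fun t : ℝ => t ^ 2 - ((w ((t : ℂ) * z)).re ^ 2 + (w ((t : ℂ) * z)).im ^ 2))
          (2 - 2 * ((starRingEnd ℂ) (w z) * (-(g z * (ψ z / 2)) * z)).re) 1 := by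
        have h1 := (hasDerivAt_pow 2 (1 : ℝ)).sub ((hdre.fun_pow 2).fun_add (hdim.fun_pow 2))
        have e : ((2 : ℕ) : ℝ) * 1 ^ (2 - 1) - (((2 : ℕ) : ℝ) * (w (((1 : ℝ) : ℂ) * z)).re ^ (2 - 1)
            * (-(g z * (ψ z / 2)) * z).re + ((2 : ℕ) : ℝ) * (w (((1 : ℝ) : ℂ) * z)).im ^ (2 - 1)
            * (-(g z * (ψ z / 2)) * z).im)
            = 2 - 2 * ((starRingEnd ℂ) (w z) * (-(g z * (ψ z / 2)) * z)).re := by
          rw [Complex.ofReal_one, one_mul, mul_re ((starRingEnd ℂ) (w z)), Complex.conj_re, Complex.conj_im]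
          norm_num
          ring
        rw [e] at h1
        exact h1
      apply deriv_nonpos_left hdd
      intro t ht
      have h2 : (w (((1 : ℝ) : ℂ) * z)).re ^ 2 + (w (((1 : ℝ) : ℂ) * z)).im ^ 2 = 1 := by
        rw [Complex.ofReal_one, one_mul]
        have : ‖w z‖ ^ 2 = 1 := by rw [hwz]; norm_num
        rw [← Complex.normSq_eq_norm_sq, Complex.normSq_apply] at this
        nlinarith
      have h3 : (w ((t : ℂ) * z)).re ^ 2 + (w ((t : ℂ) * z)).im ^ 2 ≤ t ^ 2 := by
        have h4 := hsch t ht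
        have h5 : ‖w ((t : ℂ) * z)‖ ^ 2 ≤ t ^ 2 := by
          apply pow_le_pow_left₀ (norm_nonneg _) h4
        rw [← Complex.normSq_eq_norm_sq, Complex.normSq_apply] at h5
        nlinarith
      rw [h2]
      linarith
    -- contradiction
    have hgz := hgne z
    have h5 : z * ψ z = m * g z := by
      have : z * -(2 * (ψ z / 2) / g z) = -(z * ψ z / g z) := by ring
      rw [this] at hzm
      have h6 : z * ψ z / g z = m := by linear_combination -hzm
      rw [div_eq_iff hgz] at h6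
      exact h6
    have hPos := hE.pos z hz
    have h6 : z * (deriv E z / E z) = m * g z := by rw [← h5, hψ]
    rw [h6] at hPos
    have hww : (starRingEnd ℂ) (w z) * w z = 1 := by rw [conj_mul_self, hwz]; simp
    have hgw : g z = 1 - w z := by rw [hw]; ring
    have h7 : (starRingEnd ℂ) (w z) * (-(g z * (ψ z / 2)) * z)
        = (m / 2 : ℂ) * (2 - w z - (starRingEnd ℂ) (w z)) := by
      have : (starRingEnd ℂ) (w z) * (-(g z * (ψ z / 2)) * z)
          = -((starRingEnd ℂ) (w z) * g z / 2 * (z * ψ z)) := by ring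
      rw [this, h5, hgw]
      linear_combination (-(m : ℂ) / 2 * (w z - 2)) * hww
    rw [h7] at hk
    have h8 : ((m / 2 : ℂ) * (2 - w z - (starRingEnd ℂ) (w z))).re = m * (1 - (w z).re) := by
      have : (m / 2 : ℂ) * (2 - w z - (starRingEnd ℂ) (w z))
          = ((m * (1 - (w z).re) : ℝ) : ℂ) := by
        have h9 := Complex.add_conj (w z)
        push_cast at h9 ⊢
        linear_combination (-(m / 2 : ℂ)) * h9
      rw [this, Complex.ofReal_re]
    rw [h8] at hk
    have h9 : (1 - (m : ℂ) * g z).re = 1 - m * (1 - (w z).re) := by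
      rw [hgw, sub_re, one_re, Complex.re_ofReal_mul, sub_re, one_re]
    rw [h9] at hPos
    linarith
  refine ⟨fun z => 1 - g z, hgdiff.const_sub 1, ?_, ?_⟩
  · intro z hz
    exact schwarz_zero (hgdiff.const_sub 1) (by simp [hg0]) (fun y hy => hnorm y (hpos y hy)) hz
  · intro z hz
    rw [hsq z hz]
    ring

end

end Pool.Agent.helper358_ms
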