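import Pool.Agent.helper358_ms.Reg

/-! # First-zero lemma and Jack's lemma -/

set_option autoImplicit false

namespace Pool.Agent.helper358_ms

open Complex Metric Set Filter Topology

noncomputable section

/-- derivative of a real function at a minimum on the right end of an interval -/
theorem deriv_nonpos_left {k : ℝ → ℝ} {k' : ℝ} (h : HasDerivAt k k' 1)
    (hk : ∀ t ∈ Ioo (0 : ℝ) 1, k 1 ≤ k t) : k' ≤ 0 := by
  have h1 := h.hasDerivWithinAt (s := Iio 1)
  have h3 : Iio (1 : ℝ) \ {1} = Iio 1 := by ext x; simp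
  rw [hasDerivWithinAt_iff_tendsto_slope, h3] at h1
  haveI : (𝓝[<] (1 : ℝ)).NeBot := inferInstance
  apply le_of_tendsto h1
  have h4 : ∀ᶠ t : ℝ in 𝓝[<] 1, t ∈ Ioo (0 : ℝ) 1 := Ioo_mem_nhdsLT (by norm_num)
  filter_upwards [h4] with t ht
  rw [slope_def_field]
  have := hk t ht
  exact div_nonpos_of_nonneg_of_nonpos (by linarith) (by linarith [ht.2])

/-- first zero of the real part -/
theorem first_zero {f : ℂ → ℂ} (hf : DifferentiableOn ℂ f (ball 0 1)) (h0 : 0 < (f 0).re)
    (hcon : ∀ z ∈ ball (0 : ℂ) 1, z ≠ 0 → (f z).re = 0 → (∀ w, ‖w‖ < ‖z‖ → 0 < (f w).re) →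
      ∀ m : ℝ, 0 ≤ m → z * deriv f z = -(m : ℂ) → False) :
    ∀ z ∈ ball (0 : ℂ) 1, 0 < (f z).re := by
  by_contra hnot
  push Not at hnot
  obtain ⟨z1, hz1, hz1le⟩ := hnot
  have hz1n := mem_ball_zero_iff.1 hz1
  have hsub : closedBall (0 : ℂ) ‖z1‖ ⊆ ball 0 1 := closedBall_subset_ball hz1n
  have hcont : ContinuousOn f (closedBall 0 ‖z1‖) := (hf.mono hsub).continuousOn
  have hZ : IsCompact (closedBall (0 : ℂ) ‖z1‖ ∩ {z | (f z).re ≤ 0}) := by
    have : closedBall (0 : ℂ) ‖z1‖ ∩ {z | (f z).re ≤ 0}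
        = closedBall (0 : ℂ) ‖z1‖ ∩ (fun z => (f z).re) ⁻¹' (Iic 0) := rfl
    rw [this]
    apply IsCompact.of_isClosed_subset (isCompact_closedBall (0 : ℂ) ‖z1‖)
    · exact (Complex.continuous_re.comp_continuousOn hcont).preimage_isClosed_of_isClosed
        isClosed_closedBall isClosed_Iic
    · exact inter_subset_left
  obtain ⟨z, ⟨hzc, hzle⟩, hzmin⟩ := hZ.exists_isMinOn ⟨z1, by simp, hz1le⟩ continuous_norm.continuousOn
  have hzb : z ∈ ball (0 : ℂ) 1 := hsub hzc
  have hz1' : ‖z‖ ≤ ‖z1‖ := mem_closedBall_zero_iff.1 hzc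
  have hinside : ∀ w, ‖w‖ < ‖z‖ → 0 < (f w).re := by
    intro w hw
    by_contra hcw
    push Not at hcw
    have : ‖z‖ ≤ ‖w‖ := hzmin ⟨mem_closedBall_zero_iff.2 (by linarith), hcw⟩
    linarith
  have hz0 : z ≠ 0 := by
    intro h; rw [h] at hzle; exact absurd h0 (not_lt.2 hzle)
  have hzpos : 0 < ‖z‖ := norm_pos_iff.2 hz0
  have hdz : HasDerivAt f (deriv f z) z := (hf.differentiableAt (isOpen_ball.mem_nhds hzb)).hasDerivAt
  -- closure
  have hclos : ∀ w, ‖w‖ ≤ ‖z‖ → 0 ≤ (f w).re := by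
    intro w hw
    have hwb : w ∈ ball (0 : ℂ) 1 := by
      rw [mem_ball_zero_iff]; linarith
    have hfc : ContinuousAt f w := (hf.differentiableAt (isOpen_ball.mem_nhds hwb)).continuousAt
    have ht : Tendsto (fun t : ℝ => (f ((t : ℂ) * w)).re) (𝓝[<] 1) (𝓝 (f w).re) := by
      have h1 : Tendsto (fun t : ℝ => (t : ℂ) * w) (𝓝[<] 1) (𝓝 w) := by
        have : Continuous fun t : ℝ => (t : ℂ) * w := by fun_prop
        have h5 := this.tendsto 1
        simp only [Complex.ofReal_one, one_mul] at h5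
        exact h5.mono_left nhdsWithin_le_nhds
      exact (Complex.continuous_re.tendsto _).comp (hfc.tendsto.comp h1)
    apply ge_of_tendsto ht
    have h4 : ∀ᶠ t : ℝ in 𝓝[<] 1, t ∈ Ioo (0 : ℝ) 1 := Ioo_mem_nhdsLT (by norm_num)
    filter_upwards [h4] with t ht
    apply (hinside _ _).le
    rw [norm_mul, Complex.norm_of_nonneg ht.1.le]
    rcases (norm_nonneg w).eq_or_lt with h | h
    · rw [← h]; simpa using hzpos
    · nlinarith [ht.2]
  have hre0 : (f z).re = 0 := le_antisymm hzle (hclos z le_rfl)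
  -- angular derivative
  have hang : (deriv f z * (Complex.I * z)).re = 0 := by
    have hd1 : HasDerivAt (fun θ : ℝ => z * Complex.exp (θ * Complex.I)) (z * Complex.I) 0 := by
      have h1 : HasDerivAt (fun θ : ℝ => (θ : ℂ) * Complex.I) Complex.I 0 := by
        have := (Complex.ofRealCLM.hasDerivAt (x := (0 : ℝ))).mul_const Complex.I
        simpa using this
      have h2 := (h1.cexp).const_mul z
      simpa using h2
    have hdz' : HasDerivAt f (deriv f z) (z * Complex.exp (((0 : ℝ) : ℂ) * Complex.I)) := by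
      simpa using hdz
    have hd2 : HasDerivAt (fun θ : ℝ => f (z * Complex.exp (θ * Complex.I))) (deriv f z * (z * Complex.I)) 0 :=
      hdz'.comp 0 hd1
    have hd3 : HasDerivAt (fun θ : ℝ => (f (z * Complex.exp (θ * Complex.I))).re)
        (deriv f z * (z * Complex.I)).re 0 := by
      exact (Complex.reCLM.hasFDerivAt (x := f (z * Complex.exp (((0 : ℝ) : ℂ) * Complex.I)))).comp_hasDerivAt 0 hd2
    have hmin : IsLocalMin (fun θ : ℝ => (f (z * Complex.exp (θ * Complex.I))).re) 0 := by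
      apply Filter.Eventually.of_forall
      intro θ
      simp only [Complex.ofReal_zero, zero_mul, Complex.exp_zero, mul_one, hre0]
      apply hclos
      rw [norm_mul, Complex.norm_exp_ofReal_mul_I, mul_one]
    have := hmin.hasDerivAt_eq_zero hd3
    rw [mul_comm Complex.I z]
    exact this
  -- radial derivative
  have hrad : (deriv f z * z).re ≤ 0 := by
    have hd1 : HasDerivAt (fun t : ℝ => (t : ℂ) * z) z 1 := by
      have := (Complex.ofRealCLM.hasDerivAt (x := (1 : ℝ))).mul_const z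
      simpa using this
    have hdz' : HasDerivAt f (deriv f z) (((1 : ℝ) : ℂ) * z) := by simpa using hdz
    have hd2 : HasDerivAt (fun t : ℝ => f ((t : ℂ) * z)) (deriv f z * z) 1 := hdz'.comp 1 hd1
    have hd3 : HasDerivAt (fun t : ℝ => (f ((t : ℂ) * z)).re) (deriv f z * z).re 1 := by
      exact (Complex.reCLM.hasFDerivAt (x := f (((1 : ℝ) : ℂ) * z))).comp_hasDerivAt 1 hd2
    apply deriv_nonpos_left hd3
    intro t ht
    simp only [Complex.ofReal_one, one_mul, hre0]
    apply hclos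
    rw [norm_mul, Complex.norm_of_nonneg ht.1.le]
    nlinarith [ht.2]
  refine hcon z hzb hz0 hre0 hinside (-(deriv f z * z).re) (by linarith) ?_
  apply Complex.ext
  · push_cast
    simp [mul_comm]
  · have h1 : (deriv f z * (Complex.I * z)).re = -(z * deriv f z).im := by
      simp only [mul_re, mul_im, Complex.I_re, Complex.I_im]
      ring
    rw [h1] at hang
    push_cast
    simp at hang ⊢
    linarith

/-- positivity of the real part: Schwarz-Pick lower bound -/
theorem half_plane_lower {f : ℂ → ℂ} (hf : DifferentiableOn ℂ f (ball 0 1))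
    (hre : ∀ z ∈ ball (0 : ℂ) 1, 0 < (f z).re) {z : ℂ} (hz : z ∈ ball (0 : ℂ) 1) :
    ‖f 0‖ * (1 - ‖z‖) ≤ ‖f z‖ * (1 + ‖z‖) := by
  have h0 := hre 0 mem0
  have hden : ∀ w ∈ ball (0 : ℂ) 1, f w + (starRingEnd ℂ) (f 0) ≠ 0 := by
    intro w hw h
    have := congrArg Complex.re h
    simp at this
    have := hre w hw
    linarith
  obtain ⟨φ, hφ⟩ : ∃ φ : ℂ → ℂ, φ = fun w => (f w - f 0) / (f w + (starRingEnd ℂ) (f 0)) := ⟨_, rfl⟩
  have hφd : DifferentiableOn ℂ φ (ball 0 1) := by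
    rw [hφ]; exact (hf.sub_const _).div (hf.add_const _) hden
  have hφ0 : φ 0 = 0 := by rw [hφ]; simp
  have hφlt : ∀ w ∈ ball (0 : ℂ) 1, ‖φ w‖ < 1 := by
    intro w hw
    rw [hφ]
    simp only
    rw [norm_div, div_lt_one (norm_pos_iff.2 (hden w hw))]
    apply lt_of_pow_lt_pow_left₀ 2 (norm_nonneg _)
    rw [← Complex.normSq_eq_norm_sq, ← Complex.normSq_eq_norm_sq, Complex.normSq_apply,
      Complex.normSq_apply]
    simp only [sub_re, sub_im, add_re, add_im, Complex.conj_re, Complex.conj_im]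
    nlinarith [mul_pos (hre w hw) h0]
  have hsch : ‖φ z‖ ≤ ‖z‖ := by
    have hmaps : MapsTo φ (ball 0 1) (ball (φ 0) 1) := by
      intro w hw
      rw [hφ0, mem_ball_zero_iff]; exact hφlt w hw
    have := Complex.dist_le_div_mul_dist_of_mapsTo_ball hφd (by
      intro w hw
      exact ball_subset_closedBall (hmaps hw)) hz
    rw [hφ0, dist_zero_right, dist_zero_right] at this
    simpa using this
  have key : f z * (1 - φ z) = f 0 + φ z * (starRingEnd ℂ) (f 0) := by
    have h1 : φ z * (f z + (starRingEnd ℂ) (f 0)) = f z - f 0 := by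
      rw [hφ]; exact div_mul_cancel₀ _ (hden z hz)
    linear_combination -h1
  have h2 : ‖f z‖ * ‖1 - φ z‖ = ‖f 0 + φ z * (starRingEnd ℂ) (f 0)‖ := by
    rw [← norm_mul, key]
  have h3 : ‖1 - φ z‖ ≤ 1 + ‖z‖ := by
    refine (norm_sub_le _ _).trans ?_
    rw [norm_one]; linarith
  have h4 : ‖f 0‖ * (1 - ‖z‖) ≤ ‖f 0 + φ z * (starRingEnd ℂ) (f 0)‖ := by
    have h5 := norm_sub_le (f 0 + φ z * (starRingEnd ℂ) (f 0)) (φ z * (starRingEnd ℂ) (f 0))
    rw [add_sub_cancel_right, norm_mul (φ z), Complex.norm_conj] at h5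
    nlinarith [norm_nonneg (f 0)]
  calc ‖f 0‖ * (1 - ‖z‖) ≤ ‖f z‖ * ‖1 - φ z‖ := by rw [h2]; exact h4
    _ ≤ _ := mul_le_mul_of_nonneg_left h3 (norm_nonneg _)

end

end Pool.Agent.helper358_ms
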