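import Pool.Agent.helper358_ms.Three

/-! # The convex set traced out by the third coefficient -/

set_option autoImplicit false

namespace Pool.Agent.helper358_ms

open Complex Metric Set Filter Topology

noncomputable section

/-- all values of `kap` -/
def KK (B c : ℂ) : Set ℂ := {k | ∃ x y : ℂ, ‖x‖ ≤ 1 ∧ ‖y‖ ≤ 1 ∧ k = kap B c x y}

/-- the limaçon part of the boundary -/
def LL (B c : ℂ) : Set ℂ := {k | ∃ x : ℂ, ‖x‖ = 1 ∧ 2 ≤ ‖B - 2 * (starRingEnd ℂ) c * x‖ ∧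
  k = B * x - (starRingEnd ℂ) c * x ^ 2}

/-- the circular part of the boundary -/
def CA (B c : ℂ) : Set ℂ := {k | ∃ v : ℂ, ‖v‖ = 1 ∧
  ‖v * (starRingEnd ℂ) B - c * B‖ ≤ 2 * (1 - ‖c‖ ^ 2) ∧
  k = ((1 + ‖B‖ ^ 2 / (4 * (1 - ‖c‖ ^ 2)) : ℝ) : ℂ) * v - c * B ^ 2 / ((4 * (1 - ‖c‖ ^ 2) : ℝ) : ℂ)}

theorem re_le_norm (z : ℂ) : z.re ≤ ‖z‖ := Complex.re_le_norm z

/-- convexity -/
theorem convex_KK {B c : ℂ} (hc : ‖c‖ ≤ 1) : Convex ℝ (KK B c) := by
  rintro k1 ⟨x1, y1, hx1, hy1, rfl⟩ k2 ⟨x2, y2, hx2, hy2, rfl⟩ a b ha hb hab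
  obtain ⟨x, hxdef⟩ : ∃ x : ℂ, x = a * x1 + b * x2 := ⟨_, rfl⟩
  have hb' : b = 1 - a := by linarith
  have hbc : (b : ℂ) = 1 - a := by rw [hb']; push_cast; ring
  have hx : ‖x‖ ^ 2 = a * ‖x1‖ ^ 2 + b * ‖x2‖ ^ 2 - a * b * ‖x1 - x2‖ ^ 2 := by
    rw [← Complex.normSq_eq_norm_sq, ← Complex.normSq_eq_norm_sq, ← Complex.normSq_eq_norm_sq,
      ← Complex.normSq_eq_norm_sq, hxdef]
    simp only [Complex.normSq_apply, add_re, add_im, sub_re, sub_im, mul_re, mul_im,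
      Complex.ofReal_re, Complex.ofReal_im]
    rw [hb']; ring
  obtain ⟨m, hm⟩ : ∃ m : ℂ, m = a * kap B c x1 y1 + b * kap B c x2 y2
      - (B * x - (starRingEnd ℂ) c * x ^ 2) := ⟨_, rfl⟩
  have hm2 : m = a * (1 - (‖x1‖ ^ 2 : ℝ)) * y1 + b * (1 - (‖x2‖ ^ 2 : ℝ)) * y2
      - (starRingEnd ℂ) c * (a * b * (x1 - x2) ^ 2) := by
    rw [hm, hxdef, hbc]
    unfold kap
    ring
  have h1 : 0 ≤ 1 - ‖x1‖ ^ 2 := by nlinarith [norm_nonneg x1]
  have h2 : 0 ≤ 1 - ‖x2‖ ^ 2 := by nlinarith [norm_nonneg x2]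
  have hmn : ‖m‖ ≤ 1 - ‖x‖ ^ 2 := by
    have n1 : ‖(a : ℂ) * (1 - (‖x1‖ ^ 2 : ℝ)) * y1‖ ≤ a * (1 - ‖x1‖ ^ 2) := by
      have e : (a : ℂ) * (1 - (‖x1‖ ^ 2 : ℝ)) = ((a * (1 - ‖x1‖ ^ 2) : ℝ) : ℂ) := by push_cast; ring
      rw [e, norm_mul, Complex.norm_of_nonneg (mul_nonneg ha h1)]
      nlinarith [mul_nonneg ha h1, norm_nonneg y1]
    have n2 : ‖(b : ℂ) * (1 - (‖x2‖ ^ 2 : ℝ)) * y2‖ ≤ b * (1 - ‖x2‖ ^ 2) := by
      have e : (b : ℂ) * (1 - (‖x2‖ ^ 2 : ℝ)) = ((b * (1 - ‖x2‖ ^ 2) : ℝ) : ℂ) := by push_cast; ring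
      rw [e, norm_mul, Complex.norm_of_nonneg (mul_nonneg hb h2)]
      nlinarith [mul_nonneg hb h2, norm_nonneg y2]
    have n3 : ‖(starRingEnd ℂ) c * (a * b * (x1 - x2) ^ 2)‖ ≤ a * b * ‖x1 - x2‖ ^ 2 := by
      rw [norm_mul, norm_mul, norm_mul, norm_pow, Complex.norm_conj,
        Complex.norm_of_nonneg ha, Complex.norm_of_nonneg hb]
      have : 0 ≤ a * b * ‖x1 - x2‖ ^ 2 := by positivity
      nlinarith [norm_nonneg c]
    rw [hm2]
    calc _ ≤ ‖(a : ℂ) * (1 - (‖x1‖ ^ 2 : ℝ)) * y1 + b * (1 - (‖x2‖ ^ 2 : ℝ)) * y2‖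
          + ‖(starRingEnd ℂ) c * (a * b * (x1 - x2) ^ 2)‖ := norm_sub_le _ _
      _ ≤ (a * (1 - ‖x1‖ ^ 2) + b * (1 - ‖x2‖ ^ 2)) + a * b * ‖x1 - x2‖ ^ 2 := by
        have := norm_add_le ((a : ℂ) * (1 - (‖x1‖ ^ 2 : ℝ)) * y1) (b * (1 - (‖x2‖ ^ 2 : ℝ)) * y2)
        linarith
      _ = 1 - ‖x‖ ^ 2 := by rw [hx, hb']; ring
  have hx0 : 0 ≤ 1 - ‖x‖ ^ 2 := le_trans (norm_nonneg m) hmn
  have hx1' : ‖x‖ ≤ 1 := by nlinarith [norm_nonneg x]
  have hgoal : (a • kap B c x1 y1 + b • kap B c x2 y2 : ℂ) = B * x - (starRingEnd ℂ) c * x ^ 2 + m := by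
    rw [hm]; simp only [Complex.real_smul]; ring
  rw [hgoal]
  rcases hx0.eq_or_lt with h0 | h0
  · refine ⟨x, 0, hx1', by simp, ?_⟩
    have : m = 0 := norm_le_zero_iff.1 (by linarith)
    rw [this]; unfold kap; simp
  · have h0c : ((1 - ‖x‖ ^ 2 : ℝ) : ℂ) ≠ 0 := by exact_mod_cast h0.ne'
    refine ⟨x, m / ((1 - ‖x‖ ^ 2 : ℝ) : ℂ), hx1', ?_, ?_⟩
    · rw [norm_div, Complex.norm_of_nonneg h0.le, div_le_one h0]
      exact hmn
    · unfold kap
      have : (1 - ((‖x‖ ^ 2 : ℝ) : ℂ)) = ((1 - ‖x‖ ^ 2 : ℝ) : ℂ) := by push_cast; ring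
      rw [this, mul_div_cancel₀ _ h0c]

theorem isCompact_KK (B c : ℂ) : IsCompact (KK B c) := by
  have h1 : KK B c = (fun q : ℂ × ℂ => kap B c q.1 q.2) '' (closedBall (0 : ℂ) 1 ×ˢ closedBall (0 : ℂ) 1) := by
    ext k
    constructor
    · rintro ⟨x, y, hx, hy, rfl⟩
      exact ⟨(x, y), ⟨by simpa using hx, by simpa using hy⟩, rfl⟩
    · rintro ⟨⟨x, y⟩, ⟨hx, hy⟩, rfl⟩
      exact ⟨x, y, by simpa using hx, by simpa using hy, rfl⟩
  rw [h1]
  refine ((isCompact_closedBall _ _).prod (isCompact_closedBall _ _)).image ?_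
  unfold kap
  fun_prop

/-- points of `KK` supported in the direction `v` belong to the two arcs -/
theorem support_mem {B c v x1 y1 : ℂ} (hc : ‖c‖ < 1) (hv : ‖v‖ = 1) (hx1 : ‖x1‖ ≤ 1) (hy1 : ‖y1‖ ≤ 1)
    (hmax : ∀ k ∈ KK B c, ((starRingEnd ℂ) v * k).re ≤ ((starRingEnd ℂ) v * kap B c x1 y1).re) :
    kap B c x1 y1 ∈ LL B c ∪ CA B c := by
  have hvv : (starRingEnd ℂ) v * v = 1 := by rw [conj_mul_self, hv]; simp
  have hvy : ∀ y : ℂ, ‖y‖ ≤ 1 → ((starRingEnd ℂ) v * y).re ≤ 1 := by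
    intro y hy
    refine (re_le_norm _).trans ?_
    rw [norm_mul, Complex.norm_conj, hv, one_mul]
    exact hy
  have hk : ∀ x y : ℂ, ((starRingEnd ℂ) v * kap B c x y).re
      = ((starRingEnd ℂ) v * (B * x - (starRingEnd ℂ) c * x ^ 2)).re
        + (1 - ‖x‖ ^ 2) * ((starRingEnd ℂ) v * y).re := by
    intro x y
    have : (starRingEnd ℂ) v * kap B c x y = (starRingEnd ℂ) v * (B * x - (starRingEnd ℂ) c * x ^ 2)
        + ((1 - ‖x‖ ^ 2 : ℝ) : ℂ) * ((starRingEnd ℂ) v * y) := by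
      unfold kap; push_cast; ring
    rw [this, add_re, Complex.re_ofReal_mul]
  have hq0 : 0 ≤ 1 - ‖x1‖ ^ 2 := by nlinarith [norm_nonneg x1]
  -- the `y` part
  have hy : (1 - ‖x1‖ ^ 2) * ((starRingEnd ℂ) v * y1).re = 1 - ‖x1‖ ^ 2 := by
    have h1 := hmax (kap B c x1 v) ⟨x1, v, hx1, hv.le, rfl⟩
    rw [hk, hk, hvv, one_re, mul_one] at h1
    have h2 := hvy y1 hy1
    nlinarith [mul_nonneg hq0 (sub_nonneg.2 h2)]
  have hyv : ((1 - ‖x1‖ ^ 2 : ℝ) : ℂ) * y1 = ((1 - ‖x1‖ ^ 2 : ℝ) : ℂ) * v := by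
    rcases hq0.eq_or_lt with h0 | h0
    · rw [← h0]; simp
    · congr 1
      have h3 : ((starRingEnd ℂ) v * y1).re = 1 := by
        apply mul_left_cancel₀ h0.ne'
        rw [hy, mul_one]
      have h4 : ‖(starRingEnd ℂ) v * y1‖ ≤ 1 := by
        rw [norm_mul, Complex.norm_conj, hv, one_mul]; exact hy1
      have h5 : (starRingEnd ℂ) v * y1 = 1 := by
        have h6 : ‖(starRingEnd ℂ) v * y1‖ ^ 2 ≤ 1 := by nlinarith [norm_nonneg ((starRingEnd ℂ) v * y1)]
        rw [← Complex.normSq_eq_norm_sq, Complex.normSq_apply, h3] at h6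
        apply Complex.ext
        · exact h3
        · rw [one_im]; nlinarith
      calc y1 = v * ((starRingEnd ℂ) v * y1) := by
            rw [← mul_assoc, mul_comm v, hvv, one_mul]
        _ = v := by rw [h5, mul_one]
  have hkv : kap B c x1 y1 = kap B c x1 v := by
    unfold kap
    have : (1 - ((‖x1‖ ^ 2 : ℝ) : ℂ)) = ((1 - ‖x1‖ ^ 2 : ℝ) : ℂ) := by push_cast; ring
    rw [this, hyv]
  -- the gradient
  obtain ⟨g, hg⟩ : ∃ g : ℂ, g = (starRingEnd ℂ) v * (B - 2 * (starRingEnd ℂ) c * x1)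
      - 2 * (starRingEnd ℂ) x1 := ⟨_, rfl⟩
  have hgrad : ∀ x : ℂ, ‖x‖ ≤ 1 → (g * (x - x1)).re ≤ 0 := by
    intro x hx
    by_contra hcon
    push Not at hcon
    obtain ⟨d, hd⟩ : ∃ d : ℂ, d = x - x1 := ⟨_, rfl⟩
    rw [← hd] at hcon
    obtain ⟨Q, hQ⟩ : ∃ Q : ℝ, Q = ‖d‖ ^ 2 + ((starRingEnd ℂ) v * (starRingEnd ℂ) c * d ^ 2).re := ⟨_, rfl⟩
    have hstep : ∀ t : ℝ, 0 ≤ t → t ≤ 1 → t * (g * d).re ≤ t ^ 2 * Q := by
      intro t ht0 ht1
      have hxt : ‖x1 + t * d‖ ≤ 1 := by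
        have e : x1 + t * d = ((1 - t : ℝ) : ℂ) * x1 + (t : ℂ) * x := by rw [hd]; push_cast; ring
        rw [e]
        refine (norm_add_le _ _).trans ?_
        rw [norm_mul, norm_mul, Complex.norm_of_nonneg ht0, Complex.norm_of_nonneg (by linarith)]
        nlinarith
      have h1 := hmax (kap B c (x1 + t * d) v) ⟨_, v, hxt, hv.le, rfl⟩
      rw [hkv, hk, hk, hvv, one_re, mul_one, mul_one] at h1
      have e1 : ((starRingEnd ℂ) v * (B * (x1 + t * d) - (starRingEnd ℂ) c * (x1 + t * d) ^ 2)).re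
          = ((starRingEnd ℂ) v * (B * x1 - (starRingEnd ℂ) c * x1 ^ 2)).re
            + t * ((starRingEnd ℂ) v * (B - 2 * (starRingEnd ℂ) c * x1) * d).re
            - t ^ 2 * ((starRingEnd ℂ) v * (starRingEnd ℂ) c * d ^ 2).re := by
        have : (starRingEnd ℂ) v * (B * (x1 + t * d) - (starRingEnd ℂ) c * (x1 + t * d) ^ 2)
            = (starRingEnd ℂ) v * (B * x1 - (starRingEnd ℂ) c * x1 ^ 2)
            + (t : ℂ) * ((starRingEnd ℂ) v * (B - 2 * (starRingEnd ℂ) c * x1) * d)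
            - ((t ^ 2 : ℝ) : ℂ) * ((starRingEnd ℂ) v * (starRingEnd ℂ) c * d ^ 2) := by
          push_cast; ring
        rw [this, sub_re, add_re, Complex.re_ofReal_mul, Complex.re_ofReal_mul]
      have e2 : ‖x1 + t * d‖ ^ 2 = ‖x1‖ ^ 2 + t * (2 * ((starRingEnd ℂ) x1 * d).re) + t ^ 2 * ‖d‖ ^ 2 := by
        rw [← Complex.normSq_eq_norm_sq, ← Complex.normSq_eq_norm_sq, ← Complex.normSq_eq_norm_sq]
        simp only [Complex.normSq_apply, add_re, add_im, mul_re, mul_im, Complex.ofReal_re,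
          Complex.ofReal_im, Complex.conj_re, Complex.conj_im]
        ring
      have e3 : (g * d).re = ((starRingEnd ℂ) v * (B - 2 * (starRingEnd ℂ) c * x1) * d).re
          - 2 * ((starRingEnd ℂ) x1 * d).re := by
        have : g * d = (starRingEnd ℂ) v * (B - 2 * (starRingEnd ℂ) c * x1) * d
          - ((2 : ℝ) : ℂ) * ((starRingEnd ℂ) x1 * d) := by rw [hg]; push_cast; ring
        rw [this, sub_re, Complex.re_ofReal_mul]
      rw [e1, e2] at h1
      rw [e3, hQ]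
      nlinarith
    have hQpos : 0 < Q := by
      have := hstep 1 zero_le_one le_rfl
      linarith
    obtain ⟨t, ht⟩ : ∃ t : ℝ, t = min 1 ((g * d).re / (2 * Q)) := ⟨_, rfl⟩
    have ht1 : t ≤ 1 := ht ▸ min_le_left _ _
    have ht2 : t ≤ (g * d).re / (2 * Q) := ht ▸ min_le_right _ _
    have ht0 : 0 < t := by
      rw [ht]; exact lt_min one_pos (div_pos hcon (by linarith))
    have h1 := hstep t ht0.le ht1
    rw [le_div_iff₀ (by linarith)] at ht2
    nlinarith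
  by_cases hg0 : g = 0
  · -- the circular part
    right
    rw [hg0] at hg
    have hcc := conj_mul_self c
    obtain ⟨e, he⟩ : ∃ e : ℝ, e = 1 - ‖c‖ ^ 2 := ⟨_, rfl⟩
    have hepos : 0 < e := by rw [he]; nlinarith [norm_nonneg c]
    have hec : (e : ℂ) = 1 - (starRingEnd ℂ) c * c := by rw [hcc, he]; push_cast; ring
    have g1 : B - 2 * (starRingEnd ℂ) c * x1 = 2 * (starRingEnd ℂ) x1 * v := by
      linear_combination (-v) * hg + (-(B - 2 * (starRingEnd ℂ) c * x1)) * hvv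
    have g2 : (starRingEnd ℂ) B - 2 * c * (starRingEnd ℂ) x1 = 2 * x1 * (starRingEnd ℂ) v := by
      have := congrArg (starRingEnd ℂ) g1
      simpa only [map_sub, map_mul, map_ofNat, Complex.conj_conj] using this
    have g3 : v * (starRingEnd ℂ) B - c * B = 2 * (e : ℂ) * x1 := by
      rw [hec]
      linear_combination v * g2 - c * g1 + 2 * x1 * hvv
    refine ⟨v, hv, ?_, ?_⟩
    · rw [g3, norm_mul, norm_mul, Complex.norm_of_nonneg hepos.le, ← he]
      have : ‖(2 : ℂ)‖ = 2 := by simp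
      rw [this]
      nlinarith
    · rw [hkv]
      have hBB := conj_mul_self B
      have hxx := conj_mul_self x1
      have h4e : ((4 * (1 - ‖c‖ ^ 2) : ℝ) : ℂ) ≠ 0 := by
        rw [← he]; exact_mod_cast (by positivity : (4 * e) ≠ 0)
      have e2 : ((1 + ‖B‖ ^ 2 / (4 * (1 - ‖c‖ ^ 2)) : ℝ) : ℂ)
          = 1 + ((‖B‖ ^ 2 : ℝ) : ℂ) / ((4 * (1 - ‖c‖ ^ 2) : ℝ) : ℂ) := by push_cast; ring
      have e3 : kap B c x1 v = v + B * x1 / 2 := by
        unfold kap
        linear_combination (x1 / 2) * g1 - v * (-hxx)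
      rw [e2, e3, ← hBB]
      rw [← sub_eq_zero]
      have e4 : v + B * x1 / 2 - ((1 + (starRingEnd ℂ) B * B / ((4 * (1 - ‖c‖ ^ 2) : ℝ) : ℂ)) * v
          - c * B ^ 2 / ((4 * (1 - ‖c‖ ^ 2) : ℝ) : ℂ))
          = (B * x1 / 2 * ((4 * (1 - ‖c‖ ^ 2) : ℝ) : ℂ) - B * (v * (starRingEnd ℂ) B - c * B))
            / ((4 * (1 - ‖c‖ ^ 2) : ℝ) : ℂ) := by
        field_simp
        ring
      rw [e4, g3, ← he]
      push_cast
      ring
  · left
    have hgn : 0 < ‖g‖ := norm_pos_iff.2 hg0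
    have h1 := hgrad ((starRingEnd ℂ) g / (‖g‖ : ℂ)) (by
      rw [norm_div, Complex.norm_conj, Complex.norm_of_nonneg hgn.le, div_self hgn.ne'])
    have hgc : (‖g‖ : ℂ) ≠ 0 := by exact_mod_cast hgn.ne'
    have e1 : g * ((starRingEnd ℂ) g / (‖g‖ : ℂ) - x1) = (‖g‖ : ℂ) - g * x1 := by
      have := conj_mul_self g
      push_cast at this
      field_simp
      linear_combination this
    rw [e1, sub_re, Complex.ofReal_re] at h1
    have h2 : ‖g * x1‖ ≤ ‖g‖ := by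
      rw [norm_mul]; nlinarith
    have h3 : (g * x1).re = ‖g‖ := le_antisymm ((re_le_norm _).trans h2) (by linarith)
    have h4 : g * x1 = ‖g‖ := by
      have h6 : ‖g * x1‖ ^ 2 ≤ ‖g‖ ^ 2 := by nlinarith [norm_nonneg (g * x1)]
      rw [← Complex.normSq_eq_norm_sq, Complex.normSq_apply, h3] at h6
      apply Complex.ext
      · rw [h3, Complex.ofReal_re]
      · rw [Complex.ofReal_im]; nlinarith
    have h5 : ‖x1‖ = 1 := by
      have := congrArg norm h4
      rw [norm_mul, Complex.norm_of_nonneg hgn.le] at this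
      exact mul_left_cancel₀ hgn.ne' (by rw [this, mul_one])
    refine ⟨x1, h5, ?_, ?_⟩
    · have hxx := conj_mul_self x1
      rw [h5] at hxx
      have h6 : (starRingEnd ℂ) v * (B - 2 * (starRingEnd ℂ) c * x1) * x1 = ((‖g‖ + 2 : ℝ) : ℂ) := by
        push_cast at hxx ⊢
        linear_combination h4 + 2 * hxx - x1 * hg
      have h7 := congrArg norm h6
      rw [norm_mul, norm_mul, Complex.norm_conj, hv, h5, one_mul, mul_one,
        Complex.norm_of_nonneg (by linarith)] at h7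
      rw [h7]; linarith
    · unfold kap
      rw [h5]; simp

theorem kap_re {B c v : ℂ} (x y : ℂ) : ((starRingEnd ℂ) v * kap B c x y).re
      = ((starRingEnd ℂ) v * (B * x - (starRingEnd ℂ) c * x ^ 2)).re
        + (1 - ‖x‖ ^ 2) * ((starRingEnd ℂ) v * y).re := by
  have : (starRingEnd ℂ) v * kap B c x y = (starRingEnd ℂ) v * (B * x - (starRingEnd ℂ) c * x ^ 2)
      + ((1 - ‖x‖ ^ 2 : ℝ) : ℂ) * ((starRingEnd ℂ) v * y) := by
    unfold kap; push_cast; ring
  rw [this, add_re, Complex.re_ofReal_mul]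

theorem kap_support {B c v x1 y1 g : ℂ} (hc : ‖c‖ < 1) (hv : ‖v‖ = 1)
    (hy1 : (1 - ‖x1‖ ^ 2) * ((starRingEnd ℂ) v * y1).re = 1 - ‖x1‖ ^ 2)
    (hg : g = (starRingEnd ℂ) v * (B - 2 * (starRingEnd ℂ) c * x1) - 2 * (starRingEnd ℂ) x1)
    (hgr : ∀ x : ℂ, ‖x‖ ≤ 1 → (g * (x - x1)).re ≤ 0) :
    ∀ k ∈ KK B c, ((starRingEnd ℂ) v * k).re ≤ ((starRingEnd ℂ) v * kap B c x1 y1).re := by
  rintro k ⟨x, y, hx, hy, rfl⟩
  rw [kap_re, kap_re, hy1]
  have h0 : 0 ≤ 1 - ‖x‖ ^ 2 := by nlinarith [norm_nonneg x]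
  have h1 : ((starRingEnd ℂ) v * y).re ≤ 1 := by
    refine (re_le_norm _).trans ?_
    rw [norm_mul, Complex.norm_conj, hv, one_mul]
    exact hy
  have h2 := hgr x hx
  obtain ⟨d, hd⟩ : ∃ d : ℂ, d = x - x1 := ⟨_, rfl⟩
  have hxd : x = x1 + d := by rw [hd]; ring
  rw [← hd] at h2
  have e1 : ((starRingEnd ℂ) v * (B * (x1 + d) - (starRingEnd ℂ) c * (x1 + d) ^ 2)).re
      = ((starRingEnd ℂ) v * (B * x1 - (starRingEnd ℂ) c * x1 ^ 2)).re
        + ((starRingEnd ℂ) v * (B - 2 * (starRingEnd ℂ) c * x1) * d).re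
        - ((starRingEnd ℂ) v * (starRingEnd ℂ) c * d ^ 2).re := by
    have : (starRingEnd ℂ) v * (B * (x1 + d) - (starRingEnd ℂ) c * (x1 + d) ^ 2)
        = (starRingEnd ℂ) v * (B * x1 - (starRingEnd ℂ) c * x1 ^ 2)
        + ((starRingEnd ℂ) v * (B - 2 * (starRingEnd ℂ) c * x1) * d)
        - ((starRingEnd ℂ) v * (starRingEnd ℂ) c * d ^ 2) := by
      ring
    rw [this, sub_re, add_re]
  have e2 : ‖x1 + d‖ ^ 2 = ‖x1‖ ^ 2 + (2 * ((starRingEnd ℂ) x1 * d).re) + ‖d‖ ^ 2 := by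
    rw [← Complex.normSq_eq_norm_sq, ← Complex.normSq_eq_norm_sq, ← Complex.normSq_eq_norm_sq]
    simp only [Complex.normSq_apply, add_re, add_im, mul_re, mul_im,
      Complex.conj_re, Complex.conj_im]
    ring
  have e3 : (g * d).re = ((starRingEnd ℂ) v * (B - 2 * (starRingEnd ℂ) c * x1) * d).re
      - 2 * ((starRingEnd ℂ) x1 * d).re := by
    have : g * d = (starRingEnd ℂ) v * (B - 2 * (starRingEnd ℂ) c * x1) * d
      - ((2 : ℝ) : ℂ) * ((starRingEnd ℂ) x1 * d) := by rw [hg]; push_cast; ring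
    rw [this, sub_re, Complex.re_ofReal_mul]
  have e4 : -‖d‖ ^ 2 ≤ ((starRingEnd ℂ) v * (starRingEnd ℂ) c * d ^ 2).re := by
    have h3 : |((starRingEnd ℂ) v * (starRingEnd ℂ) c * d ^ 2).re| ≤ ‖d‖ ^ 2 := by
      refine (Complex.abs_re_le_norm _).trans ?_
      rw [norm_mul, norm_mul, norm_pow, Complex.norm_conj, Complex.norm_conj, hv, one_mul]
      nlinarith [sq_nonneg ‖d‖]
    exact (abs_le.1 h3).1
  rw [hxd] at h0 ⊢
  rw [e1]
  have h5 : (1 - ‖x1 + d‖ ^ 2) * ((starRingEnd ℂ) v * y).re ≤ 1 - ‖x1 + d‖ ^ 2 := by nlinarith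
  rw [e2] at h5 ⊢
  linarith

theorem arcs_support {B c k : ℂ} (hc : ‖c‖ < 1) (hk : k ∈ LL B c ∪ CA B c) :
    k ∈ KK B c ∧ ∃ v : ℂ, ‖v‖ = 1 ∧
      ∀ k' ∈ KK B c, ((starRingEnd ℂ) v * k').re ≤ ((starRingEnd ℂ) v * k).re := by
  rcases hk with ⟨x1, hx1, hl, rfl⟩ | ⟨v, hv, hl, rfl⟩
  · have hkk : kap B c x1 0 = B * x1 - (starRingEnd ℂ) c * x1 ^ 2 := by unfold kap; simp
    refine ⟨⟨x1, 0, hx1.le, by simp, hkk.symm⟩, ?_⟩
    obtain ⟨l, hldef⟩ : ∃ l : ℝ, l = ‖B - 2 * (starRingEnd ℂ) c * x1‖ := ⟨_, rfl⟩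
    rw [← hldef] at hl
    have hl0 : (l : ℂ) ≠ 0 := by exact_mod_cast (by linarith : l ≠ 0)
    obtain ⟨v, hvdef⟩ : ∃ v : ℂ, v = (B - 2 * (starRingEnd ℂ) c * x1) * x1 / l := ⟨_, rfl⟩
    have hv : ‖v‖ = 1 := by
      rw [hvdef, norm_div, norm_mul, hx1, mul_one, ← hldef, Complex.norm_of_nonneg (by linarith)]
      exact div_self (by linarith)
    have hvv : (starRingEnd ℂ) v * v = 1 := by rw [conj_mul_self, hv]; simp
    have hxx : (starRingEnd ℂ) x1 * x1 = 1 := by rw [conj_mul_self, hx1]; simp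
    have h1 : (B - 2 * (starRingEnd ℂ) c * x1) * x1 = l * v := by
      rw [hvdef, mul_div_cancel₀ _ hl0]
    have h2 : (starRingEnd ℂ) v * (B - 2 * (starRingEnd ℂ) c * x1) = l * (starRingEnd ℂ) x1 := by
      have h3 : (starRingEnd ℂ) v * (B - 2 * (starRingEnd ℂ) c * x1)
          = (starRingEnd ℂ) v * ((B - 2 * (starRingEnd ℂ) c * x1) * x1) * (starRingEnd ℂ) x1 := by
        linear_combination (-((starRingEnd ℂ) v * (B - 2 * (starRingEnd ℂ) c * x1))) * hxx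
      rw [h3, h1]
      linear_combination (l * (starRingEnd ℂ) x1) * hvv
    refine ⟨v, hv, ?_⟩
    rw [← hkk]
    refine kap_support (g := ((l - 2 : ℝ) : ℂ) * (starRingEnd ℂ) x1) hc hv ?_ ?_ ?_
    · rw [hx1]; ring
    · rw [h2]; push_cast; ring
    · intro x hx
      rw [mul_assoc, Complex.re_ofReal_mul]
      have h4 : ((starRingEnd ℂ) x1 * (x - x1)).re ≤ 0 := by
        rw [mul_sub, hxx, sub_re, one_re]
        have : ((starRingEnd ℂ) x1 * x).re ≤ 1 := by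
          refine (re_le_norm _).trans ?_
          rw [norm_mul, Complex.norm_conj, hx1, one_mul]
          exact hx
        linarith
      nlinarith
  · have hcc := conj_mul_self c
    obtain ⟨e, he⟩ : ∃ e : ℝ, e = 1 - ‖c‖ ^ 2 := ⟨_, rfl⟩
    have hepos : 0 < e := by rw [he]; nlinarith [norm_nonneg c]
    have hec : (e : ℂ) = 1 - (starRingEnd ℂ) c * c := by rw [hcc, he]; push_cast; ring
    have he0 : (e : ℂ) ≠ 0 := by exact_mod_cast hepos.ne'
    rw [← he] at hl ⊢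
    obtain ⟨x1, hxdef⟩ : ∃ x1 : ℂ, x1 = (v * (starRingEnd ℂ) B - c * B) / (2 * e) := ⟨_, rfl⟩
    have hx1 : ‖x1‖ ≤ 1 := by
      rw [hxdef, norm_div, norm_mul, Complex.norm_of_nonneg hepos.le]
      have : ‖(2 : ℂ)‖ = 2 := by simp
      rw [this, div_le_one (by linarith)]
      exact hl
    have hvv : (starRingEnd ℂ) v * v = 1 := by rw [conj_mul_self, hv]; simp
    have g3 : 2 * (e : ℂ) * x1 = v * (starRingEnd ℂ) B - c * B := by
      rw [hxdef, mul_div_cancel₀ _ (mul_ne_zero two_ne_zero he0)]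
    have g4 : 2 * (e : ℂ) * (starRingEnd ℂ) x1 = (starRingEnd ℂ) v * B - (starRingEnd ℂ) c * (starRingEnd ℂ) B := by
      have := congrArg (starRingEnd ℂ) g3
      simpa only [map_sub, map_mul, map_ofNat, Complex.conj_conj, Complex.conj_ofReal] using this
    have g0 : (starRingEnd ℂ) v * (B - 2 * (starRingEnd ℂ) c * x1) - 2 * (starRingEnd ℂ) x1 = 0 := by
      have : (2 * (e : ℂ)) * ((starRingEnd ℂ) v * (B - 2 * (starRingEnd ℂ) c * x1) - 2 * (starRingEnd ℂ) x1) = 0 := by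
        linear_combination (-(2 * (starRingEnd ℂ) v * (starRingEnd ℂ) c)) * g3 - 2 * g4
          + 2 * (starRingEnd ℂ) v * B * hec - 2 * (starRingEnd ℂ) c * (starRingEnd ℂ) B * hvv
      rcases mul_eq_zero.1 this with h | h
      · exact absurd h (mul_ne_zero two_ne_zero he0)
      · exact h
    have hkv : kap B c x1 v = ((1 + ‖B‖ ^ 2 / (4 * e) : ℝ) : ℂ) * v - c * B ^ 2 / ((4 * e : ℝ) : ℂ) := by
      have hBB := conj_mul_self B
      have hxx := conj_mul_self x1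
      have e3 : kap B c x1 v = v + B * x1 / 2 := by
        unfold kap
        linear_combination (x1 * v / 2) * g0 + v * hxx
          - (x1 / 2) * (B - 2 * (starRingEnd ℂ) c * x1) * hvv
      rw [e3]
      have h4e : ((4 * e : ℝ) : ℂ) ≠ 0 := by exact_mod_cast (by positivity : (4 * e) ≠ 0)
      apply mul_left_cancel₀ h4e
      have h5 : ((4 * e : ℝ) : ℂ) * (((1 + ‖B‖ ^ 2 / (4 * e) : ℝ) : ℂ) * v - c * B ^ 2 / ((4 * e : ℝ) : ℂ))
          = (((4 * e : ℝ) : ℂ) + ((‖B‖ ^ 2 : ℝ) : ℂ)) * v - c * B ^ 2 := by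
        have h6 : ((1 + ‖B‖ ^ 2 / (4 * e) : ℝ) : ℂ) = 1 + ((‖B‖ ^ 2 : ℝ) : ℂ) / ((4 * e : ℝ) : ℂ) := by
          push_cast; ring
        rw [h6]
        field_simp
      rw [h5, ← hBB]
      push_cast
      linear_combination B * g3
    refine ⟨⟨x1, v, hx1, hv.le, hkv.symm⟩, v, hv, ?_⟩
    rw [← hkv]
    refine kap_support (g := 0) hc hv ?_ g0.symm ?_
    · rw [hvv]; simp
    · intro x _
      simp

theorem clm_repr (f : ℂ →L[ℝ] ℝ) (z : ℂ) :
    f z = ((starRingEnd ℂ) ((f 1 : ℂ) + f Complex.I * Complex.I) * z).re := by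
  have h1 : f z = z.re * f 1 + z.im * f Complex.I := by
    have h2 : z = z.re • (1 : ℂ) + z.im • Complex.I := by
      simp [Complex.re_add_im]
    conv_lhs => rw [h2]
    rw [map_add, map_smul, map_smul]
    simp
  rw [h1]
  simp
  ring

theorem zero_mem_interior_KK (B c : ℂ) : (0 : ℂ) ∈ interior (KK B c) := by
  rw [mem_interior]
  refine ⟨ball 0 1, ?_, isOpen_ball, mem_ball_self one_pos⟩
  intro y hy
  refine ⟨0, y, by simp, (mem_ball_zero_iff.1 hy).le, ?_⟩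
  unfold kap; simp

theorem frontier_KK {B c : ℂ} (hc : ‖c‖ < 1) : frontier (KK B c) = LL B c ∪ CA B c := by
  have hcl : IsClosed (KK B c) := (isCompact_KK B c).isClosed
  have hcv : Convex ℝ (KK B c) := convex_KK hc.le
  ext a
  constructor
  · intro ha
    rw [frontier, hcl.closure_eq] at ha
    obtain ⟨hak, hai⟩ := ha
    obtain ⟨f, hf⟩ := geometric_hahn_banach_open_point hcv.interior isOpen_interior hai
    have hle : ∀ b ∈ KK B c, f b ≤ f a := by
      intro b hb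
      have h1 : b ∈ closure (interior (KK B c)) := by
        rw [hcv.closure_interior_eq_closure_of_nonempty_interior ⟨0, zero_mem_interior_KK B c⟩]
        exact subset_closure hb
      have h2 : closure (interior (KK B c)) ⊆ {b | f b ≤ f a} := by
        apply closure_minimal
        · intro b hb; exact (hf b hb).le
        · exact isClosed_le f.continuous continuous_const
      exact h2 h1
    obtain ⟨w, hw⟩ : ∃ w : ℂ, w = (f 1 : ℂ) + f Complex.I * Complex.I := ⟨_, rfl⟩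
    have hfr : ∀ z, f z = ((starRingEnd ℂ) w * z).re := fun z => by rw [hw]; exact clm_repr f z
    have hw0 : w ≠ 0 := by
      intro h0
      have := hf 0 (zero_mem_interior_KK B c)
      rw [hfr, hfr, h0] at this
      simp at this
    have hwn : 0 < ‖w‖ := norm_pos_iff.2 hw0
    obtain ⟨x, y, hx, hy, rfl⟩ := hak
    refine support_mem (v := w / ‖w‖) hc ?_ hx hy ?_
    · rw [norm_div, Complex.norm_of_nonneg hwn.le, div_self hwn.ne']
    · intro k hk
      have h1 := hle k hk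
      rw [hfr, hfr] at h1
      have e : ∀ z, ((starRingEnd ℂ) (w / ‖w‖) * z).re = ((starRingEnd ℂ) w * z).re / ‖w‖ := by
        intro z
        rw [map_div₀, Complex.conj_ofReal, div_mul_eq_mul_div, ← Complex.div_ofReal_re]
      rw [e, e]
      exact div_le_div_of_nonneg_right h1 hwn.le
  · intro ha
    obtain ⟨hk, v, hv, hs⟩ := arcs_support hc ha
    rw [frontier, hcl.closure_eq]
    refine ⟨hk, ?_⟩
    intro hint
    rw [mem_interior_iff_mem_nhds, Metric.mem_nhds_iff] at hint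
    obtain ⟨δ, hδ, hsub⟩ := hint
    have hvv : (starRingEnd ℂ) v * v = 1 := by rw [conj_mul_self, hv]; simp
    have h1 : a + ((δ / 2 : ℝ) : ℂ) * v ∈ KK B c := by
      apply hsub
      rw [mem_ball, dist_eq_norm]
      have : a + ((δ / 2 : ℝ) : ℂ) * v - a = ((δ / 2 : ℝ) : ℂ) * v := by ring
      rw [this, norm_mul, hv, Complex.norm_of_nonneg (by linarith)]
      linarith
    have h2 := hs _ h1
    have e : (starRingEnd ℂ) v * (a + ((δ / 2 : ℝ) : ℂ) * v)
        = (starRingEnd ℂ) v * a + ((δ / 2 : ℝ) : ℂ) := by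
      linear_combination ((δ / 2 : ℝ) : ℂ) * hvv
    rw [e, add_re, Complex.ofReal_re] at h2
    linarith

/-- a planar compact convex set is the convex hull of its frontier -/
theorem hull_frontier {K : Set ℂ} (h1 : IsCompact K) (h2 : Convex ℝ K) :
    convexHull ℝ (frontier K) = K := by
  apply Subset.antisymm
  · exact convexHull_min h1.isClosed.frontier_subset h2
  · intro a ha
    have hcomp : IsCompact (K ∩ {z | z.im = a.im}) :=
      h1.inter_right (isClosed_eq Complex.continuous_im continuous_const)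
    have hne : (K ∩ {z | z.im = a.im}).Nonempty := ⟨a, ha, rfl⟩
    obtain ⟨b, ⟨hbK, hbim⟩, hb⟩ := hcomp.exists_isMaxOn hne Complex.continuous_re.continuousOn
    obtain ⟨b', ⟨hbK', hbim'⟩, hb'⟩ := hcomp.exists_isMinOn hne Complex.continuous_re.continuousOn
    have hbim2 : b.im = a.im := hbim
    have hbim2' : b'.im = a.im := hbim'
    have hfb : b ∈ frontier K := by
      rw [frontier, h1.isClosed.closure_eq]
      refine ⟨hbK, fun hint => ?_⟩
      rw [mem_interior_iff_mem_nhds, Metric.mem_nhds_iff] at hint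
      obtain ⟨δ, hδ, hsub⟩ := hint
      have h3 : b + ((δ / 2 : ℝ) : ℂ) ∈ K := by
        apply hsub
        rw [mem_ball, dist_eq_norm, add_sub_cancel_left, Complex.norm_of_nonneg (by linarith)]
        linarith
      have h4 := hb ⟨h3, by
        show (b + ((δ / 2 : ℝ) : ℂ)).im = a.im
        rw [add_im, Complex.ofReal_im, hbim2, add_zero]⟩
      simp only [mem_ofPred_eq, add_re, Complex.ofReal_re] at h4
      linarith
    have hfb' : b' ∈ frontier K := by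
      rw [frontier, h1.isClosed.closure_eq]
      refine ⟨hbK', fun hint => ?_⟩
      rw [mem_interior_iff_mem_nhds, Metric.mem_nhds_iff] at hint
      obtain ⟨δ, hδ, hsub⟩ := hint
      have h3 : b' - ((δ / 2 : ℝ) : ℂ) ∈ K := by
        apply hsub
        rw [mem_ball, dist_eq_norm, sub_sub_cancel_left, norm_neg, Complex.norm_of_nonneg (by linarith)]
        linarith
      have h4 := hb' ⟨h3, by
        show (b' - ((δ / 2 : ℝ) : ℂ)).im = a.im
        rw [sub_im, Complex.ofReal_im, hbim2', sub_zero]⟩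
      simp only [mem_ofPred_eq, sub_re, Complex.ofReal_re] at h4
      linarith
    have hle1 : a.re ≤ b.re := hb ⟨ha, rfl⟩
    have hle2 : b'.re ≤ a.re := hb' ⟨ha, rfl⟩
    have hseg : a ∈ segment ℝ b' b := by
      rcases hle1.eq_or_lt with h | h
      · have : a = b := Complex.ext h hbim2.symm
        rw [this]; exact right_mem_segment ℝ _ _
      · have hpos : 0 < b.re - b'.re := by linarith
        refine ⟨(b.re - a.re) / (b.re - b'.re), (a.re - b'.re) / (b.re - b'.re),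
          div_nonneg (by linarith) hpos.le, div_nonneg (by linarith) hpos.le, ?_, ?_⟩
        · field_simp; ring
        · apply Complex.ext
          · rw [add_re, Complex.smul_re, Complex.smul_re, smul_eq_mul, smul_eq_mul]
            field_simp
            ring
          · rw [add_im, Complex.smul_im, Complex.smul_im, smul_eq_mul, smul_eq_mul, hbim2, hbim2']
            field_simp
            ring
    exact (convex_convexHull ℝ (frontier K)).segment_subset (subset_convexHull ℝ _ hfb')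
      (subset_convexHull ℝ _ hfb) hseg

end

end Pool.Agent.helper358_ms
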