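import Pool.Agent.helper358_ms.Maj

/-! # Functions of positive real part against a kernel with positive real part -/

set_option autoImplicit false

namespace Pool.Agent.helper358_ms

open Complex Metric Set Filter Topology MeasureTheory

noncomputable section

theorem kern_radius {P : ℂ → ℂ} {r : ℝ} (h0 : 0 < r) (hd : DiffContOnCl ℂ P (ball 0 r)) (hP : P 0 = 1)
    (hre : ∀ t : ℝ, 0 ≤ (P (circleMap 0 r t)).re) {m : ℕ} {lam : ℕ → ℂ} {κ : ℝ}
    (hK : ∀ τ : ℂ, ‖τ‖ = 1 → κ ≤ (1 + 2 * ∑ j ∈ Finset.range m, lam (j + 1) * τ ^ (j + 1)).re) :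
    κ ≤ (1 + ∑ j ∈ Finset.range m, lam (j + 1) *
      ((r : ℂ) ^ (j + 1) * Pool.Agent.R252.Cara.coeff P (j + 1))).re := by
  have hc := Pool.Agent.R252.Cara.cont_comp h0 hd
  have hcr : Continuous (fun t : ℝ => (P (circleMap 0 r t)).re) := continuous_re.comp hc
  have hm := Pool.Agent.R252.Cara.mass h0 hd hP
  have hpi : (0 : ℝ) < 2 * Real.pi := by positivity
  have hcrc : Continuous (fun t : ℝ => ((P (circleMap 0 r t)).re : ℂ)) := continuous_ofReal.comp hcr
  have hmc : ∫ t in (0 : ℝ)..2 * Real.pi, ((P (circleMap 0 r t)).re : ℂ) = 2 * Real.pi := by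
    rw [intervalIntegral.integral_ofReal, hm]; push_cast; ring
  obtain ⟨K, hKdef⟩ : ∃ K : ℝ → ℂ, K = fun t : ℝ => 1 + 2 * ∑ j ∈ Finset.range m,
      lam (j + 1) * exp (-(((j + 1 : ℕ) : ℂ) * t * I)) := ⟨_, rfl⟩
  have hKc : Continuous K := by
    rw [hKdef]
    fun_prop
  have hKre : ∀ t : ℝ, κ ≤ (K t).re := by
    intro t
    have h1 := hK (exp (-((t : ℂ) * I))) (by
      rw [show -((t : ℂ) * I) = ((-t : ℝ) : ℂ) * I by push_cast; ring, Complex.norm_exp_ofReal_mul_I])
    rw [hKdef]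
    have e : ∀ j : ℕ, exp (-((t : ℂ) * I)) ^ (j + 1) = exp (-(((j + 1 : ℕ) : ℂ) * t * I)) := by
      intro j
      rw [← Complex.exp_nat_mul]; congr 1; ring
    simp_rw [e] at h1
    exact h1
  -- the integral of `Re P * K`
  have hI : ∫ t in (0 : ℝ)..2 * Real.pi, ((P (circleMap 0 r t)).re : ℂ) * K t
      = 2 * Real.pi * (1 + ∑ j ∈ Finset.range m, lam (j + 1) *
      ((r : ℂ) ^ (j + 1) * Pool.Agent.R252.Cara.coeff P (j + 1))) := by
    have e1 : ∀ t : ℝ, ((P (circleMap 0 r t)).re : ℂ) * K t = ((P (circleMap 0 r t)).re : ℂ)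
        + ∑ j ∈ Finset.range m, (2 * lam (j + 1)) *
          (((P (circleMap 0 r t)).re : ℂ) * exp (-(((j + 1 : ℕ) : ℂ) * t * I))) := by
      intro t
      rw [hKdef]
      simp only
      rw [mul_add, mul_one, Finset.mul_sum, Finset.mul_sum]
      congr 1
      refine Finset.sum_congr rfl fun j _ => ?_
      ring
    simp_rw [e1]
    have hexp : ∀ j : ℕ, Continuous fun t : ℝ => (2 * lam (j + 1)) *
          (((P (circleMap 0 r t)).re : ℂ) * exp (-(((j + 1 : ℕ) : ℂ) * t * I))) := by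
      intro j
      exact continuous_const.mul (hcrc.mul (by fun_prop))
    rw [intervalIntegral.integral_add (hcrc.intervalIntegrable _ _)
      ((continuous_finsetSum _ fun j _ => hexp j).intervalIntegrable _ _),
      intervalIntegral.integral_finsetSum (fun j _ => (hexp j).intervalIntegrable _ _), hmc]
    have e2 : ∀ j ∈ Finset.range m, ∫ t in (0 : ℝ)..2 * Real.pi, (2 * lam (j + 1)) *
          (((P (circleMap 0 r t)).re : ℂ) * exp (-(((j + 1 : ℕ) : ℂ) * t * I)))
        = 2 * Real.pi * (lam (j + 1) * ((r : ℂ) ^ (j + 1) * Pool.Agent.R252.Cara.coeff P (j + 1))) := by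
      intro j _
      rw [intervalIntegral.integral_const_mul,
        Pool.Agent.R252.Cara.moment h0 hd (j + 1) (Nat.succ_pos j)]
      ring
    rw [Finset.sum_congr rfl e2, ← Finset.mul_sum]
    ring
  have hre2 : (∫ t in (0 : ℝ)..2 * Real.pi, ((P (circleMap 0 r t)).re : ℂ) * K t).re
      = ∫ t in (0 : ℝ)..2 * Real.pi, (P (circleMap 0 r t)).re * (K t).re := by
    have c3 : Continuous fun t : ℝ => ((P (circleMap 0 r t)).re : ℂ) * K t := hcrc.mul hKc
    have h3 := (Complex.reCLM).intervalIntegral_comp_comm (c3.intervalIntegrable (0 : ℝ) (2 * Real.pi))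
      (μ := volume)
    rw [Complex.reCLM_apply] at h3
    rw [← h3]
    apply intervalIntegral.integral_congr
    intro t _
    simp only [Complex.reCLM_apply, Complex.re_ofReal_mul]
  have hge : κ * (2 * Real.pi) ≤ ∫ t in (0 : ℝ)..2 * Real.pi, (P (circleMap 0 r t)).re * (K t).re := by
    have h4 : κ * (2 * Real.pi) = ∫ t in (0 : ℝ)..2 * Real.pi, κ * (P (circleMap 0 r t)).re := by
      rw [intervalIntegral.integral_const_mul, hm]
    rw [h4]
    have c1 : Continuous fun t : ℝ => κ * (P (circleMap 0 r t)).re := continuous_const.mul hcr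
    have c2 : Continuous fun t : ℝ => (P (circleMap 0 r t)).re * (K t).re :=
      hcr.mul (continuous_re.comp hKc)
    apply intervalIntegral.integral_mono_on hpi.le (c1.intervalIntegrable _ _) (c2.intervalIntegrable _ _)
    intro t _
    rw [mul_comm κ]
    exact mul_le_mul_of_nonneg_left (hKre t) (hre t)
  rw [← hre2, hI] at hge
  have e3 : (2 * (Real.pi : ℂ) * (1 + ∑ j ∈ Finset.range m, lam (j + 1) *
      ((r : ℂ) ^ (j + 1) * Pool.Agent.R252.Cara.coeff P (j + 1)))).re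
      = (2 * Real.pi) * (1 + ∑ j ∈ Finset.range m, lam (j + 1) *
      ((r : ℂ) ^ (j + 1) * Pool.Agent.R252.Cara.coeff P (j + 1))).re := by
    rw [show (2 * (Real.pi : ℂ)) = ((2 * Real.pi : ℝ) : ℂ) by push_cast; ring, Complex.re_ofReal_mul]
  rw [e3, mul_comm κ] at hge
  exact le_of_mul_le_mul_left hge hpi

/-- **kernel lemma** -/
theorem kern {H : ℂ → ℂ} (hd : DifferentiableOn ℂ H (ball 0 1))
    (hre : ∀ z ∈ ball (0 : ℂ) 1, 0 < (H z).re) {m : ℕ} {lam : ℕ → ℂ} {κ : ℝ}
    (hK : ∀ τ : ℂ, ‖τ‖ = 1 → κ ≤ (1 + 2 * ∑ j ∈ Finset.range m, lam (j + 1) * τ ^ (j + 1)).re) :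
    κ * (H 0).re ≤ (((H 0).re : ℂ) + ∑ j ∈ Finset.range m, lam (j + 1) * tc H (j + 1)).re := by
  have hq : 0 < (H 0).re := hre 0 (mem_ball_self one_pos)
  obtain ⟨q, hqdef⟩ : ∃ q : ℝ, q = (H 0).re := ⟨_, rfl⟩
  rw [← hqdef] at hq ⊢
  have hqc : (q : ℂ) ≠ 0 := by exact_mod_cast hq.ne'
  obtain ⟨P, hPdef⟩ : ∃ P : ℂ → ℂ, P = fun z => (H z - Complex.I * (H 0).im) / q := ⟨_, rfl⟩
  have hPd : DifferentiableOn ℂ P (ball 0 1) := by
    rw [hPdef]; exact (hd.sub_const _).div_const _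
  have hP0 : P 0 = 1 := by
    rw [hPdef]
    simp only
    have : H 0 - Complex.I * (H 0).im = (q : ℂ) := by
      rw [hqdef]
      apply Complex.ext <;> simp
    rw [this]
    exact div_self hqc
  have hPre : ∀ z ∈ ball (0 : ℂ) 1, 0 ≤ (P z).re := by
    intro z hz
    rw [hPdef]
    simp only
    rw [Complex.div_ofReal_re]
    apply div_nonneg _ hq.le
    simp
    exact (hre z hz).le
  have hcoef : ∀ k, 0 < k → Pool.Agent.R252.Cara.coeff P k = tc H k / q := by
    intro k hk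
    change tc P k = tc H k / q
    have hah : AnalyticAt ℂ H 0 := analyticAt_zero one_pos hd
    have e1 : P = fun z => (fun _ => ((q : ℂ))⁻¹) z * (fun z => H z - (fun _ => Complex.I * (H 0).im) z) z := by
      rw [hPdef]; funext z; simp; ring
    have e2 : T P = PowerSeries.C ((q : ℂ)⁻¹) * (T H - PowerSeries.C (Complex.I * (H 0).im)) := by
      rw [e1, T_mul (f := fun _ => ((q : ℂ))⁻¹) (g := fun z => H z - (fun _ => Complex.I * (H 0).im) z)
        analyticAt_const (hah.sub analyticAt_const), T_const,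
        T_sub (g := fun _ => Complex.I * (H 0).im) hah analyticAt_const, T_const]
    have e3 := congrArg (PowerSeries.coeff k) e2
    rw [coeff_T, PowerSeries.coeff_C_mul, map_sub, coeff_T, PowerSeries.coeff_C, if_neg hk.ne',
      sub_zero] at e3
    rw [e3]
    ring
  have hr : ∀ r : ℝ, r ∈ Ioo (0 : ℝ) 1 → DiffContOnCl ℂ P (ball 0 r) := by
    intro r hr
    apply DifferentiableOn.diffContOnCl
    rw [closure_ball _ hr.1.ne']
    exact hPd.mono (closedBall_subset_ball hr.2)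
  have hpos : ∀ r : ℝ, r ∈ Ioo (0 : ℝ) 1 → ∀ t : ℝ, 0 ≤ (P (circleMap 0 r t)).re := by
    intro r hr t
    apply hPre
    exact closedBall_subset_ball hr.2 (circleMap_mem_closedBall 0 hr.1.le t)
  have hNe : ∀ᶠ r : ℝ in 𝓝[<] 1, r ∈ Ioo (0 : ℝ) 1 :=
    Ioo_mem_nhdsLT zero_lt_one
  have hcont : Continuous fun r : ℝ => (1 + ∑ j ∈ Finset.range m, lam (j + 1) *
      ((r : ℂ) ^ (j + 1) * Pool.Agent.R252.Cara.coeff P (j + 1))).re := by
    apply continuous_re.comp
    fun_prop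
  have hlim := (hcont.tendsto 1).mono_left (nhdsWithin_le_nhds (s := Iio (1 : ℝ)))
  have h2 : κ ≤ (1 + ∑ j ∈ Finset.range m, lam (j + 1) *
      (((1 : ℝ) : ℂ) ^ (j + 1) * Pool.Agent.R252.Cara.coeff P (j + 1))).re := by
    refine ge_of_tendsto hlim ?_
    filter_upwards [hNe] with r hr'
    exact kern_radius hr'.1 (hr r hr') hP0 (hpos r hr') hK
  have e4 : (q : ℂ) + ∑ j ∈ Finset.range m, lam (j + 1) * tc H (j + 1)
      = (q : ℂ) * (1 + ∑ j ∈ Finset.range m, lam (j + 1) *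
      (((1 : ℝ) : ℂ) ^ (j + 1) * Pool.Agent.R252.Cara.coeff P (j + 1))) := by
    rw [mul_add, mul_one, Finset.mul_sum]
    congr 1
    refine Finset.sum_congr rfl fun j _ => ?_
    rw [hcoef (j + 1) (Nat.succ_pos j), Complex.ofReal_one, one_pow, one_mul]
    field_simp
  rw [e4, Complex.re_ofReal_mul, mul_comm κ]
  exact mul_le_mul_of_nonneg_left h2 hq.le

end

end Pool.Agent.helper358_ms
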