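import Pool.Agent.helper358_ms.Three
import Pool.Agent.R252.Cara

/-! # Majorants and the Carathéodory inequality -/

set_option autoImplicit false

namespace Pool.Agent.helper358_ms

open Complex Metric Set Filter Topology PowerSeries

noncomputable section

/-- coefficientwise domination -/
def Maj (f : PowerSeries ℂ) (g : PowerSeries ℝ) : Prop := ∀ n, ‖PowerSeries.coeff n f‖ ≤ PowerSeries.coeff n g

theorem Maj.nonneg {f : PowerSeries ℂ} {g : PowerSeries ℝ} (h : Maj f g) (n : ℕ) :
    0 ≤ PowerSeries.coeff n g := (norm_nonneg _).trans (h n)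

theorem Maj.mul {f f' : PowerSeries ℂ} {g g' : PowerSeries ℝ} (h : Maj f g) (h' : Maj f' g') :
    Maj (f * f') (g * g') := by
  intro n
  rw [PowerSeries.coeff_mul, PowerSeries.coeff_mul]
  refine (norm_sum_le _ _).trans (Finset.sum_le_sum fun q _ => ?_)
  rw [norm_mul]
  exact mul_le_mul (h _) (h' _) (norm_nonneg _) (h.nonneg _)

theorem Maj.add {f f' : PowerSeries ℂ} {g g' : PowerSeries ℝ} (h : Maj f g) (h' : Maj f' g') :
    Maj (f + f') (g + g') := by
  intro n
  rw [map_add, map_add]
  exact (norm_add_le _ _).trans (add_le_add (h n) (h' n))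

theorem Maj.C_mul {f : PowerSeries ℂ} {g : PowerSeries ℝ} (h : Maj f g) (a : ℂ) :
    Maj (PowerSeries.C a * f) (PowerSeries.C ‖a‖ * g) := by
  intro n
  rw [PowerSeries.coeff_C_mul, PowerSeries.coeff_C_mul, norm_mul]
  exact mul_le_mul_of_nonneg_left (h n) (norm_nonneg _)

theorem Maj.X_mul {f : PowerSeries ℂ} {g : PowerSeries ℝ} (h : Maj f g) :
    Maj (X * f) (X * g) := by
  intro n
  rcases n with _ | n
  · simp
  · rw [PowerSeries.coeff_succ_X_mul, PowerSeries.coeff_succ_X_mul]
    exact h n

/-- the real series `(1 - X)^{-(d+1)}` -/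
def B (d : ℕ) : PowerSeries ℝ := PowerSeries.mk fun n => ((d + n).choose d : ℝ)

theorem B_eq (d : ℕ) : B d = (invOneSubPow ℝ (d + 1)).val := by
  rw [invOneSubPow_val_succ_eq_mk_add_choose]
  rfl

theorem coeff_B (d n : ℕ) : PowerSeries.coeff n (B d) = ((d + n).choose d : ℝ) := by
  simp [B]

theorem B_mul (d e : ℕ) : B d * B e = B (d + e + 1) := by
  rw [B_eq, B_eq, B_eq, ← Units.val_mul, ← invOneSubPow_add]
  congr 2
  ring

/-- inverse of a power series with constant term one and a geometric bound -/
theorem geom_maj {α : ℂ} (h : ‖α‖ ≤ 1) : Maj (PowerSeries.mk fun n => α ^ n) (B 0) := by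
  intro n
  rw [coeff_B]
  simp
  exact pow_le_one₀ (norm_nonneg _) h

theorem geom_mul (α : ℂ) : (1 - PowerSeries.C α * X) * PowerSeries.mk (fun n => α ^ n) = 1 := by
  have e : (1 - PowerSeries.C α * X) * PowerSeries.mk (fun n => α ^ n)
      = PowerSeries.mk (fun n => α ^ n) - PowerSeries.C α * (X * PowerSeries.mk (fun n => α ^ n)) := by ring
  rw [e]
  ext n
  rcases n with _ | n
  · simp
  · rw [map_sub, PowerSeries.coeff_C_mul, PowerSeries.coeff_succ_X_mul]
    simp [pow_succ, mul_comm]

theorem maj_inv {f : PowerSeries ℂ} {α β : ℂ} (hα : ‖α‖ ≤ 1) (hβ : ‖β‖ ≤ 1)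
    (h : f * ((1 - PowerSeries.C α * X) * (1 - PowerSeries.C β * X)) = 1) : Maj f (B 1) := by
  have h1 : f = PowerSeries.mk (fun n => α ^ n) * PowerSeries.mk (fun n => β ^ n) := by
    calc f = f * (((1 - PowerSeries.C α * X) * PowerSeries.mk (fun n => α ^ n)) *
          ((1 - PowerSeries.C β * X) * PowerSeries.mk (fun n => β ^ n))) := by
            rw [geom_mul, geom_mul]; ring
      _ = (f * ((1 - PowerSeries.C α * X) * (1 - PowerSeries.C β * X))) *
          (PowerSeries.mk (fun n => α ^ n) * PowerSeries.mk (fun n => β ^ n)) := by ring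
      _ = _ := by rw [h, one_mul]
  rw [h1]
  have := (geom_maj hα).mul (geom_maj hβ)
  rwa [B_mul] at this

/-- Carathéodory's inequality -/
theorem cara {h : ℂ → ℂ} (hd : DifferentiableOn ℂ h (ball 0 1))
    (hre : ∀ z ∈ ball (0 : ℂ) 1, 0 < (h z).re) {k : ℕ} (hk : 0 < k) :
    ‖tc h k‖ ≤ 2 * (h 0).re := by
  have hr : 0 < (h 0).re := hre 0 mem0
  obtain ⟨r, hrdef⟩ : ∃ r : ℝ, r = (h 0).re := ⟨_, rfl⟩
  rw [← hrdef] at hr ⊢
  have hrc : (r : ℂ) ≠ 0 := by exact_mod_cast hr.ne'
  have hP : DifferentiableOn ℂ (fun z => (h z - Complex.I * (h 0).im) / r) (ball 0 1) :=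
    (hd.sub_const _).div_const _
  have h1 := (Pool.Agent.R252.Cara.caratheodory (P := fun z => (h z - Complex.I * (h 0).im) / r) hP
    (by
      have : h 0 - Complex.I * (h 0).im = (r : ℂ) := by
        rw [hrdef]
        apply Complex.ext <;> simp
      simp only [this]
      exact div_self hrc)
    (by
      intro z hz
      rw [Complex.div_ofReal_re]
      apply div_nonneg _ hr.le
      simp
      exact (hre z hz).le)).1 k hk
  have h2 : Pool.Agent.R252.Cara.coeff (fun z => (h z - Complex.I * (h 0).im) / r) k = tc h k / r := by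
    change tc (fun z => (h z - Complex.I * (h 0).im) / r) k = tc h k / r
    have hah : AnalyticAt ℂ h 0 := analyticAt_zero one_pos hd
    have e1 : (fun z => (h z - Complex.I * (h 0).im) / r)
        = fun z => (fun _ => ((r : ℂ))⁻¹) z * (fun z => h z - (fun _ => Complex.I * (h 0).im) z) z := by
      funext z; simp; ring
    have e2 : T (fun z => (h z - Complex.I * (h 0).im) / r)
        = PowerSeries.C ((r : ℂ)⁻¹) * (T h - PowerSeries.C (Complex.I * (h 0).im)) := by
      rw [e1, T_mul (f := fun _ => ((r : ℂ))⁻¹) (g := fun z => h z - (fun _ => Complex.I * (h 0).im) z)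
        analyticAt_const (hah.sub analyticAt_const), T_const,
        T_sub (g := fun _ => Complex.I * (h 0).im) hah analyticAt_const, T_const]
    have e3 := congrArg (PowerSeries.coeff k) e2
    rw [coeff_T, PowerSeries.coeff_C_mul, map_sub, coeff_T, PowerSeries.coeff_C, if_neg hk.ne',
      sub_zero] at e3
    rw [e3]
    ring
  rw [h2, norm_div, norm_div, Complex.norm_of_nonneg hr.le] at h1
  have : ‖(2 : ℂ)‖ = 2 := by simp
  rw [this, div_div, div_le_one (by positivity)] at h1
  linarith

/-- coefficients of the functions of the class are at most `k + 1` -/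
theorem ClassE.maj {c : ℂ} {E : ℂ → ℂ} (hE : ClassE c E) : Maj (T E) (B 1) := by
  obtain ⟨P, hPdef⟩ : ∃ P : ℂ → ℂ, P = fun z => 1 - z * (deriv E z / E z) := ⟨_, rfl⟩
  have hLd : DifferentiableOn ℂ (fun z => deriv E z / E z) (ball 0 1) :=
    (hE.holo.deriv isOpen_ball).div hE.holo hE.ne
  have hPd : DifferentiableOn ℂ P (ball 0 1) := by
    rw [hPdef]
    exact (differentiableOn_id.mul hLd).const_sub 1
  have hPre : ∀ z ∈ ball (0 : ℂ) 1, 0 < (P z).re := by
    rw [hPdef]; exact hE.pos
  have hP0 : P 0 = 1 := by rw [hPdef]; simp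
  have hpk : ∀ k, 0 < k → ‖tc P k‖ ≤ 2 := by
    intro k hk
    have := cara hPd hPre hk
    rw [hP0] at this
    simpa using this
  have aE : AnalyticAt ℂ E 0 := analyticAt_zero one_pos hE.holo
  have aE' : AnalyticAt ℂ (deriv E) 0 := analyticAt_zero one_pos (hE.holo.deriv isOpen_ball)
  have aP : AnalyticAt ℂ P 0 := analyticAt_zero one_pos hPd
  have aid : AnalyticAt ℂ (fun z : ℂ => z) 0 := analyticAt_id
  have hev : (fun z => z * deriv E z) =ᶠ[𝓝 0] fun z => E z - E z * P z := by
    filter_upwards [isOpen_ball.mem_nhds mem0] with z hz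
    rw [hPdef]
    have := hE.ne z hz
    field_simp
    ring
  have h1 := T_congr hev
  have aEP : AnalyticAt ℂ (fun z => E z * P z) 0 := aE.mul aP
  rw [T_mul aid aE', T_sub aE aEP, T_mul aE aP, T_id, T_deriv] at h1
  have key : ∀ k, ‖tc E k‖ ≤ (k : ℝ) + 1 := by
    intro k
    induction k using Nat.strong_induction_on with
    | _ k ih =>
      rcases k with _ | k
      · rw [tc_zero, hE.zero]; simp
      · have h2 := congrArg (PowerSeries.coeff (k + 1)) h1
        rw [PowerSeries.coeff_succ_X_mul, PowerSeries.coeff_derivative, coeff_T, map_sub, coeff_T,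
          PowerSeries.coeff_mul, Finset.Nat.sum_antidiagonal_eq_sum_range_succ_mk,
          Finset.sum_range_succ] at h2
        simp only [coeff_T, Nat.sub_self] at h2
        rw [tc_zero P, hP0] at h2
        have h3 : ((k : ℂ) + 1) * tc E (k + 1)
            = -∑ x ∈ Finset.range (k + 1), tc E x * tc P (k + 1 - x) := by
          linear_combination h2
        have h4 := congrArg norm h3
        rw [norm_mul, norm_neg] at h4
        have h5 : ‖((k : ℂ) + 1)‖ = (k : ℝ) + 1 := by
          have : ((k : ℂ) + 1) = (((k : ℝ) + 1 : ℝ) : ℂ) := by push_cast; ring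
          rw [this, Complex.norm_of_nonneg (by positivity)]
        rw [h5] at h4
        have h6 : ‖∑ x ∈ Finset.range (k + 1), tc E x * tc P (k + 1 - x)‖
            ≤ ∑ x ∈ Finset.range (k + 1), ((x : ℝ) + 1) * 2 := by
          refine (norm_sum_le _ _).trans (Finset.sum_le_sum fun x hx => ?_)
          have hx' : x < k + 1 := Finset.mem_range.1 hx
          rw [norm_mul]
          exact mul_le_mul (ih x hx') (hpk _ (by omega)) (norm_nonneg _) (by positivity)
        have h7 : ∑ x ∈ Finset.range (k + 1), ((x : ℝ) + 1) * 2 = ((k : ℝ) + 1) * (k + 2) := by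
          rw [← Finset.sum_mul, Finset.sum_add_distrib]
          have h8 : (∑ x ∈ Finset.range (k + 1), (x : ℝ)) * 2 = (k + 1) * k := by
            have := Finset.sum_range_id_mul_two (k + 1)
            have h9 : (∑ x ∈ Finset.range (k + 1), (x : ℝ)) = ((∑ x ∈ Finset.range (k + 1), x : ℕ) : ℝ) := by
              push_cast; rfl
            rw [h9]
            rw [Nat.add_sub_cancel] at this
            exact_mod_cast this
          rw [add_mul, h8]
          simp
          ring
        rw [h7] at h6
        have h10 : ((k : ℝ) + 1) * ‖tc E (k + 1)‖ ≤ ((k : ℝ) + 1) * (k + 2) := by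
          rw [h4]; exact h6
        have h11 := le_of_mul_le_mul_left h10 (by positivity)
        push_cast
        linarith
  intro n
  rw [coeff_T, coeff_B]
  have := key n
  simp
  linarith

end

end Pool.Agent.helper358_ms
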