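import Pool.Agent.helper358_ms.Maj

/-! # Joining a function of the class to a two-point function -/

set_option autoImplicit false

namespace Pool.Agent.helper358_ms

open Complex Metric Set Filter Topology PowerSeries

noncomputable section

theorem pos_alg {A b v : ℂ} (hAb : ‖b‖ < ‖A‖) (hv : ‖v‖ ≤ 1) (hv1 : v ≠ 1) :
    0 < ((1 - v) * (A + b) * (starRingEnd ℂ) (A + v * b)).re := by
  have hvv : ‖v‖ ^ 2 = v.re ^ 2 + v.im ^ 2 := by
    rw [← Complex.normSq_eq_norm_sq, Complex.normSq_apply]; ring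
  have hAA : ‖A‖ ^ 2 = A.re ^ 2 + A.im ^ 2 := by
    rw [← Complex.normSq_eq_norm_sq, Complex.normSq_apply]; ring
  have hbb : ‖b‖ ^ 2 = b.re ^ 2 + b.im ^ 2 := by
    rw [← Complex.normSq_eq_norm_sq, Complex.normSq_apply]; ring
  have hq : -(‖A‖ * ‖b‖) ≤ (A * (starRingEnd ℂ) b).re := by
    have h1 := Complex.abs_re_le_norm (A * (starRingEnd ℂ) b)
    rw [norm_mul, Complex.norm_conj] at h1
    exact (abs_le.1 h1).1
  have e : ((1 - v) * (A + b) * (starRingEnd ℂ) (A + v * b)).re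
      = (1 - v.re) * ‖A‖ ^ 2 + (v.re - ‖v‖ ^ 2) * ‖b‖ ^ 2
        + (1 - ‖v‖ ^ 2) * (A * (starRingEnd ℂ) b).re := by
    rw [hvv, hAA, hbb]
    simp only [map_add, map_mul, mul_re, mul_im, add_re, add_im, sub_re, sub_im, one_re, one_im,
      Complex.conj_re, Complex.conj_im]
    ring
  rw [e]
  have h1v : 0 < 1 - 2 * v.re + ‖v‖ ^ 2 := by
    have h2 : 0 < ‖1 - v‖ ^ 2 := by
      have := norm_pos_iff.2 (sub_ne_zero.2 hv1.symm)
      positivity
    rw [← Complex.normSq_eq_norm_sq, Complex.normSq_apply] at h2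
    simp only [sub_re, sub_im, one_re, one_im] at h2
    rw [hvv]
    nlinarith
  have hv2 : 0 ≤ 1 - ‖v‖ ^ 2 := by nlinarith [norm_nonneg v]
  have h3 : 0 < 1 - v.re := by
    linarith
  have hb0 := norm_nonneg b
  have hA0 : 0 < ‖A‖ := lt_of_le_of_lt hb0 hAb
  have h4 : (v.re - ‖v‖ ^ 2) * ‖b‖ < (1 - v.re) * ‖A‖ := by
    by_cases h5 : v.re - ‖v‖ ^ 2 ≤ 0
    · have : (v.re - ‖v‖ ^ 2) * ‖b‖ ≤ 0 := mul_nonpos_of_nonpos_of_nonneg h5 hb0
      nlinarith [mul_pos h3 hA0]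
    · push Not at h5
      have h6 : v.re - ‖v‖ ^ 2 < 1 - v.re := by linarith
      calc (v.re - ‖v‖ ^ 2) * ‖b‖ ≤ (v.re - ‖v‖ ^ 2) * ‖A‖ := by nlinarith
        _ < (1 - v.re) * ‖A‖ := by nlinarith
  have h7 : 0 < (‖A‖ - ‖b‖) * ((1 - v.re) * ‖A‖ - (v.re - ‖v‖ ^ 2) * ‖b‖) :=
    mul_pos (by linarith) (by linarith)
  nlinarith [mul_nonneg hv2 (by linarith : 0 ≤ (A * (starRingEnd ℂ) b).re + ‖A‖ * ‖b‖)]

theorem AB_lt {c z : ℂ} (hc : ‖c‖ < 1) (hz : z ∈ ball (0 : ℂ) 1) :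
    ‖z * ((starRingEnd ℂ) c - z)‖ < ‖1 - c * z‖ := by
  have hz1 := mem_ball_zero_iff.1 hz
  have h1 : ‖(starRingEnd ℂ) c - z‖ < ‖1 - c * z‖ := by
    apply lt_of_pow_lt_pow_left₀ 2 (norm_nonneg _)
    have a1 : ‖z‖ ^ 2 < 1 := by nlinarith [norm_nonneg z]
    have a2 : ‖c‖ ^ 2 < 1 := by nlinarith [norm_nonneg c]
    rw [← Complex.normSq_eq_norm_sq, Complex.normSq_apply] at a1 a2
    rw [← Complex.normSq_eq_norm_sq, ← Complex.normSq_eq_norm_sq, Complex.normSq_apply,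
      Complex.normSq_apply]
    simp only [sub_re, sub_im, one_re, one_im, mul_re, mul_im, Complex.conj_re, Complex.conj_im]
    nlinarith [mul_pos (sub_pos.2 a1) (sub_pos.2 a2)]
  rw [norm_mul]
  nlinarith [norm_nonneg z, norm_nonneg ((starRingEnd ℂ) c - z)]

theorem Sch.ne_of_ne {ω : ℂ → ℂ} (h : Sch ω) {x : ℂ} (hx : ‖x‖ = 1) (h0 : ω 0 ≠ x) {z : ℂ}
    (hz : z ∈ ball (0 : ℂ) 1) : ω z ≠ x := by
  intro hzx
  have hmax : IsMaxOn (norm ∘ ω) (ball 0 1) z := by
    intro w hw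
    rw [mem_ofPred_eq, Function.comp, Function.comp, hzx, hx]
    exact h.le w hw
  have h2 := Complex.eqOn_of_isPreconnected_of_isMaxOn_norm (convex_ball (0 : ℂ) 1).isPreconnected
    isOpen_ball h.holo hz hmax mem0
  apply h0
  simpa [hzx] using h2

theorem Nw_diff {c : ℂ} {ω : ℂ → ℂ} (h : DifferentiableOn ℂ ω (ball 0 1)) :
    DifferentiableOn ℂ (Nw c ω) (ball 0 1) := by
  unfold Nw
  have h1 : DifferentiableOn ℂ (fun z : ℂ => 1 - c * z) (ball 0 1) := by fun_prop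
  have h2 : DifferentiableOn ℂ (fun z : ℂ => (starRingEnd ℂ) c - z) (ball 0 1) := by fun_prop
  exact h1.add ((differentiableOn_id.mul h).mul h2)

theorem path_exists {c x : ℂ} {ω E Ex : ℂ → ℂ} (hc : ‖c‖ < 1) (hx : ‖x‖ = 1) (hω : Sch ω)
    (hne : ω 0 ≠ x) (hE : ClassE c E) (hr : RelW c ω E) (hEx : ClassE c Ex)
    (hrx : RelW c (fun _ => x) Ex) :
    ∃ h u : ℂ → ℂ, DifferentiableOn ℂ h (ball 0 1) ∧ (∀ z ∈ ball (0 : ℂ) 1, 0 < (h z).re) ∧
      h 0 = 1 - (starRingEnd ℂ) x * ω 0 ∧ DifferentiableOn ℂ u (ball 0 1) ∧ u 0 = 0 ∧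
      (∀ z ∈ ball (0 : ℂ) 1, deriv u z * Nw c (fun _ => x) z ^ 2
        = 2 * (1 - (‖c‖ ^ 2 : ℝ)) * x * (z * h z)) ∧
      (∀ z ∈ ball (0 : ℂ) 1, E z = Ex z * Complex.exp (u z)) ∧
      (∀ s : ℝ, 0 ≤ s → s ≤ 1 → ClassE c (fun z => Ex z * Complex.exp (s * u z))) := by
  have hxx : (starRingEnd ℂ) x * x = 1 := by rw [conj_mul_self, hx]; simp
  have hxs : Sch (fun _ => x) := Sch.const hx.le
  have hN := fun z (hz : z ∈ ball (0 : ℂ) 1) => Nw_ne hc hω hz
  have hNx := fun z (hz : z ∈ ball (0 : ℂ) 1) => Nw_ne hc hxs hz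
  have hNd : DifferentiableOn ℂ (Nw c ω) (ball 0 1) := Nw_diff hω.holo
  have hNxd : DifferentiableOn ℂ (Nw c (fun _ => x)) (ball 0 1) := Nw_diff hxs.holo
  obtain ⟨h, hh⟩ : ∃ h : ℂ → ℂ, h = fun z => (1 - (starRingEnd ℂ) x * ω z) * Nw c (fun _ => x) z / Nw c ω z :=
    ⟨_, rfl⟩
  have hhd : DifferentiableOn ℂ h (ball 0 1) := by
    rw [hh]
    refine DifferentiableOn.div ?_ hNd hN
    exact ((hω.holo.const_mul _).const_sub 1).mul hNxd
  have hpos : ∀ z ∈ ball (0 : ℂ) 1, 0 < (h z).re := by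
    intro z hz
    have h1 : 0 < ((1 - (starRingEnd ℂ) x * ω z) * ((1 - c * z) + x * (z * ((starRingEnd ℂ) c - z)))
        * (starRingEnd ℂ) ((1 - c * z) + (starRingEnd ℂ) x * ω z * (x * (z * ((starRingEnd ℂ) c - z))))).re := by
      apply pos_alg
      · rw [norm_mul, hx, one_mul]
        exact AB_lt hc hz
      · rw [norm_mul, Complex.norm_conj, hx, one_mul]
        exact hω.le z hz
      · intro h2
        apply hω.ne_of_ne hx hne hz
        linear_combination x * h2 + (-(ω z)) * hxx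
    have e1 : (1 - c * z) + x * (z * ((starRingEnd ℂ) c - z)) = Nw c (fun _ => x) z := by
      unfold Nw; ring
    have e2 : (1 - c * z) + (starRingEnd ℂ) x * ω z * (x * (z * ((starRingEnd ℂ) c - z))) = Nw c ω z := by
      unfold Nw
      linear_combination (ω z * (z * ((starRingEnd ℂ) c - z))) * hxx
    rw [e1, e2] at h1
    have hns : 0 < Complex.normSq (Nw c ω z) := Complex.normSq_pos.2 (hN z hz)
    have e3 : h z = ((1 - (starRingEnd ℂ) x * ω z) * Nw c (fun _ => x) z * (starRingEnd ℂ) (Nw c ω z))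
        / ((Complex.normSq (Nw c ω z) : ℝ) : ℂ) := by
      rw [hh]
      have hn := hN z hz
      have hns' : ((Complex.normSq (Nw c ω z) : ℝ) : ℂ) ≠ 0 := by exact_mod_cast hns.ne'
      rw [div_eq_div_iff hn hns', ← Complex.mul_conj]
      ring
    rw [e3, Complex.div_ofReal_re]
    exact div_pos h1 hns
  have hh0 : h 0 = 1 - (starRingEnd ℂ) x * ω 0 := by
    rw [hh]
    unfold Nw
    simp
  -- the primitive
  obtain ⟨ψ, hψ⟩ : ∃ ψ : ℂ → ℂ, ψ = fun z => 2 * (1 - (‖c‖ ^ 2 : ℝ)) * x * (z * h z) / Nw c (fun _ => x) z ^ 2 :=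
    ⟨_, rfl⟩
  have hψd : DifferentiableOn ℂ ψ (ball 0 1) := by
    rw [hψ]
    refine DifferentiableOn.div ?_ (hNxd.pow 2) (fun z hz => pow_ne_zero _ (hNx z hz))
    exact (differentiableOn_id.mul hhd).const_mul _
  obtain ⟨u, hu0, hu⟩ := (hψd.isExactOn_ball).with_val_at 0 0
  have hud : DifferentiableOn ℂ u (ball 0 1) := fun z hz => (hu z hz).differentiableAt.differentiableWithinAt
  have hψeq : ∀ z ∈ ball (0 : ℂ) 1, ψ z = deriv E z / E z - deriv Ex z / Ex z := by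
    intro z hz
    have r1 := hr z hz
    have r2 := hrx z hz
    have n1 := hN z hz
    have n2 := hNx z hz
    have z1 := hE.ne z hz
    have z2 := hEx.ne z hz
    have d1 : deriv E z / E z = -2 * (c + z * ω z) / Nw c ω z := by
      rw [div_eq_div_iff z1 n1]; exact r1
    have d2 : deriv Ex z / Ex z = -2 * (c + z * x) / Nw c (fun _ => x) z := by
      rw [div_eq_div_iff z2 n2]; exact r2
    rw [d1, d2, hψ, hh]
    simp only
    rw [div_sub_div _ _ n1 n2, div_eq_div_iff (pow_ne_zero _ n2) (mul_ne_zero n1 n2)]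
    have hcc := conj_mul_self c
    have key : -2 * (c + z * ω z) * Nw c (fun _ => x) z - Nw c ω z * (-2 * (c + z * x))
        = 2 * (1 - ((‖c‖ ^ 2 : ℝ) : ℂ)) * (z * (x - ω z)) := by
      rw [← hcc]
      unfold Nw
      ring
    rw [key]
    have key2 : x * (1 - (starRingEnd ℂ) x * ω z) = x - ω z := by linear_combination (-(ω z)) * hxx
    field_simp
    linear_combination ((1 - ((‖c‖ ^ 2 : ℝ) : ℂ)) * z) * key2
  have hEeq : ∀ z ∈ ball (0 : ℂ) 1, E z = Ex z * Complex.exp (u z) := by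
    obtain ⟨q, hq⟩ : ∃ q : ℂ → ℂ, q = fun z => Ex z * Complex.exp (u z) / E z := ⟨_, rfl⟩
    have hqd : ∀ z ∈ ball (0 : ℂ) 1, HasDerivAt q 0 z := by
      intro z hz
      have z1 := hE.ne z hz
      have z2 := hEx.ne z hz
      have dE : HasDerivAt E (deriv E z) z :=
        (hE.holo.differentiableAt (isOpen_ball.mem_nhds hz)).hasDerivAt
      have dEx : HasDerivAt Ex (deriv Ex z) z :=
        (hEx.holo.differentiableAt (isOpen_ball.mem_nhds hz)).hasDerivAt
      have du := (hu z hz).cexp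
      have d3 := (dEx.fun_mul du).fun_div dE z1
      rw [hq]
      have e : (deriv Ex z * Complex.exp (u z) + Ex z * (Complex.exp (u z) * ψ z)) * E z
          - Ex z * Complex.exp (u z) * deriv E z = 0 := by
        rw [hψeq z hz]
        field_simp
        ring
      rw [e] at d3
      simpa using d3
    have hqdiff : DifferentiableOn ℂ q (ball 0 1) := fun z hz =>
      (hqd z hz).differentiableAt.differentiableWithinAt
    intro z hz
    have hconst : q z = q 0 := by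
      apply isOpen_ball.is_const_of_deriv_eq_zero (convex_ball (0 : ℂ) 1).isPreconnected hqdiff
        (fun w hw => (hqd w hw).deriv) hz mem0
    have hq0 : q 0 = 1 := by rw [hq]; simp [hE.zero, hEx.zero, hu0]
    rw [hq0, hq] at hconst
    simp only at hconst
    rw [div_eq_one_iff_eq (hE.ne z hz)] at hconst
    exact hconst.symm
  refine ⟨h, u, hhd, hpos, hh0, hud, hu0, ?_, hEeq, ?_⟩
  · intro z hz
    rw [(hu z hz).deriv, hψ]
    exact div_mul_cancel₀ _ (pow_ne_zero _ (hNx z hz))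
  · intro s hs0 hs1
    have hd : ∀ z ∈ ball (0 : ℂ) 1, HasDerivAt (fun z => Ex z * Complex.exp (s * u z))
        (deriv Ex z * Complex.exp (s * u z) + Ex z * (Complex.exp (s * u z) * (s * ψ z))) z := by
      intro z hz
      have dEx : HasDerivAt Ex (deriv Ex z) z :=
        (hEx.holo.differentiableAt (isOpen_ball.mem_nhds hz)).hasDerivAt
      exact dEx.fun_mul ((hu z hz).const_mul (s : ℂ)).cexp
    refine ⟨?_, ?_, ?_, ?_, ?_⟩
    · exact fun z hz => (hd z hz).differentiableAt.differentiableWithinAt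
    · simp [hEx.zero, hu0]
    · rw [(hd 0 mem0).deriv, hu0, hEx.one, hEx.zero, hψ]
      simp
    · exact fun z hz => mul_ne_zero (hEx.ne z hz) (Complex.exp_ne_zero _)
    · intro z hz
      have z2 := hEx.ne z hz
      have hexp := Complex.exp_ne_zero (s * u z)
      have e : 1 - z * (deriv (fun z => Ex z * Complex.exp (s * u z)) z / (Ex z * Complex.exp (s * u z)))
          = ((1 - s : ℝ) : ℂ) * (1 - z * (deriv Ex z / Ex z)) + (s : ℂ) * (1 - z * (deriv E z / E z)) := by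
        rw [(hd z hz).deriv, hψeq z hz]
        have z1 := hE.ne z hz
        push_cast
        field_simp
        ring
      rw [e, add_re, Complex.re_ofReal_mul, Complex.re_ofReal_mul]
      have p1 := hEx.pos z hz
      have p2 := hE.pos z hz
      rcases hs0.eq_or_lt with h0 | h0
      · rw [← h0]; linarith
      · nlinarith [mul_pos h0 p2, mul_nonneg (sub_nonneg.2 hs1) p1.le]

end

end Pool.Agent.helper358_ms
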