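import Pool.Agent.helper358_ms.Schur

/-! # The formal differential equation and the first coefficients -/

set_option autoImplicit false

namespace Pool.Agent.helper358_ms

open Complex Metric Set Filter Topology PowerSeries

noncomputable section

theorem mem0 : (0 : ℂ) ∈ ball (0 : ℂ) 1 := mem_ball_self one_pos

theorem formal_ode {c : ℂ} {ω E : ℂ → ℂ} (hω : DifferentiableOn ℂ ω (ball 0 1))
    (hE : DifferentiableOn ℂ E (ball 0 1)) (h : RelW c ω E) :
    PowerSeries.derivative ℂ (T E) * (1 - C c * X + X * T ω * (C ((starRingEnd ℂ) c) - X))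
      = -2 * (C c + X * T ω) * T E := by
  have aω : AnalyticAt ℂ ω 0 := analyticAt_zero one_pos hω
  have aE : AnalyticAt ℂ E 0 := analyticAt_zero one_pos hE
  have aE' : AnalyticAt ℂ (deriv E) 0 := analyticAt_zero one_pos (hE.deriv isOpen_ball)
  have aid : AnalyticAt ℂ (fun z : ℂ => z) 0 := analyticAt_id
  have aX : AnalyticAt ℂ (fun z : ℂ => z * ω z) 0 := aid.mul aω
  have tX : T (fun z : ℂ => z * ω z) = X * T ω := by rw [T_mul aid aω, T_id]
  have a1 : AnalyticAt ℂ (fun z : ℂ => c * z) 0 := analyticAt_const.mul aid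
  have t1 : T (fun z : ℂ => c * z) = C c * X := by
    rw [T_mul (f := fun _ => c) analyticAt_const aid, T_const, T_id]
  have a2 : AnalyticAt ℂ (fun z : ℂ => 1 - c * z) 0 := analyticAt_const.sub a1
  have t2 : T (fun z : ℂ => 1 - c * z) = 1 - C c * X := by
    rw [T_sub (f := fun _ => (1 : ℂ)) analyticAt_const a1, T_const, t1]; simp
  have a3 : AnalyticAt ℂ (fun z : ℂ => (starRingEnd ℂ) c - z) 0 := analyticAt_const.sub aid
  have t3 : T (fun z : ℂ => (starRingEnd ℂ) c - z) = C ((starRingEnd ℂ) c) - X := by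
    rw [T_sub (f := fun _ => (starRingEnd ℂ) c) analyticAt_const aid, T_const, T_id]
  have a4 : AnalyticAt ℂ (fun z : ℂ => z * ω z * ((starRingEnd ℂ) c - z)) 0 := aX.mul a3
  have t4 : T (fun z : ℂ => z * ω z * ((starRingEnd ℂ) c - z)) = X * T ω * (C ((starRingEnd ℂ) c) - X) := by
    rw [T_mul aX a3, tX, t3]
  have a5 : AnalyticAt ℂ (fun z : ℂ => 1 - c * z + z * ω z * ((starRingEnd ℂ) c - z)) 0 := a2.add a4
  have t5 : T (fun z : ℂ => 1 - c * z + z * ω z * ((starRingEnd ℂ) c - z))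
      = 1 - C c * X + X * T ω * (C ((starRingEnd ℂ) c) - X) := by
    rw [T_add a2 a4, t2, t4]
  have a6 : AnalyticAt ℂ (fun z : ℂ => c + z * ω z) 0 := analyticAt_const.add aX
  have t6 : T (fun z : ℂ => c + z * ω z) = C c + X * T ω := by
    rw [T_add (f := fun _ => c) analyticAt_const aX, T_const, tX]
  have a7 : AnalyticAt ℂ (fun z : ℂ => -2 * (c + z * ω z)) 0 := analyticAt_const.mul a6
  have t7 : T (fun z : ℂ => -2 * (c + z * ω z)) = -2 * (C c + X * T ω) := by
    rw [T_mul (f := fun _ => (-2 : ℂ)) analyticAt_const a6, T_const, t6]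
    have h2 : (C (-2 : ℂ) : PowerSeries ℂ) = -2 := by
      rw [map_neg, map_ofNat]
    rw [h2]
  have hev : (fun z => deriv E z * (1 - c * z + z * ω z * ((starRingEnd ℂ) c - z))) =ᶠ[𝓝 0]
      fun z => -2 * (c + z * ω z) * E z := by
    filter_upwards [isOpen_ball.mem_nhds mem0] with z hz
    exact h z hz
  have h8 := T_congr hev
  rw [T_mul aE' a5, T_mul a7 aE, t5, t7, T_deriv] at h8
  exact h8

theorem conj_mul_self (c : ℂ) : (starRingEnd ℂ) c * c = ((‖c‖ ^ 2 : ℝ) : ℂ) := by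
  rw [mul_comm, Complex.mul_conj']; push_cast; rfl

/-- first coefficients -/
theorem first_coeffs {c : ℂ} {ω E : ℂ → ℂ} (hω : DifferentiableOn ℂ ω (ball 0 1))
    (hE : DifferentiableOn ℂ E (ball 0 1)) (hE0 : E 0 = 1) (h : RelW c ω E) :
    tc E 0 = 1 ∧ tc E 1 = -2 * c ∧ tc E 2 = c ^ 2 - (1 - (‖c‖ ^ 2 : ℝ)) * tc ω 0 ∧
    tc E 3 = 2 / 3 * (1 - (‖c‖ ^ 2 : ℝ)) * (c * tc ω 0 + (starRingEnd ℂ) c * tc ω 0 ^ 2 - tc ω 1) := by
  have h1 := formal_ode hω hE h
  have e0 : tc E 0 = 1 := by rw [tc_zero, hE0]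
  have k0 := congrArg (PowerSeries.coeff 0) h1
  have k1 := congrArg (PowerSeries.coeff 1) h1
  have k2 := congrArg (PowerSeries.coeff 2) h1
  have two : (2 : PowerSeries ℂ) = C (2 : ℂ) := (map_ofNat C 2).symm
  simp only [two, PowerSeries.coeff_mul, map_sub, map_add, map_neg, Finset.Nat.antidiagonal_succ,
    Finset.Nat.antidiagonal_zero, Finset.sum_cons, Finset.sum_map, Finset.sum_singleton,
    Finset.map_singleton, Finset.map_cons,
    Function.Embedding.prodMap, Function.Embedding.coeFn_mk, Prod.map, Nat.succ_eq_add_one, zero_add,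
    PowerSeries.coeff_derivative, coeff_T, PowerSeries.coeff_C, PowerSeries.coeff_X,
    PowerSeries.coeff_one, Function.Embedding.refl_apply] at k0 k1 k2
  norm_num at k0 k1 k2
  have hcc := conj_mul_self c
  push_cast at hcc
  rw [e0] at k0 k1 k2
  have e1 : tc E 1 = -2 * c := by linear_combination k0
  rw [e1] at k1 k2
  have e2 : tc E 2 = c ^ 2 - (1 - (‖c‖ ^ 2 : ℝ)) * tc ω 0 := by
    push_cast
    linear_combination (1 / 2 : ℂ) * k1 + tc ω 0 * hcc
  refine ⟨e0, e1, e2, ?_⟩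
  rw [e2] at k2
  push_cast at k2 ⊢
  linear_combination (1 / 3 : ℂ) * k2 + (2 / 3 : ℂ) * (tc ω 1 - tc ω 0 * c) * hcc

end

end Pool.Agent.helper358_ms
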