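import Pool.Agent.helper358_ms.Coef

/-! # Parametrisation of the class by Schur functions -/

set_option autoImplicit false

namespace Pool.Agent.helper358_ms

open Complex Metric Set Filter Topology

noncomputable section

/-- analytic functions bounded by one in the unit disc -/
structure Sch (φ : ℂ → ℂ) : Prop where
  holo : DifferentiableOn ℂ φ (ball 0 1)
  le : ∀ z ∈ ball (0 : ℂ) 1, ‖φ z‖ ≤ 1

theorem Sch.mul_lt {φ : ℂ → ℂ} (h : Sch φ) {z : ℂ} (hz : z ∈ ball (0 : ℂ) 1) : ‖z * φ z‖ < 1 := by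
  rw [norm_mul]
  have h1 := h.le z hz
  have h2 := mem_ball_zero_iff.1 hz
  have h3 := norm_nonneg z
  have h4 := norm_nonneg (φ z)
  nlinarith

theorem one_sub_ne_zero_of_lt {w : ℂ} (h : ‖w‖ < 1) : 1 - w ≠ 0 := by
  intro h1
  have : w = 1 := by linear_combination -h1
  rw [this, norm_one] at h
  exact lt_irrefl _ h

theorem cayley_re {w : ℂ} (h : ‖w‖ < 1) : 0 < ((1 + w) / (1 - w)).re := by
  have hne := one_sub_ne_zero_of_lt h
  have hns : 0 < Complex.normSq (1 - w) := Complex.normSq_pos.2 hne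
  rw [Complex.div_re, ← add_div]
  apply div_pos _ hns
  have h1 : ‖w‖ ^ 2 < 1 := by nlinarith [norm_nonneg w]
  rw [← Complex.normSq_eq_norm_sq, Complex.normSq_apply] at h1
  simp only [add_re, one_re, sub_re, add_im, one_im, sub_im]
  nlinarith

theorem norm_cayley_lt {P : ℂ} (h : 0 < P.re) : ‖(P - 1) / (P + 1)‖ < 1 := by
  have hne : P + 1 ≠ 0 := by
    intro h1
    have := congrArg Complex.re h1
    simp at this
    linarith
  rw [norm_div, div_lt_one (norm_pos_iff.2 hne)]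
  apply lt_of_pow_lt_pow_left₀ 2 (norm_nonneg _)
  rw [← Complex.normSq_eq_norm_sq, ← Complex.normSq_eq_norm_sq, Complex.normSq_apply,
    Complex.normSq_apply]
  simp only [add_re, one_re, sub_re, add_im, one_im, sub_im]
  nlinarith

/-- the differential equation linking `E` and `φ` -/
def Rel (φ E : ℂ → ℂ) : Prop := ∀ z ∈ ball (0 : ℂ) 1, deriv E z * (1 - z * φ z) = -2 * φ z * E z

theorem ClassE.exists_schur {c : ℂ} {E : ℂ → ℂ} (hE : ClassE c E) :
    ∃ φ, Sch φ ∧ φ 0 = c ∧ Rel φ E := by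
  have h00 : (0 : ℂ) ∈ ball (0 : ℂ) 1 := mem_ball_self one_pos
  set L : ℂ → ℂ := fun z => deriv E z / E z with hL
  have hLd : DifferentiableOn ℂ L (ball 0 1) := (hE.holo.deriv isOpen_ball).div hE.holo hE.ne
  have hne : ∀ z ∈ ball (0 : ℂ) 1, z * L z - 2 ≠ 0 := by
    intro z hz h
    have h1 := hE.pos z hz
    have h2 : z * (deriv E z / E z) = 2 := by
      simp only [hL] at h
      linear_combination h
    rw [h2] at h1
    norm_num at h1
  have hφd : DifferentiableOn ℂ (fun z => L z / (z * L z - 2)) (ball 0 1) := by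
    refine hLd.div ?_ hne
    exact (differentiableOn_id.mul hLd).sub_const _
  refine ⟨fun z => L z / (z * L z - 2), ⟨hφd, ?_⟩, ?_, ?_⟩
  · intro z hz
    refine norm_le_of_mul hφd ?_ hz
    intro z hz
    have h1 := hE.pos z hz
    have h2 := norm_cayley_lt h1
    have h3 := hne z hz
    have e : z * (L z / (z * L z - 2)) = ((1 - z * (deriv E z / E z)) - 1) / ((1 - z * (deriv E z / E z)) + 1) := by
      have h4 : (1 - z * (deriv E z / E z)) + 1 = -(z * L z - 2) := by simp only [hL]; ring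
      rw [h4]
      have h5 : (1 - z * (deriv E z / E z)) - 1 = -(z * L z) := by simp only [hL]; ring
      rw [h5, neg_div_neg_eq]
      ring
    rw [e]
    exact h2
  · simp only [hL, hE.zero, hE.one]
    ring
  · intro z hz
    have h3 := hne z hz
    have h4 := hE.ne z hz
    have h5 : deriv E z = L z * E z := by simp only [hL]; field_simp
    simp only
    rw [h5]
    have key : L z / (z * L z - 2) * (z * L z - 2) = L z := div_mul_cancel₀ _ h3
    apply mul_right_cancel₀ h3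
    linear_combination (-(L z * E z * z) + 2 * E z) * key

theorem Sch.exists_E {φ : ℂ → ℂ} (h : Sch φ) : ∃ E, ClassE (φ 0) E ∧ Rel φ E := by
  have h00 : (0 : ℂ) ∈ ball (0 : ℂ) 1 := mem_ball_self one_pos
  have hne : ∀ z ∈ ball (0 : ℂ) 1, 1 - z * φ z ≠ 0 := fun z hz => one_sub_ne_zero_of_lt (h.mul_lt hz)
  set ψ : ℂ → ℂ := fun z => -2 * φ z / (1 - z * φ z) with hψ
  have hψd : DifferentiableOn ℂ ψ (ball 0 1) := by
    refine (h.holo.const_mul _).div ?_ hne
    exact DifferentiableOn.sub (by fun_prop) (differentiableOn_id.mul h.holo)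
  obtain ⟨ℓ, hℓ0, hℓ⟩ := (hψd.isExactOn_ball).with_val_at 0 0
  have hEd : ∀ z ∈ ball (0 : ℂ) 1, HasDerivAt (fun z => Complex.exp (ℓ z)) (Complex.exp (ℓ z) * ψ z) z :=
    fun z hz => (hℓ z hz).cexp
  have hlog : ∀ z ∈ ball (0 : ℂ) 1, deriv (fun z => Complex.exp (ℓ z)) z / Complex.exp (ℓ z) = ψ z := by
    intro z hz
    rw [(hEd z hz).deriv]
    exact mul_div_cancel_left₀ _ (Complex.exp_ne_zero _)
  refine ⟨fun z => Complex.exp (ℓ z), ⟨?_, ?_, ?_, ?_, ?_⟩, ?_⟩
  · exact fun z hz => (hEd z hz).differentiableAt.differentiableWithinAt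
  · simp [hℓ0]
  · rw [(hEd 0 h00).deriv, hℓ0]
    simp [hψ]
  · exact fun z _ => Complex.exp_ne_zero _
  · intro z hz
    rw [hlog z hz]
    have h1 := cayley_re (h.mul_lt hz)
    have e : 1 - z * ψ z = (1 + z * φ z) / (1 - z * φ z) := by
      simp only [hψ]
      have := hne z hz
      field_simp
      ring
    rw [e]
    exact h1
  · intro z hz
    rw [(hEd z hz).deriv]
    simp only [hψ]
    have := hne z hz
    rw [mul_assoc, div_mul_cancel₀ _ this]
    ring

/-- second Schur step -/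
theorem Sch.exists_omega {φ : ℂ → ℂ} (h : Sch φ) {c : ℂ} (h0 : φ 0 = c) (hc : ‖c‖ < 1) :
    ∃ ω, Sch ω ∧ ∀ z ∈ ball (0 : ℂ) 1, φ z * (1 + (starRingEnd ℂ) c * (z * ω z)) = c + z * ω z := by
  have h00 : (0 : ℂ) ∈ ball (0 : ℂ) 1 := mem_ball_self one_pos
  have hlt : ∀ z ∈ ball (0 : ℂ) 1, ‖(starRingEnd ℂ) c * φ z‖ < 1 := by
    intro z hz
    rw [norm_mul, Complex.norm_conj]
    have := h.le z hz
    nlinarith [norm_nonneg (φ z), norm_nonneg c]
  have hne : ∀ z ∈ ball (0 : ℂ) 1, 1 - (starRingEnd ℂ) c * φ z ≠ 0 := fun z hz =>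
    one_sub_ne_zero_of_lt (hlt z hz)
  have hφlt : ∀ z ∈ ball (0 : ℂ) 1, ‖φ z‖ < 1 := by
    intro z hz
    rcases (h.le z hz).lt_or_eq with h1 | h1
    · exact h1
    exfalso
    have hmax : IsMaxOn (norm ∘ φ) (ball 0 1) z := by
      intro w hw
      rw [mem_ofPred_eq, Function.comp, Function.comp, h1]
      exact h.le w hw
    have h2 := Complex.norm_eqOn_of_isPreconnected_of_isMaxOn (convex_ball (0 : ℂ) 1).isPreconnected
      isOpen_ball h.holo hz hmax h00
    simp only [Function.comp, Function.const_apply, h1, h0] at h2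
    linarith
  set M : ℂ → ℂ := fun z => (φ z - c) / (1 - (starRingEnd ℂ) c * φ z) with hM
  have hMd : DifferentiableOn ℂ M (ball 0 1) := by
    refine (h.holo.sub_const _).div ?_ hne
    exact DifferentiableOn.sub (by fun_prop) (h.holo.const_mul _)
  have hM0 : M 0 = 0 := by simp [hM, h0]
  have hMlt : ∀ z ∈ ball (0 : ℂ) 1, ‖M z‖ < 1 := by
    intro z hz
    simp only [hM]
    rw [norm_div, div_lt_one (norm_pos_iff.2 (hne z hz))]
    apply lt_of_pow_lt_pow_left₀ 2 (norm_nonneg _)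
    have a1 : ‖φ z‖ ^ 2 < 1 := by nlinarith [norm_nonneg (φ z), hφlt z hz]
    have a2 : ‖c‖ ^ 2 < 1 := by nlinarith [norm_nonneg c]
    rw [← Complex.normSq_eq_norm_sq, Complex.normSq_apply] at a1 a2
    rw [← Complex.normSq_eq_norm_sq, ← Complex.normSq_eq_norm_sq, Complex.normSq_apply,
      Complex.normSq_apply]
    simp only [sub_re, sub_im, one_re, one_im, mul_re, mul_im, Complex.conj_re, Complex.conj_im]
    nlinarith [mul_pos (sub_pos.2 a1) (sub_pos.2 a2)]
  have hds : ∀ w, w * dslope M 0 w = M w := by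
    intro w
    have := sub_smul_dslope M (0 : ℂ) w
    rw [hM0, sub_zero, sub_zero, smul_eq_mul] at this
    exact this
  have hdd : DifferentiableOn ℂ (dslope M 0) (ball 0 1) :=
    (differentiableOn_dslope (isOpen_ball.mem_nhds h00)).2 hMd
  refine ⟨dslope M 0, ⟨hdd, ?_⟩, ?_⟩
  · intro z hz
    refine norm_le_of_mul hdd ?_ hz
    intro z hz
    rw [hds]
    exact hMlt z hz
  · intro z hz
    rw [hds]
    have h3 := hne z hz
    have key : M z * (1 - (starRingEnd ℂ) c * φ z) = φ z - c := div_mul_cancel₀ _ h3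
    apply mul_right_cancel₀ h3
    linear_combination (φ z * (starRingEnd ℂ) c - 1) * key

theorem conj_lt {c w : ℂ} (hc : ‖c‖ < 1) (hw : ‖w‖ < 1) : ‖-((starRingEnd ℂ) c * w)‖ < 1 := by
  rw [norm_neg, norm_mul, Complex.norm_conj]
  nlinarith [norm_nonneg w, norm_nonneg c]

theorem one_add_conj_ne {c w : ℂ} (hc : ‖c‖ < 1) (hw : ‖w‖ < 1) :
    1 + (starRingEnd ℂ) c * w ≠ 0 := by
  have := one_sub_ne_zero_of_lt (conj_lt hc hw)
  rwa [sub_neg_eq_add] at this

theorem Sch.of_omega {ω : ℂ → ℂ} (h : Sch ω) {c : ℂ} (hc : ‖c‖ < 1) :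
    Sch fun z => (c + z * ω z) / (1 + (starRingEnd ℂ) c * (z * ω z)) := by
  have hzω : DifferentiableOn ℂ (fun z => z * ω z) (ball 0 1) := differentiableOn_id.mul h.holo
  refine ⟨?_, ?_⟩
  · refine (hzω.const_add _).div ((hzω.const_mul _).const_add _) ?_
    intro z hz
    exact one_add_conj_ne hc (h.mul_lt hz)
  · intro z hz
    have hne := one_add_conj_ne hc (h.mul_lt hz)
    rw [norm_div, div_le_one (norm_pos_iff.2 hne)]
    apply le_of_sq_le_sq _ (norm_nonneg _)
    have a1 : ‖z * ω z‖ ^ 2 < 1 := by nlinarith [norm_nonneg (z * ω z), h.mul_lt hz]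
    have a2 : ‖c‖ ^ 2 < 1 := by nlinarith [norm_nonneg c]
    obtain ⟨w, hw⟩ : ∃ w, w = z * ω z := ⟨_, rfl⟩
    rw [← hw] at a1 ⊢
    rw [← Complex.normSq_eq_norm_sq, Complex.normSq_apply] at a1 a2
    rw [← Complex.normSq_eq_norm_sq, ← Complex.normSq_eq_norm_sq, Complex.normSq_apply,
      Complex.normSq_apply]
    simp only [add_re, add_im, one_re, one_im, mul_re, mul_im, Complex.conj_re, Complex.conj_im]
    nlinarith [mul_pos (sub_pos.2 a1) (sub_pos.2 a2)]

/-- the denominator `N_ω` -/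
def Nw (c : ℂ) (ω : ℂ → ℂ) (z : ℂ) : ℂ := 1 - c * z + z * ω z * ((starRingEnd ℂ) c - z)

/-- the differential equation linking `E` and `ω` -/
def RelW (c : ℂ) (ω E : ℂ → ℂ) : Prop :=
  ∀ z ∈ ball (0 : ℂ) 1, deriv E z * Nw c ω z = -2 * (c + z * ω z) * E z

theorem ClassE.exists_omega {c : ℂ} (hc : ‖c‖ < 1) {E : ℂ → ℂ} (hE : ClassE c E) :
    ∃ ω, Sch ω ∧ RelW c ω E := by
  obtain ⟨φ, hφ, hφ0, hr⟩ := hE.exists_schur
  obtain ⟨ω, hω, hφω⟩ := hφ.exists_omega hφ0 hc
  refine ⟨ω, hω, ?_⟩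
  intro z hz
  have h1 := hr z hz
  have h2 := hφω z hz
  have hne := one_add_conj_ne hc (hω.mul_lt hz)
  unfold Nw
  have h3 : 1 - c * z + z * ω z * ((starRingEnd ℂ) c - z)
      = (1 - z * φ z) * (1 + (starRingEnd ℂ) c * (z * ω z)) := by
    linear_combination z * h2
  rw [h3, ← mul_assoc, h1, ← h2]
  ring

theorem Sch.exists_E_omega {ω : ℂ → ℂ} (h : Sch ω) {c : ℂ} (hc : ‖c‖ < 1) :
    ∃ E, ClassE c E ∧ RelW c ω E := by
  obtain ⟨E, hE, hr⟩ := (h.of_omega hc).exists_E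
  have h0 : (c + 0 * ω 0) / (1 + (starRingEnd ℂ) c * (0 * ω 0)) = c := by simp
  simp only [h0] at hE
  refine ⟨E, hE, ?_⟩
  intro z hz
  have h1 := hr z hz
  have hne := one_add_conj_ne hc (h.mul_lt hz)
  have h3 : Nw c ω z
      = (1 - z * ((c + z * ω z) / (1 + (starRingEnd ℂ) c * (z * ω z)))) * (1 + (starRingEnd ℂ) c * (z * ω z)) := by
    unfold Nw
    have key : (c + z * ω z) / (1 + (starRingEnd ℂ) c * (z * ω z)) * (1 + (starRingEnd ℂ) c * (z * ω z))
        = c + z * ω z := div_mul_cancel₀ _ hne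
    linear_combination z * key
  rw [h3, ← mul_assoc, h1]
  have : -2 * ((c + z * ω z) / (1 + (starRingEnd ℂ) c * (z * ω z))) * E z * (1 + (starRingEnd ℂ) c * (z * ω z))
     = -2 * E z * ((c + z * ω z) / (1 + (starRingEnd ℂ) c * (z * ω z)) * (1 + (starRingEnd ℂ) c * (z * ω z))) := by ring
  rw [this, div_mul_cancel₀ _ hne]
  ring

theorem Nw_ne {c : ℂ} (hc : ‖c‖ < 1) {ω : ℂ → ℂ} (h : Sch ω) {z : ℂ} (hz : z ∈ ball (0 : ℂ) 1) :
    Nw c ω z ≠ 0 := by
  have hne := one_add_conj_ne hc (h.mul_lt hz)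
  have h2 := one_sub_ne_zero_of_lt ((h.of_omega hc).mul_lt hz)
  have h3 : Nw c ω z
      = (1 - z * ((c + z * ω z) / (1 + (starRingEnd ℂ) c * (z * ω z)))) * (1 + (starRingEnd ℂ) c * (z * ω z)) := by
    unfold Nw
    have key : (c + z * ω z) / (1 + (starRingEnd ℂ) c * (z * ω z)) * (1 + (starRingEnd ℂ) c * (z * ω z))
        = c + z * ω z := div_mul_cancel₀ _ hne
    linear_combination z * key
  rw [h3]
  exact mul_ne_zero h2 hne

end

end Pool.Agent.helper358_ms
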