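import Pool.Agent.helper358_ms.Half

/-! # Lower bound for `|E_ω(z) - E_x(z)|` -/

set_option autoImplicit false

namespace Pool.Agent.helper358_ms

open Complex Metric Set Filter Topology

noncomputable section

/-- division by `z²` -/
theorem div_sq {F k : ℂ → ℂ} (hF0 : F 0 = 0) (hk : DifferentiableOn ℂ k (ball 0 1))
    (hF : ∀ z ∈ ball (0 : ℂ) 1, HasDerivAt F (z * k z) z) :
    ∃ G : ℂ → ℂ, DifferentiableOn ℂ G (ball 0 1) ∧ (∀ z, F z = z ^ 2 * G z) ∧
      ∀ z ∈ ball (0 : ℂ) 1, 2 * G z + z * deriv G z = k z := by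
  have hFd : DifferentiableOn ℂ F (ball 0 1) := fun z hz =>
    (hF z hz).differentiableAt.differentiableWithinAt
  have hm0 : ball (0 : ℂ) 1 ∈ 𝓝 (0 : ℂ) := isOpen_ball.mem_nhds mem0
  have h1 : ∀ w, w * dslope F 0 w = F w := by
    intro w
    have := sub_smul_dslope F (0 : ℂ) w
    rwa [hF0, sub_zero, sub_zero, smul_eq_mul] at this
  have hd1 : DifferentiableOn ℂ (dslope F 0) (ball 0 1) := (differentiableOn_dslope hm0).2 hFd
  have h10 : dslope F 0 0 = 0 := by
    rw [dslope_same, (hF 0 mem0).deriv]; simp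
  have h2 : ∀ w, w * dslope (dslope F 0) 0 w = dslope F 0 w := by
    intro w
    have := sub_smul_dslope (dslope F 0) (0 : ℂ) w
    rwa [h10, sub_zero, sub_zero, smul_eq_mul] at this
  obtain ⟨G, hG⟩ : ∃ G : ℂ → ℂ, G = dslope (dslope F 0) 0 := ⟨_, rfl⟩
  have hGd : DifferentiableOn ℂ G (ball 0 1) := by
    rw [hG]; exact (differentiableOn_dslope hm0).2 hd1
  have hFG : ∀ z, F z = z ^ 2 * G z := by
    intro z
    rw [← h1 z, ← h2 z, hG]; ring
  refine ⟨G, hGd, hFG, ?_⟩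
  have hne : ∀ z ∈ ball (0 : ℂ) 1, z ≠ 0 → 2 * G z + z * deriv G z = k z := by
    intro z hz hz0
    have dG : HasDerivAt G (deriv G z) z :=
      (hGd.differentiableAt (isOpen_ball.mem_nhds hz)).hasDerivAt
    have d1 := (hasDerivAt_pow 2 z).fun_mul dG
    have e : (fun z => z ^ 2 * G z) = F := by funext y; exact (hFG y).symm
    rw [e] at d1
    have h3 := d1.unique (hF z hz)
    have h4 : z * (2 * G z + z * deriv G z) = z * k z := by
      rw [← h3]
      push_cast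
      ring
    exact mul_left_cancel₀ hz0 h4
  intro z hz
  by_cases hz0 : z = 0
  · subst hz0
    have c1 : ContinuousAt (fun z => 2 * G z + z * deriv G z) 0 := by
      have a1 : ContinuousAt G 0 := (hGd.differentiableAt hm0).continuousAt
      have a2 : ContinuousAt (deriv G) 0 := ((hGd.deriv isOpen_ball).differentiableAt hm0).continuousAt
      fun_prop
    have c2 : ContinuousAt k 0 := (hk.differentiableAt hm0).continuousAt
    have t1 : Tendsto (fun z => 2 * G z + z * deriv G z) (𝓝[≠] (0 : ℂ)) (𝓝 (2 * G 0 + 0 * deriv G 0)) :=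
      c1.tendsto.mono_left nhdsWithin_le_nhds
    have t2 : Tendsto (fun z => 2 * G z + z * deriv G z) (𝓝[≠] (0 : ℂ)) (𝓝 (k 0)) := by
      refine (c2.tendsto.mono_left nhdsWithin_le_nhds).congr' ?_
      have : ∀ᶠ z in 𝓝[≠] (0 : ℂ), z ∈ ball (0 : ℂ) 1 := mem_nhdsWithin_of_mem_nhds hm0
      filter_upwards [this, self_mem_nhdsWithin] with z hz hz0
      exact (hne z hz hz0).symm
    exact tendsto_nhds_unique t1 t2
  · exact hne z hz hz0

/-- The function `σ = S / (z S')` with `S = ∫ t / N_x²`. -/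
theorem sigma_exists {c x : ℂ} (hc : ‖c‖ < 1) (hx : ‖x‖ ≤ 1) :
    ∃ s : ℂ → ℂ, DifferentiableOn ℂ s (ball 0 1) ∧
      (∀ z ∈ ball (0 : ℂ) 1, (2 * s z + z * deriv s z) * Nw c (fun _ => x) z ^ 2 = 1) ∧
      ∀ z ∈ ball (0 : ℂ) 1, 0 < (s z * Nw c (fun _ => x) z ^ 2).re := by
  have hxs : Sch (fun _ => x) := Sch.const hx
  have hN := fun z (hz : z ∈ ball (0 : ℂ) 1) => Nw_ne hc hxs hz
  have hNd : DifferentiableOn ℂ (Nw c (fun _ => x)) (ball 0 1) := Nw_diff hxs.holo
  obtain ⟨k, hk⟩ : ∃ k : ℂ → ℂ, k = fun z => 1 / Nw c (fun _ => x) z ^ 2 := ⟨_, rfl⟩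
  have hkd : DifferentiableOn ℂ k (ball 0 1) := by
    rw [hk]
    exact (differentiableOn_const 1).div (hNd.pow 2) (fun z hz => pow_ne_zero _ (hN z hz))
  obtain ⟨S, hS0, hS⟩ := ((differentiableOn_id.mul hkd).isExactOn_ball).with_val_at 0 0
  obtain ⟨s, hsd, hSs, hse⟩ := div_sq hS0 hkd hS
  have hse' : ∀ z ∈ ball (0 : ℂ) 1, (2 * s z + z * deriv s z) * Nw c (fun _ => x) z ^ 2 = 1 := by
    intro z hz
    rw [hse z hz, hk]
    exact div_mul_cancel₀ _ (pow_ne_zero _ (hN z hz))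
  refine ⟨s, hsd, hse', ?_⟩
  obtain ⟨α, β, hα, hβ, h1, h2⟩ := exists_roots hc hx
  have hNeq : ∀ z, Nw c (fun _ => x) z = (1 - α * z) * (1 - β * z) := by
    intro z
    unfold Nw
    linear_combination (z : ℂ) * h1 - z ^ 2 * h2
  apply first_zero (f := fun z => s z * Nw c (fun _ => x) z ^ 2) (hsd.mul (hNd.pow 2))
  · have h3 := hse' 0 mem0
    have hN0 : Nw c (fun _ => x) 0 = 1 := by unfold Nw; simp
    rw [hN0] at h3
    simp only [hN0]
    have h4 : s 0 = 1 / 2 := by linear_combination (1 / 2 : ℂ) * h3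
    rw [h4]
    norm_num
  · intro z hz hz0 hre _ m hm hzm
    have ds : HasDerivAt s (deriv s z) z :=
      (hsd.differentiableAt (isOpen_ball.mem_nhds hz)).hasDerivAt
    have dN : HasDerivAt (Nw c (fun _ => x)) (-(α * (1 - β * z)) - β * (1 - α * z)) z := by
      have e : Nw c (fun _ => x) = fun z => (1 - α * z) * (1 - β * z) := by funext y; exact hNeq y
      rw [e]
      have d1 := ((hasDerivAt_id' z).const_mul α).const_sub 1
      have d2 := ((hasDerivAt_id' z).const_mul β).const_sub 1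
      have d3 := d1.fun_mul d2
      have e2 : -(α * 1) * (1 - β * z) + (1 - α * z) * -(β * 1)
          = -(α * (1 - β * z)) - β * (1 - α * z) := by ring
      rw [e2] at d3
      exact d3
    have dσ := ds.fun_mul (dN.fun_pow 2)
    rw [dσ.deriv] at hzm
    have hz1 := mem_ball_zero_iff.1 hz
    have hαz : ‖α * z‖ < 1 := by rw [norm_mul]; nlinarith [norm_nonneg z]
    have hβz : ‖β * z‖ < 1 := by rw [norm_mul]; nlinarith [norm_nonneg z]
    have nα := one_sub_ne_zero_of_lt hαz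
    have nβ := one_sub_ne_zero_of_lt hβz
    have hKpos : 0 < ((1 + α * z) / (1 - α * z) + (1 + β * z) / (1 - β * z)).re := by
      rw [add_re]; exact add_pos (cayley_re hαz) (cayley_re hβz)
    have h5 := hse' z hz
    have key : s z * Nw c (fun _ => x) z ^ 2 * ((1 + α * z) / (1 - α * z) + (1 + β * z) / (1 - β * z))
        = 1 + m := by
      have h6 : s z * Nw c (fun _ => x) z ^ 2 * ((1 + α * z) / (1 - α * z) + (1 + β * z) / (1 - β * z))
          = 1 - z * (deriv s z * Nw c (fun _ => x) z ^ 2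
            + s z * (((2 : ℕ) : ℂ) * Nw c (fun _ => x) z ^ (2 - 1) * (-(α * (1 - β * z)) - β * (1 - α * z)))) := by
        have h7 : z * deriv s z * Nw c (fun _ => x) z ^ 2 = 1 - 2 * s z * Nw c (fun _ => x) z ^ 2 := by
          linear_combination h5
        have h8 : Nw c (fun _ => x) z ^ 2 * ((1 + α * z) / (1 - α * z) + (1 + β * z) / (1 - β * z))
            = 2 * Nw c (fun _ => x) z ^ 2 - 2 * z * Nw c (fun _ => x) z * (-(α * (1 - β * z)) - β * (1 - α * z)) := by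
          rw [hNeq]
          have hA : (1 + α * z) / (1 - α * z) * (1 - α * z) = 1 + α * z := div_mul_cancel₀ _ nα
          have hB : (1 + β * z) / (1 - β * z) * (1 - β * z) = 1 + β * z := div_mul_cancel₀ _ nβ
          linear_combination ((1 - α * z) * (1 - β * z) ^ 2) * hA + ((1 - α * z) ^ 2 * (1 - β * z)) * hB
        norm_num
        linear_combination (s z) * h8 + h7
      rw [h6, hzm]
      ring
    obtain ⟨σ, hσ⟩ : ∃ σ : ℂ, σ = s z * Nw c (fun _ => x) z ^ 2 := ⟨_, rfl⟩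
    obtain ⟨K, hK⟩ : ∃ K : ℂ, K = (1 + α * z) / (1 - α * z) + (1 + β * z) / (1 - β * z) := ⟨_, rfl⟩
    rw [← hσ, ← hK] at key
    rw [← hσ] at hre
    rw [← hK] at hKpos
    -- `σ K = 1 + m` with `Re σ = 0`
    have k1 := congrArg Complex.re key
    have k2 := congrArg Complex.im key
    simp [hre] at k1 k2
    rcases k2 with h | h
    · rw [h] at k1
      simp at k1
      linarith
    · linarith

/-- `u = 2 ε x S H` with `Re H > 0` -/
theorem u_lower {c x a : ℂ} {h u : ℂ → ℂ} (hc : ‖c‖ < 1) (hx : ‖x‖ = 1)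
    (ha : a = 2 * (1 - (‖c‖ ^ 2 : ℝ)) * x)
    (hhd : DifferentiableOn ℂ h (ball 0 1)) (hre : ∀ z ∈ ball (0 : ℂ) 1, 0 < (h z).re)
    (hud : DifferentiableOn ℂ u (ball 0 1)) (hu0 : u 0 = 0)
    (hu : ∀ z ∈ ball (0 : ℂ) 1, deriv u z * Nw c (fun _ => x) z ^ 2 = a * (z * h z))
    {z : ℂ} (hz : z ∈ ball (0 : ℂ) 1) :
    (1 - ‖c‖ ^ 2) * ‖z‖ ^ 2 * (1 - ‖z‖) ^ 2 * ‖h 0‖ ≤ ‖u z‖ * (1 + ‖z‖) ^ 6 := by
  have hepos : 0 < 1 - ‖c‖ ^ 2 := by nlinarith [norm_nonneg c]
  obtain ⟨e, he⟩ : ∃ e : ℝ, e = 1 - ‖c‖ ^ 2 := ⟨_, rfl⟩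
  have hae : a = 2 * (e : ℂ) * x := by rw [ha, he]; push_cast; ring
  have hna : ‖a‖ = 2 * e := by
    rw [hae, norm_mul, norm_mul, hx, norm_two', Complex.norm_of_nonneg (by rw [he]; exact hepos.le), mul_one]
  have ha0 : a ≠ 0 := by
    rw [← norm_pos_iff, hna, he]; linarith
  have hxs : Sch (fun _ => x) := Sch.const hx.le
  have hN := fun z (hz : z ∈ ball (0 : ℂ) 1) => Nw_ne hc hxs hz
  have hNd : DifferentiableOn ℂ (Nw c (fun _ => x)) (ball 0 1) := Nw_diff hxs.holo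
  obtain ⟨s, hsd, hse, hσ⟩ := sigma_exists hc hx.le
  have hs0 : ∀ z ∈ ball (0 : ℂ) 1, s z ≠ 0 := by
    intro z hz h0
    have := hσ z hz
    rw [h0] at this
    simp at this
  obtain ⟨k, hk⟩ : ∃ k : ℂ → ℂ, k = fun z => a * h z / Nw c (fun _ => x) z ^ 2 := ⟨_, rfl⟩
  have hkd : DifferentiableOn ℂ k (ball 0 1) := by
    rw [hk]
    exact (hhd.const_mul a).div (hNd.pow 2) (fun z hz => pow_ne_zero _ (hN z hz))
  have hu' : ∀ z ∈ ball (0 : ℂ) 1, HasDerivAt u (z * k z) z := by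
    intro z hz
    have d := (hud.differentiableAt (isOpen_ball.mem_nhds hz)).hasDerivAt
    have e1 : deriv u z = z * k z := by
      rw [hk]
      have h1 := hu z hz
      have h2 := pow_ne_zero 2 (hN z hz)
      rw [mul_div_assoc', eq_div_iff h2]
      linear_combination h1
    rwa [e1] at d
  obtain ⟨v, hvd, huv, hve⟩ := div_sq hu0 hkd hu'
  obtain ⟨H, hH⟩ : ∃ H : ℂ → ℂ, H = fun z => v z / (a * s z) := ⟨_, rfl⟩
  have hHd : DifferentiableOn ℂ H (ball 0 1) := by
    rw [hH]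
    exact hvd.div (hsd.const_mul a) (fun z hz => mul_ne_zero ha0 (hs0 z hz))
  have hvH : ∀ z ∈ ball (0 : ℂ) 1, v z = a * s z * H z := by
    intro z hz
    rw [hH]
    exact (mul_div_cancel₀ _ (mul_ne_zero ha0 (hs0 z hz))).symm
  have hODE : ∀ z ∈ ball (0 : ℂ) 1, H z + s z * Nw c (fun _ => x) z ^ 2 * (z * deriv H z) = h z := by
    intro z hz
    have ds : HasDerivAt s (deriv s z) z :=
      (hsd.differentiableAt (isOpen_ball.mem_nhds hz)).hasDerivAt
    have dH : HasDerivAt H (deriv H z) z :=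
      (hHd.differentiableAt (isOpen_ball.mem_nhds hz)).hasDerivAt
    have dv : HasDerivAt v (a * deriv s z * H z + a * s z * deriv H z) z := by
      have d1 := (ds.const_mul a).fun_mul dH
      apply d1.congr_of_eventuallyEq
      filter_upwards [isOpen_ball.mem_nhds hz] with y hy
      exact hvH y hy
    have h1 := hve z hz
    rw [dv.deriv, hvH z hz, hk] at h1
    simp only at h1
    have h2 := pow_ne_zero 2 (hN z hz)
    rw [eq_div_iff h2] at h1
    have h3 := hse z hz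
    apply mul_left_cancel₀ ha0
    linear_combination h1 - a * H z * h3
  have hH0 : H 0 = h 0 := by
    have := hODE 0 mem0
    simpa using this
  have hHpos : ∀ z ∈ ball (0 : ℂ) 1, 0 < (H z).re := by
    apply first_zero hHd
    · rw [hH0]; exact hre 0 mem0
    · intro z hz hz0 hre0 _ m hm hzm
      have h1 := hODE z hz
      rw [hzm] at h1
      have h2 := congrArg Complex.re h1
      have h3 : (H z + s z * Nw c (fun _ => x) z ^ 2 * -(m : ℂ)).re
          = (H z).re - m * (s z * Nw c (fun _ => x) z ^ 2).re := by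
        have : H z + s z * Nw c (fun _ => x) z ^ 2 * -(m : ℂ)
            = H z - (m : ℂ) * (s z * Nw c (fun _ => x) z ^ 2) := by ring
        rw [this, sub_re, Complex.re_ofReal_mul]
      rw [h3, hre0] at h2
      have h4 := hre z hz
      have h5 := hσ z hz
      nlinarith [mul_nonneg hm h5.le]
  -- lower bounds
  have b1 := half_plane_lower hHd hHpos hz
  have b2 := half_plane_lower (hsd.mul (hNd.pow 2)) hσ hz
  have hN0 : Nw c (fun _ => x) 0 = 1 := by unfold Nw; simp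
  have hs00 : s 0 = 1 / 2 := by
    have h3 := hse 0 mem0
    rw [hN0] at h3
    linear_combination (1 / 2 : ℂ) * h3
  have hz1 := mem_ball_zero_iff.1 hz
  have hz0 := norm_nonneg z
  have hNle : ‖Nw c (fun _ => x) z‖ ≤ (1 + ‖z‖) ^ 2 := by
    obtain ⟨α, β, hα, hβ, h1, h2⟩ := exists_roots hc hx.le
    have hNeq : Nw c (fun _ => x) z = (1 - α * z) * (1 - β * z) := by
      unfold Nw
      linear_combination (z : ℂ) * h1 - z ^ 2 * h2
    rw [hNeq, norm_mul, sq]
    have g1 : ‖1 - α * z‖ ≤ 1 + ‖z‖ := by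
      refine (norm_sub_le _ _).trans ?_
      rw [norm_one, norm_mul]; nlinarith
    have g2 : ‖1 - β * z‖ ≤ 1 + ‖z‖ := by
      refine (norm_sub_le _ _).trans ?_
      rw [norm_one, norm_mul]; nlinarith
    exact mul_le_mul g1 g2 (norm_nonneg _) (by linarith)
  rw [hH0] at b1
  have b3 : (1 - ‖z‖) / 2 ≤ ‖s z‖ * (1 + ‖z‖) ^ 5 := by
    have e1 : ‖(fun z => s z * Nw c (fun _ => x) z ^ 2) 0‖ = 1 / 2 := by
      simp only [hN0, hs00]; norm_num
    have e2 : ‖(fun z => s z * Nw c (fun _ => x) z ^ 2) z‖ = ‖s z‖ * ‖Nw c (fun _ => x) z‖ ^ 2 := by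
      simp only [norm_mul, norm_pow]
    have b2' : 1 / 2 * (1 - ‖z‖) ≤ ‖s z‖ * ‖Nw c (fun _ => x) z‖ ^ 2 * (1 + ‖z‖) := by
      rw [← e1, ← e2]; exact b2
    have g3 : ‖Nw c (fun _ => x) z‖ ^ 2 ≤ ((1 + ‖z‖) ^ 2) ^ 2 := pow_le_pow_left₀ (norm_nonneg _) hNle 2
    calc (1 - ‖z‖) / 2 = 1 / 2 * (1 - ‖z‖) := by ring
      _ ≤ ‖s z‖ * ‖Nw c (fun _ => x) z‖ ^ 2 * (1 + ‖z‖) := b2'
      _ ≤ ‖s z‖ * ((1 + ‖z‖) ^ 2) ^ 2 * (1 + ‖z‖) := by
        apply mul_le_mul_of_nonneg_right _ (by linarith)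
        exact mul_le_mul_of_nonneg_left g3 (norm_nonneg _)
      _ = _ := by ring
  have hun : ‖u z‖ = ‖z‖ ^ 2 * (2 * e * ‖s z‖ * ‖H z‖) := by
    rw [huv z, hvH z hz, norm_mul, norm_mul, norm_mul, norm_pow, hna]
  rw [hun, ← he]
  have he0 : 0 < e := by rw [he]; exact hepos
  have h1z : 0 < 1 - ‖z‖ := by linarith
  calc e * ‖z‖ ^ 2 * (1 - ‖z‖) ^ 2 * ‖h 0‖
      = ‖z‖ ^ 2 * (2 * e) * (((1 - ‖z‖) / 2) * (‖h 0‖ * (1 - ‖z‖))) := by ring
    _ ≤ ‖z‖ ^ 2 * (2 * e) * ((‖s z‖ * (1 + ‖z‖) ^ 5) * (‖H z‖ * (1 + ‖z‖))) := by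
        apply mul_le_mul_of_nonneg_left _ (by positivity)
        apply mul_le_mul b3 b1 (by positivity) (by positivity)
    _ = _ := by ring

/-- the lower bound for the difference -/
theorem diff_lower {c x : ℂ} {ω E Ex : ℂ → ℂ} (hc : ‖c‖ < 1) (hx : ‖x‖ = 1) (hω : Sch ω)
    (hne : ω 0 ≠ x) (hE : ClassE c E) (hr : RelW c ω E) (hEx : ClassE c Ex)
    (hrx : RelW c (fun _ => x) Ex) {z : ℂ} (hz : z ∈ ball (0 : ℂ) 1) :
    (1 - ‖c‖ ^ 2) * ‖z‖ ^ 2 * (1 - ‖z‖) ^ 4 * ‖x - ω 0‖ ≤ ‖E z - Ex z‖ * (1 + ‖z‖) ^ 6 := by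
  obtain ⟨h, u, hhd, hre, hh0, hud, hu0, hu, hEu, -⟩ := path_exists hc hx hω hne hE hr hEx hrx
  have hxx : (starRingEnd ℂ) x * x = 1 := by rw [conj_mul_self, hx]; simp
  have hxh : x * h 0 = x - ω 0 := by rw [hh0]; linear_combination (-(ω 0)) * hxx
  have hnh : ‖h 0‖ = ‖x - ω 0‖ := by rw [← hxh, norm_mul, hx, one_mul]
  have h1 := u_lower hc hx rfl hhd hre hud hu0 hu hz
  rw [hnh] at h1
  obtain ⟨w, hwd, hw, hEw⟩ := half_exists hE
  obtain ⟨y, hyd, hy, hEy⟩ := half_exists hEx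
  have hz1 := mem_ball_zero_iff.1 hz
  have hz0 := norm_nonneg z
  have hsl : ∀ q : ℂ, ‖q‖ < 1 → 1 - q ∈ Complex.slitPlane := by
    intro q hq
    left
    have := (re_le_norm q)
    simp only [sub_re, one_re]
    linarith
  -- `u` is the difference of logarithms
  have hu2 : u z = 2 * Complex.log (1 - w z) - 2 * Complex.log (1 - y z) := by
    obtain ⟨q, hq⟩ : ∃ q : ℂ → ℂ, q = fun z => u z - (2 * Complex.log (1 - w z) - 2 * Complex.log (1 - y z)) :=
      ⟨_, rfl⟩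
    have hqd : ∀ z ∈ ball (0 : ℂ) 1, HasDerivAt q 0 z := by
      intro z hz
      have hzn := mem_ball_zero_iff.1 hz
      have dw : HasDerivAt w (deriv w z) z :=
        (hwd.differentiableAt (isOpen_ball.mem_nhds hz)).hasDerivAt
      have dy : HasDerivAt y (deriv y z) z :=
        (hyd.differentiableAt (isOpen_ball.mem_nhds hz)).hasDerivAt
      have du : HasDerivAt u (deriv u z) z :=
        (hud.differentiableAt (isOpen_ball.mem_nhds hz)).hasDerivAt
      have n1 : 1 - w z ≠ 0 := one_sub_ne_zero_of_lt (lt_of_le_of_lt (hw z hz) hzn)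
      have n2 : 1 - y z ≠ 0 := one_sub_ne_zero_of_lt (lt_of_le_of_lt (hy z hz) hzn)
      have l1 := ((dw.const_sub 1).clog (hsl _ (lt_of_le_of_lt (hw z hz) hzn))).const_mul (2 : ℂ)
      have l2 := ((dy.const_sub 1).clog (hsl _ (lt_of_le_of_lt (hy z hz) hzn))).const_mul (2 : ℂ)
      have l3 := du.sub (l1.sub l2)
      -- relation between the derivatives
      have dE1 : HasDerivAt E (((2 : ℕ) : ℂ) * (1 - w z) ^ (2 - 1) * -deriv w z) z := by
        apply ((dw.const_sub 1).fun_pow 2).congr_of_eventuallyEq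
        filter_upwards [isOpen_ball.mem_nhds hz] with y hy
        exact hEw y hy
      have dEx1 : HasDerivAt Ex (((2 : ℕ) : ℂ) * (1 - y z) ^ (2 - 1) * -deriv y z) z := by
        apply ((dy.const_sub 1).fun_pow 2).congr_of_eventuallyEq
        filter_upwards [isOpen_ball.mem_nhds hz] with y hy
        exact hEy y hy
      have dE2 : HasDerivAt E ((((2 : ℕ) : ℂ) * (1 - y z) ^ (2 - 1) * -deriv y z) * Complex.exp (u z)
          + Ex z * (Complex.exp (u z) * deriv u z)) z := by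
        apply (dEx1.fun_mul du.cexp).congr_of_eventuallyEq
        filter_upwards [isOpen_ball.mem_nhds hz] with y hy
        exact hEu y hy
      have e1 := dE1.unique dE2
      have e2 := hEu z hz
      rw [hEw z hz, hEy z hz] at e2
      rw [hEy z hz] at e1
      have hexp := Complex.exp_ne_zero (u z)
      have e3 : deriv u z - (2 * (-deriv w z / (1 - w z)) - 2 * (-deriv y z / (1 - y z))) = 0 := by
        have hne3 : (1 - w z) ^ 2 * (1 - y z) ≠ 0 := mul_ne_zero (pow_ne_zero _ n1) n2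
        apply mul_left_cancel₀ hne3
        rw [mul_zero]
        have e4 : (1 - w z) ^ 2 * (1 - y z) * (deriv u z - (2 * (-deriv w z / (1 - w z)) - 2 * (-deriv y z / (1 - y z))))
            = (1 - w z) ^ 2 * (1 - y z) * deriv u z + 2 * (1 - w z) * (1 - y z) * deriv w z
              - 2 * (1 - w z) ^ 2 * deriv y z := by
          field_simp
          ring
        rw [e4]
        norm_num at e1
        linear_combination (-(1 - y z)) * e1 + ((1 - y z) * deriv u z - 2 * deriv y z) * e2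
      have e5 : HasDerivAt q (deriv u z - (2 * (-deriv w z / (1 - w z)) - 2 * (-deriv y z / (1 - y z)))) z := by
        rw [hq]; exact l3
      rwa [e3] at e5
    have hqdiff : DifferentiableOn ℂ q (ball 0 1) := fun z hz =>
      (hqd z hz).differentiableAt.differentiableWithinAt
    have hconst : q z = q 0 :=
      isOpen_ball.is_const_of_deriv_eq_zero (convex_ball (0 : ℂ) 1).isPreconnected hqdiff
        (fun w hw => (hqd w hw).deriv) hz mem0
    have hw0 : w 0 = 0 := by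
      have := hw 0 mem0
      rw [norm_zero] at this
      exact norm_le_zero_iff.1 this
    have hy0 : y 0 = 0 := by
      have := hy 0 mem0
      rw [norm_zero] at this
      exact norm_le_zero_iff.1 this
    have hq0 : q 0 = 0 := by rw [hq]; simp [hw0, hy0, hu0]
    rw [hq0, hq] at hconst
    exact sub_eq_zero.1 hconst
  have hlog : ‖Complex.log (1 - w z) - Complex.log (1 - y z)‖ ≤ 1 / (1 - ‖z‖) * ‖w z - y z‖ := by
    apply (convex_closedBall (0 : ℂ) ‖z‖).norm_image_sub_le_of_norm_hasDerivWithin_le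
      (f := fun q => Complex.log (1 - q)) (f' := fun q => -1 / (1 - q))
    · intro q hq
      have hq' : ‖q‖ < 1 := lt_of_le_of_lt (mem_closedBall_zero_iff.1 hq) hz1
      exact (((hasDerivAt_id' q).const_sub 1).clog (hsl q hq')).hasDerivWithinAt
    · intro q hq
      have hq' := mem_closedBall_zero_iff.1 hq
      rw [norm_div, norm_neg, norm_one]
      apply one_div_le_one_div_of_le (by linarith)
      have := norm_sub_norm_le 1 q
      rw [norm_one] at this
      linarith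
    · exact mem_closedBall_zero_iff.2 (hy z hz)
    · exact mem_closedBall_zero_iff.2 (hw z hz)
  have h1z : 0 < 1 - ‖z‖ := by linarith
  have hun : ‖u z‖ * (1 - ‖z‖) ≤ 2 * ‖w z - y z‖ := by
    have : u z = 2 * (Complex.log (1 - w z) - Complex.log (1 - y z)) := by rw [hu2]; ring
    rw [this, norm_mul, norm_two']
    rw [one_div, inv_mul_eq_div, le_div_iff₀ h1z] at hlog
    linarith
  have hdiff : ‖E z - Ex z‖ = ‖w z - y z‖ * ‖2 - w z - y z‖ := by
    rw [hEw z hz, hEy z hz, ← norm_mul, ← norm_neg]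
    congr 1
    ring
  have hsum : 2 * (1 - ‖z‖) ≤ ‖2 - w z - y z‖ := by
    have g1 := norm_sub_norm_le (2 : ℂ) (w z + y z)
    have g2 := norm_add_le (w z) (y z)
    rw [norm_two'] at g1
    have g3 : (2 : ℂ) - (w z + y z) = 2 - w z - y z := by ring
    rw [g3] at g1
    have := hw z hz
    have := hy z hz
    linarith
  have hfin : ‖u z‖ * (1 - ‖z‖) ^ 2 ≤ ‖E z - Ex z‖ := by
    rw [hdiff]
    calc ‖u z‖ * (1 - ‖z‖) ^ 2 = (‖u z‖ * (1 - ‖z‖)) * (1 - ‖z‖) := by ring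
      _ ≤ (2 * ‖w z - y z‖) * (1 - ‖z‖) := mul_le_mul_of_nonneg_right hun h1z.le
      _ = ‖w z - y z‖ * (2 * (1 - ‖z‖)) := by ring
      _ ≤ _ := mul_le_mul_of_nonneg_left hsum (norm_nonneg _)
  calc (1 - ‖c‖ ^ 2) * ‖z‖ ^ 2 * (1 - ‖z‖) ^ 4 * ‖x - ω 0‖
      = ((1 - ‖c‖ ^ 2) * ‖z‖ ^ 2 * (1 - ‖z‖) ^ 2 * ‖x - ω 0‖) * (1 - ‖z‖) ^ 2 := by ring
    _ ≤ (‖u z‖ * (1 + ‖z‖) ^ 6) * (1 - ‖z‖) ^ 2 := mul_le_mul_of_nonneg_right h1 (by positivity)
    _ = (‖u z‖ * (1 - ‖z‖) ^ 2) * (1 + ‖z‖) ^ 6 := by ring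
    _ ≤ _ := mul_le_mul_of_nonneg_right hfin (by positivity)

end

end Pool.Agent.helper358_ms
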