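import Pool.Agent.helper358_ms.Reg

/-! # The uniqueness property for `p ≤ 3/20` -/

set_option autoImplicit false

namespace Pool.Agent.helper358_ms

open Complex Metric Set Filter Topology

noncomputable section

theorem Cb_nonneg (k : ℕ) : 0 ≤ Cb k := by
  unfold Cb
  split_ifs <;> positivity

theorem sum_Cb (N : ℕ) : ∑ k ∈ Finset.range N, (3 / 20 : ℝ) ^ (k - 2) * Cb k ≤ 19 / 20 := by
  have hq : ‖(3 / 20 : ℝ)‖ < 1 := by rw [Real.norm_of_nonneg (by norm_num)]; norm_num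
  have h1 := hasSum_choose_mul_geometric_of_norm_lt_one 5 hq
  have h2 : ∀ M, ∑ j ∈ Finset.range M, ((j + 5).choose 5 : ℝ) * (3 / 20) ^ j ≤ 1 / (1 - 3 / 20) ^ (5 + 1) :=
    fun M => sum_le_hasSum _ (fun j _ => by positivity) h1
  have h3 : ∀ M, ∑ k ∈ Finset.range (M + 5), (3 / 20 : ℝ) ^ (k - 2) * Cb k
      = (10 / 3) * (3 / 20) + 6 * (3 / 20) ^ 2
        + ∑ j ∈ Finset.range M, ((j + 8).choose 5 : ℝ) * (3 / 20) ^ (j + 3) := by
    intro M
    induction M with
    | zero =>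
      simp [Finset.sum_range_succ, Cb]
      norm_num
    | succ M ih =>
      rw [show M + 1 + 5 = (M + 5) + 1 by ring, Finset.sum_range_succ, ih, Finset.sum_range_succ, add_assoc]
      congr 2
      unfold Cb
      rw [if_neg (by omega), if_neg (by omega), if_neg (by omega)]
      rw [show M + 5 + 3 = M + 8 by ring, show M + 5 - 2 = M + 3 by omega]
      ring
  have h4 : ∀ M, ∑ j ∈ Finset.range M, ((j + 8).choose 5 : ℝ) * (3 / 20) ^ (j + 3)
      = ∑ j ∈ Finset.range (M + 3), ((j + 5).choose 5 : ℝ) * (3 / 20) ^ j - (1 + 6 * (3 / 20) + 21 * (3 / 20) ^ 2) := by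
    intro M
    induction M with
    | zero =>
      have c2 : Nat.choose 7 5 = 21 := by decide
      simp [Finset.sum_range_succ, c2]
    | succ M ih =>
      have e := Finset.sum_range_succ (fun j => ((j + 5).choose 5 : ℝ) * (3 / 20) ^ j) (M + 3)
      rw [Finset.sum_range_succ, ih, show M + 1 + 3 = (M + 3) + 1 by ring, e,
        show M + 3 + 5 = M + 8 by ring]
      ring
  have h5 : ∑ k ∈ Finset.range N, (3 / 20 : ℝ) ^ (k - 2) * Cb k
      ≤ ∑ k ∈ Finset.range (N + 5), (3 / 20 : ℝ) ^ (k - 2) * Cb k := by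
    apply Finset.sum_le_sum_of_subset_of_nonneg
    · exact Finset.range_mono (by omega)
    · intro k _ _
      exact mul_nonneg (by positivity) (Cb_nonneg k)
  refine h5.trans ?_
  rw [h3, h4]
  have := h2 (N + 3)
  norm_num at this ⊢
  linarith

theorem U_le_pow {p : ℝ} (hp0 : 0 < p) (hp1 : p < 1) (m j : ℕ) : U p m ≤ p ^ j * U p (m + j) := by
  induction j with
  | zero => simp
  | succ j ih =>
    calc U p m ≤ p ^ j * U p (m + j) := ih
      _ ≤ p ^ j * (p * U p (m + j + 1)) := by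
        apply mul_le_mul_of_nonneg_left (U_le hp0 hp1 _) (by positivity)
      _ = _ := by rw [pow_succ]; ring_nf

theorem UP_small {p : ℝ} (hp0 : 0 < p) (hp : p ≤ 3 / 20) {n : ℕ} (hn : 2 ≤ n) {c : ℂ} (hc : ‖c‖ < 1) :
    UP p n c := by
  have hp1 : p < 1 := by linarith
  have hepos : 0 < 1 - ‖c‖ ^ 2 := by nlinarith [norm_nonneg c]
  refine ⟨(1 - ‖c‖ ^ 2) * U p (n - 2) * (1 / 20), by
    have := U_pos hp0 hp1 (n - 2); positivity, ?_⟩
  intro x ω E Ex hx hω hne hE hr hEx hrx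
  have h1 := lin_est hc hx hω hne hE hr hEx hrx (n + 1) (fun k => U p (n - k))
    (fun k => (U_pos hp0 hp1 _).le)
  rw [if_pos (by omega)] at h1
  have h2 : ∑ k ∈ Finset.range (n + 1), ((U p (n - k) : ℝ) : ℂ) * (tc E k - tc Ex k)
      = Lam p n (tc E) - Lam p n (tc Ex) := by
    unfold Lam
    rw [← Finset.sum_sub_distrib]
    refine Finset.sum_congr rfl fun k _ => ?_
    ring
  rw [h2] at h1
  have h3 : ∑ k ∈ Finset.range (n + 1), U p (n - k) * Cb k ≤ U p (n - 2) * (19 / 20) := by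
    calc ∑ k ∈ Finset.range (n + 1), U p (n - k) * Cb k
        ≤ ∑ k ∈ Finset.range (n + 1), U p (n - 2) * ((3 / 20 : ℝ) ^ (k - 2) * Cb k) := by
          refine Finset.sum_le_sum fun k hk => ?_
          have hk' : k ≤ n := by have := Finset.mem_range.1 hk; omega
          rcases Nat.lt_or_ge k 2 with h | h
          · have : Cb k = 0 := by unfold Cb; rw [if_pos (by omega)]
            rw [this]; simp
          · have h4 := U_le_pow hp0 hp1 (n - k) (k - 2)
            rw [show n - k + (k - 2) = n - 2 by omega] at h4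
            have h5 : p ^ (k - 2) ≤ (3 / 20 : ℝ) ^ (k - 2) := pow_le_pow_left₀ hp0.le hp _
            have h6 := U_pos hp0 hp1 (n - 2)
            have h7 := Cb_nonneg k
            calc U p (n - k) * Cb k ≤ (p ^ (k - 2) * U p (n - 2)) * Cb k := mul_le_mul_of_nonneg_right h4 h7
              _ ≤ ((3 / 20 : ℝ) ^ (k - 2) * U p (n - 2)) * Cb k :=
                mul_le_mul_of_nonneg_right (mul_le_mul_of_nonneg_right h5 h6.le) h7
              _ = _ := by ring
      _ = U p (n - 2) * ∑ k ∈ Finset.range (n + 1), (3 / 20 : ℝ) ^ (k - 2) * Cb k := by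
          rw [Finset.mul_sum]
      _ ≤ _ := mul_le_mul_of_nonneg_left (sum_Cb _) (U_pos hp0 hp1 _).le
  have h4 : ‖((U p (n - 2) : ℝ) : ℂ) * ((1 - (‖c‖ ^ 2 : ℝ)) * (x - ω 0))‖
      = U p (n - 2) * (1 - ‖c‖ ^ 2) * ‖x - ω 0‖ := by
    have e : (1 - ((‖c‖ ^ 2 : ℝ) : ℂ)) = ((1 - ‖c‖ ^ 2 : ℝ) : ℂ) := by push_cast; ring
    rw [norm_mul, norm_mul, e, Complex.norm_of_nonneg hepos.le,
      Complex.norm_of_nonneg (U_pos hp0 hp1 _).le]
    ring
  have h5 := norm_sub_norm_le (((U p (n - 2) : ℝ) : ℂ) * ((1 - (‖c‖ ^ 2 : ℝ)) * (x - ω 0)))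
    (Lam p n (tc E) - Lam p n (tc Ex))
  rw [norm_sub_rev (((U p (n - 2) : ℝ) : ℂ) * ((1 - (‖c‖ ^ 2 : ℝ)) * (x - ω 0))), h4] at h5
  have h6 : (1 - ‖c‖ ^ 2) * ‖x - ω 0‖ * ∑ k ∈ Finset.range (n + 1), U p (n - k) * Cb k
      ≤ (1 - ‖c‖ ^ 2) * ‖x - ω 0‖ * (U p (n - 2) * (19 / 20)) :=
    mul_le_mul_of_nonneg_left h3 (by positivity)
  linarith

end

end Pool.Agent.helper358_ms
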