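import Pool.Agent.helper358_ms.Est
import Pool.Agent.helper358_ms.Homot

/-! # The structure of the regions, given the uniqueness property -/

set_option autoImplicit false

namespace Pool.Agent.helper358_ms

open Complex Metric Set Filter Topology PowerSeries

noncomputable section

/-- Taylor coefficients of the two-point functions, by a three-term recursion -/
def ek (c x : ℂ) : ℕ → ℂ
  | 0 => 1
  | 1 => -2 * c
  | (k + 2) => ((((k : ℂ) - 1) * c - ((k : ℂ) + 1) * (starRingEnd ℂ) c * x) * ek c x (k + 1)
      + ((k : ℂ) - 2) * x * ek c x k) / ((k : ℂ) + 2)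

theorem ek_cont (k : ℕ) : Continuous fun q : ℂ × ℂ => ek q.1 q.2 k := by
  induction k using Nat.strong_induction_on with
  | _ k ih =>
    rcases k with _ | _ | k
    · simp only [ek]; exact continuous_const
    · simp only [ek]; fun_prop
    · simp only [ek]
      have h1 := ih (k + 1) (by omega)
      have h2 := ih k (by omega)
      have hconj : Continuous fun q : ℂ × ℂ => (starRingEnd ℂ) q.1 :=
        Complex.continuous_conj.comp continuous_fst
      exact ((((continuous_const.mul continuous_fst).sub
        ((continuous_const.mul hconj).mul continuous_snd)).mul h1).add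
        ((continuous_const.mul continuous_snd).mul h2)).div_const _

theorem ek_diff (c : ℂ) (k : ℕ) : Differentiable ℂ fun x => ek c x k := by
  induction k using Nat.strong_induction_on with
  | _ k ih =>
    rcases k with _ | _ | k
    · simp only [ek]; exact differentiable_const _
    · simp only [ek]; exact differentiable_const _
    · simp only [ek]
      have h1 := ih (k + 1) (by omega)
      have h2 := ih k (by omega)
      exact ((((differentiable_const _).sub
        ((differentiable_const _).mul differentiable_id)).mul h1).add
        (((differentiable_const _).mul differentiable_id).mul h2)).div_const _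

/-- the recursion extracted from the formal differential equation -/
theorem rec_coef {c : ℂ} {A e : ℕ → ℂ}
    (h : PowerSeries.derivative ℂ (PowerSeries.mk e) *
      (1 - C c * X + X * PowerSeries.mk A * (C ((starRingEnd ℂ) c) - X))
      = -2 * (C c + X * PowerSeries.mk A) * PowerSeries.mk e) (k : ℕ) :
    ((k : ℂ) + 1) * e (k + 1) = c * ((k : ℂ) * e k)
      - (if 1 ≤ k then ∑ q ∈ Finset.HasAntidiagonal.antidiagonal (k - 1), A q.1 *
          ((starRingEnd ℂ) c * (((q.2 : ℂ) + 1) * e (q.2 + 1)) - (q.2 : ℂ) * e q.2) else 0)
      - 2 * c * e k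
      - 2 * (if 1 ≤ k then ∑ q ∈ Finset.HasAntidiagonal.antidiagonal (k - 1), A q.1 * e q.2 else 0) := by
  have h1 : PowerSeries.derivative ℂ (PowerSeries.mk e)
      = C c * (X * PowerSeries.derivative ℂ (PowerSeries.mk e))
        - X * (PowerSeries.mk A * (C ((starRingEnd ℂ) c) * PowerSeries.derivative ℂ (PowerSeries.mk e)
          - X * PowerSeries.derivative ℂ (PowerSeries.mk e)))
        - C (2 * c) * PowerSeries.mk e - C 2 * (X * (PowerSeries.mk A * PowerSeries.mk e)) := by
    have two : (2 : PowerSeries ℂ) = C (2 : ℂ) := (map_ofNat C 2).symm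
    rw [map_mul, ← two]
    linear_combination h
  have hXe : ∀ n, PowerSeries.coeff n (X * PowerSeries.derivative ℂ (PowerSeries.mk e)) = (n : ℂ) * e n := by
    intro n
    rcases n with _ | n
    · simp
    · rw [PowerSeries.coeff_succ_X_mul, PowerSeries.coeff_derivative, PowerSeries.coeff_mk]
      push_cast; ring
  have h2 := congrArg (PowerSeries.coeff k) h1
  rw [map_sub, map_sub, map_sub, PowerSeries.coeff_derivative, PowerSeries.coeff_mk,
    PowerSeries.coeff_C_mul, hXe, PowerSeries.coeff_C_mul, PowerSeries.coeff_C_mul,
    PowerSeries.coeff_mk] at h2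
  rcases k with _ | k
  · simp only [PowerSeries.coeff_zero_X_mul] at h2
    simp only [Nat.cast_zero] at h2 ⊢
    norm_num at h2 ⊢
    exact h2
  · rw [PowerSeries.coeff_succ_X_mul, PowerSeries.coeff_succ_X_mul, PowerSeries.coeff_mul,
      PowerSeries.coeff_mul] at h2
    simp only [map_sub, PowerSeries.coeff_C_mul, hXe, PowerSeries.coeff_derivative,
      PowerSeries.coeff_mk] at h2
    rw [if_pos (by omega), if_pos (by omega), Nat.add_sub_cancel]
    have e1 : ∀ q ∈ Finset.HasAntidiagonal.antidiagonal k,
        A q.1 * ((starRingEnd ℂ) c * (((q.2 : ℂ) + 1) * e (q.2 + 1)) - (q.2 : ℂ) * e q.2)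
        = A q.1 * ((starRingEnd ℂ) c * (e (q.2 + 1) * ((q.2 : ℂ) + 1)) - (q.2 : ℂ) * e q.2) := by
      intro q _; ring
    rw [Finset.sum_congr rfl e1]
    linear_combination h2

/-- coefficients depend continuously on the parameters -/
theorem cont_seq {Y : Type*} [TopologicalSpace Y] {c : ℂ} (A e : Y → ℕ → ℂ)
    (hA : ∀ i, Continuous fun t => A t i) (he0 : ∀ t, e t 0 = 1)
    (h : ∀ t, PowerSeries.derivative ℂ (PowerSeries.mk (e t)) *
      (1 - C c * X + X * PowerSeries.mk (A t) * (C ((starRingEnd ℂ) c) - X))
      = -2 * (C c + X * PowerSeries.mk (A t)) * PowerSeries.mk (e t)) (k : ℕ) :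
    Continuous fun t => e t k := by
  induction k using Nat.strong_induction_on with
  | _ k ih =>
    rcases k with _ | k
    · simp only [he0]; exact continuous_const
    · have hk : ((k : ℂ) + 1) ≠ 0 := by exact_mod_cast k.succ_ne_zero
      have e1 : (fun t => e t (k + 1)) = fun t => (c * ((k : ℂ) * e t k)
          - (if 1 ≤ k then ∑ q ∈ Finset.HasAntidiagonal.antidiagonal (k - 1), A t q.1 *
          ((starRingEnd ℂ) c * (((q.2 : ℂ) + 1) * e t (q.2 + 1)) - (q.2 : ℂ) * e t q.2) else 0)
          - 2 * c * e t k
          - 2 * (if 1 ≤ k then ∑ q ∈ Finset.HasAntidiagonal.antidiagonal (k - 1), A t q.1 * e t q.2 else 0))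
          / ((k : ℂ) + 1) := by
        funext t
        rw [eq_div_iff hk, mul_comm]
        exact rec_coef (h t) k
      rw [e1]
      have hk0 := ih k (by omega)
      apply Continuous.div_const
      apply Continuous.sub
      · apply Continuous.sub
        · apply Continuous.sub
          · exact continuous_const.mul (continuous_const.mul hk0)
          · split_ifs with h1
            · apply continuous_finset_sum
              intro q hq
              have hq' := Finset.HasAntidiagonal.mem_antidiagonal.1 hq
              have c1 := ih (q.2 + 1) (by omega)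
              have c2 := ih q.2 (by omega)
              exact (hA q.1).mul ((continuous_const.mul (continuous_const.mul c1)).sub
                (continuous_const.mul c2))
            · exact continuous_const
        · exact continuous_const.mul hk0
      · apply continuous_const.mul
        split_ifs with h1
        · apply continuous_finset_sum
          intro q hq
          have hq' := Finset.HasAntidiagonal.mem_antidiagonal.1 hq
          exact (hA q.1).mul (ih q.2 (by omega))
        · exact continuous_const

/-- the two-point coefficients -/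
theorem tc_eq_ek {c x : ℂ} {E : ℂ → ℂ} (hE : DifferentiableOn ℂ E (ball 0 1)) (h0 : E 0 = 1)
    (hr : RelW c (fun _ => x) E) (k : ℕ) : tc E k = ek c x k := by
  have h1 := formal_ode (ω := fun _ => x) (differentiableOn_const x) hE hr
  rw [T_const] at h1
  have h2 : PowerSeries.derivative ℂ (T E) = C (c - (starRingEnd ℂ) c * x) * (X * PowerSeries.derivative ℂ (T E))
      + C x * (X * (X * PowerSeries.derivative ℂ (T E))) - C (2 * c) * T E - C (2 * x) * (X * T E) := by
    have two : (2 : PowerSeries ℂ) = C (2 : ℂ) := (map_ofNat C 2).symm
    rw [map_sub, map_mul, map_mul, map_mul, ← two]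
    linear_combination h1
  have hXe : ∀ n, PowerSeries.coeff n (X * PowerSeries.derivative ℂ (T E)) = (n : ℂ) * tc E n := by
    intro n
    rcases n with _ | n
    · simp
    · rw [PowerSeries.coeff_succ_X_mul, PowerSeries.coeff_derivative, coeff_T]
      push_cast; ring
  induction k using Nat.strong_induction_on with
  | _ k ih =>
    rcases k with _ | _ | k
    · rw [tc_zero, h0]; simp [ek]
    · have h3 := congrArg (PowerSeries.coeff 0) h2
      rw [map_sub, map_sub, map_add, PowerSeries.coeff_derivative, PowerSeries.coeff_C_mul, hXe,
        PowerSeries.coeff_C_mul, PowerSeries.coeff_C_mul, PowerSeries.coeff_C_mul,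
        PowerSeries.coeff_zero_X_mul, PowerSeries.coeff_zero_X_mul, coeff_T, coeff_T, ih 0 (by omega)] at h3
      simp only [ek] at h3 ⊢
      norm_num at h3 ⊢
      exact h3
    · have h3 := congrArg (PowerSeries.coeff (k + 1)) h2
      rw [map_sub, map_sub, map_add, PowerSeries.coeff_derivative, PowerSeries.coeff_C_mul, hXe,
        PowerSeries.coeff_C_mul, PowerSeries.coeff_C_mul, PowerSeries.coeff_C_mul,
        PowerSeries.coeff_succ_X_mul, PowerSeries.coeff_succ_X_mul, hXe, coeff_T, coeff_T, coeff_T,
        ih (k + 1) (by omega), ih k (by omega)] at h3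
      have hk : ((k : ℂ) + 2) ≠ 0 := by
        have : ((k + 2 : ℕ) : ℂ) ≠ 0 := by exact_mod_cast (by omega : k + 2 ≠ 0)
        push_cast at this; exact this
      simp only [ek]
      rw [eq_div_iff hk]
      push_cast at h3
      linear_combination h3

end

end Pool.Agent.helper358_ms
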