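import Mathlib

/-! # Taylor series at the origin as formal power series -/

set_option autoImplicit false

namespace Pool.Agent.helper358_ms

open Complex Metric Set Filter Topology

noncomputable section

/-- Taylor coefficient at `0`. -/
def tc (f : ℂ → ℂ) (n : ℕ) : ℂ := iteratedDeriv n f 0 / n.factorial

/-- Taylor series at `0`. -/
def T (f : ℂ → ℂ) : PowerSeries ℂ := PowerSeries.mk (tc f)

@[simp] theorem coeff_T (f : ℂ → ℂ) (n : ℕ) : PowerSeries.coeff n (T f) = tc f n := by
  simp [T]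

theorem tc_congr {f g : ℂ → ℂ} (h : f =ᶠ[𝓝 0] g) (n : ℕ) : tc f n = tc g n := by
  unfold tc
  rw [h.iteratedDeriv_eq n]

theorem T_congr {f g : ℂ → ℂ} (h : f =ᶠ[𝓝 0] g) : T f = T g := by
  ext n
  simp [tc_congr h n]

theorem tc_zero (f : ℂ → ℂ) : tc f 0 = f 0 := by simp [tc]

theorem tc_one (f : ℂ → ℂ) : tc f 1 = deriv f 0 := by simp [tc]

theorem T_const (a : ℂ) : T (fun _ => a) = PowerSeries.C a := by
  ext n
  rw [coeff_T, PowerSeries.coeff_C]
  unfold tc
  rcases Nat.eq_zero_or_pos n with h | h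
  · subst h; simp
  · rw [iteratedDeriv_const]
    simp [h.ne']

theorem T_id : T (fun z => z) = PowerSeries.X := by
  ext n
  rw [coeff_T, PowerSeries.coeff_X]
  unfold tc
  rw [iteratedDeriv_fun_id_zero]
  split_ifs with h
  · subst h; simp
  · simp

theorem T_add {f g : ℂ → ℂ} (hf : AnalyticAt ℂ f 0) (hg : AnalyticAt ℂ g 0) :
    T (fun z => f z + g z) = T f + T g := by
  ext n
  simp only [map_add, coeff_T]
  unfold tc
  rw [iteratedDeriv_fun_add hf.contDiffAt hg.contDiffAt]
  ring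

theorem T_neg (f : ℂ → ℂ) : T (fun z => - f z) = - T f := by
  ext n
  simp only [map_neg, coeff_T]
  unfold tc
  rw [iteratedDeriv_fun_neg]
  ring

theorem T_sub {f g : ℂ → ℂ} (hf : AnalyticAt ℂ f 0) (hg : AnalyticAt ℂ g 0) :
    T (fun z => f z - g z) = T f - T g := by
  ext n
  simp only [map_sub, coeff_T]
  unfold tc
  rw [iteratedDeriv_fun_sub hf.contDiffAt hg.contDiffAt]
  ring

theorem T_mul {f g : ℂ → ℂ} (hf : AnalyticAt ℂ f 0) (hg : AnalyticAt ℂ g 0) :
    T (fun z => f z * g z) = T f * T g := by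
  ext n
  rw [PowerSeries.coeff_mul, coeff_T]
  simp only [coeff_T]
  unfold tc
  rw [iteratedDeriv_fun_mul hf.contDiffAt hg.contDiffAt, Finset.Nat.sum_antidiagonal_eq_sum_range_succ_mk,
    Finset.sum_div]
  refine Finset.sum_congr rfl fun i hi => ?_
  have hi' : i ≤ n := by
    rw [Finset.mem_range] at hi; omega
  have h1 := Nat.choose_mul_factorial_mul_factorial hi'
  have h2 : ((n.choose i : ℂ)) * (i.factorial) * ((n - i).factorial) = n.factorial := by
    exact_mod_cast congrArg (Nat.cast (R := ℂ)) h1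
  have e1 : (i.factorial : ℂ) ≠ 0 := by exact_mod_cast i.factorial_ne_zero
  have e2 : ((n - i).factorial : ℂ) ≠ 0 := by exact_mod_cast (n - i).factorial_ne_zero
  have e3 : (n.factorial : ℂ) ≠ 0 := by exact_mod_cast n.factorial_ne_zero
  rw [← h2]
  have e4 : (n.choose i : ℂ) ≠ 0 := by
    exact_mod_cast (Nat.choose_pos hi').ne'
  field_simp

theorem T_pow {f : ℂ → ℂ} (hf : AnalyticAt ℂ f 0) (k : ℕ) :
    T (fun z => f z ^ k) = T f ^ k := by
  induction k with
  | zero =>
    simp only [pow_zero]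
    rw [T_const]; simp
  | succ k ih =>
    have : T (fun z => f z ^ (k + 1)) = T (fun z => f z ^ k * f z) := by
      simp only [pow_succ]
    rw [this, T_mul (f := fun z => f z ^ k) (hf.pow k) hf, ih, pow_succ]

theorem T_deriv (f : ℂ → ℂ) : T (deriv f) = PowerSeries.derivative ℂ (T f) := by
  ext n
  rw [coeff_T, PowerSeries.coeff_derivative, coeff_T]
  unfold tc
  rw [iteratedDeriv_succ', Nat.factorial_succ]
  have e3 : (n.factorial : ℂ) ≠ 0 := by exact_mod_cast n.factorial_ne_zero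
  have e4 : ((n : ℂ) + 1) ≠ 0 := by exact_mod_cast n.succ_ne_zero
  push_cast
  field_simp

/-- the Taylor series converges to the function in the unit disc. -/
theorem hasSum_tc {f : ℂ → ℂ} {r : ℝ} (hf : DifferentiableOn ℂ f (ball 0 r)) {z : ℂ}
    (hz : z ∈ ball (0 : ℂ) r) : HasSum (fun n => tc f n * z ^ n) (f z) := by
  have h := Complex.hasSum_taylorSeries_on_ball (c := 0) (r := r) hf hz
  have e : (fun n : ℕ => ((n.factorial : ℂ))⁻¹ • (z - 0) ^ n • iteratedDeriv n f 0)
      = fun n => tc f n * z ^ n := by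
    funext n
    unfold tc
    simp only [sub_zero, smul_eq_mul]
    ring
  rwa [e] at h

theorem analyticAt_zero {f : ℂ → ℂ} {r : ℝ} (hr : 0 < r) (hf : DifferentiableOn ℂ f (ball 0 r)) :
    AnalyticAt ℂ f 0 :=
  hf.analyticAt (ball_mem_nhds 0 hr)

end

end Pool.Agent.helper358_ms
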