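import Pool.Agent.helper358_ms.Rec

/-! # The third coefficient: parametrisation -/

set_option autoImplicit false

namespace Pool.Agent.helper358_ms

open Complex Metric Set Filter Topology

noncomputable section

theorem Sch.const {c : ℂ} (hc : ‖c‖ ≤ 1) : Sch fun _ => c :=
  ⟨differentiableOn_const c, fun _ _ => hc⟩

/-- a Schur function with unimodular value at the origin is constant -/
theorem Sch.eq_const {φ : ℂ → ℂ} (h : Sch φ) (h0 : ‖φ 0‖ = 1) :
    ∀ z ∈ ball (0 : ℂ) 1, φ z = φ 0 := by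
  intro z hz
  have hmax : IsMaxOn (norm ∘ φ) (ball 0 1) 0 := by
    intro w hw
    rw [mem_ofPred_eq, Function.comp, Function.comp, h0]
    exact h.le w hw
  have h2 := Complex.eqOn_of_isPreconnected_of_isMaxOn_norm (convex_ball (0 : ℂ) 1).isPreconnected
    isOpen_ball h.holo mem0 hmax hz
  simpa using h2

theorem Sch.coeffs {ω : ℂ → ℂ} (h : Sch ω) :
    ∃ y : ℂ, ‖y‖ ≤ 1 ∧ ‖tc ω 0‖ ≤ 1 ∧ tc ω 1 = (1 - (‖tc ω 0‖ ^ 2 : ℝ)) * y := by
  have h0 : ‖ω 0‖ ≤ 1 := h.le 0 mem0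
  rw [tc_zero, tc_one]
  rcases h0.lt_or_eq with h1 | h1
  · obtain ⟨ψ, hψ, hr⟩ := h.exists_omega rfl h1
    refine ⟨ψ 0, hψ.le 0 mem0, h0, ?_⟩
    have dω : HasDerivAt ω (deriv ω 0) 0 :=
      (h.holo.differentiableAt (isOpen_ball.mem_nhds mem0)).hasDerivAt
    have dψ : HasDerivAt ψ (deriv ψ 0) 0 :=
      (hψ.holo.differentiableAt (isOpen_ball.mem_nhds mem0)).hasDerivAt
    have dz : HasDerivAt (fun z : ℂ => z * ψ z) (ψ 0) 0 := by
      have := (hasDerivAt_id' (0 : ℂ)).fun_mul dψ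
      simpa using this
    have dL : HasDerivAt (fun z : ℂ => ω z * (1 + (starRingEnd ℂ) (ω 0) * (z * ψ z)))
        (deriv ω 0 + ω 0 * ((starRingEnd ℂ) (ω 0) * ψ 0)) 0 := by
      have := dω.fun_mul ((dz.const_mul ((starRingEnd ℂ) (ω 0))).const_add 1)
      simpa using this
    have dR : HasDerivAt (fun z : ℂ => ω 0 + z * ψ z) (ψ 0) 0 := dz.const_add _
    have hev : (fun z : ℂ => ω z * (1 + (starRingEnd ℂ) (ω 0) * (z * ψ z))) =ᶠ[𝓝 0]
        fun z : ℂ => ω 0 + z * ψ z := by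
      filter_upwards [isOpen_ball.mem_nhds mem0] with z hz
      exact hr z hz
    have e := (dL.congr_of_eventuallyEq hev.symm).unique dR
    have hcc := conj_mul_self (ω 0)
    push_cast at hcc ⊢
    linear_combination e - ψ 0 * hcc
  · refine ⟨0, by simp, h0, ?_⟩
    have hc := h.eq_const h1
    have hev : ω =ᶠ[𝓝 0] fun _ => ω 0 := by
      filter_upwards [isOpen_ball.mem_nhds mem0] with z hz
      exact hc z hz
    rw [hev.deriv_eq]
    simp

theorem exists_sch_coeffs {x y : ℂ} (hx : ‖x‖ ≤ 1) (hy : ‖y‖ ≤ 1) :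
    ∃ ω, Sch ω ∧ tc ω 0 = x ∧ tc ω 1 = (1 - (‖x‖ ^ 2 : ℝ)) * y := by
  rcases hx.lt_or_eq with h1 | h1
  · have hs := (Sch.const hy).of_omega h1
    refine ⟨_, hs, by rw [tc_zero]; simp, ?_⟩
    rw [tc_one]
    have d1 : HasDerivAt (fun z : ℂ => x + z * y) y 0 := by
      have := ((hasDerivAt_id (0 : ℂ)).mul_const y).const_add x
      simpa using this
    have d2 : HasDerivAt (fun z : ℂ => 1 + (starRingEnd ℂ) x * (z * y)) ((starRingEnd ℂ) x * y) 0 := by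
      have := (((hasDerivAt_id (0 : ℂ)).mul_const y).const_mul ((starRingEnd ℂ) x)).const_add 1
      simpa using this
    have d3 := d1.div d2 (by simp)
    have : (fun z : ℂ => (x + z * y) / (1 + (starRingEnd ℂ) x * (z * y)))
        = (fun z : ℂ => x + z * y) / (fun z : ℂ => 1 + (starRingEnd ℂ) x * (z * y)) := rfl
    rw [this, d3.deriv]
    have hcc := conj_mul_self x
    push_cast at hcc ⊢
    simp
    linear_combination -(y * hcc)
  · refine ⟨fun _ => x, Sch.const hx, by rw [tc_zero], ?_⟩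
    rw [tc_one, h1]
    simp

/-- the class is empty unless `‖c‖ ≤ 1` -/
theorem ClassE.norm_le {c : ℂ} {E : ℂ → ℂ} (hE : ClassE c E) : ‖c‖ ≤ 1 := by
  obtain ⟨φ, hφ, hφ0, -⟩ := hE.exists_schur
  rw [← hφ0]
  exact hφ.le 0 mem0

theorem Lam3 {p : ℝ} (hp0 : 0 < p) (hp1 : p < 1) (e : ℕ → ℂ) :
    Lam p 3 e = U p 3 * e 0 + U p 2 * e 1 + U p 1 * e 2 + e 3 := by
  unfold Lam
  rw [Finset.sum_range_succ, Finset.sum_range_succ, Finset.sum_range_succ, Finset.sum_range_succ,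
    Finset.sum_range_zero]
  have : U p (3 - 3) = 1 := by rw [Nat.sub_self, U_zero hp0 hp1]
  rw [this]
  push_cast
  simp

/-- the pairing of `w₀` and `c` -/
theorem w_mul {p : ℝ} (hp0 : 0 < p) (hp1 : p < 1) {w₀ : ℂ} (hw : w₀ ≠ 0) :
    w₀ * (U p 1 - 2 * cc p w₀) = -1 := by
  rw [U_one hp0 hp1]
  unfold cc
  push_cast
  field_simp
  ring

/-- the map appearing in the third coefficient -/
def kap (B c x y : ℂ) : ℂ := B * x - (starRingEnd ℂ) c * x ^ 2 + (1 - (‖x‖ ^ 2 : ℝ)) * y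

theorem V3_param {p : ℝ} (hp0 : 0 < p) (hp1 : p < 1) {w₀ : ℂ} (hw : w₀ ≠ 0)
    (hc : ‖cc p w₀‖ ≤ 1) :
    V 3 p w₀ = {a | ∃ x y : ℂ, ‖x‖ ≤ 1 ∧ ‖y‖ ≤ 1 ∧
      a = U p 2 + w₀ * (U p 1 * (1 - cc p w₀ ^ 2) + 2 / 3 * ((1 - (‖cc p w₀‖ ^ 2 : ℝ)) *
        kap (3 / 2 * U p 1 - cc p w₀) (cc p w₀) x y))} := by
  rw [V_eq hp0 hp1 hw (by norm_num)]
  have hwm := w_mul hp0 hp1 hw
  have hU2 : (U p 2 : ℂ) = U p 1 * U p 1 - 1 := by
    have := U_succ_succ hp0 0
    rw [U_zero hp0 hp1] at this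
    have h1 := U_one hp0 hp1
    rw [← h1] at this
    rw [zero_add, zero_add] at this
    rw [this]; push_cast; ring
  have hU3 : (U p 3 : ℂ) = U p 1 * U p 2 - U p 1 := by
    have := U_succ_succ hp0 1
    have h1 := U_one hp0 hp1
    rw [← h1] at this
    norm_num at this
    rw [this]; push_cast; ring
  obtain ⟨c, hcdef⟩ : ∃ c, c = cc p w₀ := ⟨_, rfl⟩
  rw [← hcdef] at hwm hc ⊢
  have hmain : ∀ E : ℂ → ℂ, ∀ x w1 : ℂ, tc E 0 = 1 → tc E 1 = -2 * c →
      tc E 2 = c ^ 2 - (1 - (‖c‖ ^ 2 : ℝ)) * x →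
      tc E 3 = 2 / 3 * (1 - (‖c‖ ^ 2 : ℝ)) * (c * x + (starRingEnd ℂ) c * x ^ 2 - w1) →
      -w₀ * Lam p 3 (tc E) = U p 2 + w₀ * (U p 1 * (1 - c ^ 2) + 2 / 3 * ((1 - (‖c‖ ^ 2 : ℝ)) *
        ((3 / 2 * U p 1 - c) * x - (starRingEnd ℂ) c * x ^ 2 + w1))) := by
    intro E x w1 h0 h1 h2 h3
    rw [Lam3 hp0 hp1, h0, h1, h2, h3, hU3]
    linear_combination (-(U p 2 : ℂ)) * hwm
  ext a
  simp only [mem_ofPred_eq]
  constructor
  · rintro ⟨E, hE, rfl⟩
    rcases hc.lt_or_eq with h1 | h1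
    · obtain ⟨ω, hω, hr⟩ := hE.exists_omega h1
      obtain ⟨y, hy, hx, hxy⟩ := hω.coeffs
      obtain ⟨e0, e1, e2, e3⟩ := first_coeffs hω.holo hE.holo hE.zero hr
      refine ⟨tc ω 0, y, hx, hy, ?_⟩
      rw [hmain E (tc ω 0) (tc ω 1) e0 e1 e2 e3, hxy]
      rfl
    · obtain ⟨φ, hφ, hφ0, hr⟩ := hE.exists_schur
      have hcst := hφ.eq_const (by rw [hφ0, h1])
      have hr' : RelW c (fun _ => 0) E := by
        intro z hz
        have := hr z hz
        rw [hcst z hz, hφ0] at this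
        unfold Nw
        simp only [mul_zero, zero_mul, add_zero]
        linear_combination this
      obtain ⟨e0, e1, e2, e3⟩ := first_coeffs (differentiableOn_const 0) hE.holo hE.zero hr'
      refine ⟨0, 0, by simp, by simp, ?_⟩
      rw [hmain E _ _ e0 e1 e2 e3, h1]
      simp
  · rintro ⟨x, y, hx, hy, rfl⟩
    rcases hc.lt_or_eq with h1 | h1
    · obtain ⟨ω, hω, hx0, hxy⟩ := exists_sch_coeffs hx hy
      obtain ⟨E, hE, hr⟩ := hω.exists_E_omega h1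
      obtain ⟨e0, e1, e2, e3⟩ := first_coeffs hω.holo hE.holo hE.zero hr
      refine ⟨E, hE, ?_⟩
      rw [hmain E (tc ω 0) (tc ω 1) e0 e1 e2 e3, hxy, hx0]
      rfl
    · obtain ⟨E, hE, hr⟩ := (Sch.const hc).exists_E
      have hr' : RelW c (fun _ => 0) E := by
        intro z hz
        have := hr z hz
        unfold Nw
        simp only [mul_zero, zero_mul, add_zero]
        linear_combination this
      obtain ⟨e0, e1, e2, e3⟩ := first_coeffs (differentiableOn_const 0) hE.holo hE.zero hr'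
      refine ⟨E, hE, ?_⟩
      rw [hmain E _ _ e0 e1 e2 e3, h1]
      simp

end

end Pool.Agent.helper358_ms
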